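import Pool.Agent.Struct.T11
import Pool.Agent.CutLim.Dim7

/-! STRUCT, C1: the bridges of a given height. -/

set_option autoImplicit false

namespace Struct

open Filter Topology Finset HexObs

open scoped ENNReal

/-- the bridges of height n -/
abbrev BD (n : ℕ) := {t : List Bool // t ∈ Brd n}

/-- weight -/
noncomputable def wr (t : List Bool) : ℝ := (wE t).toReal

lemma wr_nonneg (t : List Bool) : 0 ≤ wr t := ENNReal.toReal_nonneg

lemma wr_append (s t : List Bool) : wr (s ++ t) = wr s * wr t := by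
  unfold wr
  rw [wE_append, ENNReal.toReal_mul]

lemma bd_sum (n : ℕ) : ∑' t : BD n, wE t.1 = BT n := by
  rw [← gf_Brd]
  rfl

lemma BT_ne_top' (n : ℕ) : BT n ≠ ∞ := by
  rw [BT_real]
  exact ENNReal.ofReal_ne_top

lemma bd_hasSum (n : ℕ) : HasSum (fun t : BD n => wr t.1) (uu n) := hasSum_toReal' (bd_sum n) (BT_ne_top' n)

/-- height of a bridge -/
def hgt (t : List Bool) : ℕ := (lev t t.length).toNat / 3

lemma hgt_eq {n : ℕ} {t : List Bool} (h : t ∈ Brd n) : hgt t = n := by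
  unfold hgt
  rw [(mem_Brd.1 h).2.2.2]
  omega

lemma hgt_wd {T : ℕ} (a : WD T) : a.1 ∈ FC T (hgt a.1) := by
  obtain ⟨j, hj⟩ := a.2
  rw [hgt_eq hj.1]
  exact hj

/-- mean size of the bridges -/
theorem bsize : ∃ C : ℝ, 0 < C ∧ ∀ n N : ℕ, 1 ≤ N → Summable (fun t : BD n => wr t.1 * dist (curve N t.1) 0) ∧
    ∑' t : BD n, wr t.1 * dist (curve N t.1) 0 ≤ C * (n / N) * uu n := by
  classical
  obtain ⟨C, c, hc, h⟩ := latTail
  set C' : ℝ := max C 0 with hC'
  have hC0 : 0 ≤ C' := le_max_right _ _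
  have he : Real.exp (-(2 * c)) < 1 := by
    rw [Real.exp_lt_one_iff]
    linarith
  have he0 : 0 < 1 - Real.exp (-(2 * c)) := by linarith
  set D : ℝ := C' * (1 - Real.exp (-(2 * c)))⁻¹ with hD
  have hD0 : 0 ≤ D := by positivity
  refine ⟨2 + 2 * D, by positivity, fun n N hN => ?_⟩
  have hN0 : (0 : ℝ) < N := by exact_mod_cast hN
  rcases Nat.eq_zero_or_pos n with rfl | hn
  · have e : ∀ t : BD 0, wr t.1 * dist (curve N t.1) 0 = 0 := by
      rintro ⟨t, ht⟩
      rw [Brd_zero] at ht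
      have ht' : t = [] := ht
      subst ht'
      show wr [] * dist (curve N []) 0 = 0
      rw [curve_nil, dist_self, mul_zero]
    refine ⟨summable_zero.congr fun t => (e t).symm, ?_⟩
    rw [tsum_congr e, tsum_zero, Nat.cast_zero, zero_div, mul_zero, zero_mul]
  have hb : ∀ t : BD n, wr t.1 * dist (curve N t.1) 0 ≤ (wE t.1 * ((2 * n + latmax t.1 : ℕ) : ℝ≥0∞)).toReal / N := by
    intro t
    rw [ENNReal.toReal_mul, ENNReal.toReal_natCast, mul_div_assoc]
    exact mul_le_mul_of_nonneg_left (dist_curve_le t.2 hN) ENNReal.toReal_nonneg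
  have key : ∑' t : BD n, wE t.1 * ((2 * n + latmax t.1 : ℕ) : ℝ≥0∞) ≤ ENNReal.ofReal ((2 + 2 * D) * n * uu n) := by
    have h1 : ∑' t : BD n, wE t.1 * ((2 * n + latmax t.1 : ℕ) : ℝ≥0∞) ≤
        ∑' t : BD n, ((2 * n : ℕ) : ℝ≥0∞) * wE t.1 +
        ∑' t : BD n, ∑' M : ℕ, ((2 * n : ℕ) : ℝ≥0∞) * (if 2 * M * n < latmax t.1 then wE t.1 else 0) := by
      rw [← ENNReal.tsum_add]
      refine ENNReal.tsum_le_tsum fun t => ?_
      rw [Nat.cast_add, mul_add, mul_comm (wE t.1) ((2 * n : ℕ) : ℝ≥0∞)]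
      refine add_le_add le_rfl ?_
      refine (mul_le_mul_right (count_le (latmax t.1) hn) _).trans ?_
      rw [← ENNReal.tsum_mul_left]
      refine ENNReal.tsum_le_tsum fun M => ?_
      by_cases hM : 2 * M * n < latmax t.1
      · rw [if_pos hM, if_pos hM, mul_comm]
      · rw [if_neg hM, mul_zero]
        exact zero_le
    refine h1.trans ?_
    rw [ENNReal.tsum_mul_left, bd_sum, ENNReal.tsum_comm]
    have h2 : ∀ M : ℕ, ∑' t : BD n, ((2 * n : ℕ) : ℝ≥0∞) * (if 2 * M * n < latmax t.1 then wE t.1 else 0) ≤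
        ((2 * n : ℕ) : ℝ≥0∞) * ENNReal.ofReal (C' * uu n * Real.exp (-(2 * c)) ^ M) := by
      intro M
      rw [ENNReal.tsum_mul_left]
      refine mul_le_mul_right ?_ _
      have h3 := h n (2 * M) hn
      have h4 : ∑' t : BD n, (if 2 * M * n < latmax t.1 then wE t.1 else 0) ≤ gf {g | g ∈ Brd n ∧ ¬ InBox g (2 * M * n)} := by
        have e1 := _root_.tsum_subtype (Brd n) fun t => (if 2 * M * n < latmax t then wE t else 0)
        rw [show ∑' t : BD n, (if 2 * M * n < latmax t.1 then wE t.1 else 0) =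
          ∑' t : Brd n, (if 2 * M * n < latmax t.1 then wE t.1 else 0) from rfl, e1]
        unfold gf
        have e2 := _root_.tsum_subtype {g | g ∈ Brd n ∧ ¬ InBox g (2 * M * n)} wE
        rw [e2]
        refine ENNReal.tsum_le_tsum fun t => ?_
        by_cases ht : t ∈ Brd n
        · rw [Set.indicator_of_mem ht]
          by_cases hL : 2 * M * n < latmax t
          · rw [if_pos hL, Set.indicator_of_mem]
            refine ⟨ht, fun hbox => ?_⟩
            obtain ⟨i, hi, h5⟩ := lt_latmax hL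
            exact absurd (hbox i hi) (not_le.2 h5)
          · rw [if_neg hL]
            exact zero_le
        · rw [Set.indicator_of_notMem ht]
          exact zero_le
      refine h4.trans (h3.trans (ENNReal.ofReal_le_ofReal ?_))
      have h5 : Real.exp (-(c * ((2 * M : ℕ) : ℝ))) = Real.exp (-(2 * c)) ^ M := by
        rw [← Real.exp_nat_mul]
        congr 1
        push_cast
        ring
      rw [h5]
      have h6 : 0 ≤ Real.exp (-(2 * c)) ^ M * uu n := mul_nonneg (by positivity) (uu_pos n).le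
      calc C * Real.exp (-(2 * c)) ^ M * uu n = C * (Real.exp (-(2 * c)) ^ M * uu n) := by ring
        _ ≤ C' * (Real.exp (-(2 * c)) ^ M * uu n) := mul_le_mul_of_nonneg_right (le_max_left _ _) h6
        _ = _ := by ring
    refine (add_le_add le_rfl (ENNReal.tsum_le_tsum h2)).trans ?_
    have hun := (uu_pos n).le
    rw [ENNReal.tsum_mul_left, ← ENNReal.ofReal_tsum_of_nonneg (fun M => by positivity)
      ((summable_geometric_of_lt_one (Real.exp_nonneg _) he).mul_left _), tsum_mul_left,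
      tsum_geometric_of_lt_one (Real.exp_nonneg _) he, BT_real, ← ENNReal.ofReal_natCast, ← ENNReal.ofReal_mul (by positivity),
      ← ENNReal.ofReal_mul (by positivity), ← ENNReal.ofReal_add (by positivity) (by positivity)]
    refine ENNReal.ofReal_le_ofReal (le_of_eq ?_)
    rw [hD]
    push_cast
    ring
  have hne : ∑' t : BD n, wE t.1 * ((2 * n + latmax t.1 : ℕ) : ℝ≥0∞) ≠ ∞ := ne_top_of_le_ne_top ENNReal.ofReal_ne_top key
  have h2 := hasSum_toReal' rfl hne
  have h3 := ENNReal.toReal_le_of_le_ofReal (mul_nonneg (by positivity) (uu_pos n).le) key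
  have h4 := h2.div_const (N : ℝ)
  have hs := Summable.of_nonneg_of_le (fun t : BD n => mul_nonneg (wr_nonneg t.1) dist_nonneg) hb h4.summable
  refine ⟨hs, ?_⟩
  refine (hs.tsum_le_tsum hb h4.summable).trans ?_
  rw [h4.tsum_eq]
  calc _ ≤ (2 + 2 * D) * n * uu n / N := div_le_div_of_nonneg_right h3 hN0.le
    _ = _ := by ring

lemma bd_summable (n : ℕ) {g : BD n → ℝ} {M : ℝ} (hg : ∀ t, |g t| ≤ M) : Summable fun t : BD n => wr t.1 * g t :=
  summable_mul (w := fun t : BD n => wr t.1) (g := g) (M := M) (fun t => wr_nonneg t.1) (bd_hasSum n).summable hg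

lemma wdw_hasSum (T : ℕ) : HasSum (fun t : WD T => wr t.1) 1 := wd_hasSum T

lemma wd_summable (T : ℕ) {g : WD T → ℝ} {M : ℝ} (hg : ∀ t, |g t| ≤ M) : Summable fun t : WD T => wr t.1 * g t :=
  summable_mul (w := fun t : WD T => wr t.1) (g := g) (M := M) (fun t => wr_nonneg t.1) (wdw_hasSum T).summable hg

/-- a bridge changes a Lipschitz function little -/
theorem br_move : ∃ C : ℝ, 0 < C ∧ ∀ (n N : ℕ), 1 ≤ N → ∀ (f : Cv → ℝ) (M L : ℝ), Inv f → Bd f M → 0 ≤ L → Lp f L → ∀ γ : Cv,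
    |∑' t : BD n, wr t.1 * f (cat γ (curve N t.1)) - uu n * f γ| ≤ L * C * (n / N) * uu n := by
  obtain ⟨C, hC, h⟩ := bsize
  refine ⟨C, hC, fun n N hN f M L hI hM hL0 hL γ => ?_⟩
  obtain ⟨hs, hm⟩ := h n N hN
  have s1 : Summable fun t : BD n => wr t.1 * f (cat γ (curve N t.1)) :=
    bd_summable n (g := fun t => f (cat γ (curve N t.1))) (M := M) fun t => hM _
  have s2 : HasSum (fun t : BD n => wr t.1 * f γ) (uu n * f γ) := (bd_hasSum n).mul_right _
  rw [← s2.tsum_eq, ← s1.tsum_sub s2.summable]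
  have hb : ∀ t : BD n, ‖wr t.1 * f (cat γ (curve N t.1)) - wr t.1 * f γ‖ ≤ L * (wr t.1 * dist (curve N t.1) 0) := by
    intro t
    rw [← mul_sub, Real.norm_eq_abs, abs_mul, abs_of_nonneg (wr_nonneg t.1)]
    have h1 : |f (cat γ (curve N t.1)) - f γ| ≤ L * dist (curve N t.1) 0 := by
      have e : f γ = f (cat γ 0) := (hI.cat_zero γ).symm
      rw [e]
      exact (hL _ _).trans (mul_le_mul_of_nonneg_left (dist_cat_left _ _ _) hL0)
    calc wr t.1 * |f (cat γ (curve N t.1)) - f γ| ≤ wr t.1 * (L * dist (curve N t.1) 0) :=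
          mul_le_mul_of_nonneg_left h1 (wr_nonneg t.1)
      _ = _ := by ring
  have s3 := hs.mul_left L
  have s4 := Summable.of_nonneg_of_le (fun t => norm_nonneg _) hb s3
  rw [← Real.norm_eq_abs]
  refine (norm_tsum_le_tsum_norm s4).trans ((s4.tsum_le_tsum hb s3).trans ?_)
  rw [tsum_mul_left]
  calc L * ∑' t : BD n, wr t.1 * dist (curve N t.1) 0 ≤ L * (C * (n / N) * uu n) := mul_le_mul_of_nonneg_left hm hL0
    _ = _ := by ring

/-- decomposition at the first cut at or above T -/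
noncomputable def bdE {T n : ℕ} (hT : T ≤ n) : (Σ a : {a : WD T // hgt a.1 ≤ n}, BD (n - hgt a.1.1)) ≃ BD n :=
  Equiv.ofBijective (fun x => ⟨x.1.1.1 ++ x.2.1, by
    have h1 := Brd_append (hgt_wd x.1.1).1 x.2.2
    have e : hgt x.1.1.1 + (n - hgt x.1.1.1) = n := by have := x.1.2; omega
    rwa [e] at h1⟩) (by
    constructor
    · rintro ⟨⟨⟨a, ha⟩, ha2⟩, ⟨u, hu⟩⟩ ⟨⟨⟨a', ha'⟩, ha2'⟩, ⟨u', hu'⟩⟩ h
      have h1 : a ++ u = a' ++ u' := congrArg Subtype.val h
      have h2 := FC_unique (hgt_wd ⟨a, ha⟩) (hgt_wd ⟨a', ha'⟩) hu hu' h1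
      obtain ⟨e1, e2⟩ := h2
      subst e1
      subst e2
      rfl
    · rintro ⟨t, ht⟩
      obtain ⟨j, a, u, h1, h2, ha, hu, e⟩ := FC_dec hT ht
      have h3 : hgt a = j := hgt_eq ha.1
      subst h3
      exact ⟨⟨⟨⟨a, _, ha⟩, h2⟩, ⟨u, hu⟩⟩, Subtype.ext e.symm⟩)

theorem bd_split {T n : ℕ} (hT : T ≤ n) {G : List Bool → ℝ} {M : ℝ} (hG : ∀ t, |G t| ≤ M) :
    ∑' t : BD n, wr t.1 * G t.1 =
      ∑' a : WD T, wr a.1 * (if hgt a.1 ≤ n then ∑' v : BD (n - hgt a.1), wr v.1 * G (a.1 ++ v.1) else 0) := by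
  classical
  rw [← (bdE hT).tsum_eq]
  have hs : Summable fun x : Σ a : {a : WD T // hgt a.1 ≤ n}, BD (n - hgt a.1.1) => wr ((bdE hT) x).1 * G ((bdE hT) x).1 := by
    have h1 : Summable fun t : BD n => wr t.1 * G t.1 := bd_summable n (g := fun t => G t.1) (M := M) fun t => hG _
    exact (bdE hT).summable_iff.2 h1
  rw [hs.tsum_sigma]
  have h1 : ∀ a : {a : WD T // hgt a.1 ≤ n}, ∑' v : BD (n - hgt a.1.1), wr ((bdE hT) ⟨a, v⟩).1 * G ((bdE hT) ⟨a, v⟩).1 =
      wr a.1.1 * ∑' v : BD (n - hgt a.1.1), wr v.1 * G (a.1.1 ++ v.1) := by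
    intro a
    rw [← tsum_mul_left]
    refine tsum_congr fun v => ?_
    have e : ((bdE hT) ⟨a, v⟩).1 = a.1.1 ++ v.1 := rfl
    rw [e, wr_append]
    ring
  rw [tsum_congr h1]
  have h2 := _root_.tsum_subtype {a : WD T | hgt a.1 ≤ n} fun a => wr a.1 * ∑' v : BD (n - hgt a.1), wr v.1 * G (a.1 ++ v.1)
  rw [show ∑' a : {a : WD T // hgt a.1 ≤ n}, wr a.1.1 * ∑' v : BD (n - hgt a.1.1), wr v.1 * G (a.1.1 ++ v.1) =
    ∑' a : {a : WD T | hgt a.1 ≤ n}, wr a.1.1 * ∑' v : BD (n - hgt a.1.1), wr v.1 * G (a.1.1 ++ v.1) from rfl, h2]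
  refine tsum_congr fun a => ?_
  by_cases h3 : hgt a.1 ≤ n
  · rw [if_pos h3, Set.indicator_of_mem (s := {a : WD T | hgt a.1 ≤ n}) h3]
  · rw [if_neg h3, mul_zero, Set.indicator_of_notMem (s := {a : WD T | hgt a.1 ≤ n}) h3]

end Struct
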