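import Pool.Agent.Struct.C1

/-! STRUCT, C2: the first cut above T of a bridge is rarely close to its end. -/

set_option autoImplicit false

namespace Struct

open Filter Topology Finset HexObs

open scoped ENNReal

lemma wd_law_E {T j : ℕ} (hT : 1 ≤ T) (hj : T ≤ j) :
    ∑' a : WD T, (if hgt a.1 = j then wE a.1 else 0) = ENNReal.ofReal (CutLim.ff (T - 1) j) := by
  classical
  rw [← CutLim.gf_FC_ff (show T - 1 < j by omega), show T - 1 + 1 = T by omega]
  have e1 := _root_.tsum_subtype (FCW T) fun t => (if hgt t = j then wE t else 0)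
  rw [show ∑' a : WD T, (if hgt a.1 = j then wE a.1 else 0) = ∑' a : FCW T, (if hgt a.1 = j then wE a.1 else 0) from rfl, e1]
  unfold gf
  have e2 := _root_.tsum_subtype (FC T j) wE
  rw [e2]
  refine tsum_congr fun t => ?_
  by_cases ht : t ∈ FC T j
  · have h1 : t ∈ FCW T := ⟨j, ht⟩
    rw [Set.indicator_of_mem ht, Set.indicator_of_mem h1, if_pos (hgt_eq ht.1)]
  · rw [Set.indicator_of_notMem ht]
    by_cases h1 : t ∈ FCW T
    · rw [Set.indicator_of_mem h1, if_neg]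
      intro h2
      apply ht
      rw [← h2]
      exact hgt_wd ⟨t, h1⟩
    · rw [Set.indicator_of_notMem h1]

lemma wd_law {T j : ℕ} (hT : 1 ≤ T) (hj : T ≤ j) :
    HasSum (fun a : WD T => if hgt a.1 = j then wr a.1 else 0) (CutLim.ff (T - 1) j) := by
  have h := hasSum_toReal' (wd_law_E hT hj) ENNReal.ofReal_ne_top
  rw [ENNReal.toReal_ofReal (CutLim.ff_nonneg _ _)] at h
  refine h.congr_fun ?_
  intro a
  unfold wr
  split_ifs
  · rfl
  · rw [ENNReal.toReal_zero]

/-- functions of the height -/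
lemma wd_sum_hgt {T T' n : ℕ} (hT : 1 ≤ T) (hTT : T ≤ T') {e : ℕ → ℝ} (he : ∀ j, ¬ (T' ≤ j ∧ j ≤ n) → e j = 0) :
    HasSum (fun a : WD T => wr a.1 * e (hgt a.1)) (∑ j ∈ Icc T' n, CutLim.ff (T - 1) j * e j) := by
  have h1 := hasSum_sum (s := Icc T' n) fun j (hj : j ∈ Icc T' n) => (wd_law hT (hTT.trans (mem_Icc.1 hj).1)).mul_right (e j)
  refine h1.congr_fun ?_
  intro a
  by_cases h2 : T' ≤ hgt a.1 ∧ hgt a.1 ≤ n
  · rw [Finset.sum_eq_single (hgt a.1)]
    · rw [if_pos rfl]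
    · intro j _ hj
      rw [if_neg (Ne.symm hj), zero_mul]
    · intro h3
      exact absurd (mem_Icc.2 h2) h3
  · rw [he _ h2, mul_zero]
    symm
    refine sum_eq_zero fun j hj => ?_
    have h3 := mem_Icc.1 hj
    rw [if_neg, zero_mul]
    rintro rfl
    exact h2 h3

lemma kk_window (m : ℕ) : ∑ r ∈ Icc 1 m, kk r = 1 - CutLim.KK kk (m + 1) := by
  unfold CutLim.KK
  rw [sub_sub_cancel, range_eq_Ico, ← sum_Ioo_add_eq_sum_Ico (show 0 < m + 1 by omega), CutLim.ren_uu.k0, add_zero]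
  refine sum_congr ?_ fun _ _ => rfl
  ext r
  rw [mem_Icc, mem_Ioo]
  omega

/-- jump into n from below T -/
lemma ff_le {T n : ℕ} (hT : T ≤ n) (hn : 1 ≤ n) : ∑ c ∈ range T, uu c * kk (n - c) ≤ uu n * CutLim.KK kk (n - T + 1) := by
  have h1 : uu n = ∑ c ∈ range n, uu c * kk (n - c) := by
    rw [CutLim.ren_uu.ren n hn]
    refine Finset.sum_bij' (fun r _ => n - r) (fun k _ => n - k) ?_ ?_ ?_ ?_ ?_
    · intro r hr
      have := Finset.mem_Icc.1 hr
      exact Finset.mem_range.2 (by omega)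
    · intro k hk
      have := Finset.mem_range.1 hk
      exact Finset.mem_Icc.2 ⟨by omega, by omega⟩
    · intro r hr
      have := Finset.mem_Icc.1 hr
      show n - (n - r) = r
      omega
    · intro k hk
      have := Finset.mem_range.1 hk
      show n - (n - k) = k
      omega
    · intro r hr
      have := Finset.mem_Icc.1 hr
      show kk r * uu (n - r) = uu (n - r) * kk (n - (n - r))
      rw [show n - (n - r) = r by omega, mul_comm]
  have h2 : ∑ c ∈ range n, uu c * kk (n - c) = ∑ c ∈ range T, uu c * kk (n - c) + ∑ c ∈ Ico T n, uu c * kk (n - c) :=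
    (sum_range_add_sum_Ico _ hT).symm
  have h3 : uu n * (1 - CutLim.KK kk (n - T + 1)) ≤ ∑ c ∈ Ico T n, uu c * kk (n - c) := by
    rw [← kk_window, mul_sum]
    have h4 : ∑ r ∈ Icc 1 (n - T), uu n * kk r = ∑ c ∈ Ico T n, uu n * kk (n - c) := by
      refine Finset.sum_bij' (fun r _ => n - r) (fun k _ => n - k) ?_ ?_ ?_ ?_ ?_
      · intro r hr
        have := Finset.mem_Icc.1 hr
        exact Finset.mem_Ico.2 (by omega)
      · intro k hk
        have := Finset.mem_Ico.1 hk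
        exact Finset.mem_Icc.2 ⟨by omega, by omega⟩
      · intro r hr
        have := Finset.mem_Icc.1 hr
        show n - (n - r) = r
        omega
      · intro k hk
        have := Finset.mem_Ico.1 hk
        show n - (n - k) = k
        omega
      · intro r hr
        have := Finset.mem_Icc.1 hr
        show uu n * kk r = uu n * kk (n - (n - r))
        rw [show n - (n - r) = r by omega]
    rw [h4]
    refine sum_le_sum fun c hc => mul_le_mul_of_nonneg_right (uu_anti ?_) (kk_nonneg _)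
    have := mem_Ico.1 hc
    omega
  linarith

/-- the first cut above T is at or above T' -/
noncomputable def Wn (T T' n : ℕ) : ℝ := ∑' a : WD T, wr a.1 * (if T' ≤ hgt a.1 ∧ hgt a.1 ≤ n then uu (n - hgt a.1) else 0)

lemma Wn_hasSum {T T' n : ℕ} (hT : 1 ≤ T) (hTT : T ≤ T') :
    HasSum (fun a : WD T => wr a.1 * (if T' ≤ hgt a.1 ∧ hgt a.1 ≤ n then uu (n - hgt a.1) else 0)) (Wn T T' n) := by
  have h := wd_sum_hgt (n := n) hT hTT (e := fun j => if T' ≤ j ∧ j ≤ n then uu (n - j) else 0) fun j hj => if_neg hj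
  exact h.summable.hasSum

theorem Wn_le {T T' n : ℕ} (hT : 1 ≤ T) (hTT : T ≤ T') (hn : T' ≤ n) :
    Wn T T' n ≤ CutLim.UU uu (n - T') * (uu T' * CutLim.KK kk (T' - T + 1)) := by
  have h := wd_sum_hgt (n := n) hT hTT (e := fun j => if T' ≤ j ∧ j ≤ n then uu (n - j) else 0) fun j hj => if_neg hj
  unfold Wn
  rw [h.tsum_eq]
  have h1 : ∑ j ∈ Icc T' n, CutLim.ff (T - 1) j * (if T' ≤ j ∧ j ≤ n then uu (n - j) else 0) =
      ∑ m ∈ range (n - T' + 1), uu m * ∑ c ∈ range T, uu c * kk (n - m - c) := by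
    refine Finset.sum_bij' (fun j _ => n - j) (fun m _ => n - m) ?_ ?_ ?_ ?_ ?_
    · intro j hj
      have := Finset.mem_Icc.1 hj
      exact Finset.mem_range.2 (by omega)
    · intro m hm
      have := Finset.mem_range.1 hm
      exact Finset.mem_Icc.2 ⟨by omega, by omega⟩
    · intro j hj
      have := Finset.mem_Icc.1 hj
      show n - (n - j) = j
      omega
    · intro m hm
      have := Finset.mem_range.1 hm
      show n - (n - m) = m
      omega
    · intro j hj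
      have := Finset.mem_Icc.1 hj
      rw [if_pos this]
      unfold CutLim.ff
      rw [show T - 1 + 1 = T by omega, show n - (n - j) = j by omega, mul_comm]
  rw [h1]
  unfold CutLim.UU
  rw [sum_mul]
  refine sum_le_sum fun m hm => mul_le_mul_of_nonneg_left ?_ (uu_pos m).le
  have := mem_range.1 hm
  refine (ff_le (T := T) (n := n - m) (by omega) (by omega)).trans ?_
  have h2 : uu (n - m) ≤ uu T' := uu_anti (by omega)
  have h3 : CutLim.KK kk (n - m - T + 1) ≤ CutLim.KK kk (T' - T + 1) := CutLim.KK_anti CutLim.ren_uu (by omega)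
  exact mul_le_mul h2 h3 (CutLim.KK_nonneg CutLim.ren_uu _) (uu_pos _).le

lemma Wn_nonneg (T T' n : ℕ) : 0 ≤ Wn T T' n := tsum_nonneg fun a => by
  have := wr_nonneg a.1
  split_ifs
  · exact mul_nonneg this (uu_pos _).le
  · rw [mul_zero]

/-- total mass -/
lemma Wn_total {T n : ℕ} (hT : T ≤ n) : ∑' a : WD T, wr a.1 * (if hgt a.1 ≤ n then uu (n - hgt a.1) else 0) = uu n := by
  have h := bd_split hT (G := fun _ => 1) (M := 1) fun t => by simp
  have e1 : ∑' t : BD n, wr t.1 * 1 = uu n := by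
    rw [tsum_congr fun t : BD n => mul_one (wr t.1)]
    exact (bd_hasSum n).tsum_eq
  rw [e1] at h
  rw [h]
  refine tsum_congr fun a => ?_
  congr 1
  split_ifs
  · rw [tsum_congr fun t : BD (n - hgt a.1) => mul_one (wr t.1)]
    exact ((bd_hasSum _).tsum_eq).symm
  · rfl

lemma Wn_total_hasSum {T n : ℕ} (hT : T ≤ n) :
    HasSum (fun a : WD T => wr a.1 * (if hgt a.1 ≤ n then uu (n - hgt a.1) else 0)) (uu n) := by
  have h : Summable fun a : WD T => wr a.1 * (if hgt a.1 ≤ n then uu (n - hgt a.1) else 0) :=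
    wd_summable T (g := fun a => if hgt a.1 ≤ n then uu (n - hgt a.1) else 0) (M := uu 0) fun a => by
      split_ifs
      · rw [abs_of_nonneg (uu_pos _).le]
        exact uu_anti (Nat.zero_le _)
      · rw [abs_zero]
        exact (uu_pos 0).le
  have := h.hasSum
  rwa [Wn_total hT] at this

/-- asymptotic form -/
theorem Wn_pow {a b : ℝ} (ha : 0 < a) (ha1 : a < 1) (hb : 0 < b)
    (hu : Tendsto (fun n : ℕ => (n : ℝ) ^ (1 - a) * uu n) atTop (𝓝 b)) :
    ∃ C : ℝ, 0 < C ∧ ∀ T T' n : ℕ, 1 ≤ T → T < T' → T' ≤ n → n ≤ 2 * T' →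
      Wn T T' n ≤ C * (((n - T' : ℕ) + 1 : ℝ) / ((T' - T : ℕ) : ℝ)) ^ a * uu n := by
  obtain ⟨C1, h10, h1⟩ := UU_le CutLim.ren_uu ha ha1 hb hu
  obtain ⟨C2, h20, h2⟩ := KK_le CutLim.ren_uu ha ha1 hb hu
  obtain ⟨C3, h30, h3⟩ := u_le ha1 hu
  -- lower bound of uu
  obtain ⟨C4, h40, h4⟩ : ∃ C : ℝ, 0 < C ∧ ∀ n : ℕ, 1 ≤ n → (n : ℝ) ^ (a - 1) ≤ C * uu n := by
    have h5 := hu.inv₀ hb.ne'
    obtain ⟨C, hC⟩ := h5.bddAbove_range
    refine ⟨max C 1, by positivity, fun n hn => ?_⟩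
    have hn0 : (0 : ℝ) < n := by exact_mod_cast hn
    have h6 : ((n : ℝ) ^ (1 - a) * uu n)⁻¹ ≤ max C 1 := le_trans (hC ⟨n, rfl⟩) (le_max_left _ _)
    have h7 := uu_pos n
    have h8 : 0 < (n : ℝ) ^ (1 - a) := Real.rpow_pos_of_pos hn0 _
    have h9 : (n : ℝ) ^ (a - 1) = ((n : ℝ) ^ (1 - a))⁻¹ := by
      rw [← Real.rpow_neg hn0.le]
      congr 1
      ring
    rw [mul_inv, ← div_eq_mul_inv, div_le_iff₀ h7, ← h9] at h6
    exact h6
  have ha2 : 0 < 1 - a := by linarith
  refine ⟨C1 * C2 * (C3 * 2 ^ (1 - a)) * C4, by positivity, fun T T' n hT hTT hn hn2 => ?_⟩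
  have hT'0 : (0 : ℝ) < T' := by
    have : 0 < T' := by omega
    exact_mod_cast this
  have hn0 : (0 : ℝ) < n := by
    have : 0 < n := by omega
    exact_mod_cast this
  refine (Wn_le hT hTT.le hn).trans ?_
  have hm0 : (0 : ℝ) < ((n - T' : ℕ) : ℝ) + 1 := by positivity
  have hd0 : (0 : ℝ) < ((T' - T : ℕ) : ℝ) := by
    have : 0 < T' - T := by omega
    exact_mod_cast this
  have a1 : CutLim.UU uu (n - T') ≤ C1 * (((n - T' : ℕ) : ℝ) + 1) ^ a := by
    have h5 : CutLim.UU uu (n - T') ≤ CutLim.UU uu (n - T' + 1) := by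
      unfold CutLim.UU
      exact sum_le_sum_of_subset_of_nonneg (range_subset_range.2 (by omega)) fun i _ _ => (uu_pos i).le
    refine h5.trans ?_
    have h6 := h1 (n - T' + 1)
    have h7 : (((n - T' + 1 : ℕ) : ℝ)) = ((n - T' : ℕ) : ℝ) + 1 := by push_cast; ring
    rw [h7, Real.rpow_neg hm0.le, inv_mul_le_iff₀ (Real.rpow_pos_of_pos hm0 a)] at h6
    linarith
  have a2 : CutLim.KK kk (T' - T + 1) ≤ C2 * (((T' - T : ℕ) : ℝ) ^ a)⁻¹ := by
    have h5 : CutLim.KK kk (T' - T + 1) ≤ CutLim.KK kk (T' - T) := CutLim.KK_anti CutLim.ren_uu (by omega)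
    refine h5.trans ?_
    have h6 := h2 (T' - T)
    rw [← div_eq_mul_inv, le_div_iff₀ (Real.rpow_pos_of_pos hd0 a)]
    linarith
  have a3 : uu T' ≤ C3 * 2 ^ (1 - a) * C4 * uu n := by
    have h5 := h3 T' (by omega)
    have h6 : (T' : ℝ) ^ (a - 1) ≤ 2 ^ (1 - a) * (n : ℝ) ^ (a - 1) := by
      have h7 : (n : ℝ) / 2 ≤ T' := by
        have : (n : ℝ) ≤ 2 * T' := by exact_mod_cast hn2
        linarith
      have h8 : (T' : ℝ) ^ (a - 1) ≤ ((n : ℝ) / 2) ^ (a - 1) := Real.rpow_le_rpow_of_nonpos (by positivity) h7 (by linarith)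
      refine h8.trans (le_of_eq ?_)
      rw [Real.div_rpow hn0.le (by norm_num), div_eq_mul_inv, ← Real.rpow_neg (by norm_num), neg_sub]
      ring
    have h9 := h4 n (by omega)
    calc uu T' ≤ C3 * (T' : ℝ) ^ (a - 1) := h5
      _ ≤ C3 * (2 ^ (1 - a) * (n : ℝ) ^ (a - 1)) := mul_le_mul_of_nonneg_left h6 h30.le
      _ ≤ C3 * (2 ^ (1 - a) * (C4 * uu n)) := by gcongr
      _ = _ := by ring
  have hU0 : 0 ≤ CutLim.UU uu (n - T') := (UU_pos _).le
  have hK0 : 0 ≤ CutLim.KK kk (T' - T + 1) := CutLim.KK_nonneg CutLim.ren_uu _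
  calc CutLim.UU uu (n - T') * (uu T' * CutLim.KK kk (T' - T + 1))
      ≤ (C1 * (((n - T' : ℕ) : ℝ) + 1) ^ a) * ((C3 * 2 ^ (1 - a) * C4 * uu n) * (C2 * (((T' - T : ℕ) : ℝ) ^ a)⁻¹)) := by
        refine mul_le_mul a1 ?_ (mul_nonneg (uu_pos _).le hK0) (by positivity)
        exact mul_le_mul a3 a2 hK0 (mul_nonneg (by positivity) (uu_pos n).le)
    _ = _ := by
        rw [Real.div_rpow hm0.le hd0.le]
        ring

end Struct
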