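import Pool.Agent.Struct.C2

/-! STRUCT, C3: the stopped walks determine the bridges. -/

set_option autoImplicit false

namespace Struct

open Filter Topology Finset HexObs

/-- regular variation, uniformly -/
lemma uu_ratio {a b : ℝ} (ha1 : a < 1) (hb : 0 < b)
    (hu : Tendsto (fun n : ℕ => (n : ℝ) ^ (1 - a) * uu n) atTop (𝓝 b)) {κ ε : ℝ} (hκ : 0 < κ) (hε : 0 < ε) :
    ∃ N₀ : ℕ, ∀ N m : ℕ, N₀ ≤ N → κ * N ≤ m → |uu m / uu N - ((m : ℝ) / N) ^ (a - 1)| ≤ ε := by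
  have hκa : 0 < κ ^ (a - 1) := Real.rpow_pos_of_pos hκ _
  -- θ
  set θ : ℝ := min (b / 2) (ε * b / (4 * κ ^ (a - 1))) with hθ
  have hθ0 : 0 < θ := by positivity
  have hθ1 : θ ≤ b / 2 := min_le_left _ _
  have hθ2 : θ ≤ ε * b / (4 * κ ^ (a - 1)) := min_le_right _ _
  have h1 := Metric.tendsto_atTop.1 hu θ hθ0
  obtain ⟨n₀, hn₀⟩ := h1
  obtain ⟨N₁, hN₁⟩ := exists_nat_gt ((n₀ + 1 : ℝ) / κ)
  refine ⟨max (max n₀ N₁) 1, fun N m hN hm => ?_⟩
  have hN1 : 1 ≤ N := le_trans (le_max_right _ _) hN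
  have hNn : n₀ ≤ N := le_trans (le_trans (le_max_left _ _) (le_max_left _ _)) hN
  have hNN : N₁ ≤ N := le_trans (le_trans (le_max_right _ _) (le_max_left _ _)) hN
  have hNr : (0 : ℝ) < N := by exact_mod_cast hN1
  have hmn : (n₀ : ℝ) + 1 ≤ m := by
    rw [div_lt_iff₀ hκ] at hN₁
    have : (N₁ : ℝ) ≤ N := by exact_mod_cast hNN
    nlinarith
  have hmn' : n₀ ≤ m := by
    have : (n₀ : ℝ) ≤ m := by linarith
    exact_mod_cast this
  have hmr : (0 : ℝ) < m := by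
    have : (0 : ℝ) ≤ n₀ := Nat.cast_nonneg _
    linarith
  have e1 := hn₀ N hNn
  have e2 := hn₀ m hmn'
  rw [Real.dist_eq, abs_lt] at e1 e2
  set rN : ℝ := (N : ℝ) ^ (1 - a) * uu N with hrN
  set rm : ℝ := (m : ℝ) ^ (1 - a) * uu m with hrm
  have hrN0 : b / 2 ≤ rN := by linarith [e1.1]
  have hrN1 : 0 < rN := by linarith
  have hpN : 0 < (N : ℝ) ^ (1 - a) := Real.rpow_pos_of_pos hNr _
  have hpm : 0 < (m : ℝ) ^ (1 - a) := Real.rpow_pos_of_pos hmr _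
  have hratio : uu m / uu N = rm / rN * ((m : ℝ) / N) ^ (a - 1) := by
    have h2 : ((m : ℝ) / N) ^ (a - 1) = (N : ℝ) ^ (1 - a) / (m : ℝ) ^ (1 - a) := by
      rw [show a - 1 = -(1 - a) by ring, Real.rpow_neg (by positivity), Real.div_rpow hmr.le hNr.le, inv_div]
    have := uu_pos N
    rw [h2, hrN, hrm]
    field_simp
  have hle : ((m : ℝ) / N) ^ (a - 1) ≤ κ ^ (a - 1) := by
    refine Real.rpow_le_rpow_of_nonpos hκ ?_ (by linarith)
    rw [le_div_iff₀ hNr]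
    exact hm
  have hpos : 0 ≤ ((m : ℝ) / N) ^ (a - 1) := by positivity
  have e3 : uu m / uu N - ((m : ℝ) / N) ^ (a - 1) = (rm - rN) / rN * ((m : ℝ) / N) ^ (a - 1) := by
    rw [hratio]
    field_simp
  rw [e3, abs_mul, abs_of_nonneg hpos, abs_div, abs_of_pos hrN1]
  have h5 : |rm - rN| ≤ 2 * θ := by
    rw [abs_le]
    constructor <;> linarith [e1.1, e1.2, e2.1, e2.2]
  calc |rm - rN| / rN * ((m : ℝ) / N) ^ (a - 1) ≤ 2 * θ / (b / 2) * κ ^ (a - 1) := by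
        refine mul_le_mul ?_ hle hpos (by positivity)
        exact div_le_div₀ (by positivity) h5 (by positivity) hrN0
    _ = 4 * θ * κ ^ (a - 1) / b := by
        field_simp
        ring
    _ ≤ ε := by
        rw [div_le_iff₀ hb]
        have := mul_le_mul_of_nonneg_left hθ2 (show 0 ≤ 4 * κ ^ (a - 1) by positivity)
        have e4 : 4 * κ ^ (a - 1) * (ε * b / (4 * κ ^ (a - 1))) = ε * b := by
          field_simp
        rw [e4] at this
        linarith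

/-- truncated power -/
noncomputable def gm (a δ x : ℝ) : ℝ := (max δ x) ^ (a - 1)

lemma gm_nonneg {a δ : ℝ} (hδ : 0 < δ) (x : ℝ) : 0 ≤ gm a δ x := Real.rpow_nonneg (hδ.le.trans (le_max_left _ _)) _

lemma gm_le {a δ : ℝ} (ha1 : a < 1) (hδ : 0 < δ) (x : ℝ) : gm a δ x ≤ δ ^ (a - 1) :=
  Real.rpow_le_rpow_of_nonpos hδ (le_max_left _ _) (by linarith)

lemma gm_lip {a δ : ℝ} (ha1 : a < 1) (hδ : 0 < δ) (x y : ℝ) :
    |gm a δ x - gm a δ y| ≤ (1 - a) * δ ^ (a - 2) * |x - y| := by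
  have h1 : ∀ x ∈ Set.Ici δ, HasDerivWithinAt (fun x : ℝ => x ^ (a - 1)) ((a - 1) * x ^ (a - 1 - 1)) (Set.Ici δ) x := by
    intro x hx
    have hx0 : x ≠ 0 := (lt_of_lt_of_le hδ hx).ne'
    exact (Real.hasDerivAt_rpow_const (Or.inl hx0)).hasDerivWithinAt
  have h2 : ∀ x ∈ Set.Ici δ, ‖(a - 1) * x ^ (a - 1 - 1)‖ ≤ (1 - a) * δ ^ (a - 2) := by
    intro x hx
    have hx0 : 0 < x := lt_of_lt_of_le hδ hx
    rw [norm_mul, Real.norm_eq_abs, Real.norm_eq_abs, abs_of_neg (by linarith), abs_of_nonneg (Real.rpow_nonneg hx0.le _),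
      show a - 1 - 1 = a - 2 by ring, neg_sub]
    refine mul_le_mul_of_nonneg_left ?_ (by linarith)
    exact Real.rpow_le_rpow_of_nonpos hδ hx (by linarith)
  have h3 := Convex.norm_image_sub_le_of_norm_hasDerivWithin_le h1 h2 (convex_Ici δ)
    (Set.mem_Ici.2 (le_max_left δ y)) (Set.mem_Ici.2 (le_max_left δ x))
  rw [Real.norm_eq_abs, Real.norm_eq_abs] at h3
  refine h3.trans (mul_le_mul_of_nonneg_left ?_ (mul_nonneg (by linarith) (by positivity)))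
  refine (abs_max_sub_max_le_max _ _ _ _).trans ?_
  rw [sub_self, abs_zero]
  exact max_le (abs_nonneg _) le_rfl

/-- the density of the bridges with respect to the stopped walks -/
noncomputable def dn (a δ : ℝ) (γ : Cv) : ℝ := max 0 (min 1 ((1 - δ - ht γ) / δ)) * gm a δ (1 - ht γ)

lemma dn_nonneg {a δ : ℝ} (hδ : 0 < δ) (γ : Cv) : 0 ≤ dn a δ γ := mul_nonneg (le_max_left _ _) (gm_nonneg hδ _)

lemma dn_test {a δ : ℝ} (ha1 : a < 1) (hδ : 0 < δ) : Test (dn a δ) := by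
  have hc0 : ∀ γ : Cv, 0 ≤ max 0 (min 1 ((1 - δ - ht γ) / δ)) := fun γ => le_max_left _ _
  have hc1 : ∀ γ : Cv, max 0 (min 1 ((1 - δ - ht γ) / δ)) ≤ 1 := fun γ => max_le zero_le_one (min_le_left _ _)
  refine ⟨?_, ⟨δ ^ (a - 1), by positivity, fun γ => ?_⟩, 1 * ((1 - a) * δ ^ (a - 2)) + 1 / δ * δ ^ (a - 1), ?_, fun γ γ' => ?_⟩
  · intro γ ρ
    unfold dn
    rw [ht_comp]
  · rw [abs_of_nonneg (dn_nonneg hδ γ)]
    unfold dn
    calc _ ≤ 1 * δ ^ (a - 1) := mul_le_mul (hc1 γ) (gm_le ha1 hδ _) (gm_nonneg hδ _) zero_le_one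
      _ = _ := one_mul _
  · have : 0 < 1 - a := by linarith
    positivity
  · have e : dn a δ γ - dn a δ γ' = max 0 (min 1 ((1 - δ - ht γ) / δ)) * (gm a δ (1 - ht γ) - gm a δ (1 - ht γ')) +
        (max 0 (min 1 ((1 - δ - ht γ) / δ)) - max 0 (min 1 ((1 - δ - ht γ') / δ))) * gm a δ (1 - ht γ') := by
      unfold dn
      ring
    rw [e]
    refine (abs_add_le _ _).trans ?_
    rw [abs_mul, abs_mul, abs_of_nonneg (hc0 γ), abs_of_nonneg (gm_nonneg hδ _)]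
    have hd := ht_lip γ γ'
    have a1 : |gm a δ (1 - ht γ) - gm a δ (1 - ht γ')| ≤ (1 - a) * δ ^ (a - 2) * dist γ γ' := by
      refine (gm_lip ha1 hδ _ _).trans (mul_le_mul_of_nonneg_left ?_ (mul_nonneg (by linarith) (by positivity)))
      have e2 : 1 - ht γ - (1 - ht γ') = -(ht γ - ht γ') := by ring
      rw [e2, abs_neg]
      exact hd
    have a2 : |max 0 (min 1 ((1 - δ - ht γ) / δ)) - max 0 (min 1 ((1 - δ - ht γ') / δ))| ≤ 1 / δ * dist γ γ' := by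
      refine (clamp_lip _ _).trans ?_
      rw [← sub_div, abs_div, abs_of_pos hδ, div_eq_inv_mul, one_div]
      refine mul_le_mul_of_nonneg_left ?_ (by positivity)
      have e2 : 1 - δ - ht γ - (1 - δ - ht γ') = -(ht γ - ht γ') := by ring
      rw [e2, abs_neg]
      exact hd
    have b1 := mul_le_mul (hc1 γ) a1 (abs_nonneg _) zero_le_one
    have b2 := mul_le_mul a2 (gm_le ha1 hδ (1 - ht γ')) (gm_nonneg hδ _) (by positivity)
    refine (add_le_add b1 b2).trans (le_of_eq ?_)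
    ring

lemma dn_zero {a δ : ℝ} (hδ : 0 < δ) {γ : Cv} (h : 1 - δ ≤ ht γ) : dn a δ γ = 0 := by
  unfold dn
  have h1 : (1 - δ - ht γ) / δ ≤ 0 := div_nonpos_of_nonpos_of_nonneg (by linarith) hδ.le
  rw [min_eq_right (by linarith), max_eq_left h1, zero_mul]

lemma dn_le {a δ : ℝ} (hδ : 0 < δ) {γ : Cv} (h : ht γ ≤ 1 - δ) : dn a δ γ ≤ (1 - ht γ) ^ (a - 1) := by
  unfold dn gm
  rw [max_eq_right (show δ ≤ 1 - ht γ by linarith)]
  have h1 : max 0 (min 1 ((1 - δ - ht γ) / δ)) ≤ 1 := max_le zero_le_one (min_le_left _ _)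
  have h2 : 0 ≤ (1 - ht γ) ^ (a - 1) := Real.rpow_nonneg (by linarith) _
  nlinarith

lemma dn_eq {a δ : ℝ} (hδ : 0 < δ) {γ : Cv} (h : ht γ ≤ 1 - 2 * δ) : dn a δ γ = (1 - ht γ) ^ (a - 1) := by
  unfold dn gm
  have h1 : 1 ≤ (1 - δ - ht γ) / δ := by
    rw [one_le_div hδ]
    linarith
  rw [min_eq_left h1, max_eq_right zero_le_one, one_mul, max_eq_right (show δ ≤ 1 - ht γ by linarith)]

end Struct
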