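import Pool.Agent.Struct.C3

/-! STRUCT, C4: the stopped walks determine the bridges. -/

set_option autoImplicit false

namespace Struct

open Filter Topology Finset HexObs

/-- mean value over the bridges of height n, at scale N -/
noncomputable def brm (N n : ℕ) (f : Cv → ℝ) : ℝ := (∑' t : BD n, wr t.1 * f (curve N t.1)) / uu n

lemma brm_bd {f : Cv → ℝ} {M : ℝ} (hM : Bd f M) (N n : ℕ) : |brm N n f| ≤ M := by
  unfold brm
  have h1 : |∑' t : BD n, wr t.1 * f (curve N t.1)| ≤ uu n * M :=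
    tsum_mul_le (w := fun t : BD n => wr t.1) (fun t => wr_nonneg t.1) (bd_hasSum n) (g := fun t => f (curve N t.1)) fun t => hM _
  rw [abs_div, abs_of_pos (uu_pos n), div_le_iff₀ (uu_pos n), mul_comm M]
  exact h1

section
variable {ι : Type} {l : Filter ι} {s : ι → ℕ}

/-- comparison of a bridge with the stopped walk, fixed scale -/
theorem br_cmp {a b : ℝ} (ha : 0 < a) (ha1 : a < 1) (hb : 0 < b)
    (hu : Tendsto (fun n : ℕ => (n : ℝ) ^ (1 - a) * uu n) atTop (𝓝 b)) :
    ∃ C : ℝ, 0 < C ∧ ∀ (η δ ε : ℝ), 0 < η → η ≤ 1 / 2 → 0 < δ → δ ≤ η / 8 → 0 < ε → ∃ N₀ : ℕ, ∀ N : ℕ, N₀ ≤ N →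
      ∀ (f : Cv → ℝ) (M L : ℝ), Inv f → 0 ≤ M → Bd f M → 0 ≤ L → Lp f L →
      |brm N N f - HH pw ph (pq N) (fun γ => dn a δ γ * f γ) ⌈(1 - η) * N⌉₊ 0| ≤
        L * C * η + M * (ε + C * (6 * δ / η) ^ a) := by
  obtain ⟨C1, hC1, hmove⟩ := br_move
  obtain ⟨C2, hC2, hW⟩ := Wn_pow ha ha1 hb hu
  refine ⟨max C1 (3 * C2), by positivity, fun η δ ε hη hη2 hδ hδη hε => ?_⟩
  obtain ⟨N₁, hN₁⟩ := uu_ratio ha1 hb hu hδ (ε := min ε (1 / 2)) (by positivity)
  obtain ⟨N₂, hN₂⟩ := exists_nat_gt (8 / δ)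
  refine ⟨max N₁ (max N₂ 1), fun N hN f M L hI hM0 hM hL0 hL => ?_⟩
  have hN1 : 1 ≤ N := le_trans (le_max_right N₂ 1) (le_trans (le_max_right _ _) hN)
  have hNr : (0 : ℝ) < N := by exact_mod_cast hN1
  have hNδ : 8 ≤ δ * N := by
    have h1 : (N₂ : ℝ) ≤ N := by exact_mod_cast (le_trans (le_trans (le_max_left N₂ 1) (le_max_right _ _)) hN)
    rw [div_lt_iff₀ hδ] at hN₂
    nlinarith
  have hrat := fun m hm => hN₁ N m (le_trans (le_max_left _ _) hN) hm
  have hun := uu_pos N
  -- levels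
  set T := ⌈(1 - η) * N⌉₊ with hT
  set T' := ⌈(1 - 2 * δ) * N⌉₊ with hT'
  have hTge : (1 - η) * N ≤ T := Nat.le_ceil _
  have hTle : (T : ℝ) ≤ (1 - η) * N + 1 := (Nat.ceil_lt_add_one (mul_nonneg (by linarith) hNr.le)).le
  have hT'ge : (1 - 2 * δ) * N ≤ T' := Nat.le_ceil _
  have hT'le : (T' : ℝ) ≤ (1 - 2 * δ) * N + 1 := (Nat.ceil_lt_add_one (mul_nonneg (by linarith) hNr.le)).le
  have hT1 : 1 ≤ T := by
    rw [hT, Nat.one_le_ceil_iff]
    exact mul_pos (by linarith) hNr
  have hTT : T < T' := by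
    have : (T : ℝ) < T' := by nlinarith
    exact_mod_cast this
  have hT'N : T' ≤ N := by
    have : (T' : ℝ) ≤ N := by nlinarith
    exact_mod_cast this
  have hN2 : N ≤ 2 * T' := by
    have : (N : ℝ) ≤ 2 * T' := by nlinarith
    exact_mod_cast this
  have hTN : T ≤ N := hTT.le.trans hT'N
  -- the end window
  have hWn : Wn T T' N ≤ C2 * (6 * δ / η) ^ a * uu N := by
    refine (hW T T' N hT1 hTT hT'N hN2).trans ?_
    refine mul_le_mul_of_nonneg_right (mul_le_mul_of_nonneg_left ?_ hC2.le) hun.le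
    refine Real.rpow_le_rpow (by positivity) ?_ ha.le
    have e1 : ((N - T' : ℕ) : ℝ) = N - T' := Nat.cast_sub hT'N
    have e2 : ((T' - T : ℕ) : ℝ) = T' - T := Nat.cast_sub hTT.le
    rw [e1, e2]
    have h1 : (N : ℝ) - T' + 1 ≤ 3 * δ * N := by nlinarith
    have h2 : η / 2 * N ≤ (T' : ℝ) - T := by nlinarith
    have h3 : 0 < η / 2 * N := by positivity
    calc ((N : ℝ) - T' + 1) / (T' - T) ≤ (3 * δ * N) / (η / 2 * N) := div_le_div₀ (by positivity) h1 h3 h2
      _ = 6 * δ / η := by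
        field_simp
        ring
  -- the three functionals
  set A : WD T → ℝ := fun x => if hgt x.1 ≤ N then ∑' v : BD (N - hgt x.1), wr v.1 * f (curve N (x.1 ++ v.1)) else 0 with hA
  set B : WD T → ℝ := fun x => if hgt x.1 ≤ N then uu (N - hgt x.1) * f (curve N x.1) else 0 with hB
  set D : WD T → ℝ := fun x => dn a δ (curve N x.1) * f (curve N x.1) with hD
  have e0 : brm N N f = (∑' x : WD T, wr x.1 * A x) / uu N := by
    unfold brm
    rw [bd_split hTN (G := fun t => f (curve N t)) (M := M) fun t => hM _]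
  have hdf : Bd (fun γ => dn a δ γ * f γ) (δ ^ (a - 1) * M) := by
    intro γ
    rw [abs_mul, abs_of_nonneg (dn_nonneg hδ γ)]
    refine mul_le_mul ?_ (hM γ) (abs_nonneg _) (by positivity)
    unfold dn
    calc _ ≤ 1 * δ ^ (a - 1) := mul_le_mul (max_le zero_le_one (min_le_left _ _)) (gm_le ha1 hδ _) (gm_nonneg hδ _) zero_le_one
      _ = _ := one_mul _
  have hdI : Inv (fun γ => dn a δ γ * f γ) := by
    intro γ ρ
    show dn a δ (γ.comp ρ.f) * f (γ.comp ρ.f) = dn a δ γ * f γ
    rw [hI γ ρ, (dn_test ha1 hδ).inv γ ρ]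
  have e1 : HH pw ph (pq N) (fun γ => dn a δ γ * f γ) T 0 = ∑' x : WD T, wr x.1 * D x := by
    have h1 := sum_WD hdI hdf N T 0 [] nil_mem_Brd
    rw [curve_nil] at h1
    exact h1.symm
  have hAB : ∀ x : WD T, |A x - B x| ≤ L * C1 * η * (if hgt x.1 ≤ N then uu (N - hgt x.1) else 0) := by
    intro x
    rw [hA, hB]
    by_cases hx : hgt x.1 ≤ N
    · show |(if hgt x.1 ≤ N then _ else (0 : ℝ)) - (if hgt x.1 ≤ N then _ else (0 : ℝ))| ≤ _
      rw [if_pos hx, if_pos hx, if_pos hx]
      have h1 : ∀ v : BD (N - hgt x.1), f (curve N (x.1 ++ v.1)) = f (cat (curve N x.1) (curve N v.1)) :=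
        fun v => curve_cat (hgt_wd x).1 v.1 N hI
      rw [tsum_congr fun v : BD (N - hgt x.1) => by rw [h1 v]]
      refine (hmove (N - hgt x.1) N hN1 f M L hI hM hL0 hL (curve N x.1)).trans ?_
      have h2 : ((N - hgt x.1 : ℕ) : ℝ) / N ≤ η := by
        rw [div_le_iff₀ hNr]
        have h3 : T ≤ hgt x.1 := (hgt_wd x).2.1
        have h4 : ((N - hgt x.1 : ℕ) : ℝ) ≤ ((N - T : ℕ) : ℝ) := by
          have : N - hgt x.1 ≤ N - T := by omega
          exact_mod_cast this
        rw [Nat.cast_sub hTN] at h4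
        linarith
      have h5 := uu_pos (N - hgt x.1)
      gcongr
    · show |(if hgt x.1 ≤ N then _ else (0 : ℝ)) - (if hgt x.1 ≤ N then _ else (0 : ℝ))| ≤ _
      rw [if_neg hx, if_neg hx, if_neg hx, sub_self, abs_zero, mul_zero]
  have hBD : ∀ x : WD T, |B x / uu N - D x| ≤ M * ε + 3 * M * ((if T' ≤ hgt x.1 ∧ hgt x.1 ≤ N then uu (N - hgt x.1) else 0) / uu N) := by
    intro x
    set j := hgt x.1 with hj
    have hht : ht (curve N x.1) = j / N := ht_curve (hgt_wd x).1 hN1
    have hfx := hM (curve N x.1)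
    have hfx0 := abs_nonneg (f (curve N x.1))
    by_cases hx : j ≤ N
    · have hBx : B x = uu (N - j) * f (curve N x.1) := by
        rw [hB]
        show (if hgt x.1 ≤ N then _ else (0 : ℝ)) = _
        rw [if_pos hx]
      have e3 : B x / uu N - D x = (uu (N - j) / uu N - dn a δ (curve N x.1)) * f (curve N x.1) := by
        rw [hBx, hD]
        ring
      rw [e3, abs_mul]
      have hmj : ((N - j : ℕ) : ℝ) = N - j := Nat.cast_sub hx
      have hy : 1 - ht (curve N x.1) = ((N - j : ℕ) : ℝ) / N := by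
        rw [hht, hmj]
        field_simp
      by_cases hj2 : T' ≤ j
      · rw [if_pos ⟨hj2, hx⟩]
        have hu0 : 0 ≤ uu (N - j) / uu N := div_nonneg (uu_pos _).le hun.le
        have h1 : |uu (N - j) / uu N - dn a δ (curve N x.1)| ≤ 3 * (uu (N - j) / uu N) := by
          rcases le_or_gt (1 - δ) (ht (curve N x.1)) with h2 | h2
          · rw [dn_zero hδ h2, sub_zero, abs_of_nonneg hu0]
            linarith
          · have h3 : δ * N ≤ ((N - j : ℕ) : ℝ) := by
              have : δ < ((N - j : ℕ) : ℝ) / N := by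
                rw [← hy]
                linarith
              rw [lt_div_iff₀ hNr] at this
              exact this.le
            have h4 := hrat (N - j) h3
            have h5 := dn_le (a := a) hδ h2.le
            rw [hy] at h5
            have h6 := dn_nonneg (a := a) hδ (curve N x.1)
            have h7 : min ε (1 / 2) ≤ 1 / 2 := min_le_right _ _
            -- the power is at least one
            have h8 : 1 ≤ (((N - j : ℕ) : ℝ) / N) ^ (a - 1) := by
              have h9 : ((N - j : ℕ) : ℝ) / N ≤ 1 := by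
                rw [div_le_one hNr]
                exact_mod_cast Nat.sub_le _ _
              have h10 : 0 < ((N - j : ℕ) : ℝ) / N := by
                have : 0 < δ * N := by positivity
                have : 0 < ((N - j : ℕ) : ℝ) := by linarith
                positivity
              exact Real.one_le_rpow_of_pos_of_le_one_of_nonpos h10 h9 (by linarith)
            rw [abs_le] at h4
            rw [abs_le]
            constructor <;> linarith [h4.1, h4.2]
        calc |uu (N - j) / uu N - dn a δ (curve N x.1)| * |f (curve N x.1)| ≤ 3 * (uu (N - j) / uu N) * M :=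
              mul_le_mul h1 hfx hfx0 (by positivity)
          _ ≤ M * ε + 3 * M * (uu (N - j) / uu N) := by
              have : 0 ≤ M * ε := by positivity
              linarith
      · rw [if_neg (by tauto), zero_div, mul_zero, add_zero]
        have hjT : j < T' := not_le.1 hj2
        have hjr : (j : ℝ) < (1 - 2 * δ) * N := by
          rw [hT', Nat.lt_ceil] at hjT
          exact hjT
        have h2 : ht (curve N x.1) ≤ 1 - 2 * δ := by
          rw [hht, div_le_iff₀ hNr]
          exact hjr.le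
        have h3 : δ * N ≤ ((N - j : ℕ) : ℝ) := by
          rw [hmj]
          nlinarith
        have h4 := hrat (N - j) h3
        rw [dn_eq hδ h2, hy]
        have h5 : min ε (1 / 2) ≤ ε := min_le_left _ _
        calc _ ≤ ε * M := mul_le_mul (h4.trans h5) hfx hfx0 hε.le
          _ = M * ε := mul_comm _ _
    · have hBx : B x = 0 := by
        rw [hB]
        show (if hgt x.1 ≤ N then _ else (0 : ℝ)) = _
        rw [if_neg hx]
      have h2 : 1 - δ ≤ ht (curve N x.1) := by
        rw [hht, le_div_iff₀ hNr]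
        have : (N : ℝ) ≤ j := by exact_mod_cast (not_le.1 hx).le
        nlinarith
      have e3 : B x / uu N - D x = 0 := by
        rw [hBx, hD]
        show 0 / uu N - dn a δ (curve N x.1) * f (curve N x.1) = 0
        rw [dn_zero hδ h2]
        ring
      rw [e3, abs_zero, if_neg (by tauto), zero_div, mul_zero, add_zero]
      positivity
  -- summation
  have sE : HasSum (fun x : WD T => wr x.1 * (if hgt x.1 ≤ N then uu (N - hgt x.1) else 0)) (uu N) := Wn_total_hasSum hTN
  have sW := Wn_hasSum (n := N) hT1 hTT.le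
  have hBb : ∀ x : WD T, |B x| ≤ uu 0 * M := by
    intro x
    rw [hB]
    show |(if hgt x.1 ≤ N then _ else (0 : ℝ))| ≤ _
    split_ifs
    · rw [abs_mul, abs_of_nonneg (uu_pos _).le]
      exact mul_le_mul (uu_anti (Nat.zero_le _)) (hM _) (abs_nonneg _) (uu_pos 0).le
    · rw [abs_zero]
      exact mul_nonneg (uu_pos 0).le hM0
  have sB : Summable fun x : WD T => wr x.1 * B x := wd_summable T hBb
  have hAb : ∀ x : WD T, |A x| ≤ L * C1 * η * uu 0 + uu 0 * M := by
    intro x
    have h1 := hAB x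
    have h2 : (if hgt x.1 ≤ N then uu (N - hgt x.1) else 0) ≤ uu 0 := by
      split_ifs
      · exact uu_anti (Nat.zero_le _)
      · exact (uu_pos 0).le
    have h3 : L * C1 * η * (if hgt x.1 ≤ N then uu (N - hgt x.1) else 0) ≤ L * C1 * η * uu 0 :=
      mul_le_mul_of_nonneg_left h2 (by positivity)
    have h4 : |A x| ≤ |A x - B x| + |B x| := by
      have := abs_add_le (A x - B x) (B x)
      rwa [sub_add_cancel] at this
    linarith [hBb x]
  have sA : Summable fun x : WD T => wr x.1 * A x := wd_summable T hAb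
  have sD : Summable fun x : WD T => wr x.1 * D x := wd_summable T (g := D) fun x => hdf _
  have d1 : |∑' x : WD T, wr x.1 * A x - ∑' x : WD T, wr x.1 * B x| ≤ L * C1 * η * uu N := by
    rw [← sA.tsum_sub sB]
    have hb' : ∀ x : WD T, ‖wr x.1 * A x - wr x.1 * B x‖ ≤ L * C1 * η * (wr x.1 * (if hgt x.1 ≤ N then uu (N - hgt x.1) else 0)) := by
      intro x
      rw [← mul_sub, Real.norm_eq_abs, abs_mul, abs_of_nonneg (wr_nonneg x.1)]
      calc _ ≤ wr x.1 * (L * C1 * η * (if hgt x.1 ≤ N then uu (N - hgt x.1) else 0)) := mul_le_mul_of_nonneg_left (hAB x) (wr_nonneg x.1)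
        _ = _ := by ring
    have s3 := sE.mul_left (L * C1 * η)
    have s4 := Summable.of_nonneg_of_le (fun x => norm_nonneg _) hb' s3.summable
    rw [← Real.norm_eq_abs]
    refine (norm_tsum_le_tsum_norm s4).trans ((s4.tsum_le_tsum hb' s3.summable).trans (le_of_eq s3.tsum_eq))
  have d2 : |(∑' x : WD T, wr x.1 * B x) / uu N - ∑' x : WD T, wr x.1 * D x| ≤ M * ε + 3 * M * (Wn T T' N / uu N) := by
    have e4 : (∑' x : WD T, wr x.1 * B x) / uu N = ∑' x : WD T, wr x.1 * (B x / uu N) := by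
      rw [← tsum_div_const]
      exact tsum_congr fun x => by rw [mul_div_assoc]
    have sB' : Summable fun x : WD T => wr x.1 * (B x / uu N) := by
      refine (sB.div_const (uu N)).congr fun x => ?_
      rw [mul_div_assoc]
    rw [e4, ← sB'.tsum_sub sD]
    have hb' : ∀ x : WD T, ‖wr x.1 * (B x / uu N) - wr x.1 * D x‖ ≤ M * ε * wr x.1 +
        3 * M * (wr x.1 * (if T' ≤ hgt x.1 ∧ hgt x.1 ≤ N then uu (N - hgt x.1) else 0) / uu N) := by
      intro x
      rw [← mul_sub, Real.norm_eq_abs, abs_mul, abs_of_nonneg (wr_nonneg x.1)]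
      refine (mul_le_mul_of_nonneg_left (hBD x) (wr_nonneg x.1)).trans (le_of_eq ?_)
      ring
    have s3 := ((wdw_hasSum T).mul_left (M * ε)).add ((sW.div_const (uu N)).mul_left (3 * M))
    have s4 := Summable.of_nonneg_of_le (fun x => norm_nonneg _) hb' s3.summable
    rw [← Real.norm_eq_abs]
    refine (norm_tsum_le_tsum_norm s4).trans ((s4.tsum_le_tsum hb' s3.summable).trans (le_of_eq ?_))
    rw [s3.tsum_eq, mul_one]
  rw [e0, e1]
  have d3 : |(∑' x : WD T, wr x.1 * A x) / uu N - (∑' x : WD T, wr x.1 * B x) / uu N| ≤ L * C1 * η := by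
    rw [← sub_div, abs_div, abs_of_pos hun, div_le_iff₀ hun]
    exact d1
  have d4 : Wn T T' N / uu N ≤ C2 * (6 * δ / η) ^ a := by
    rw [div_le_iff₀ hun]
    exact hWn
  have d5 : L * C1 * η ≤ L * max C1 (3 * C2) * η := by
    gcongr
    exact le_max_left _ _
  have d6 : 3 * M * (Wn T T' N / uu N) ≤ M * (max C1 (3 * C2) * (6 * δ / η) ^ a) := by
    have h1 : 3 * M * (Wn T T' N / uu N) ≤ 3 * M * (C2 * (6 * δ / η) ^ a) := mul_le_mul_of_nonneg_left d4 (by positivity)
    have h2 : 3 * C2 * (6 * δ / η) ^ a ≤ max C1 (3 * C2) * (6 * δ / η) ^ a :=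
      mul_le_mul_of_nonneg_right (le_max_right _ _) (by positivity)
    have h3 := mul_le_mul_of_nonneg_left h2 hM0
    nlinarith
  have h7 := abs_sub_le ((∑' x : WD T, wr x.1 * A x) / uu N) ((∑' x : WD T, wr x.1 * B x) / uu N) (∑' x : WD T, wr x.1 * D x)
  calc _ ≤ _ := h7
    _ ≤ L * C1 * η + (M * ε + 3 * M * (Wn T T' N / uu N)) := add_le_add d3 d2
    _ ≤ L * max C1 (3 * C2) * η + (M * ε + M * (max C1 (3 * C2) * (6 * δ / η) ^ a)) := by linarith
    _ = _ := by ring

/-- (A) gives (C) -/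
theorem AC {a b : ℝ} (ha : 0 < a) (ha1 : a < 1) (hb : 0 < b)
    (hu : Tendsto (fun n : ℕ => (n : ℝ) ^ (1 - a) * uu n) atTop (𝓝 b)) (hs : Tendsto s l atTop)
    (hA : ∀ x : ℝ, 0 < x → ∀ G : ι → Cv → ℝ, Cls l G → ∃ z, Tendsto (fun i => HH pw ph (pq (s i)) (G i) ⌈x * s i⌉₊ 0) l (𝓝 z))
    {F : ι → Cv → ℝ} (hF : Cls l F) : ∃ z, Tendsto (fun i => brm (s i) (s i) (F i)) l (𝓝 z) := by
  obtain ⟨M, hM0, hM⟩ := hF.bd
  obtain ⟨L, hL0, hL⟩ := hF.lip
  obtain ⟨C, hC, h⟩ := br_cmp ha ha1 hb hu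
  refine conv_approx fun ε hε => ?_
  set η : ℝ := min (1 / 2) (ε / (4 * (L * C + 1))) with hη
  have hη0 : 0 < η := by positivity
  have hη1 : η ≤ 1 / 2 := min_le_left _ _
  have hη2 : L * C * η ≤ ε / 4 := by
    have h1 : η ≤ ε / (4 * (L * C + 1)) := min_le_right _ _
    rw [le_div_iff₀ (by positivity)] at h1
    nlinarith
  -- δ
  obtain ⟨δ, hδ0, hδ1, hδ2⟩ : ∃ δ : ℝ, 0 < δ ∧ δ ≤ η / 8 ∧ M * C * (6 * δ / η) ^ a ≤ ε / 4 := by
    set y : ℝ := (ε / (4 * (M * C + 1))) ^ (1 / a) with hy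
    have hy0 : 0 < y := by positivity
    refine ⟨min (η / 8) (η * y / 6), by positivity, min_le_left _ _, ?_⟩
    have h1 : 6 * min (η / 8) (η * y / 6) / η ≤ y := by
      rw [div_le_iff₀ hη0]
      have := min_le_right (η / 8) (η * y / 6)
      linarith
    have h2 : (6 * min (η / 8) (η * y / 6) / η) ^ a ≤ ε / (4 * (M * C + 1)) := by
      refine (Real.rpow_le_rpow (by positivity) h1 ha.le).trans (le_of_eq ?_)
      rw [hy, ← Real.rpow_mul (by positivity), one_div, inv_mul_cancel₀ ha.ne', Real.rpow_one]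
    refine (mul_le_mul_of_nonneg_left h2 (by positivity)).trans ?_
    rw [mul_div_assoc', div_le_iff₀ (by positivity)]
    have : 0 ≤ M * C := by positivity
    nlinarith
  obtain ⟨N₀, hN₀⟩ := h η δ (ε / (4 * (M + 1))) hη0 hη1 hδ0 hδ1 (by positivity)
  obtain ⟨z, hz⟩ := hA (1 - η) (by linarith) (fun i γ => dn a δ γ * F i γ) ((dn_test ha1 hδ0).cls.mul hF)
  refine ⟨_, ⟨z, hz⟩, ?_⟩
  filter_upwards [hs.eventually_ge_atTop N₀] with i hi
  refine (hN₀ (s i) hi (F i) M L (hF.inv i) hM0 (hM i) hL0 (hL i)).trans ?_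
  have h5 : M * (ε / (4 * (M + 1))) ≤ ε / 4 := by
    rw [mul_div_assoc', div_le_iff₀ (by positivity)]
    nlinarith
  calc L * C * η + M * (ε / (4 * (M + 1)) + C * (6 * δ / η) ^ a)
      = L * C * η + M * (ε / (4 * (M + 1))) + M * C * (6 * δ / η) ^ a := by ring
    _ ≤ ε / 4 + ε / 4 + ε / 4 := by linarith
    _ ≤ ε := by linarith

end

end Struct
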