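import Pool.Agent.Struct.C4

/-! STRUCT, C5: good polygons: concatenation, reversal, parts. -/

set_option autoImplicit false

namespace Struct

open Filter Topology Finset HexObs

open scoped ENNReal

/-- the identity -/
def Rep.id : Rep where
  f := ContinuousMap.id _
  mono := fun _ _ h => h
  zero := rfl
  one := rfl

lemma poly_congr {z z' : ℕ → ℂ} {n : ℕ} (h : ∀ i ≤ n, z i = z' i) : Tight.poly z n = Tight.poly z' n := by
  ext x
  rw [poly_eq, poly_eq, h 0 (Nat.zero_le _)]
  congr 1
  refine sum_congr rfl fun i hi => ?_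
  have := mem_range.1 hi
  rw [h i (by omega), h (i + 1) (by omega)]

lemma clamp_one_sub (y : ℝ) : 1 - max 0 (min 1 y) = max 0 (min 1 (1 - y)) := by
  rcases le_total y 0 with h | h
  · rw [min_eq_right (by linarith), max_eq_left h, min_eq_left (by linarith), max_eq_right zero_le_one, sub_zero]
  · rcases le_total 1 y with h' | h'
    · rw [min_eq_left h', max_eq_right zero_le_one, min_eq_right (by linarith), max_eq_left (by linarith), sub_self]
    · rw [min_eq_right h', max_eq_right h, min_eq_right (by linarith), max_eq_right (by linarith)]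

/-- reversed polygon -/
lemma poly_rev (z : ℕ → ℂ) (n : ℕ) (x : unitInterval) :
    Tight.poly (fun i => z n - z (n - i)) n x = z n - Tight.poly z n (unitInterval.symm x) := by
  rw [poly_eq, poly_eq, Nat.sub_zero, sub_self, zero_add]
  have h1 : z n - (z 0 + ∑ i ∈ range n, ((max 0 (min 1 (((unitInterval.symm x : unitInterval) : ℝ) * n - i)) : ℝ) : ℂ) * (z (i + 1) - z i)) =
      ∑ i ∈ range n, ((1 - max 0 (min 1 (((unitInterval.symm x : unitInterval) : ℝ) * n - i)) : ℝ) : ℂ) * (z (i + 1) - z i) := by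
    have h2 : z n - z 0 = ∑ i ∈ range n, (z (i + 1) - z i) := (sum_range_sub _ _).symm
    rw [← sub_sub, h2, ← sum_sub_distrib]
    refine sum_congr rfl fun i _ => ?_
    push_cast
    ring
  rw [h1, ← sum_range_reflect]
  refine sum_congr rfl fun i hi => ?_
  have hi' := mem_range.1 hi
  rw [clamp_one_sub, unitInterval.coe_symm_eq]
  have e1 : n - (n - 1 - i) = i + 1 := by omega
  have e2 : n - (n - 1 - i + 1) = i := by omega
  rw [e1, e2]
  have e3 : (x : ℝ) * n - ((n - 1 - i : ℕ) : ℝ) = 1 - ((1 - (x : ℝ)) * n - i) := by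
    have : ((n - 1 - i : ℕ) : ℝ) = n - 1 - i := by
      rw [Nat.cast_sub (by omega), Nat.cast_sub (by omega)]
      simp
    rw [this]
    ring
  rw [e3]
  ring

/-- the time change of a concatenation -/
lemma poly_cat' (z y v : ℕ → ℂ) {a b : ℕ} (ha : 1 ≤ a) (hb : 1 ≤ b) (h1 : ∀ i ≤ a, z i = y i) (hv0 : v 0 = 0)
    (h2 : ∀ i ≤ b, z (a + i) = y a + v i) : ∃ σ : Rep, (Tight.poly z (a + b)).comp σ.f = cat (Tight.poly y a) (Tight.poly v b) := by
  have ha0 : (0 : ℝ) < a := by exact_mod_cast ha
  have hb0 : (0 : ℝ) < b := by exact_mod_cast hb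
  have hab : (0 : ℝ) < (a : ℝ) + b := by linarith
  let σ : Rep :=
    { f := ⟨fun u => ⟨((a : ℝ) * al.f u + b * be.f u) / (a + b), by
        have h1 := (al.f u).2
        have h2 := (be.f u).2
        constructor
        · have := mul_nonneg ha0.le h1.1
          have := mul_nonneg hb0.le h2.1
          positivity
        · rw [div_le_one hab]
          have := mul_le_mul_of_nonneg_left h1.2 ha0.le
          have := mul_le_mul_of_nonneg_left h2.2 hb0.le
          linarith⟩, by fun_prop⟩
      mono := by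
        intro u v huv
        have h1 : (al.f u : ℝ) ≤ al.f v := al.mono huv
        have h2 : (be.f u : ℝ) ≤ be.f v := be.mono huv
        show ((a : ℝ) * al.f u + b * be.f u) / (a + b) ≤ ((a : ℝ) * al.f v + b * be.f v) / (a + b)
        gcongr
      zero := by
        apply Subtype.ext
        show ((a : ℝ) * al.f 0 + b * be.f 0) / (a + b) = 0
        rw [al.zero, be.zero]
        simp
      one := by
        apply Subtype.ext
        show ((a : ℝ) * al.f 1 + b * be.f 1) / (a + b) = 1
        rw [al.one, be.one]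
        rw [Set.Icc.coe_one, mul_one, mul_one, div_self hab.ne'] }
  refine ⟨σ, ?_⟩
  ext x
  show Tight.poly z (a + b) (σ.f x) = Tight.poly y a (al.f x) + Tight.poly v b (be.f x)
  have hσ : ((σ.f x : unitInterval) : ℝ) * ((a : ℝ) + b) = a * al.f x + b * be.f x := by
    show ((a : ℝ) * al.f x + b * be.f x) / (a + b) * ((a : ℝ) + b) = _
    rw [div_mul_cancel₀ _ hab.ne']
  rw [poly_eq, poly_eq, poly_eq, sum_range_add, hv0, h1 0 (by omega), zero_add]
  have e1 : ∀ i ∈ range a, ((max 0 (min 1 (((σ.f x : unitInterval) : ℝ) * ((a + b : ℕ) : ℝ) - i)) : ℝ) : ℂ) * (z (i + 1) - z i) =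
      ((max 0 (min 1 (((al.f x : unitInterval) : ℝ) * a - i)) : ℝ) : ℂ) * (y (i + 1) - y i) := by
    intro i hi
    have hi' := mem_range.1 hi
    rw [h1 (i + 1) (by omega), h1 i (by omega)]
    congr 2
    push_cast
    rw [hσ]
    have h3 : (i : ℝ) + 1 ≤ a := by exact_mod_cast hi'
    rcases al_be x with h | h
    · rw [h]
      have h4 : 0 ≤ (b : ℝ) * be.f x := mul_nonneg hb0.le (be.f x).2.1
      rw [Set.Icc.coe_one, min_eq_left (by linarith), min_eq_left (by linarith)]
    · rw [h, Set.Icc.coe_zero, mul_zero, add_zero, mul_comm]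
  have e2 : ∀ i ∈ range b, ((max 0 (min 1 (((σ.f x : unitInterval) : ℝ) * ((a + b : ℕ) : ℝ) - ((a + i : ℕ) : ℝ))) : ℝ) : ℂ) *
        (z (a + i + 1) - z (a + i)) =
      ((max 0 (min 1 (((be.f x : unitInterval) : ℝ) * b - i)) : ℝ) : ℂ) * (v (i + 1) - v i) := by
    intro i hi
    have hi' := mem_range.1 hi
    rw [add_assoc, h2 (i + 1) (by omega), h2 i (by omega)]
    have e3 : y a + v (i + 1) - (y a + v i) = v (i + 1) - v i := by ring
    rw [e3]
    congr 2
    push_cast
    rw [hσ]
    have h3 : (0 : ℝ) ≤ i := Nat.cast_nonneg i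
    rcases al_be x with h | h
    · rw [h, Set.Icc.coe_one]
      congr 2
      ring
    · rw [h, Set.Icc.coe_zero, mul_zero, add_zero, zero_mul]
      have h4 : (a : ℝ) * al.f x ≤ a * 1 := mul_le_mul_of_nonneg_left (al.f x).2.2 ha0.le
      rw [min_eq_right (by linarith), max_eq_left (by linarith), min_eq_right (by linarith), max_eq_left (by linarith)]
  rw [sum_congr rfl e1, sum_congr rfl e2]
  ring

lemma Good.of_comp {M α : NNReal} {γ : Cv} (σ : Rep) (h : Good M α (γ.comp σ.f)) : Good M α γ := by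
  obtain ⟨ρ, h1, h2⟩ := h
  exact ⟨σ.comp ρ, h1, h2⟩

/-- concatenation of good curves -/
theorem Good.cat {M α : NNReal} {a b : Cv} (ha : Good M α a) (hb : Good M α b) : Good (2 * 2 ^ (α : ℝ) * M) α (cat a b) := by
  obtain ⟨ρ, a1, a2⟩ := ha
  obtain ⟨ρ', b1, b2⟩ := hb
  have hab : ∀ u, (ρ.comp al).f u = 1 ∨ (ρ'.comp be).f u = 0 := by
    intro u
    rcases al_be u with h | h
    · left
      show ρ.f (al.f u) = 1
      rw [h, ρ.one]
    · right
      show ρ'.f (be.f u) = 0
      rw [h, ρ'.zero]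
  have e := cat_eq a b _ _ hab
  refine ⟨mid (ρ.comp al) (ρ'.comp be), ?_, ?_⟩
  · rw [← e]
    show (a.comp ρ.f) (al.f 0) + (b.comp ρ'.f) (be.f 0) = 0
    rw [al.zero, be.zero, a1, b1, add_zero]
  · rw [← e]
    intro x y
    show edist ((a.comp ρ.f) (al.f x) + (b.comp ρ'.f) (be.f x)) ((a.comp ρ.f) (al.f y) + (b.comp ρ'.f) (be.f y)) ≤ _
    have hal : edist (al.f x) (al.f y) ≤ 2 * edist x y := by
      rw [edist_dist, edist_dist, ← ENNReal.ofReal_ofNat 2, ← ENNReal.ofReal_mul (by norm_num)]
      apply ENNReal.ofReal_le_ofReal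
      rw [Subtype.dist_eq, Subtype.dist_eq, Real.dist_eq, Real.dist_eq, al_coe, al_coe]
      refine (abs_min_sub_min_le_max _ _ _ _).trans ?_
      rw [sub_self, abs_zero]
      refine max_le (by positivity) (le_of_eq ?_)
      rw [← mul_sub, abs_mul, abs_of_pos (by norm_num : (0 : ℝ) < 2)]
    have hbe : edist (be.f x) (be.f y) ≤ 2 * edist x y := by
      rw [edist_dist, edist_dist, ← ENNReal.ofReal_ofNat 2, ← ENNReal.ofReal_mul (by norm_num)]
      apply ENNReal.ofReal_le_ofReal
      rw [Subtype.dist_eq, Subtype.dist_eq, Real.dist_eq, Real.dist_eq, be_coe, be_coe]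
      refine (abs_max_sub_max_le_max _ _ _ _).trans ?_
      rw [sub_self, abs_zero]
      refine max_le (by positivity) (le_of_eq ?_)
      have : 2 * (x : ℝ) - 1 - (2 * y - 1) = 2 * (x - y) := by ring
      rw [this, abs_mul, abs_of_pos (by norm_num : (0 : ℝ) < 2)]
    have h1 : edist ((a.comp ρ.f) (al.f x)) ((a.comp ρ.f) (al.f y)) ≤ M * (2 ^ (α : ℝ) * edist x y ^ (α : ℝ)) := by
      refine (a2 _ _).trans ?_
      gcongr
      rw [← ENNReal.mul_rpow_of_nonneg 2 (edist x y) α.coe_nonneg]
      exact ENNReal.rpow_le_rpow hal α.coe_nonneg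
    have h2 : edist ((b.comp ρ'.f) (be.f x)) ((b.comp ρ'.f) (be.f y)) ≤ M * (2 ^ (α : ℝ) * edist x y ^ (α : ℝ)) := by
      refine (b2 _ _).trans ?_
      gcongr
      rw [← ENNReal.mul_rpow_of_nonneg 2 (edist x y) α.coe_nonneg]
      exact ENNReal.rpow_le_rpow hbe α.coe_nonneg
    refine (edist_add_add_le _ _ _ _).trans ((add_le_add h1 h2).trans (le_of_eq ?_))
    rw [ENNReal.coe_mul, ENNReal.coe_mul, ENNReal.coe_rpow_of_nonneg _ α.coe_nonneg, ENNReal.coe_ofNat]
    ring

/-- reversed polygon -/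
theorem Good.rev {M α : NNReal} {z : ℕ → ℂ} {n : ℕ} (h : Good M α (Tight.poly z n)) :
    Good M α (Tight.poly (fun i => z n - z (n - i)) n) := by
  obtain ⟨ρ, h1, h2⟩ := h
  let ρ' : Rep :=
    { f := ⟨fun x => unitInterval.symm (ρ.f (unitInterval.symm x)), by fun_prop⟩
      mono := by
        intro x y hxy
        have e1 : unitInterval.symm y ≤ unitInterval.symm x := by
          rw [← Subtype.coe_le_coe, unitInterval.coe_symm_eq, unitInterval.coe_symm_eq]
          have : (x : ℝ) ≤ y := hxy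
          linarith
        have e2 := ρ.mono e1
        show unitInterval.symm (ρ.f (unitInterval.symm x)) ≤ unitInterval.symm (ρ.f (unitInterval.symm y))
        rw [← Subtype.coe_le_coe, unitInterval.coe_symm_eq, unitInterval.coe_symm_eq]
        have : (ρ.f (unitInterval.symm y) : ℝ) ≤ ρ.f (unitInterval.symm x) := e2
        linarith
      zero := by
        show unitInterval.symm (ρ.f (unitInterval.symm 0)) = 0
        rw [unitInterval.symm_zero, ρ.one, unitInterval.symm_one]
      one := by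
        show unitInterval.symm (ρ.f (unitInterval.symm 1)) = 1
        rw [unitInterval.symm_one, ρ.zero, unitInterval.symm_zero] }
  have key : ∀ x, ((Tight.poly (fun i => z n - z (n - i)) n).comp ρ'.f) x = z n - ((Tight.poly z n).comp ρ.f) (unitInterval.symm x) := by
    intro x
    show Tight.poly (fun i => z n - z (n - i)) n (unitInterval.symm (ρ.f (unitInterval.symm x))) = _
    rw [poly_rev, unitInterval.symm_symm]
    rfl
  refine ⟨ρ', ?_, ?_⟩
  · show Tight.poly (fun i => z n - z (n - i)) n (ρ'.f 0) = 0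
    rw [ρ'.zero, Tight.poly_zero, Nat.sub_zero, sub_self]
  · intro x y
    rw [key, key, edist_sub_left]
    refine (h2 _ _).trans (le_of_eq ?_)
    congr 2
    rw [edist_dist, edist_dist]
    congr 1
    rw [Subtype.dist_eq, Subtype.dist_eq, Real.dist_eq, Real.dist_eq, unitInterval.coe_symm_eq, unitInterval.coe_symm_eq]
    have : 1 - (x : ℝ) - (1 - y) = -(x - y) := by ring
    rw [this, abs_neg]

end Struct
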