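import Pool.Agent.Struct.C5

/-! STRUCT, C6: parts and reversals of good words. -/

set_option autoImplicit false

namespace Struct

open Filter Topology Finset HexObs

open scoped ENNReal

/-- the final part of a good polygon -/
theorem Good.suffix {M α : NNReal} {z v : ℕ → ℂ} {a b : ℕ} (hb : 1 ≤ b) (hv0 : v 0 = 0) (h2 : ∀ i ≤ b, z (a + i) = z a + v i)
    (hG : Good M α (Tight.poly z (a + b))) : Good M α (Tight.poly v b) := by
  obtain ⟨R, -, hH⟩ := hG
  have ha0 : (0 : ℝ) ≤ a := Nat.cast_nonneg a
  have hb0 : (0 : ℝ) < b := by exact_mod_cast hb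
  let β := aff (((a : ℝ) + b) / b) (-(a : ℝ) / b) (by positivity) (by
    rw [neg_div]
    have : 0 ≤ (a : ℝ) / b := by positivity
    linarith) (by
    have : ((a : ℝ) + b) / b + -(a : ℝ) / b = 1 := by
      field_simp
      ring
    rw [this])
  have hβ : ∀ x : unitInterval, ((β.f x : unitInterval) : ℝ) * b = max 0 (((a : ℝ) + b) * (x : ℝ) - a) := by
    intro x
    rw [aff_coe]
    have h3 : ((a : ℝ) + b) / b * x + -(a : ℝ) / b ≤ 1 := by
      rw [div_mul_eq_mul_div, ← add_div, div_le_one hb0]
      have := mul_le_mul_of_nonneg_left x.2.2 (show 0 ≤ (a : ℝ) + b by positivity)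
      linarith
    rw [min_eq_right h3, max_mul_of_nonneg _ _ hb0.le, zero_mul]
    congr 1
    field_simp
    ring
  have hz : ∀ x : unitInterval, (a : ℝ) ≤ ((a : ℝ) + b) * (x : ℝ) → Tight.poly z (a + b) x = z a + Tight.poly v b (β.f x) := by
    intro x hx
    rw [poly_eq, poly_eq, hβ, sum_range_add, hv0, zero_add]
    have e1 : ∀ i ∈ range a, ((max 0 (min 1 ((x : ℝ) * ((a + b : ℕ) : ℝ) - i)) : ℝ) : ℂ) * (z (i + 1) - z i) = z (i + 1) - z i := by
      intro i hi
      have hi' := mem_range.1 hi
      have h3 : (i : ℝ) + 1 ≤ a := by exact_mod_cast hi'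
      have h4 : 1 ≤ (x : ℝ) * ((a + b : ℕ) : ℝ) - i := by
        push_cast
        linarith
      rw [min_eq_left h4, max_eq_right zero_le_one]
      simp
    have e2 : ∀ i ∈ range b, ((max 0 (min 1 ((x : ℝ) * ((a + b : ℕ) : ℝ) - ((a + i : ℕ) : ℝ))) : ℝ) : ℂ) *
          (z (a + i + 1) - z (a + i)) =
        ((max 0 (min 1 (max 0 (((a : ℝ) + b) * (x : ℝ) - a) - i)) : ℝ) : ℂ) * (v (i + 1) - v i) := by
      intro i hi
      have hi' := mem_range.1 hi
      rw [add_assoc, h2 (i + 1) (by omega), h2 i (by omega)]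
      have e3 : z a + v (i + 1) - (z a + v i) = v (i + 1) - v i := by ring
      rw [e3, max_eq_right (show 0 ≤ ((a : ℝ) + b) * (x : ℝ) - a by linarith)]
      congr 4
      push_cast
      ring
    rw [sum_congr rfl e1, sum_congr rfl e2, sum_range_sub]
    ring
  have hab : (0 : ℝ) < (a : ℝ) + b := by linarith
  let θ0 : unitInterval := ⟨(a : ℝ) / (a + b), by positivity, by
    rw [div_le_one hab]
    linarith⟩
  obtain ⟨θ, hθr⟩ : ∃ θ, R.f θ = θ0 := by
    have h3 : θ0 ∈ Set.Icc (R.f 0) (R.f 1) := by
      rw [R.zero, R.one]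
      exact θ0.2
    obtain ⟨θ, h4⟩ := intermediate_value_univ (0 : unitInterval) 1 R.f.continuous h3
    exact ⟨θ, h4⟩
  let lam : C(unitInterval, unitInterval) := ⟨fun y => ⟨(θ : ℝ) + (1 - θ) * y, by
    have h1 := θ.2
    have h2 := y.2
    constructor
    · have := mul_nonneg (sub_nonneg.2 h1.2) h2.1
      linarith [h1.1]
    · have := mul_le_mul_of_nonneg_left h2.2 (sub_nonneg.2 h1.2)
      linarith⟩, by fun_prop⟩
  have hlam0 : lam 0 = θ := by
    apply Subtype.ext
    show (θ : ℝ) + (1 - θ) * ((0 : unitInterval) : ℝ) = θ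
    rw [Set.Icc.coe_zero, mul_zero, add_zero]
  have hlam1 : lam 1 = 1 := by
    apply Subtype.ext
    show (θ : ℝ) + (1 - θ) * ((1 : unitInterval) : ℝ) = 1
    rw [Set.Icc.coe_one]
    ring
  have hlamm : Monotone lam := by
    intro x y hxy
    have h1 : (x : ℝ) ≤ y := hxy
    show (θ : ℝ) + (1 - θ) * x ≤ (θ : ℝ) + (1 - θ) * y
    have := mul_le_mul_of_nonneg_left h1 (sub_nonneg.2 θ.2.2)
    linarith
  have hlamθ : ∀ y, θ ≤ lam y := fun y => by
    rw [← hlam0]
    exact hlamm y.2.1
  let ρ : Rep :=
    { f := β.f.comp (R.f.comp lam)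
      mono := fun x y hxy => β.mono (R.mono (hlamm hxy))
      zero := by
        show β.f (R.f (lam 0)) = 0
        rw [hlam0, hθr]
        apply Subtype.ext
        have h3 := hβ θ0
        have h4 : ((a : ℝ) + b) * ((θ0 : unitInterval) : ℝ) - a = 0 := by
          show ((a : ℝ) + b) * ((a : ℝ) / (a + b)) - a = 0
          rw [mul_div_cancel₀ _ hab.ne', sub_self]
        rw [h4, max_self] at h3
        exact (mul_eq_zero.1 h3).resolve_right hb0.ne'
      one := by
        show β.f (R.f (lam 1)) = 1
        rw [hlam1, R.one, β.one] }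
  have hg : ∀ y, ((Tight.poly v b).comp ρ.f) y = ((Tight.poly z (a + b)).comp R.f) (lam y) - z a := by
    intro y
    show Tight.poly v b (β.f (R.f (lam y))) = Tight.poly z (a + b) (R.f (lam y)) - z a
    rw [hz]
    · ring
    · have h3 : θ0 ≤ R.f (lam y) := by
        rw [← hθr]
        exact R.mono (hlamθ y)
      have h4 : (a : ℝ) / (a + b) ≤ ((R.f (lam y) : unitInterval) : ℝ) := h3
      rw [div_le_iff₀ hab] at h4
      linarith
  refine ⟨ρ, ?_, ?_⟩
  · show Tight.poly v b (ρ.f 0) = 0
    rw [ρ.zero, Tight.poly_zero, hv0]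
  · intro x y
    rw [hg, hg, edist_sub_right]
    refine (hH _ _).trans ?_
    gcongr
    rw [edist_dist, edist_dist]
    apply ENNReal.ofReal_le_ofReal
    rw [Subtype.dist_eq, Subtype.dist_eq, Real.dist_eq, Real.dist_eq]
    have e : ((lam x : unitInterval) : ℝ) - (lam y : unitInterval) = (1 - θ) * (x - y) := by
      show (θ : ℝ) + (1 - θ) * x - ((θ : ℝ) + (1 - θ) * y) = _
      ring
    rw [e, abs_mul, abs_of_nonneg (sub_nonneg.2 θ.2.2)]
    have := abs_nonneg ((x : ℝ) - y)
    have := θ.2.1
    nlinarith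

/-- the first part of a good polygon -/
theorem Good.initial {M α : NNReal} {z : ℕ → ℂ} {a b : ℕ} (ha : 1 ≤ a) (hz0 : z 0 = 0) (hG : Good M α (Tight.poly z (a + b))) :
    Good M α (Tight.poly z a) := by
  have h1 := hG.rev
  have h2 : Good M α (Tight.poly (fun i => z a - z (a - i)) a) := by
    rw [add_comm a b] at h1
    refine Good.suffix (a := b) (b := a) ha (by rw [Nat.sub_zero, sub_self]) ?_ h1
    intro i hi
    have e1 : b + a - (b + i) = a - i := by omega
    have e2 : b + a - b = a := by omega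
    show z (b + a) - z (b + a - (b + i)) = z (b + a) - z (b + a - b) + (z a - z (a - i))
    rw [e1, e2]
    ring
  have h3 := h2.rev
  have e : Tight.poly (fun i => (z a - z (a - a)) - (z a - z (a - (a - i)))) a = Tight.poly z a := by
    refine poly_congr fun i hi => ?_
    have e1 : a - (a - i) = i := by omega
    show (z a - z (a - a)) - (z a - z (a - (a - i))) = z i
    rw [e1, Nat.sub_self, hz0]
    ring
  rw [e] at h3
  exact h3

/-- vertices of the reversed word -/
lemma zp_rev {n : ℕ} {G : List Bool} (hG : G ∈ Brd n) {i : ℕ} (hi : i ≤ G.length + 1) :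
    zp (rev G) i = zp G (G.length + 1) - zp G (G.length + 1 - i) := by
  unfold zp
  rw [vx_rot (mem_Brd.1 hG).2.2.1 hi, emb_sub, sub_mul]
  rfl

/-- the last part of a bridge whose reversal is good -/
theorem good_top {p v : List Bool} {c d : ℕ} (hp : p ∈ Brd c) (hp0 : p ≠ []) (hv : v ∈ Brd d) (hv0 : v ≠ []) {N : ℕ}
    {M α : NNReal} (h : Good M α (curve N (rev (p ++ v)))) : Good M α (curve N v) := by
  set G := p ++ v with hG
  have hGB : G ∈ Brd (c + d) := Brd_append hp hv
  set m := G.length with hm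
  let y : ℕ → ℂ := fun i => (zp G (i + 1) - zp G 1) / N
  have hpl : 1 ≤ p.length := by
    rcases Nat.eq_zero_or_pos p.length with h0 | h0
    · exact absurd (List.length_eq_zero_iff.1 h0) hp0
    · exact h0
  have hvl : 1 ≤ v.length := by
    rcases Nat.eq_zero_or_pos v.length with h0 | h0
    · exact absurd (List.length_eq_zero_iff.1 h0) hv0
    · exact h0
  have hml : m = p.length + v.length := by rw [hm, hG, List.length_append]
  have e1 : curve N (rev G) = Tight.poly (fun i => y m - y (m - i)) m := by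
    unfold curve
    rw [rev_length]
    refine poly_congr fun i hi => ?_
    show zp (rev G) i / N = (zp G (m + 1) - zp G 1) / N - (zp G (m - i + 1) - zp G 1) / N
    rw [zp_rev hGB (by omega)]
    have e2 : G.length + 1 - i = m - i + 1 := by omega
    rw [e2, ← hm]
    ring
  rw [e1] at h
  have h1 := h.rev
  have e2 : Tight.poly (fun i => (y m - y (m - m)) - (y m - y (m - (m - i)))) m = Tight.poly y m := by
    refine poly_congr fun i hi => ?_
    have e3 : m - (m - i) = i := by omega
    show (y m - y (m - m)) - (y m - y (m - (m - i))) = y i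
    rw [e3, Nat.sub_self]
    have e4 : y 0 = 0 := by
      show (zp G 1 - zp G 1) / N = 0
      rw [sub_self, zero_div]
    rw [e4]
    ring
  rw [e2] at h1
  have h3 : m = (p.length - 1) + (v.length + 1) := by omega
  rw [h3] at h1
  have h4 : Good M α (Tight.poly (fun i => zp v i / N) (v.length + 1)) := by
    refine Good.suffix (a := p.length - 1) (by omega) (by rw [zp_zero, zero_div]) ?_ h1
    intro i _
    show (zp G (p.length - 1 + i + 1) - zp G 1) / N = (zp G (p.length - 1 + 1) - zp G 1) / N + zp v i / N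
    have e5 : p.length - 1 + i + 1 = p.length + i := by omega
    have e6 : p.length - 1 + 1 = p.length := by omega
    rw [e5, e6, hG, zp_cat hp, zp_left p v le_rfl]
    ring
  exact Good.initial (z := fun i => zp v i / N) hvl (by rw [zp_zero, zero_div]) h4

lemma one_le_two_rpow (α : NNReal) : (1 : NNReal) ≤ 2 * 2 ^ (α : ℝ) := by
  have h1 : (1 : NNReal) ≤ 2 ^ (α : ℝ) := NNReal.one_le_rpow (by norm_num) α.coe_nonneg
  calc (1 : NNReal) ≤ 2 * 1 := by norm_num
    _ ≤ _ := by gcongr

/-- concatenation of good words -/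
theorem good_append {s v : List Bool} {c : ℕ} (hs : s ∈ Brd c) {N : ℕ} {M α : NNReal} (h1 : Good M α (curve N s))
    (h2 : v ≠ [] → Good M α (curve N v)) : Good (2 * 2 ^ (α : ℝ) * M) α (curve N (s ++ v)) := by
  have hM : M ≤ 2 * 2 ^ (α : ℝ) * M := by
    calc M = 1 * M := (one_mul M).symm
      _ ≤ _ := by gcongr; exact one_le_two_rpow α
  rcases Nat.eq_zero_or_pos v.length with h0 | h0
  · have e : v = [] := List.length_eq_zero_iff.1 h0
    rw [e, List.append_nil]
    exact h1.mono hM
  · have hv : v ≠ [] := fun e => by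
      rw [e] at h0
      exact absurd h0 (by simp)
    rcases Nat.eq_zero_or_pos s.length with h3 | h3
    · have e : s = [] := List.length_eq_zero_iff.1 h3
      rw [e, List.nil_append]
      exact (h2 hv).mono hM
    · obtain ⟨σ, hσ⟩ := poly_cat' (fun i => zp (s ++ v) i / N) (fun i => zp s i / N) (fun i => zp v i / N) h3 h0
        (fun i hi => by rw [zp_left s v hi]) (by rw [zp_zero, zero_div]) (fun i _ => by rw [zp_cat hs, add_div])
      refine Good.of_comp σ ?_
      unfold curve
      rw [List.length_append, hσ]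
      exact Good.cat h1 (h2 hv)

end Struct
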