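import Pool.Agent.Struct.C6
import Pool.Agent.CutH.Words

/-! STRUCT, C7: most bridges are good. -/

set_option autoImplicit false

namespace Struct

open Filter Topology Finset HexObs

open scoped ENNReal

/-- the part of the word up to its first cut at or above T is bad -/
def Bad1 (M α : NNReal) (N T : ℕ) (t : List Bool) : Prop :=
  ∃ a v j d, a ∈ FC T j ∧ v ∈ Brd d ∧ t = a ++ v ∧ ¬ Good M α (curve N a)

lemma bad1_append {M α : NNReal} {N T : ℕ} (a : WD T) {d : ℕ} {v : List Bool} (hv : v ∈ Brd d) :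
    Bad1 M α N T (a.1 ++ v) ↔ ¬ Good M α (curve N a.1) := by
  constructor
  · rintro ⟨a', v', j, d', ha', hv', h, hn⟩
    rw [(FC_unique (hgt_wd a) ha' hv hv' h).1]
    exact hn
  · exact fun h => ⟨a.1, v, _, d, hgt_wd a, hv, rfl, h⟩

open Classical in
/-- the stopped part of a bridge is rarely bad -/
theorem bad_first {a b : ℝ} (ha : 0 < a) (ha1 : a < 1) (hb : 0 < b)
    (hu : Tendsto (fun n : ℕ => (n : ℝ) ^ (1 - a) * uu n) atTop (𝓝 b)) {α : NNReal}
    (H : ∀ ε : ℝ, 0 < ε → ∃ M : NNReal, ∀ T, 1 ≤ T → ∑' t, (if Good M α (curve T t) then 0 else vK T t) ≤ ε)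
    {ε : ℝ} (hε : 0 < ε) :
    ∃ (M : NNReal) (n₀ : ℕ), ∀ n T : ℕ, n₀ ≤ n → n ≤ 2 * T → 2 * T ≤ n + 2 →
      ∑' t : BD n, wr t.1 * (if Bad1 M α n T t.1 then 1 else 0) ≤ ε * uu n := by
  obtain ⟨C, hC, hW⟩ := Wn_pow ha ha1 hb hu
  obtain ⟨δ, hδ0, hδ1, hδ⟩ : ∃ δ : ℝ, 0 < δ ∧ δ ≤ 1 / 8 ∧ C * (8 * δ) ^ a ≤ ε / 2 := by
    have h1 : Tendsto (fun δ : ℝ => C * (8 * δ) ^ a) (𝓝[>] 0) (𝓝 (C * (8 * 0) ^ a)) := by
      refine Tendsto.mono_left ?_ nhdsWithin_le_nhds
      have : Continuous fun δ : ℝ => C * (8 * δ) ^ a :=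
        continuous_const.mul ((continuous_const.mul continuous_id).rpow_const fun x => Or.inr ha.le)
      exact this.tendsto 0
    rw [mul_zero, Real.zero_rpow ha.ne', mul_zero] at h1
    have h2 := h1.eventually_lt_const (show (0 : ℝ) < ε / 2 by positivity)
    have h3 : ∀ᶠ δ : ℝ in 𝓝[>] 0, δ ∈ Set.Ioo (0 : ℝ) (1 / 8) := Ioo_mem_nhdsGT (by norm_num)
    obtain ⟨δ, h4, h5⟩ := (h2.and h3).exists
    exact ⟨δ, h5.1, h5.2.le, h4.le⟩
  set K : ℝ := (δ / 2) ^ (a - 1) + 1 with hK
  have hK0 : 0 < K := by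
    have := Real.rpow_pos_of_pos (half_pos hδ0) (a - 1)
    positivity
  obtain ⟨N₀, hN₀⟩ := uu_ratio (κ := δ / 2) (ε := 1) ha1 hb hu (half_pos hδ0) one_pos
  obtain ⟨M, hM⟩ := H (ε / (2 * K)) (by positivity)
  refine ⟨M, max N₀ (max 8 ⌈2 / δ⌉₊), fun n T hn hT1 hT2 => ?_⟩
  have hn1 : N₀ ≤ n := (le_max_left _ _).trans hn
  have hn2 : 8 ≤ n := (le_max_left _ _).trans ((le_max_right _ _).trans hn)
  have hn3 : 2 ≤ δ * n := by
    have h1 : ⌈2 / δ⌉₊ ≤ n := (le_max_right _ _).trans ((le_max_right _ _).trans hn)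
    have h2 : 2 / δ ≤ n := (Nat.le_ceil _).trans (by exact_mod_cast h1)
    rw [div_le_iff₀ hδ0] at h2
    linarith
  have hnR : (8 : ℝ) ≤ n := by exact_mod_cast hn2
  set d := ⌊δ * n⌋₊ with hd
  have hd1 : (d : ℝ) ≤ δ * n := Nat.floor_le (by positivity)
  have hd2 : δ * n < d + 1 := Nat.lt_floor_add_one _
  have hd3 : (d : ℝ) ≤ n / 8 := by nlinarith
  have hd4 : d ≤ n := by
    have : (d : ℝ) ≤ n := by linarith
    exact_mod_cast this
  have hT1R : (n : ℝ) ≤ 2 * T := by exact_mod_cast hT1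
  have hT2R : 2 * (T : ℝ) ≤ n + 2 := by exact_mod_cast hT2
  have hTn : T ≤ n := by omega
  have hT0 : 1 ≤ T := by omega
  set T' := n - d with hT'
  have hT'R : (T' : ℝ) = n - d := by rw [hT', Nat.cast_sub hd4]
  have h7 : (T : ℝ) < T' := by rw [hT'R]; linarith
  have h8 : T < T' := by exact_mod_cast h7
  have h9 : n ≤ 2 * T' := by omega
  have h10 := hW T T' n hT0 h8 (by omega) h9
  have h11 : n - T' = d := by omega
  have h12 : ((T' - T : ℕ) : ℝ) = T' - T := by rw [Nat.cast_sub h8.le]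
  have hWn : Wn T T' n ≤ ε / 2 * uu n := by
    refine h10.trans (mul_le_mul_of_nonneg_right ((mul_le_mul_of_nonneg_left ?_ hC.le).trans hδ) (uu_pos n).le)
    refine Real.rpow_le_rpow (by positivity) ?_ ha.le
    rw [h11, h12, hT'R, div_le_iff₀ (by rw [hT'R] at h7; linarith)]
    nlinarith
  have hud : uu d ≤ K * uu n := by
    have h13 : δ / 2 * n ≤ d := by linarith
    have h14 := (abs_le.1 (hN₀ n d hn1 h13)).2
    have hn0 : (0 : ℝ) < n := by linarith
    have h15 : ((d : ℝ) / n) ^ (a - 1) ≤ (δ / 2) ^ (a - 1) := by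
      refine Real.rpow_le_rpow_of_nonpos (half_pos hδ0) ?_ (by linarith)
      rw [le_div_iff₀ hn0]
      exact h13
    have h16 : uu d / uu n ≤ K := by linarith
    rwa [div_le_iff₀ (uu_pos n)] at h16
  have hG : ∀ t, |(if Bad1 M α n T t then (1 : ℝ) else 0)| ≤ 1 := fun t => by split_ifs <;> simp
  rw [bd_split hTn (G := fun t => if Bad1 M α n T t then (1 : ℝ) else 0) (M := 1) hG]
  set e : ℕ → ℝ := fun j => if T' ≤ j ∧ j ≤ n then uu (n - j) else 0 with he
  have hW1 : HasSum (fun a : WD T => wr a.1 * e (hgt a.1)) (Wn T T' n) := Wn_hasSum hT0 h8.le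
  have hB0 : Summable fun a : WD T => wr a.1 * (if Good M α (curve T a.1) then (0 : ℝ) else 1) :=
    wd_summable T (g := fun a => if Good M α (curve T a.1) then (0 : ℝ) else 1) (M := 1) fun t => by split_ifs <;> simp
  have hB1 : ∑' a : WD T, wr a.1 * (if Good M α (curve T a.1) then (0 : ℝ) else 1) ≤ ε / (2 * K) := by
    have h13 := hM T hT0
    have h14 := vK_sub T fun t => if Good M α (curve T t) then (0 : ℝ) else 1
    have h15 : ∑' t : List Bool, vK T t * (if Good M α (curve T t) then (0 : ℝ) else 1) =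
        ∑' t, (if Good M α (curve T t) then 0 else vK T t) := by
      refine tsum_congr fun t => ?_
      split_ifs <;> simp
    rw [← h15, h14] at h13
    exact h13
  have hb1 : ∀ t : WD T, wr t.1 * (if hgt t.1 ≤ n then ∑' v : BD (n - hgt t.1), wr v.1 *
      (if Bad1 M α n T (t.1 ++ v.1) then (1 : ℝ) else 0) else 0) ≤
      uu d * (wr t.1 * (if Good M α (curve T t.1) then (0 : ℝ) else 1)) + wr t.1 * e (hgt t.1) := by
    intro t
    have hinner : (if hgt t.1 ≤ n then ∑' v : BD (n - hgt t.1), wr v.1 *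
        (if Bad1 M α n T (t.1 ++ v.1) then (1 : ℝ) else 0) else 0) ≤
        uu d * (if Good M α (curve T t.1) then (0 : ℝ) else 1) + e (hgt t.1) := by
      have he0 : 0 ≤ e (hgt t.1) := by
        show 0 ≤ (if T' ≤ hgt t.1 ∧ hgt t.1 ≤ n then uu (n - hgt t.1) else 0)
        split_ifs
        · exact (uu_pos _).le
        · exact le_rfl
      have hg0 : 0 ≤ uu d * (if Good M α (curve T t.1) then (0 : ℝ) else 1) := by
        refine mul_nonneg (uu_pos d).le ?_
        split_ifs <;> norm_num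
      by_cases h : hgt t.1 ≤ n
      · rw [if_pos h]
        have h13 : ∑' v : BD (n - hgt t.1), wr v.1 * (if Bad1 M α n T (t.1 ++ v.1) then (1 : ℝ) else 0) =
            uu (n - hgt t.1) * (if Good M α (curve n t.1) then (0 : ℝ) else 1) := by
          rw [← ((bd_hasSum (n - hgt t.1)).mul_right _).tsum_eq]
          refine tsum_congr fun v => ?_
          congr 1
          by_cases h14 : Good M α (curve n t.1)
          · rw [if_pos h14, if_neg fun h15 => (bad1_append t v.2).1 h15 h14]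
          · rw [if_neg h14, if_pos ((bad1_append t v.2).2 h14)]
        rw [h13]
        by_cases h14 : Good M α (curve n t.1)
        · rw [if_pos h14, mul_zero]
          linarith
        · have h15 : ¬ Good M α (curve T t.1) := by
            intro h16
            apply h14
            rw [curve_smul (show 1 ≤ n by omega) hT0]
            refine (h16.smul _).mono ?_
            have h17 : Real.nnabs ((T : ℝ) / n) ≤ 1 := by
              rw [← NNReal.coe_le_coe, Real.coe_nnabs, abs_of_nonneg (by positivity), NNReal.coe_one, div_le_one (by linarith)]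
              exact_mod_cast hTn
            calc Real.nnabs ((T : ℝ) / n) * M ≤ 1 * M := by gcongr
              _ = M := one_mul M
          rw [if_neg h14, if_neg h15, mul_one, mul_one]
          rcases Nat.lt_or_ge (hgt t.1) T' with h18 | h18
          · have : uu (n - hgt t.1) ≤ uu d := uu_anti (by omega)
            linarith
          · have : e (hgt t.1) = uu (n - hgt t.1) := if_pos ⟨h18, h⟩
            rw [this]
            linarith [(uu_pos d).le]
      · rw [if_neg h]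
        linarith
    calc _ ≤ wr t.1 * (uu d * (if Good M α (curve T t.1) then (0 : ℝ) else 1) + e (hgt t.1)) :=
          mul_le_mul_of_nonneg_left hinner (wr_nonneg t.1)
      _ = _ := by ring
  have hnn : ∀ t : WD T, 0 ≤ wr t.1 * (if hgt t.1 ≤ n then ∑' v : BD (n - hgt t.1), wr v.1 *
      (if Bad1 M α n T (t.1 ++ v.1) then (1 : ℝ) else 0) else 0) := by
    intro t
    refine mul_nonneg (wr_nonneg t.1) ?_
    split_ifs
    · refine tsum_nonneg fun v => mul_nonneg (wr_nonneg v.1) ?_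
      split_ifs <;> norm_num
    · exact le_rfl
  have hs2 := (hB0.mul_left (uu d)).add hW1.summable
  have hs1 := Summable.of_nonneg_of_le hnn hb1 hs2
  refine (hs1.tsum_le_tsum hb1 hs2).trans ?_
  rw [(hB0.mul_left (uu d)).tsum_add hW1.summable, tsum_mul_left, hW1.tsum_eq]
  have h19 : uu d * ∑' a : WD T, wr a.1 * (if Good M α (curve T a.1) then (0 : ℝ) else 1) ≤ ε / 2 * uu n := by
    calc _ ≤ (K * uu n) * (ε / (2 * K)) := by
          refine mul_le_mul hud hB1 (tsum_nonneg fun a => mul_nonneg (wr_nonneg _) ?_) (mul_nonneg hK0.le (uu_pos n).le)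
          split_ifs <;> norm_num
      _ = _ := by field_simp
  linarith

/-- a bridge whose stopped parts are good from below and from above is good -/
theorem good_two {M α : NNReal} {N n T : ℕ} (hT0 : 1 ≤ T) (hTn : T ≤ n) {t : List Bool} (ht : t ∈ Brd n)
    (h1 : ¬ Bad1 M α N T t) (h2 : ¬ Bad1 M α N (n - T + 1) (rev t)) : Good (2 * 2 ^ (α : ℝ) * M) α (curve N t) := by
  obtain ⟨⟨⟨x, hx⟩, ⟨v, hv'⟩⟩, hxv⟩ := (bdE hTn).surjective ⟨t, ht⟩
  have e1 : x.1 ++ v = t := congrArg Subtype.val hxv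
  obtain ⟨j, hj⟩ : ∃ j, j = hgt x.1 := ⟨_, rfl⟩
  have hxF : x.1 ∈ FC T j := by
    rw [hj]
    exact hgt_wd x
  have hv : v ∈ Brd (n - j) := by
    rw [hj]
    exact hv'
  have hTj : T ≤ j := hxF.2.1
  have hg1 : Good M α (curve N x.1) := by
    by_contra hn
    exact h1 ⟨x.1, v, j, _, hxF, hv, e1.symm, hn⟩
  rw [← e1]
  refine good_append hxF.1 hg1 fun hv0 => ?_
  rw [CutH.FC_eq hT0 hTj] at hxF
  obtain ⟨c, hc, a'', p, ha'', hp, hxap⟩ := hxF
  have hjn : j ≤ n := by
    rw [hj]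
    exact hx
  have h3 : rev (p ++ v) ∈ FC (n - T + 1) (n - c) := by
    rw [CutH.FC_eq (by omega) (by omega)]
    refine ⟨n - j, by omega, rev v, rev p, Brd_rev hv, ?_, rev_append _ _⟩
    have : n - c - (n - j) = j - c := by omega
    rw [this]
    exact Irr_rev hp
  have h4 : Good M α (curve N (rev (p ++ v))) := by
    by_contra hn
    refine h2 ⟨rev (p ++ v), rev a'', _, c, h3, Brd_rev ha'', ?_, hn⟩
    rw [← rev_append, ← List.append_assoc, ← hxap, e1]
  exact good_top hp.1 hp.2.1 hv hv0 h4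

/-- reversal of the bridges -/
def bdRev (n : ℕ) : BD n ≃ BD n where
  toFun t := ⟨rev t.1, Brd_rev t.2⟩
  invFun t := ⟨rev t.1, Brd_rev t.2⟩
  left_inv _ := Subtype.ext (rev_rev _)
  right_inv _ := Subtype.ext (rev_rev _)

open Classical in
/-- most bridges are good -/
theorem bridge_good {a b : ℝ} (ha : 0 < a) (ha1 : a < 1) (hb : 0 < b)
    (hu : Tendsto (fun n : ℕ => (n : ℝ) ^ (1 - a) * uu n) atTop (𝓝 b)) {α : NNReal}
    (H : ∀ ε : ℝ, 0 < ε → ∃ M : NNReal, ∀ T, 1 ≤ T → ∑' t, (if Good M α (curve T t) then 0 else vK T t) ≤ ε)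
    {ε : ℝ} (hε : 0 < ε) :
    ∃ (M : NNReal) (n₀ : ℕ), ∀ n : ℕ, n₀ ≤ n → ∑' t : BD n, wr t.1 * (if Good M α (curve n t.1) then 0 else 1) ≤ ε * uu n := by
  obtain ⟨M, n₀, h⟩ := bad_first ha ha1 hb hu H (half_pos hε)
  refine ⟨2 * 2 ^ (α : ℝ) * M, max n₀ 1, fun n hn => ?_⟩
  have hn1 : 1 ≤ n := (le_max_right _ _).trans hn
  have hn0 : n₀ ≤ n := (le_max_left _ _).trans hn
  set T := (n + 1) / 2 with hT
  have h1 := h n T hn0 (by omega) (by omega)
  have h2 := h n (n - T + 1) hn0 (by omega) (by omega)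
  have s1 : Summable fun t : BD n => wr t.1 * (if Bad1 M α n T t.1 then (1 : ℝ) else 0) :=
    bd_summable n (g := fun t => if Bad1 M α n T t.1 then (1 : ℝ) else 0) (M := 1) fun t => by split_ifs <;> simp
  have s2 : Summable fun t : BD n => wr t.1 * (if Bad1 M α n (n - T + 1) t.1 then (1 : ℝ) else 0) :=
    bd_summable n (g := fun t => if Bad1 M α n (n - T + 1) t.1 then (1 : ℝ) else 0) (M := 1) fun t => by split_ifs <;> simp
  have e2 : ∑' t : BD n, wr t.1 * (if Bad1 M α n (n - T + 1) (rev t.1) then (1 : ℝ) else 0) =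
      ∑' t : BD n, wr t.1 * (if Bad1 M α n (n - T + 1) t.1 then (1 : ℝ) else 0) := by
    rw [← (bdRev n).tsum_eq fun t : BD n => wr t.1 * (if Bad1 M α n (n - T + 1) t.1 then (1 : ℝ) else 0)]
    refine tsum_congr fun t => ?_
    show wr t.1 * _ = wr (rev t.1) * _
    have : wr (rev t.1) = wr t.1 := by
      unfold wr
      rw [wE_rev]
    rw [this]
    rfl
  have s3 : Summable fun t : BD n => wr t.1 * (if Bad1 M α n (n - T + 1) (rev t.1) then (1 : ℝ) else 0) :=
    bd_summable n (g := fun t => if Bad1 M α n (n - T + 1) (rev t.1) then (1 : ℝ) else 0) (M := 1) fun t => by split_ifs <;> simp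
  have s4 : Summable fun t : BD n => wr t.1 * (if Good (2 * 2 ^ (α : ℝ) * M) α (curve n t.1) then (0 : ℝ) else 1) :=
    bd_summable n (g := fun t => if Good (2 * 2 ^ (α : ℝ) * M) α (curve n t.1) then (0 : ℝ) else 1) (M := 1) fun t => by
      split_ifs <;> simp
  have hle : ∀ t : BD n, wr t.1 * (if Good (2 * 2 ^ (α : ℝ) * M) α (curve n t.1) then (0 : ℝ) else 1) ≤
      wr t.1 * (if Bad1 M α n T t.1 then (1 : ℝ) else 0) + wr t.1 * (if Bad1 M α n (n - T + 1) (rev t.1) then (1 : ℝ) else 0) := by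
    intro t
    rw [← mul_add]
    refine mul_le_mul_of_nonneg_left ?_ (wr_nonneg t.1)
    by_cases h5 : Good (2 * 2 ^ (α : ℝ) * M) α (curve n t.1)
    · rw [if_pos h5]
      split_ifs <;> norm_num
    · rw [if_neg h5]
      by_cases h6 : Bad1 M α n T t.1
      · rw [if_pos h6]
        split_ifs <;> norm_num
      · by_cases h7 : Bad1 M α n (n - T + 1) (rev t.1)
        · rw [if_pos h7, if_neg h6]
          norm_num
        · exact absurd (good_two (by omega) (by omega) t.2 h6 h7) h5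
  refine (s4.tsum_le_tsum hle (s1.add s3)).trans ?_
  rw [s1.tsum_add s3, e2]
  linarith

end Struct
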