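import Pool.Agent.Struct.C7

/-! STRUCT, C8: the bridges of all heights. -/

set_option autoImplicit false

namespace Struct

open Filter Topology Finset HexObs

open scoped ENNReal

/-- convergence of the bridges -/
def ConvC : Prop := ∀ F, Test F → ∃ z, Tendsto (fun n : ℕ => brm n n F) atTop (𝓝 z)

/-- bridges of all heights -/
abbrev SB := Σ c : ℕ, BD c

/-- their weights -/
noncomputable def vS (a : ℝ) (N : ℕ) (x : SB) : ℝ := (N : ℝ) ^ (-a) * (if x.1 ≤ N then wr x.2.1 else 0)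

/-- their curves -/
noncomputable def xS (N : ℕ) (x : SB) : Cv := curve N x.2.1

lemma vS_nonneg (a : ℝ) (N : ℕ) (x : SB) : 0 ≤ vS a N x := by
  unfold vS
  refine mul_nonneg (by positivity) ?_
  split_ifs
  · exact wr_nonneg _
  · exact le_rfl

lemma vS_inner (a : ℝ) (N c : ℕ) {G : BD c → ℝ} {M : ℝ} (hG : ∀ t, |G t| ≤ M) :
    HasSum (fun t : BD c => vS a N ⟨c, t⟩ * G t) (if c ≤ N then (N : ℝ) ^ (-a) * ∑' t : BD c, wr t.1 * G t else 0) := by
  unfold vS
  split_ifs with h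
  · have h1 := (bd_summable c (g := G) (M := M) hG).hasSum.mul_left ((N : ℝ) ^ (-a))
    refine h1.congr_fun ?_
    intro t
    ring
  · refine hasSum_zero.congr_fun ?_
    intro t
    ring

lemma vS_summable (a : ℝ) (N : ℕ) : Summable (vS a N) := by
  rw [summable_sigma_of_nonneg (vS_nonneg a N)]
  have h1 : ∀ c, HasSum (fun t : BD c => vS a N ⟨c, t⟩) (if c ≤ N then (N : ℝ) ^ (-a) * ∑' t : BD c, wr t.1 * 1 else 0) := by
    intro c
    have := vS_inner a N c (G := fun _ => (1 : ℝ)) (M := 1) fun _ => by simp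
    simpa using this
  refine ⟨fun c => (h1 c).summable, ?_⟩
  refine summable_of_ne_finset_zero (s := range (N + 1)) fun c hc => ?_
  rw [(h1 c).tsum_eq, if_neg]
  intro h
  exact hc (mem_range.2 (by omega))

/-- the sum over the bridges of all heights -/
lemma vS_tsum (a : ℝ) (N : ℕ) {G : SB → ℝ} {M : ℝ} (hG : ∀ x, |G x| ≤ M) :
    ∑' x, vS a N x * G x = (N : ℝ) ^ (-a) * ∑ c ∈ range (N + 1), ∑' t : BD c, wr t.1 * G ⟨c, t⟩ := by
  have hs : Summable fun x => vS a N x * G x := summable_mul (vS_nonneg a N) (vS_summable a N) hG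
  rw [hs.tsum_sigma, mul_sum]
  have h1 : ∀ c, ∑' t : BD c, vS a N ⟨c, t⟩ * G ⟨c, t⟩ = if c ≤ N then (N : ℝ) ^ (-a) * ∑' t : BD c, wr t.1 * G ⟨c, t⟩ else 0 :=
    fun c => (vS_inner a N c (G := fun t => G ⟨c, t⟩) (M := M) fun t => hG _).tsum_eq
  rw [tsum_congr h1, tsum_eq_sum (s := range (N + 1)) fun c hc => if_neg fun h => hc (mem_range.2 (by omega))]
  refine sum_congr rfl fun c hc => ?_
  rw [if_pos (by have := mem_range.1 hc; omega)]

lemma brm_mul (N n : ℕ) (F : Cv → ℝ) : ∑' t : BD n, wr t.1 * F (curve N t.1) = uu n * brm N n F := by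
  unfold brm
  rw [mul_div_cancel₀ _ (uu_pos n).ne']

lemma brm_smul {N n : ℕ} (hN : 1 ≤ N) (hn : 1 ≤ n) (F : Cv → ℝ) : brm N n F = brm n n fun x => F (((n : ℝ) / N) • x) := by
  unfold brm
  congr 1
  refine tsum_congr fun t => ?_
  rw [curve_smul hN hn]

lemma Test.smul {F : Cv → ℝ} (hF : Test F) (c : ℝ) : Test fun x => F (c • x) := by
  obtain ⟨M, hM0, hM⟩ := hF.bd
  obtain ⟨L, hL0, hL⟩ := hF.lip
  refine ⟨hF.inv.smul c, ⟨M, hM0, fun γ => hM _⟩, ⟨L * |c|, by positivity, fun γ γ' => ?_⟩⟩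
  refine (hL _ _).trans (le_of_eq ?_)
  rw [dist_smul', mul_assoc]

/-- the mean over the bridges depends continuously on the scale -/
lemma brm_scale_lip : ∃ C : ℝ, 0 < C ∧ ∀ (n : ℕ), 1 ≤ n → ∀ (F : Cv → ℝ) (M L : ℝ), Bd F M → 0 ≤ L → Lp F L → ∀ y y' : ℝ,
    |brm n n (fun x => F (y • x)) - brm n n (fun x => F (y' • x))| ≤ L * C * |y - y'| := by
  obtain ⟨C, hC, h⟩ := bsize
  refine ⟨C, hC, fun n hn F M L hM hL0 hL y y' => ?_⟩
  obtain ⟨hs, hm⟩ := h n n hn
  have hn0 : (0 : ℝ) < n := by exact_mod_cast hn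
  have s1 : Summable fun t : BD n => wr t.1 * F (y • curve n t.1) :=
    bd_summable n (g := fun t => F (y • curve n t.1)) (M := M) fun t => hM _
  have s2 : Summable fun t : BD n => wr t.1 * F (y' • curve n t.1) :=
    bd_summable n (g := fun t => F (y' • curve n t.1)) (M := M) fun t => hM _
  unfold brm
  rw [← sub_div, ← s1.tsum_sub s2, abs_div, abs_of_pos (uu_pos n), div_le_iff₀ (uu_pos n)]
  have hb : ∀ t : BD n, ‖wr t.1 * F (y • curve n t.1) - wr t.1 * F (y' • curve n t.1)‖ ≤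
      L * |y - y'| * (wr t.1 * dist (curve n t.1) 0) := by
    intro t
    rw [← mul_sub, Real.norm_eq_abs, abs_mul, abs_of_nonneg (wr_nonneg t.1)]
    calc wr t.1 * |F (y • curve n t.1) - F (y' • curve n t.1)| ≤ wr t.1 * (L * (|y - y'| * dist (curve n t.1) 0)) :=
          mul_le_mul_of_nonneg_left ((hL _ _).trans (mul_le_mul_of_nonneg_left (dist_smul_smul _ _ _) hL0)) (wr_nonneg t.1)
      _ = _ := by ring
  have s3 := hs.mul_left (L * |y - y'|)
  have s4 := Summable.of_nonneg_of_le (fun t => norm_nonneg _) hb s3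
  rw [← Real.norm_eq_abs]
  refine (norm_tsum_le_tsum_norm s4).trans ((s4.tsum_le_tsum hb s3).trans ?_)
  rw [tsum_mul_left]
  calc L * |y - y'| * ∑' t : BD n, wr t.1 * dist (curve n t.1) 0 ≤ L * |y - y'| * (C * (n / n) * uu n) :=
        mul_le_mul_of_nonneg_left hm (by positivity)
    _ = L * C * |y - y'| * uu n := by
        rw [div_self hn0.ne']
        ring

/-- uniform convergence in the scale -/
lemma brm_unif (hC : ConvC) {F : Cv → ℝ} (hF : Test F) {M : ℝ} (hM : Bd F M) :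
    ∃ (g : ℝ → ℝ) (L' : ℝ), 0 ≤ L' ∧ (∀ x y, |g x - g y| ≤ L' * |x - y|) ∧ (∀ x, |g x| ≤ M) ∧
    ∀ ε : ℝ, 0 < ε → ∃ n₀ : ℕ, ∀ n, n₀ ≤ n → ∀ y : ℝ, 0 ≤ y → y ≤ 1 → |brm n n (fun x => F (y • x)) - g y| ≤ ε := by
  obtain ⟨L, hL0, hL⟩ := hF.lip
  obtain ⟨C, hC0, hCl⟩ := brm_scale_lip
  choose g hg using fun y : ℝ => hC _ (hF.smul y)
  have hgl : ∀ x y, |g x - g y| ≤ L * C * |x - y| := by
    intro x y
    refine le_of_tendsto ((hg x).sub (hg y)).abs ?_
    filter_upwards [eventually_ge_atTop 1] with n hn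
    exact hCl n hn F M L hM hL0 hL x y
  have hgM : ∀ x, |g x| ≤ M := fun x => le_of_tendsto (hg x).abs (Eventually.of_forall fun n => brm_bd (fun γ => hM _) n n)
  refine ⟨g, L * C, by positivity, hgl, hgM, fun ε hε => ?_⟩
  obtain ⟨m, hm⟩ := exists_nat_gt (3 * (L * C) / ε)
  have hm0 : (0 : ℝ) < m + 1 := by positivity
  have hm1 : L * C / (m + 1) ≤ ε / 3 := by
    rw [div_lt_iff₀ hε] at hm
    rw [div_le_iff₀ hm0]
    nlinarith
  have h1 : ∀ᶠ n : ℕ in atTop, ∀ j ∈ range (m + 2), |brm n n (fun x => F (((j : ℝ) / (m + 1)) • x)) - g ((j : ℝ) / (m + 1))| ≤ ε / 3 := by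
    rw [Finset.eventually_all]
    intro j _
    have h2 := (hg ((j : ℝ) / (m + 1))).eventually (Metric.closedBall_mem_nhds _ (show 0 < ε / 3 by positivity))
    filter_upwards [h2] with n hn
    rw [Real.dist_eq] at hn
    exact hn
  obtain ⟨n₀, hn₀⟩ := eventually_atTop.1 (h1.and (eventually_ge_atTop 1))
  refine ⟨n₀, fun n hn y hy0 hy1 => ?_⟩
  obtain ⟨h2, hn1⟩ := hn₀ n hn
  set j := ⌊y * (m + 1)⌋₊ with hj
  have hj1 : (j : ℝ) ≤ y * (m + 1) := Nat.floor_le (by positivity)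
  have hj2 : y * (m + 1) < j + 1 := Nat.lt_floor_add_one _
  have hj3 : j < m + 2 := by
    have h3 : y * (m + 1) ≤ 1 * (m + 1) := by gcongr
    have : (j : ℝ) < ((m + 2 : ℕ) : ℝ) := by
      push_cast
      linarith
    exact_mod_cast this
  have h3 := h2 j (mem_range.2 hj3)
  have h4 : |y - (j : ℝ) / (m + 1)| ≤ 1 / (m + 1) := by
    have e : y - (j : ℝ) / (m + 1) = (y * (m + 1) - j) / (m + 1) := by
      field_simp
    rw [e, abs_div, abs_of_pos hm0, abs_of_nonneg (by linarith)]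
    gcongr
    linarith
  have h5 := hCl n hn1 F M L hM hL0 hL y ((j : ℝ) / (m + 1))
  have h6 := hgl ((j : ℝ) / (m + 1)) y
  rw [abs_sub_comm ((j : ℝ) / (m + 1)) y] at h6
  have h7 : L * C * |y - (j : ℝ) / (m + 1)| ≤ ε / 3 := by
    calc _ ≤ L * C * (1 / (m + 1)) := by gcongr
      _ = L * C / (m + 1) := by ring
      _ ≤ _ := hm1
  have e : brm n n (fun x => F (y • x)) - g y = (brm n n (fun x => F (y • x)) - brm n n (fun x => F (((j : ℝ) / (m + 1)) • x))) +
      (brm n n (fun x => F (((j : ℝ) / (m + 1)) • x)) - g ((j : ℝ) / (m + 1))) + (g ((j : ℝ) / (m + 1)) - g y) := by ring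
  rw [e]
  refine (abs_add_three _ _ _).trans ?_
  linarith

/-- a sequence of nonnegative numbers times a small sequence -/
lemma UU_small {a b : ℝ} (ha : 0 < a) (ha1 : a < 1) (hb : 0 < b)
    (hu : Tendsto (fun n : ℕ => (n : ℝ) ^ (1 - a) * uu n) atTop (𝓝 b)) : ∃ C : ℝ, 0 < C ∧
    ∀ (e : ℕ → ℝ) (B : ℝ), (∀ n, 0 ≤ e n) → 0 ≤ B → (∀ n, e n ≤ B) → ∀ ε : ℝ, 0 < ε → (∀ᶠ n in atTop, e n ≤ ε) →
    ∀ᶠ N : ℕ in atTop, (N : ℝ) ^ (-a) * ∑ c ∈ range (N + 1), uu c * e c ≤ C * ε := by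
  obtain ⟨C, hC, hU⟩ := UU_le CutLim.ren_uu ha ha1 hb hu
  refine ⟨C + 1, by positivity, fun e B he0 hB0 hB ε hε he => ?_⟩
  obtain ⟨n₀, hn₀⟩ := eventually_atTop.1 he
  have h1 : Tendsto (fun N : ℕ => (N : ℝ) ^ (-a) * (B * ∑ c ∈ range n₀, uu c)) atTop (𝓝 0) := by
    have h2 : Tendsto (fun N : ℕ => (N : ℝ) ^ (-a)) atTop (𝓝 0) := (tendsto_rpow_neg_atTop ha).comp tendsto_natCast_atTop_atTop
    have h3 := h2.mul_const (B * ∑ c ∈ range n₀, uu c)
    rwa [zero_mul] at h3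
  filter_upwards [h1.eventually_lt_const hε, eventually_ge_atTop n₀] with N hN hN1
  have h4 : ∑ c ∈ range (N + 1), uu c * e c ≤ B * ∑ c ∈ range n₀, uu c + ε * CutLim.UU uu N := by
    have h5 : ∀ c ∈ range (N + 1), uu c * e c ≤ (if c < n₀ then B * uu c else 0) + ε * uu c := by
      intro c _
      have hc0 := (uu_pos c).le
      split_ifs with h
      · have := mul_le_mul_of_nonneg_left (hB c) hc0
        have := mul_nonneg hε.le hc0
        linarith
      · have := mul_le_mul_of_nonneg_left (hn₀ c (by omega)) hc0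
        linarith
    refine (sum_le_sum h5).trans ?_
    rw [sum_add_distrib, ← mul_sum]
    refine add_le_add (le_of_eq ?_) le_rfl
    rw [← sum_filter, mul_sum]
    refine sum_congr ?_ fun _ _ => rfl
    ext c
    rw [mem_filter, mem_range, mem_range]
    omega
  have h6 : 0 ≤ (N : ℝ) ^ (-a) := by positivity
  have h7 := hU N
  calc _ ≤ (N : ℝ) ^ (-a) * (B * ∑ c ∈ range n₀, uu c + ε * CutLim.UU uu N) := mul_le_mul_of_nonneg_left h4 h6
    _ = (N : ℝ) ^ (-a) * (B * ∑ c ∈ range n₀, uu c) + ε * ((N : ℝ) ^ (-a) * CutLim.UU uu N) := by ring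
    _ ≤ ε + ε * C := by
        have := mul_le_mul_of_nonneg_left h7 hε.le
        linarith
    _ = _ := by ring

end Struct
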