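import Pool.Agent.Struct.C8

/-! STRUCT, C9: the bridges of all heights form a nice family; their potential. -/

set_option autoImplicit false

namespace Struct

open Filter Topology Finset HexObs

open scoped ENNReal

open Classical in
/-- finite nets for the bridges of all heights -/
theorem net_bridges {a b : ℝ} (ha : 0 < a) (ha1 : a < 1) (hb : 0 < b)
    (hu : Tendsto (fun n : ℕ => (n : ℝ) ^ (1 - a) * uu n) atTop (𝓝 b)) {η : ℝ} (hη : 0 < η) : ∃ S : Finset Cv,
    ∀ᶠ N : ℕ in atTop, ∑' x, (if ∃ s ∈ S, Near η (xS N x) s then 0 else vS a N x) ≤ η := by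
  obtain ⟨α, hα, H, -⟩ := good_tight ha ha1 hb hu
  obtain ⟨C, hC0, hsm⟩ := UU_small ha ha1 hb hu
  have hε : 0 < η / C := by positivity
  obtain ⟨M, n₀, hM⟩ := bridge_good ha ha1 hb hu H hε
  obtain ⟨S, hS⟩ := compact_net hη M hα
  refine ⟨S, ?_⟩
  set e : ℕ → ℝ := fun c => if max n₀ 1 ≤ c then η / C else 1 with he
  have he0 : ∀ c, 0 ≤ e c := fun c => by
    show 0 ≤ (if max n₀ 1 ≤ c then η / C else 1)
    split_ifs
    · exact hε.le
    · exact zero_le_one
  have heB : ∀ c, e c ≤ η / C + 1 := fun c => by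
    show (if max n₀ 1 ≤ c then η / C else 1) ≤ η / C + 1
    split_ifs <;> linarith
  have hee : ∀ᶠ c in atTop, e c ≤ η / C := by
    filter_upwards [eventually_ge_atTop (max n₀ 1)] with c hc
    exact le_of_eq (if_pos hc)
  filter_upwards [hsm e (η / C + 1) he0 (by positivity) heB (η / C) hε hee] with N hN
  rw [mul_div_cancel₀ _ hC0.ne'] at hN
  refine le_trans ?_ hN
  have h1 : ∑' x, (if ∃ s ∈ S, Near η (xS N x) s then 0 else vS a N x) =
      (N : ℝ) ^ (-a) * ∑ c ∈ range (N + 1), ∑' t : BD c, wr t.1 * (if ∃ s ∈ S, Near η (curve N t.1) s then (0 : ℝ) else 1) := by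
    rw [← vS_tsum a N (G := fun x : SB => if ∃ s ∈ S, Near η (curve N x.2.1) s then (0 : ℝ) else 1) (M := 1) fun x => by
      split_ifs <;> simp]
    refine tsum_congr fun x => ?_
    unfold xS
    split_ifs <;> simp
  rw [h1]
  refine mul_le_mul_of_nonneg_left (sum_le_sum fun c hc => ?_) (by positivity)
  have hcN : c ≤ N := by
    have := mem_range.1 hc
    omega
  have s1 : Summable fun t : BD c => wr t.1 * (if ∃ s ∈ S, Near η (curve N t.1) s then (0 : ℝ) else 1) :=
    bd_summable c (g := fun t => if ∃ s ∈ S, Near η (curve N t.1) s then (0 : ℝ) else 1) (M := 1) fun t => by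
      split_ifs <;> simp
  by_cases h2 : max n₀ 1 ≤ c
  · have e1 : e c = η / C := if_pos h2
    rw [e1, mul_comm (uu c)]
    have hc1 : 1 ≤ c := (le_max_right _ _).trans h2
    refine le_trans ?_ (hM c ((le_max_left _ _).trans h2))
    have s2 : Summable fun t : BD c => wr t.1 * (if Good M α (curve c t.1) then (0 : ℝ) else 1) :=
      bd_summable c (g := fun t => if Good M α (curve c t.1) then (0 : ℝ) else 1) (M := 1) fun t => by
        split_ifs <;> simp
    refine s1.tsum_le_tsum (fun t => mul_le_mul_of_nonneg_left ?_ (wr_nonneg t.1)) s2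
    by_cases h3 : Good M α (curve c t.1)
    · have h4 : Good M α (curve N t.1) := by
        rw [curve_smul (show 1 ≤ N by omega) hc1]
        refine (h3.smul _).mono ?_
        have h17 : Real.nnabs ((c : ℝ) / N) ≤ 1 := by
          have hN0 : (0 : ℝ) < N := by exact_mod_cast (show 0 < N by omega)
          rw [← NNReal.coe_le_coe, Real.coe_nnabs, abs_of_nonneg (by positivity), NNReal.coe_one, div_le_one hN0]
          exact_mod_cast hcN
        calc Real.nnabs ((c : ℝ) / N) * M ≤ 1 * M := by gcongr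
          _ = M := one_mul M
      obtain ⟨ρ, h5, h6⟩ := h4
      rw [if_pos (hS _ ρ h5 h6)]
      split_ifs <;> norm_num
    · rw [if_neg h3]
      split_ifs <;> norm_num
  · have e1 : e c = 1 := if_neg h2
    rw [e1, mul_one]
    have h3 := (bd_hasSum c).tsum_eq
    rw [← h3]
    refine s1.tsum_le_tsum (fun t => ?_) (bd_hasSum c).summable
    calc _ ≤ wr t.1 * 1 := by
          refine mul_le_mul_of_nonneg_left ?_ (wr_nonneg t.1)
          split_ifs <;> norm_num
      _ = wr t.1 := mul_one _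

lemma vS_mass {a b : ℝ} (ha : 0 < a) (ha1 : a < 1) (hb : 0 < b)
    (hu : Tendsto (fun n : ℕ => (n : ℝ) ^ (1 - a) * uu n) atTop (𝓝 b)) : ∃ C : ℝ, 0 ≤ C ∧ ∀ N, ∑' x, vS a N x ≤ C := by
  obtain ⟨C, hC, hU⟩ := UU_le CutLim.ren_uu ha ha1 hb hu
  refine ⟨C, hC.le, fun N => ?_⟩
  have h1 := vS_tsum a N (G := fun _ => (1 : ℝ)) (M := 1) fun _ => by simp
  simp only [mul_one] at h1
  rw [h1]
  refine le_trans (le_of_eq ?_) (hU N)
  congr 1
  exact sum_congr rfl fun c _ => (bd_hasSum c).tsum_eq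

/-- the potential of the bridges -/
noncomputable def UB (N : ℕ) (F : Cv → ℝ) (γ : Cv) : ℝ := ∑ c ∈ range (N + 1), ∑' t : BD c, wr t.1 * F (cat γ (curve N t.1))

lemma UB_vS (a : ℝ) (N : ℕ) {F : Cv → ℝ} {M : ℝ} (hM : Bd F M) (γ : Cv) :
    (N : ℝ) ^ (-a) * UB N F γ = ∑' x, vS a N x * F (cat γ (xS N x)) := by
  unfold xS UB
  rw [vS_tsum a N (G := fun x : SB => F (cat γ (curve N x.2.1))) (M := M) fun x => hM _]

end Struct
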