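import Pool.Agent.Struct.C9

/-! STRUCT, D1: the equation of the potential of the bridges. -/

set_option autoImplicit false

namespace Struct

open Filter Topology Finset HexObs

open scoped ENNReal

/-- stopped words at the first row -/
noncomputable def piE : PI ≃ WD 1 where
  toFun p := ⟨p.1, ph p, by
    have h1 := (wtI).h1 p
    rw [CutH.FC_eq le_rfl h1]
    exact ⟨0, one_pos, [], p.1, nil_mem_Brd, ph_mem p, rfl⟩⟩
  invFun a := ⟨a.1, hgt a.1, by
    have h := hgt_wd a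
    rw [CutH.FC_eq le_rfl h.2.1] at h
    obtain ⟨c, hc, s, p, hs, hp, e⟩ := h
    have hc0 : c = 0 := by omega
    rw [hc0] at hs hp
    rw [Brd_zero] at hs
    have hs0 : s = [] := hs
    rw [hs0, List.nil_append] at e
    rw [e] at hp ⊢
    exact hp⟩
  left_inv _ := rfl
  right_inv _ := rfl

/-- decomposition at the first piece -/
theorem bd_first {n : ℕ} (hn : 1 ≤ n) {G : List Bool → ℝ} {M : ℝ} (hG : ∀ t, |G t| ≤ M) :
    ∑' t : BD n, wr t.1 * G t.1 =
      ∑' p : PI, pw p * (if ph p ≤ n then ∑' v : BD (n - ph p), wr v.1 * G (p.1 ++ v.1) else 0) := by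
  rw [bd_split hn hG, ← piE.tsum_eq]
  refine tsum_congr fun p => ?_
  have e1 : hgt (piE p).1 = ph p := hgt_eq (ph_mem p).1
  show wr p.1 * _ = wr p.1 * _
  congr 1
  have e2 : (piE p).1 = p.1 := rfl
  by_cases h : ph p ≤ n
  · rw [if_pos h, if_pos (by rw [e1]; exact h), e1, e2]
  · rw [if_neg h, if_neg (by rw [e1]; exact h)]

/-- bridges of height c after the curve -/
noncomputable def Br (N : ℕ) (F : Cv → ℝ) (c : ℕ) (γ : Cv) : ℝ := ∑' t : BD c, wr t.1 * F (cat γ (curve N t.1))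

lemma UB_Br (N : ℕ) (F : Cv → ℝ) (γ : Cv) : UB N F γ = ∑ c ∈ range (N + 1), Br N F c γ := rfl

lemma Br_bd {F : Cv → ℝ} {M : ℝ} (hM : Bd F M) (N c : ℕ) (γ : Cv) : |Br N F c γ| ≤ uu c * M :=
  tsum_mul_le (w := fun t : BD c => wr t.1) (g := fun t => F (cat γ (curve N t.1))) (fun t => wr_nonneg t.1) (bd_hasSum c) fun _ => hM _

lemma Br_zero {F : Cv → ℝ} (hI : Inv F) (N : ℕ) (γ : Cv) : Br N F 0 γ = F γ := by
  have h1 : ∀ t : BD 0, wr t.1 * F (cat γ (curve N t.1)) = wr t.1 * F γ := by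
    rintro ⟨t, h2⟩
    rw [Brd_zero] at h2
    have h3 : t = [] := h2
    show wr t * F (cat γ (curve N t)) = wr t * F γ
    rw [h3, curve_nil, hI.cat_zero]
  unfold Br
  rw [tsum_congr h1, ((bd_hasSum 0).mul_right (F γ)).tsum_eq, CutLim.ren_uu.u0, one_mul]

lemma Br_van {F : Cv → ℝ} (hV : Van F 1) {N : ℕ} (hN : 1 ≤ N) {c : ℕ} {γ : Cv} (h : 1 ≤ ht γ + c / N) : Br N F c γ = 0 := by
  unfold Br
  rw [tsum_congr (g := fun _ => (0 : ℝ)) fun t => ?_, tsum_zero]
  rw [hV _ (by rw [ht_cat, ht_curve t.2 hN]; exact h), mul_zero]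

lemma Br_succ {F : Cv → ℝ} (hI : Inv F) {M : ℝ} (hM : Bd F M) (N : ℕ) {c : ℕ} (hc : 1 ≤ c) (γ : Cv) :
    Br N F c γ = ∑' p : PI, pw p * (if ph p ≤ c then Br N F (c - ph p) (cat γ (pq N p)) else 0) := by
  unfold Br
  rw [bd_first hc (G := fun t => F (cat γ (curve N t))) (M := M) fun t => hM _]
  refine tsum_congr fun p => ?_
  congr 1
  split_ifs with h
  · refine tsum_congr fun v => ?_
    congr 1
    rw [curve_cat (ph_mem p).1 v.1 N (hI.cat_right γ), ← hI.assoc]
    rfl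
  · rfl

/-- the equation of the potential -/
theorem UB_eq {N : ℕ} (hN : 1 ≤ N) {F : Cv → ℝ} (hI : Inv F) {M : ℝ} (hM : Bd F M) (hV : Van F 1) {γ : Cv} (hγ : 0 ≤ ht γ) :
    UB N F γ = F γ + PO pw (pq N) (UB N F) γ := by
  have hN0 : (0 : ℝ) < N := by exact_mod_cast hN
  rw [UB_Br, sum_range_succ', Br_zero hI, add_comm]
  congr 1
  have h1 : ∀ c ∈ range N, Br N F (c + 1) γ = ∑' p : PI, pw p * (if ph p ≤ c + 1 then Br N F (c + 1 - ph p) (cat γ (pq N p)) else 0) :=
    fun c _ => Br_succ hI hM N (by omega) γ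
  rw [sum_congr rfl h1, ← Summable.tsum_finsetSum]
  · unfold PO
    refine tsum_congr fun p => ?_
    rw [← mul_sum, UB_Br]
    congr 1
    have hp := (wtI).h1 p
    have h2 : ∀ m ∈ range (N + 1), Br N F m (cat γ (pq N p)) = if m + ph p ≤ N then Br N F m (cat γ (pq N p)) else 0 := by
      intro m _
      split_ifs with h
      · rfl
      · refine Br_van hV hN ?_
        rw [ht_cat, ht_pq]
        have h3 : (N : ℝ) ≤ m + ph p := by exact_mod_cast (show N ≤ m + ph p by omega)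
        have h4 : (1 : ℝ) ≤ (m + ph p) / N := by rwa [le_div_iff₀ hN0, one_mul]
        rw [add_div] at h4
        linarith
    rw [sum_congr rfl h2, ← sum_filter, ← sum_filter]
    refine sum_nbij' (fun c => c + 1 - ph p) (fun m => m + ph p - 1) ?_ ?_ ?_ ?_ ?_
    · intro c hc
      rw [mem_filter, mem_range] at hc ⊢
      omega
    · intro m hm
      rw [mem_filter, mem_range] at hm ⊢
      omega
    · intro c hc
      rw [mem_filter, mem_range] at hc
      show c + 1 - ph p + ph p - 1 = c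
      omega
    · intro m hm
      rw [mem_filter, mem_range] at hm
      show m + ph p - 1 + 1 - ph p = m
      omega
    · intro c _
      rfl
  · intro c _
    refine summable_mul (wtI).w0 (wtI).w1.summable (M := ∑ j ∈ range (c + 2), uu j * M) fun p => ?_
    have hM0 : 0 ≤ M := (abs_nonneg _).trans (hM 0)
    split_ifs with h
    · refine (Br_bd hM N _ _).trans ?_
      exact single_le_sum (f := fun j => uu j * M) (fun j _ => mul_nonneg (uu_pos j).le hM0) (mem_range.2 (by omega))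
    · rw [abs_zero]
      exact sum_nonneg fun j _ => mul_nonneg (uu_pos j).le hM0

lemma UB_bd' {F : Cv → ℝ} {M : ℝ} (hM : Bd F M) (N : ℕ) : Bd (UB N F) (CutLim.UU uu N * M) := by
  intro γ
  rw [UB_Br]
  refine (abs_sum_le_sum_abs _ _).trans ?_
  unfold CutLim.UU
  rw [sum_mul]
  exact sum_le_sum fun c _ => Br_bd hM N c γ

lemma UB_van {F : Cv → ℝ} (hV : Van F 1) {N : ℕ} (hN : 1 ≤ N) : Van (UB N F) 1 := by
  intro γ hγ
  rw [UB_Br]
  refine sum_eq_zero fun c _ => Br_van hV hN ?_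
  have : 0 ≤ (c : ℝ) / N := by positivity
  linarith

/-- the weighted bound -/
lemma UB_wt {N : ℕ} (hN : 1 ≤ N) {D : Cv → ℝ} {K θ : ℝ}
    (h : ∀ γ, 0 ≤ ht γ → |D γ| ≤ K * Real.exp (θ * (1 - ht γ))) {γ : Cv} (hγ : 0 ≤ ht γ) :
    |UB N D γ| ≤ (∑ c ∈ range (N + 1), uu c * Real.exp (-(θ * (c / N)))) * (K * Real.exp (θ * (1 - ht γ))) := by
  rw [UB_Br, sum_mul]
  refine (abs_sum_le_sum_abs _ _).trans (sum_le_sum fun c _ => ?_)
  have h1 : ∀ t : BD c, |D (cat γ (curve N t.1))| ≤ K * Real.exp (θ * (1 - ht γ)) * Real.exp (-(θ * (c / N))) := by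
    intro t
    have hc : 0 ≤ (c : ℝ) / N := by positivity
    have h2 := h (cat γ (curve N t.1)) (by rw [ht_cat, ht_curve t.2 hN]; linarith)
    refine h2.trans (le_of_eq ?_)
    rw [ht_cat, ht_curve t.2 hN, mul_assoc, ← Real.exp_add]
    congr 2
    ring
  have h3 := tsum_mul_le (w := fun t : BD c => wr t.1) (g := fun t => D (cat γ (curve N t.1))) (fun t => wr_nonneg t.1) (bd_hasSum c) h1
  refine h3.trans (le_of_eq ?_)
  ring

/-- the exponential weights make the potential small -/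
lemma S_small {a b : ℝ} (ha : 0 < a) (ha1 : a < 1) (hb : 0 < b)
    (hu : Tendsto (fun n : ℕ => (n : ℝ) ^ (1 - a) * uu n) atTop (𝓝 b)) {r : ℝ} (hr : 0 < r) : ∃ θ : ℝ, 0 ≤ θ ∧
    ∀ᶠ N : ℕ in atTop, (N : ℝ) ^ (-a) * ∑ c ∈ range (N + 1), uu c * Real.exp (-(θ * (c / N))) ≤ r := by
  obtain ⟨C, hC, hU⟩ := UU_le CutLim.ren_uu ha ha1 hb hu
  obtain ⟨δ, hδ0, hδ⟩ : ∃ δ : ℝ, 0 < δ ∧ C * δ ^ a ≤ r / 2 := by
    have h1 : Tendsto (fun δ : ℝ => C * δ ^ a) (𝓝[>] 0) (𝓝 (C * 0 ^ a)) := by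
      refine Tendsto.mono_left ?_ nhdsWithin_le_nhds
      have : Continuous fun δ : ℝ => C * δ ^ a := continuous_const.mul (continuous_id.rpow_const fun x => Or.inr ha.le)
      exact this.tendsto 0
    rw [Real.zero_rpow ha.ne', mul_zero] at h1
    have h2 := h1.eventually_lt_const (show (0 : ℝ) < r / 2 by positivity)
    have h3 : ∀ᶠ δ : ℝ in 𝓝[>] 0, 0 < δ := self_mem_nhdsWithin
    obtain ⟨δ, h4, h5⟩ := (h2.and h3).exists
    exact ⟨δ, h5, h4.le⟩
  obtain ⟨θ, hθ0, hθ⟩ : ∃ θ : ℝ, 0 ≤ θ ∧ Real.exp (-(θ * δ)) * C ≤ r / 2 := by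
    have h1 : Tendsto (fun θ : ℝ => Real.exp (-(θ * δ)) * C) atTop (𝓝 (0 * C)) :=
      (Real.tendsto_exp_neg_atTop_nhds_zero.comp (tendsto_id.atTop_mul_const hδ0)).mul_const C
    rw [zero_mul] at h1
    have h2 := h1.eventually_lt_const (show (0 : ℝ) < r / 2 by positivity)
    obtain ⟨θ, h4, h5⟩ := (h2.and (eventually_ge_atTop 0)).exists
    exact ⟨θ, h5, h4.le⟩
  refine ⟨θ, hθ0, ?_⟩
  filter_upwards [eventually_ge_atTop ⌈1 / δ⌉₊, eventually_ge_atTop 1] with N hN hN1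
  have hN0 : (0 : ℝ) < N := by exact_mod_cast hN1
  have h1 : 1 ≤ δ * N := by
    have h2 : 1 / δ ≤ N := (Nat.le_ceil _).trans (by exact_mod_cast hN)
    rw [div_le_iff₀ hδ0] at h2
    linarith
  set m := ⌊δ * N⌋₊ with hm
  have hm1 : 1 ≤ m := Nat.le_floor (by rw [Nat.cast_one]; exact h1)
  have hm2 : (m : ℝ) ≤ δ * N := Nat.floor_le (by positivity)
  have hm0 : (0 : ℝ) < m := by exact_mod_cast hm1
  have hUm : CutLim.UU uu m ≤ C * (δ ^ a * (N : ℝ) ^ a) := by
    have h3 := hU m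
    rw [Real.rpow_neg hm0.le, inv_mul_le_iff₀ (Real.rpow_pos_of_pos hm0 a)] at h3
    refine h3.trans ?_
    rw [← Real.mul_rpow hδ0.le hN0.le, mul_comm]
    exact mul_le_mul_of_nonneg_left (Real.rpow_le_rpow hm0.le hm2 ha.le) hC.le
  have h4 : ∑ c ∈ range (N + 1), uu c * Real.exp (-(θ * (c / N))) ≤ CutLim.UU uu m + Real.exp (-(θ * δ)) * CutLim.UU uu N := by
    have h5 : ∀ c ∈ range (N + 1), uu c * Real.exp (-(θ * (c / N))) ≤ (if c < m + 1 then uu c else 0) + Real.exp (-(θ * δ)) * uu c := by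
      intro c _
      have hc0 := (uu_pos c).le
      have he := (Real.exp_pos (-(θ * δ))).le
      split_ifs with h
      · have h6 : Real.exp (-(θ * (c / N))) ≤ 1 := by
          rw [Real.exp_le_one_iff]
          have : 0 ≤ θ * ((c : ℝ) / N) := by positivity
          linarith
        have := mul_le_mul_of_nonneg_left h6 hc0
        have := mul_nonneg he hc0
        linarith
      · have h7 : δ * N < c := by
          have h8 : δ * N < m + 1 := Nat.lt_floor_add_one _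
          have h9 : (m : ℝ) + 1 ≤ c := by exact_mod_cast (show m + 1 ≤ c by omega)
          linarith
        have h6 : Real.exp (-(θ * (c / N))) ≤ Real.exp (-(θ * δ)) := by
          rw [Real.exp_le_exp]
          have : δ ≤ (c : ℝ) / N := by
            rw [le_div_iff₀ hN0]
            exact h7.le
          have := mul_le_mul_of_nonneg_left this hθ0
          linarith
        have := mul_le_mul_of_nonneg_left h6 hc0
        linarith
    refine (sum_le_sum h5).trans ?_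
    rw [sum_add_distrib, ← mul_sum]
    refine add_le_add ?_ le_rfl
    rw [← sum_filter]
    unfold CutLim.UU
    refine sum_le_sum_of_subset_of_nonneg ?_ fun c _ _ => (uu_pos c).le
    intro c hc
    rw [mem_filter] at hc
    exact mem_range.2 hc.2
  have h6 : 0 ≤ (N : ℝ) ^ (-a) := by positivity
  have h7 := hU N
  have h8 : (N : ℝ) ^ (-a) * (N : ℝ) ^ a = 1 := by
    rw [← Real.rpow_add hN0, neg_add_cancel, Real.rpow_zero]
  calc _ ≤ (N : ℝ) ^ (-a) * (CutLim.UU uu m + Real.exp (-(θ * δ)) * CutLim.UU uu N) := mul_le_mul_of_nonneg_left h4 h6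
    _ ≤ (N : ℝ) ^ (-a) * (C * (δ ^ a * (N : ℝ) ^ a)) + Real.exp (-(θ * δ)) * ((N : ℝ) ^ (-a) * CutLim.UU uu N) := by
        have := mul_le_mul_of_nonneg_left hUm h6
        linarith
    _ ≤ (N : ℝ) ^ (-a) * (C * (δ ^ a * (N : ℝ) ^ a)) + Real.exp (-(θ * δ)) * C := by
        have := mul_le_mul_of_nonneg_left h7 (Real.exp_pos (-(θ * δ))).le
        linarith
    _ = ((N : ℝ) ^ (-a) * (N : ℝ) ^ a) * (C * δ ^ a) + Real.exp (-(θ * δ)) * C := by ring
    _ ≤ r := by
        rw [h8, one_mul]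
        linarith

end Struct
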