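import Pool.Agent.Struct.D1

/-! STRUCT, D2: resolvents. -/

set_option autoImplicit false

namespace Struct

open Filter Topology Finset HexObs

variable {P : Type} {w : P → ℝ} {q : P → Cv} {S lam : ℝ} {N : ℕ}

/-- induction from the top -/
theorem top_ind (hN : 1 ≤ N) (hq : ∀ p, 1 / (N : ℝ) ≤ ht (q p)) {A : Cv → Prop}
    (h1 : ∀ γ, 1 ≤ ht γ → A γ) (h2 : ∀ γ, 0 ≤ ht γ → (∀ p, A (cat γ (q p))) → A γ) {γ : Cv} (hγ : 0 ≤ ht γ) : A γ := by
  have hN0 : (0 : ℝ) < N := by exact_mod_cast hN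
  have key : ∀ n : ℕ, ∀ γ, 0 ≤ ht γ → 1 - n / (N : ℝ) ≤ ht γ → A γ := by
    intro n
    induction n with
    | zero =>
      intro γ _ hγ
      rw [Nat.cast_zero, zero_div, sub_zero] at hγ
      exact h1 γ hγ
    | succ n ih =>
      intro γ hγ0 hγ
      refine h2 γ hγ0 fun p => ih _ ?_ ?_
      · rw [ht_cat]
        have := hq p
        have : 0 ≤ 1 / (N : ℝ) := by positivity
        linarith
      · rw [ht_cat]
        have := hq p
        push_cast at hγ
        have e2 : 1 - (n : ℝ) / N = 1 - ((n : ℝ) + 1) / N + 1 / N := by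
          field_simp
          ring
        rw [e2]
        linarith
  refine key N γ hγ ?_
  rw [div_self hN0.ne', sub_self]
  exact hγ

/-- the discount -/
noncomputable def rho (S lam : ℝ) : ℝ := S / (lam + S)

/-- the resolvent -/
noncomputable def RR (w : P → ℝ) (q : P → Cv) (S lam : ℝ) (N : ℕ) (F : Cv → ℝ) (γ : Cv) : ℝ :=
  (lam + S)⁻¹ * Pot (fun p => rho S lam * w p) q F N γ

lemma PO_wsmul (c : ℝ) (F : Cv → ℝ) (γ : Cv) : PO (fun p => c * w p) q F γ = c * PO w q F γ := by
  unfold PO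
  rw [← tsum_mul_left]
  exact tsum_congr fun p => by ring

lemma PO_zero_of {F : Cv → ℝ} {γ : Cv} (h : ∀ p, F (cat γ (q p)) = 0) : PO w q F γ = 0 := by
  unfold PO
  rw [tsum_congr (g := fun _ => (0 : ℝ)) fun p => by rw [h p, mul_zero], tsum_zero]

theorem RR_eq (hS : 0 < S) (hl : 0 < lam) (hN : 1 ≤ N) (hq : ∀ p, 1 / (N : ℝ) ≤ ht (q p)) {F : Cv → ℝ} (hV : Van F 1)
    {γ : Cv} (hγ : 0 ≤ ht γ) : (lam + S) * RR w q S lam N F γ = F γ + S * PO w q (RR w q S lam N F) γ := by
  have h0 : 0 < lam + S := by positivity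
  have h1 : PO w q (RR w q S lam N F) γ = (lam + S)⁻¹ * PO w q (Pot (fun p => rho S lam * w p) q F N) γ := PO_smul _ _
  rw [h1]
  unfold RR
  rw [← mul_assoc, mul_inv_cancel₀ h0.ne', one_mul, Pot_eq hN hV hq γ hγ, PO_wsmul]
  unfold rho
  ring

lemma RR_inv {F : Cv → ℝ} (hF : Inv F) : Inv (RR w q S lam N F) := by
  intro γ ρ
  unfold RR
  rw [Pot_inv hF N γ ρ]

lemma RR_van {F : Cv → ℝ} (hV : Van F 1) (hq : ∀ p, 0 ≤ ht (q p)) : Van (RR w q S lam N F) 1 := by
  intro γ hγ
  unfold RR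
  rw [Pot_van hV hq N γ hγ, mul_zero]

theorem RR_bd (hw : ∀ p, 0 ≤ w p) (hs : HasSum w 1) (hS : 0 < S) (hl : 0 < lam) {F : Cv → ℝ} {M : ℝ} (hM0 : 0 ≤ M)
    (hM : Bd F M) : Bd (RR w q S lam N F) (M / lam) := by
  have h0 : 0 < lam + S := by positivity
  have hr0 : 0 ≤ rho S lam := by
    unfold rho
    positivity
  have hr1 : 1 - rho S lam = lam / (lam + S) := by
    unfold rho
    field_simp
    ring
  have h1 : ∀ n, Bd (Pot (fun p => rho S lam * w p) q F n) (M * ((lam + S) / lam)) := by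
    intro n
    induction n with
    | zero =>
      intro γ
      show |(0 : ℝ)| ≤ _
      rw [abs_zero]
      positivity
    | succ n ih =>
      intro γ
      rw [Pot_succ]
      refine (abs_add_le _ _).trans ((add_le_add (hM γ) (PO_bd (fun p => mul_nonneg hr0 (hw p)) (hs.mul_left (rho S lam)) ih γ)).trans
        (le_of_eq ?_))
      unfold rho
      field_simp
  intro γ
  unfold RR
  rw [abs_mul, abs_of_pos (inv_pos.2 h0)]
  calc (lam + S)⁻¹ * |Pot (fun p => rho S lam * w p) q F N γ| ≤ (lam + S)⁻¹ * (M * ((lam + S) / lam)) :=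
        mul_le_mul_of_nonneg_left (h1 N γ) (inv_pos.2 h0).le
    _ = _ := by field_simp

/-- the generator -/
noncomputable def GG (w : P → ℝ) (q : P → Cv) (S : ℝ) (F : Cv → ℝ) (γ : Cv) : ℝ := S * (F γ - PO w q F γ)

lemma GG_van {F : Cv → ℝ} (hV : Van F 1) (hq : ∀ p, 0 ≤ ht (q p)) : Van (GG w q S F) 1 := by
  intro γ hγ
  unfold GG
  rw [hV γ hγ, PO_van (b := 0) (by rw [add_zero]; exact hV) hq γ hγ, sub_zero, mul_zero]

lemma GG_bd (hw : ∀ p, 0 ≤ w p) (hs : HasSum w 1) (hS : 0 < S) {F : Cv → ℝ} {M : ℝ} (hM : Bd F M) :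
    Bd (GG w q S F) (S * (2 * M)) := by
  intro γ
  unfold GG
  rw [abs_mul, abs_of_pos hS]
  refine mul_le_mul_of_nonneg_left ?_ hS.le
  have h1 := PO_bd (q := q) hw hs hM γ
  have h2 := abs_sub (F γ) (PO w q F γ)
  have h3 := hM γ
  linarith

/-- the resolvent of the generator -/
theorem RR_gen (hw : ∀ p, 0 ≤ w p) (hs : HasSum w 1) (hS : 0 < S) (hl : 0 < lam) (hN : 1 ≤ N)
    (hq : ∀ p, 1 / (N : ℝ) ≤ ht (q p)) {F : Cv → ℝ} {M : ℝ} (hM0 : 0 ≤ M) (hM : Bd F M) (hV : Van F 1) {γ : Cv} (hγ : 0 ≤ ht γ) :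
    lam * RR w q S lam N F γ = F γ - RR w q S lam N (GG w q S F) γ := by
  have hq0 : ∀ p, 0 ≤ ht (q p) := fun p => le_trans (by positivity) (hq p)
  have h0 : 0 < lam + S := by positivity
  have hGM := GG_bd (q := q) hw hs hS hM
  have hGV := GG_van (w := w) (S := S) hV hq0
  have b1 := RR_bd (q := q) (N := N) hw hs hS hl hM0 hM
  have b2 := RR_bd (q := q) (N := N) hw hs hS hl (by positivity) hGM
  have key : (fun γ => lam * RR w q S lam N F γ - F γ + RR w q S lam N (GG w q S F) γ) γ = 0 := by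
    refine top_ind (A := fun γ => lam * RR w q S lam N F γ - F γ + RR w q S lam N (GG w q S F) γ = 0) hN hq ?_ ?_ hγ
    · intro γ hγ
      rw [RR_van hV hq0 γ hγ, RR_van hGV hq0 γ hγ, hV γ hγ]
      ring
    · intro γ hγ h1
      have e1 := RR_eq (w := w) hS hl hN hq hV hγ
      have e2 := RR_eq (w := w) hS hl hN hq hGV hγ
      have e3 := PO_zero_of (w := w) (F := fun γ => lam * RR w q S lam N F γ - F γ + RR w q S lam N (GG w q S F) γ) h1
      have c1 : Bd (fun γ => lam * RR w q S lam N F γ) (lam * (M / lam)) := by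
        intro γ
        rw [abs_mul, abs_of_pos hl]
        exact mul_le_mul_of_nonneg_left (b1 γ) hl.le
      have c2 : Bd (fun γ => lam * RR w q S lam N F γ - F γ) (lam * (M / lam) + M) := by
        intro γ
        have h2 := abs_sub (lam * RR w q S lam N F γ) (F γ)
        have h3 := hM γ
        have h4 := c1 γ
        have h4' : |lam * RR w q S lam N F γ| ≤ lam * (M / lam) := h4
        linarith
      rw [PO_add hw hs.summable c2 b2, PO_sub hw hs.summable c1 hM, PO_smul] at e3
      have e4 : GG w q S F γ = S * (F γ - PO w q F γ) := rfl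
      rw [e4] at e2
      have e5 : (lam + S) * (lam * RR w q S lam N F γ - F γ + RR w q S lam N (GG w q S F) γ) = 0 := by
        have : (lam + S) * (lam * RR w q S lam N F γ - F γ + RR w q S lam N (GG w q S F) γ) =
            lam * ((lam + S) * RR w q S lam N F γ) - (lam + S) * F γ + (lam + S) * RR w q S lam N (GG w q S F) γ := by ring
        rw [this, e1, e2]
        have e6 : lam * (F γ + S * PO w q (RR w q S lam N F) γ) - (lam + S) * F γ +
            (S * (F γ - PO w q F γ) + S * PO w q (RR w q S lam N (GG w q S F)) γ) =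
            S * (lam * PO w q (RR w q S lam N F) γ - PO w q F γ + PO w q (RR w q S lam N (GG w q S F)) γ) := by ring
        rw [e6, e3, mul_zero]
      exact (mul_eq_zero.1 e5).resolve_left h0.ne'
  have key' : lam * RR w q S lam N F γ - F γ + RR w q S lam N (GG w q S F) γ = 0 := key
  linarith

/-- the resolvent and the potential -/
theorem RR_fix (hw : ∀ p, 0 ≤ w p) (hs : HasSum w 1) (hS : 0 < S) (hl : 0 < lam) (hN : 1 ≤ N)
    (hq : ∀ p, 1 / (N : ℝ) ≤ ht (q p)) {F : Cv → ℝ} {M : ℝ} (hM0 : 0 ≤ M) (hM : Bd F M) (hV : Van F 1)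
    {U : Cv → ℝ} {MU : ℝ} (hU : Bd U MU) (hUV : Van U 1)
    (hUe : ∀ γ, 0 ≤ ht γ → U γ = (F γ - lam * RR w q S lam N F γ) + PO w q U γ) {γ : Cv} (hγ : 0 ≤ ht γ) :
    S * RR w q S lam N F γ = U γ := by
  have hq0 : ∀ p, 0 ≤ ht (q p) := fun p => le_trans (by positivity) (hq p)
  have b1 := RR_bd (q := q) (N := N) hw hs hS hl hM0 hM
  have key : (fun γ => S * RR w q S lam N F γ - U γ) γ = 0 := by
    refine top_ind (A := fun γ => S * RR w q S lam N F γ - U γ = 0) hN hq ?_ ?_ hγ
    · intro γ hγ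
      rw [RR_van hV hq0 γ hγ, hUV γ hγ]
      ring
    · intro γ hγ h1
      have e1 := RR_eq (w := w) hS hl hN hq hV hγ
      have e3 := PO_zero_of (w := w) (F := fun γ => S * RR w q S lam N F γ - U γ) h1
      have c1 : Bd (fun γ => S * RR w q S lam N F γ) (S * (M / lam)) := by
        intro γ
        rw [abs_mul, abs_of_pos hS]
        exact mul_le_mul_of_nonneg_left (b1 γ) hS.le
      rw [PO_sub hw hs.summable c1 hU, PO_smul] at e3
      rw [hUe γ hγ]
      linarith
  have key' : S * RR w q S lam N F γ - U γ = 0 := key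
  linarith

/-- truncated size -/
noncomputable def psi (γ : Cv) : ℝ := min 1 (dist γ 0)

lemma psi_nonneg (γ : Cv) : 0 ≤ psi γ := le_min zero_le_one dist_nonneg

lemma psi_le_one (γ : Cv) : psi γ ≤ 1 := min_le_left _ _

lemma psi_zero : psi 0 = 0 := by
  unfold psi
  rw [dist_self, min_eq_right zero_le_one]

lemma psi_cat (a b : Cv) : psi (cat a b) ≤ psi a + psi b := by
  have h1 : dist (cat a b) 0 ≤ dist a 0 + dist b 0 := by
    have h2 := dist_cat a 0 b 0
    have h3 : cat 0 0 = 0 := by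
      ext x
      rw [cat_apply]
      show (0 : ℂ) + 0 = 0
      rw [add_zero]
    rwa [h3] at h2
  unfold psi
  have h4 : 0 ≤ dist a 0 := dist_nonneg
  have h5 : 0 ≤ dist b 0 := dist_nonneg
  rcases le_total 1 (dist a 0) with h | h
  · rw [min_eq_left h]
    have : 0 ≤ min 1 (dist b 0) := le_min zero_le_one h5
    linarith [min_le_left 1 (dist (cat a b) 0)]
  · rcases le_total 1 (dist b 0) with h' | h'
    · rw [min_eq_left h', min_eq_right h]
      linarith [min_le_left 1 (dist (cat a b) 0)]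
    · rw [min_eq_right h, min_eq_right h']
      exact (min_le_right _ _).trans h1

lemma psi_high {γ : Cv} (h : 1 ≤ ht γ) : psi γ = 1 := by
  unfold psi
  rw [min_eq_left]
  have h1 := ht_lip γ 0
  rw [ht_zero, sub_zero] at h1
  exact h.trans ((le_abs_self _).trans h1)

/-- the resolvent is close to the identity -/
theorem yosida (hw : ∀ p, 0 ≤ w p) (hs : HasSum w 1) (hS : 0 < S) (hl : 0 < lam) (hN : 1 ≤ N)
    (hq : ∀ p, 1 / (N : ℝ) ≤ ht (q p)) {Φ : Cv → ℝ} {B : ℝ} (hB0 : 0 ≤ B) (hB : Bd Φ B) (hV : Van Φ 1) {d K Cm : ℝ}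
    (hd : 0 ≤ d) (hK : |Φ 0| ≤ K) (hΦ : ∀ γ, 0 ≤ ht γ → |Φ γ - Φ 0| ≤ d + K * psi γ) (hCm : 0 ≤ Cm)
    (hm : S * ∑' p, w p * psi (q p) ≤ Cm) : |lam * RR w q S lam N Φ 0 - Φ 0| ≤ d + K * (Cm / lam) := by
  have hq0 : ∀ p, 0 ≤ ht (q p) := fun p => le_trans (by positivity) (hq p)
  have h0 : 0 < lam + S := by positivity
  have hK0 : 0 ≤ K := (abs_nonneg _).trans hK
  have hκ : 0 ≤ Cm / lam := by positivity
  have b1 := RR_bd (q := q) (N := N) hw hs hS hl hB0 hB
  have c1 : Bd (fun γ => lam * RR w q S lam N Φ γ) (lam * (B / lam)) := by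
    intro γ
    rw [abs_mul, abs_of_pos hl]
    exact mul_le_mul_of_nonneg_left (b1 γ) hl.le
  have key : (fun γ => |lam * RR w q S lam N Φ γ - Φ 0| ≤ d + K * (psi γ + Cm / lam)) 0 := by
    refine top_ind (A := fun γ => |lam * RR w q S lam N Φ γ - Φ 0| ≤ d + K * (psi γ + Cm / lam)) hN hq ?_ ?_ (by rw [ht_zero])
    · intro γ hγ
      rw [RR_van hV hq0 γ hγ, psi_high hγ, mul_zero, zero_sub, abs_neg]
      have : K * 1 ≤ K * (1 + Cm / lam) := mul_le_mul_of_nonneg_left (by linarith) hK0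
      linarith
    · intro γ hγ h1
      have e1 := RR_eq (w := w) hS hl hN hq hV hγ
      -- the mean of the difference
      have s1 : Summable fun p => w p * (lam * RR w q S lam N Φ (cat γ (q p))) :=
        summable_mul hw hs.summable fun p => c1 _
      have s2 : HasSum (fun p => w p * Φ 0) (1 * Φ 0) := hs.mul_right _
      have e2 : lam * PO w q (RR w q S lam N Φ) γ - Φ 0 = ∑' p, w p * (lam * RR w q S lam N Φ (cat γ (q p)) - Φ 0) := by
        have e3 : ∑' p, w p * (lam * RR w q S lam N Φ (cat γ (q p)) - Φ 0) =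
            ∑' p, (w p * (lam * RR w q S lam N Φ (cat γ (q p))) - w p * Φ 0) := tsum_congr fun p => mul_sub _ _ _
        rw [e3, s1.tsum_sub s2.summable, s2.tsum_eq, one_mul]
        congr 1
        unfold PO
        rw [← tsum_mul_left]
        exact tsum_congr fun p => by ring
      have s4 : Summable fun p => w p * psi (q p) := summable_mul hw hs.summable (M := 1) fun p => by
        rw [abs_of_nonneg (psi_nonneg _)]
        exact psi_le_one _
      have s5 : Summable fun p => w p * (d + K * (psi γ + Cm / lam)) + K * (w p * psi (q p)) :=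
        (hs.summable.mul_right _).add (s4.mul_left K)
      have hb : ∀ p, ‖w p * (lam * RR w q S lam N Φ (cat γ (q p)) - Φ 0)‖ ≤
          w p * (d + K * (psi γ + Cm / lam)) + K * (w p * psi (q p)) := by
        intro p
        rw [Real.norm_eq_abs, abs_mul, abs_of_nonneg (hw p)]
        have h2 : |lam * RR w q S lam N Φ (cat γ (q p)) - Φ 0| ≤ d + K * (psi γ + Cm / lam) + K * psi (q p) := by
          refine (h1 p).trans ?_
          have h3 := mul_le_mul_of_nonneg_left (psi_cat γ (q p)) hK0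
          linarith
        calc w p * |lam * RR w q S lam N Φ (cat γ (q p)) - Φ 0| ≤ w p * (d + K * (psi γ + Cm / lam) + K * psi (q p)) :=
              mul_le_mul_of_nonneg_left h2 (hw p)
          _ = _ := by ring
      have s6 := Summable.of_nonneg_of_le (fun p => norm_nonneg _) hb s5
      have h3 : |lam * PO w q (RR w q S lam N Φ) γ - Φ 0| ≤ d + K * (psi γ + Cm / lam) + K * ∑' p, w p * psi (q p) := by
        rw [e2, ← Real.norm_eq_abs]
        refine (norm_tsum_le_tsum_norm s6).trans ((s6.tsum_le_tsum hb s5).trans (le_of_eq ?_))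
        rw [(hs.summable.mul_right _).tsum_add (s4.mul_left K), tsum_mul_left, (hs.mul_right _).tsum_eq, one_mul]
      have e4 : (lam + S) * (lam * RR w q S lam N Φ γ - Φ 0) = lam * (Φ γ - Φ 0) + S * (lam * PO w q (RR w q S lam N Φ) γ - Φ 0) := by
        have : (lam + S) * (lam * RR w q S lam N Φ γ - Φ 0) = lam * ((lam + S) * RR w q S lam N Φ γ) - (lam + S) * Φ 0 := by ring
        rw [this, e1]
        ring
      have h4 : (lam + S) * |lam * RR w q S lam N Φ γ - Φ 0| ≤ (lam + S) * (d + K * (psi γ + Cm / lam)) := by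
        rw [← abs_of_pos h0, ← abs_mul, abs_of_pos h0, e4]
        refine (abs_add_le _ _).trans ?_
        rw [abs_mul, abs_mul, abs_of_pos hl, abs_of_pos hS]
        have h5 := mul_le_mul_of_nonneg_left (hΦ γ hγ) hl.le
        have h6 := mul_le_mul_of_nonneg_left h3 hS.le
        have h7 := mul_le_mul_of_nonneg_left hm hK0
        have e5 : lam * (K * (Cm / lam)) = K * Cm := by field_simp
        calc _ ≤ lam * (d + K * psi γ) + S * (d + K * (psi γ + Cm / lam) + K * ∑' p, w p * psi (q p)) := add_le_add h5 h6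
          _ = lam * (d + K * psi γ) + S * (d + K * (psi γ + Cm / lam)) + K * (S * ∑' p, w p * psi (q p)) := by ring
          _ ≤ lam * (d + K * psi γ) + S * (d + K * (psi γ + Cm / lam)) + lam * (K * (Cm / lam)) := by
              rw [e5]
              linarith
          _ = _ := by ring
      exact le_of_mul_le_mul_left h4 h0
  have key' : |lam * RR w q S lam N Φ 0 - Φ 0| ≤ d + K * (psi 0 + Cm / lam) := key
  rwa [psi_zero, zero_add] at key'

end Struct
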