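import Pool.Agent.Struct.D2

/-! STRUCT, D3: the resolvents converge if the bridges converge. -/

set_option autoImplicit false

namespace Struct

open Filter Topology Finset HexObs

lemma pq_ht_ge {N : ℕ} (hN : 1 ≤ N) (p : PI) : 1 / (N : ℝ) ≤ ht (pq N p) := by
  have hN0 : (0 : ℝ) < N := by exact_mod_cast hN
  rw [ht_pq]
  apply div_le_div_of_nonneg_right _ hN0.le
  exact_mod_cast (wtI).h1 p

lemma pq_ht_nonneg (N : ℕ) (p : PI) : 0 ≤ ht (pq N p) := by
  rw [ht_pq]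
  positivity

lemma UB_sub (N : ℕ) {F G : Cv → ℝ} {M M' : ℝ} (hF : Bd F M) (hG : Bd G M') (γ : Cv) :
    UB N (fun x => F x - G x) γ = UB N F γ - UB N G γ := by
  unfold UB
  rw [← sum_sub_distrib]
  refine sum_congr rfl fun c _ => ?_
  have s1 : Summable fun t : BD c => wr t.1 * F (cat γ (curve N t.1)) :=
    bd_summable c (g := fun t => F (cat γ (curve N t.1))) (M := M) fun t => hF _
  have s2 : Summable fun t : BD c => wr t.1 * G (cat γ (curve N t.1)) :=
    bd_summable c (g := fun t => G (cat γ (curve N t.1))) (M := M') fun t => hG _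
  rw [← s1.tsum_sub s2]
  exact tsum_congr fun t => mul_sub _ _ _

/-- the iteration -/
noncomputable def YY (a lam : ℝ) (F : Cv → ℝ) : ℕ → ℕ → Cv → ℝ
  | 0 => fun _ _ => 0
  | j + 1 => fun N γ => (N : ℝ) ^ (-a) * UB N (fun x => F x - lam * YY a lam F j N x) γ

lemma YY_succ (a lam : ℝ) (F : Cv → ℝ) (j N : ℕ) (γ : Cv) :
    YY a lam F (j + 1) N γ = (N : ℝ) ^ (-a) * UB N (fun x => F x - lam * YY a lam F j N x) γ := rfl

lemma YY_van {a lam : ℝ} {F : Cv → ℝ} (hV : Van F 1) {N : ℕ} (hN : 1 ≤ N) : ∀ j, Van (YY a lam F j N) 1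
  | 0 => fun _ _ => rfl
  | j + 1 => by
    intro γ hγ
    have h1 : Van (fun x => F x - lam * YY a lam F j N x) 1 := by
      intro x hx
      show F x - lam * YY a lam F j N x = 0
      rw [hV x hx, YY_van hV hN j x hx, mul_zero, sub_zero]
    rw [YY_succ, UB_van h1 hN γ hγ, mul_zero]

variable {ι : Type} {l : Filter ι} {s : ι → ℕ}

lemma YY_cls {a : ℝ} (hN : Nice l (fun i => vS a (s i)) (fun i => xS (s i))) {F : Cv → ℝ} (hF : Test F) (lam : ℝ) :
    ∀ j, Cls l (fun i => YY a lam F j (s i))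
  | 0 =>
    { inv := fun _ _ _ => rfl
      bd := ⟨0, le_rfl, fun _ γ => by show |(0 : ℝ)| ≤ 0; simp⟩
      lip := ⟨0, le_rfl, fun _ γ γ' => by show |(0 : ℝ) - 0| ≤ _; simp⟩
      lim := fun _ => ⟨0, tendsto_const_nhds⟩ }
  | j + 1 => by
    have h1 : Cls l (fun i x => F x - lam * YY a lam F j (s i) x) :=
      Cls.sub (Test.cls hF) ((YY_cls hN hF lam j).mul_const (c := fun _ => lam) (C := |lam|) (fun _ => le_rfl)
        ⟨lam, tendsto_const_nhds⟩)
    have h2 := hN.op h1 adg_id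
    obtain ⟨M, _, hM⟩ := h1.bd
    have e : (fun i => YY a lam F (j + 1) (s i)) =
        fun i γ => ∑' x, vS a (s i) x * (F (cat γ (xS (s i) x)) - lam * YY a lam F j (s i) (cat γ (xS (s i) x))) := by
      funext i γ
      rw [YY_succ, UB_vS a (s i) (hM i) γ]
    rw [e]
    exact h2

/-- the error of the iteration -/
theorem YY_err {a : ℝ} {F : Cv → ℝ} (hI : Inv F) {M : ℝ} (hM0 : 0 ≤ M) (hM : Bd F M) (hV : Van F 1) {lam : ℝ} (hl : 0 < lam) {N : ℕ}
    (hN : 1 ≤ N) {θ : ℝ} (hθ : 0 ≤ θ) (hY : ∀ j, Inv (YY a lam F j N) ∧ ∃ M', Bd (YY a lam F j N) M')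
    (hr : (N : ℝ) ^ (-a) * ∑ c ∈ range (N + 1), uu c * Real.exp (-(θ * (c / N))) ≤ 1 / (2 * lam)) (j : ℕ) :
    ∀ γ, 0 ≤ ht γ → |RR pw (pq N) ((N : ℝ) ^ a) lam N F γ - YY a lam F j N γ| ≤ (1 / 2) ^ j * (M / lam) * Real.exp (θ * (1 - ht γ)) := by
  have hN0 : (0 : ℝ) < N := by exact_mod_cast hN
  have hS : 0 < (N : ℝ) ^ a := Real.rpow_pos_of_pos hN0 a
  have hR := RR_bd (q := pq N) (N := N) (wtI).w0 (wtI).w1 hS hl hM0 hM
  induction j with
  | zero =>
    intro γ _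
    show |RR pw (pq N) ((N : ℝ) ^ a) lam N F γ - 0| ≤ _
    rw [sub_zero, pow_zero, one_mul]
    rcases le_total 1 (ht γ) with h | h
    · rw [RR_van hV (pq_ht_nonneg N) γ h, abs_zero]
      positivity
    · refine (hR γ).trans ?_
      have h1 : 1 ≤ Real.exp (θ * (1 - ht γ)) := by
        rw [Real.one_le_exp_iff]
        exact mul_nonneg hθ (by linarith)
      calc M / lam = M / lam * 1 := (mul_one _).symm
        _ ≤ _ := mul_le_mul_of_nonneg_left h1 (by positivity)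
  | succ j ih =>
    intro γ hγ
    have cR : Bd (fun x => lam * RR pw (pq N) ((N : ℝ) ^ a) lam N F x) (lam * (M / lam)) := by
      intro γ
      rw [abs_mul, abs_of_pos hl]
      exact mul_le_mul_of_nonneg_left (hR γ) hl.le
    have cE : Bd (fun x => F x - lam * RR pw (pq N) ((N : ℝ) ^ a) lam N F x) (M + lam * (M / lam)) := by
      intro x
      have h2 := abs_sub (F x) (lam * RR pw (pq N) ((N : ℝ) ^ a) lam N F x)
      have h3 := hM x
      have h4 : |lam * RR pw (pq N) ((N : ℝ) ^ a) lam N F x| ≤ lam * (M / lam) := cR x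
      linarith
    have iE : Inv (fun x => F x - lam * RR pw (pq N) ((N : ℝ) ^ a) lam N F x) := by
      intro x ρ
      show F (x.comp ρ.f) - lam * RR pw (pq N) ((N : ℝ) ^ a) lam N F (x.comp ρ.f) = _
      rw [hI x ρ, RR_inv hI x ρ]
    have vE : Van (fun x => F x - lam * RR pw (pq N) ((N : ℝ) ^ a) lam N F x) 1 := by
      intro x hx
      show F x - lam * RR pw (pq N) ((N : ℝ) ^ a) lam N F x = 0
      rw [hV x hx, RR_van hV (pq_ht_nonneg N) x hx, mul_zero, sub_zero]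
    obtain ⟨iY, M', bY⟩ := hY j
    have cY : Bd (fun x => lam * YY a lam F j N x) (lam * M') := by
      intro γ
      rw [abs_mul, abs_of_pos hl]
      exact mul_le_mul_of_nonneg_left (bY γ) hl.le
    have cE' : Bd (fun x => F x - lam * YY a lam F j N x) (M + lam * M') := by
      intro x
      have h2 := abs_sub (F x) (lam * YY a lam F j N x)
      have h3 := hM x
      have h4 : |lam * YY a lam F j N x| ≤ lam * M' := cY x
      linarith
    have e1 : (N : ℝ) ^ a * RR pw (pq N) ((N : ℝ) ^ a) lam N F γ =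
        UB N (fun x => F x - lam * RR pw (pq N) ((N : ℝ) ^ a) lam N F x) γ :=
      RR_fix (wtI).w0 (wtI).w1 hS hl hN (pq_ht_ge hN) hM0 hM hV (UB_bd' cE N) (UB_van vE hN)
        (fun x hx => UB_eq hN iE cE vE hx) hγ
    have e2 : RR pw (pq N) ((N : ℝ) ^ a) lam N F γ =
        (N : ℝ) ^ (-a) * UB N (fun x => F x - lam * RR pw (pq N) ((N : ℝ) ^ a) lam N F x) γ := by
      rw [← e1, ← mul_assoc, Real.rpow_neg hN0.le, inv_mul_cancel₀ hS.ne', one_mul]
    have e3 : RR pw (pq N) ((N : ℝ) ^ a) lam N F γ - YY a lam F (j + 1) N γ =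
        (N : ℝ) ^ (-a) * UB N (fun x => (F x - lam * RR pw (pq N) ((N : ℝ) ^ a) lam N F x) - (F x - lam * YY a lam F j N x)) γ := by
      rw [YY_succ, UB_sub N cE cE', mul_sub, ← e2]
    have h5 := UB_wt hN (D := fun x => (F x - lam * RR pw (pq N) ((N : ℝ) ^ a) lam N F x) - (F x - lam * YY a lam F j N x))
      (K := lam * ((1 / 2) ^ j * (M / lam))) (θ := θ) (by
        intro x hx
        have e4 : (F x - lam * RR pw (pq N) ((N : ℝ) ^ a) lam N F x) - (F x - lam * YY a lam F j N x) =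
            -(lam * (RR pw (pq N) ((N : ℝ) ^ a) lam N F x - YY a lam F j N x)) := by ring
        rw [e4, abs_neg, abs_mul, abs_of_pos hl, mul_assoc]
        exact mul_le_mul_of_nonneg_left (ih x hx) hl.le) hγ
    have h6 : 0 ≤ (N : ℝ) ^ (-a) := by positivity
    rw [e3, abs_mul, abs_of_nonneg h6]
    refine (mul_le_mul_of_nonneg_left h5 h6).trans ?_
    rw [← mul_assoc]
    have h7 : 0 ≤ lam * ((1 / 2) ^ j * (M / lam)) * Real.exp (θ * (1 - ht γ)) := by positivity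
    refine (mul_le_mul_of_nonneg_right hr h7).trans (le_of_eq ?_)
    rw [pow_succ]
    field_simp

/-- the resolvents converge -/
theorem RR_conv {a b : ℝ} (ha : 0 < a) (ha1 : a < 1) (hb : 0 < b)
    (hu : Tendsto (fun n : ℕ => (n : ℝ) ^ (1 - a) * uu n) atTop (𝓝 b)) (hs : Tendsto s l atTop)
    (hN : Nice l (fun i => vS a (s i)) (fun i => xS (s i))) {F : Cv → ℝ} (hF : Test F) (hV : Van F 1)
    {lam : ℝ} (hl : 0 < lam) : ∃ z, Tendsto (fun i => RR pw (pq (s i)) ((s i : ℝ) ^ a) lam (s i) F 0) l (𝓝 z) := by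
  obtain ⟨M, hM0, hM⟩ := hF.bd
  obtain ⟨θ, hθ, hS⟩ := S_small ha ha1 hb hu (r := 1 / (2 * lam)) (by positivity)
  have hY := YY_cls hN hF lam
  refine conv_approx fun ε hε => ?_
  obtain ⟨j, hj⟩ : ∃ j : ℕ, (1 / 2 : ℝ) ^ j * (M / lam) * Real.exp (θ * (1 - ht 0)) ≤ ε := by
    have h1 : Tendsto (fun j : ℕ => (1 / 2 : ℝ) ^ j * (M / lam) * Real.exp (θ * (1 - ht 0))) atTop
        (𝓝 (0 * (M / lam) * Real.exp (θ * (1 - ht 0)))) :=
      ((tendsto_pow_atTop_nhds_zero_of_lt_one (by norm_num) (by norm_num)).mul_const _).mul_const _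
    rw [zero_mul, zero_mul] at h1
    obtain ⟨j, hj⟩ := (h1.eventually_lt_const hε).exists
    exact ⟨j, hj.le⟩
  refine ⟨fun i => YY a lam F j (s i) 0, (hY j).lim 0, ?_⟩
  filter_upwards [hs.eventually hS, hs.eventually_ge_atTop 1] with i hi hi1
  refine (YY_err hF.inv hM0 hM hV hl hi1 hθ (fun j => ⟨(hY j).inv i, ?_⟩) hi j 0 (by rw [ht_zero])).trans hj
  obtain ⟨M', _, h⟩ := (hY j).bd
  exact ⟨M', h i⟩

end Struct
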