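import Pool.Agent.Struct.D3

/-! STRUCT, D4: the generators converge if the bridges converge. -/

set_option autoImplicit false

namespace Struct

open Filter Topology Finset HexObs

lemma lip_psi {F : Cv → ℝ} {M L : ℝ} (hM0 : 0 ≤ M) (hM : Bd F M) (hL0 : 0 ≤ L) (hL : Lp F L) {γ γ' x : Cv}
    (h : dist γ γ' ≤ dist x 0) : |F γ - F γ'| ≤ (L + 2 * M) * psi x := by
  have h1 : |F γ - F γ'| ≤ L * dist x 0 := (hL _ _).trans (mul_le_mul_of_nonneg_left h hL0)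
  have h2 : |F γ - F γ'| ≤ 2 * M := by
    have h3 := abs_sub (F γ) (F γ')
    have h4 := hM γ
    have h5 := hM γ'
    linarith
  unfold psi
  have h6 : 0 ≤ dist x 0 := dist_nonneg
  rcases le_total 1 (dist x 0) with h | h
  · rw [min_eq_left h]
    linarith
  · rw [min_eq_right h]
    nlinarith

/-- one piece changes a test function little -/
lemma step_psi {F : Cv → ℝ} (hI : Inv F) {M L : ℝ} (hM0 : 0 ≤ M) (hM : Bd F M) (hL0 : 0 ≤ L) (hL : Lp F L) (γ x : Cv) :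
    |F γ - F (cat γ x)| ≤ (L + 2 * M) * psi x := by
  have e : F γ = F (cat γ 0) := (hI.cat_zero γ).symm
  rw [e]
  refine lip_psi hM0 hM hL0 hL ?_
  rw [dist_comm x 0]
  exact dist_cat_left _ _ _

/-- one piece changes a test function little -/
lemma step_dist {F : Cv → ℝ} (hI : Inv F) {L : ℝ} (hL0 : 0 ≤ L) (hL : Lp F L) (γ x : Cv) :
    |F γ - F (cat γ x)| ≤ L * dist x 0 := by
  have e : F γ = F (cat γ 0) := (hI.cat_zero γ).symm
  rw [e, dist_comm x 0]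
  exact (hL _ _).trans (mul_le_mul_of_nonneg_left (dist_cat_left _ _ _) hL0)

/-- the mean size of a piece -/
theorem psi_mass {a b : ℝ} (ha : 0 < a) (ha1 : a < 1) (hb : 0 < b)
    (hu : Tendsto (fun n : ℕ => (n : ℝ) ^ (1 - a) * uu n) atTop (𝓝 b)) : ∃ C : ℝ, 0 < C ∧ ∀ N : ℕ, 1 ≤ N →
    (N : ℝ) ^ a * ∑' p, pw p * psi (pq N p) ≤ C := by
  obtain ⟨C2, h20, h2⟩ := momI ha ha1 hb hu
  obtain ⟨C1, h10, h1⟩ := KK_le CutLim.ren_uu ha ha1 hb hu
  refine ⟨C2 + C1, by positivity, fun N hN => ?_⟩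
  obtain ⟨hs, hm⟩ := h2 N N hN hN
  have hN0 : (0 : ℝ) < N := by exact_mod_cast hN
  have hNa : 0 < (N : ℝ) ^ a := Real.rpow_pos_of_pos hN0 a
  have s1 : Summable fun p => pw p * psi (pq N p) := summable_mul (wtI).w0 (wtI).w1.summable (M := 1) fun p => by
    rw [abs_of_nonneg (psi_nonneg _)]
    exact psi_le_one _
  have s2 := (wb_sum wtI N)
  have hb' : ∀ p, pw p * psi (pq N p) ≤ ws pw ph N p * dist (pq N p) 0 + wb pw ph N p := by
    intro p
    rw [← wb_ws (w := pw) (h := ph) N p, add_mul, add_comm]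
    refine add_le_add (mul_le_mul_of_nonneg_left (min_le_right _ _) (ws_nonneg wtI N p)) ?_
    calc wb pw ph N p * psi (pq N p) ≤ wb pw ph N p * 1 := mul_le_mul_of_nonneg_left (psi_le_one _) (wb_nonneg wtI N p)
      _ = _ := mul_one _
  have h3 := s1.tsum_le_tsum hb' (hs.add s2.summable)
  rw [hs.tsum_add s2.summable, s2.tsum_eq] at h3
  have h4 : (N : ℝ) ^ a * (C2 * (N : ℝ) ^ (1 - a) / N) = C2 := by
    have h5 : (N : ℝ) ^ a * (N : ℝ) ^ (1 - a) = N := by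
      rw [← Real.rpow_add hN0, add_sub_cancel, Real.rpow_one]
    calc _ = C2 * ((N : ℝ) ^ a * (N : ℝ) ^ (1 - a)) / N := by ring
      _ = C2 := by rw [h5, mul_div_assoc, div_self hN0.ne', mul_one]
  calc _ ≤ (N : ℝ) ^ a * (C2 * (N : ℝ) ^ (1 - a) / N + CutLim.KK kk N) :=
        mul_le_mul_of_nonneg_left (h3.trans (add_le_add hm le_rfl)) hNa.le
    _ = (N : ℝ) ^ a * (C2 * (N : ℝ) ^ (1 - a) / N) + (N : ℝ) ^ a * CutLim.KK kk N := by ring
    _ ≤ C2 + C1 := by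
        rw [h4]
        linarith [h1 N]

lemma GG_sum {F : Cv → ℝ} {M : ℝ} (hM : Bd F M) (S : ℝ) (N : ℕ) (γ : Cv) :
    GG pw (pq N) S F γ = S * ∑' p, pw p * (F γ - F (cat γ (pq N p))) := by
  unfold GG PO
  congr 1
  have s1 : Summable fun p => pw p * F (cat γ (pq N p)) := summable_mul (wtI).w0 (wtI).w1.summable fun p => hM _
  have s2 : HasSum (fun p => pw p * F γ) (1 * F γ) := (wtI).w1.mul_right _
  have e3 : ∑' p, pw p * (F γ - F (cat γ (pq N p))) = ∑' p, (pw p * F γ - pw p * F (cat γ (pq N p))) :=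
    tsum_congr fun p => mul_sub _ _ _
  rw [e3, s2.summable.tsum_sub s1, s2.tsum_eq, one_mul]

/-- the generator is bounded -/
theorem GG_bd' {a C : ℝ} (hC : ∀ N : ℕ, 1 ≤ N → (N : ℝ) ^ a * ∑' p, pw p * psi (pq N p) ≤ C) {F : Cv → ℝ} (hI : Inv F) {M L : ℝ}
    (hM0 : 0 ≤ M) (hM : Bd F M) (hL0 : 0 ≤ L) (hL : Lp F L) {N : ℕ} (hN : 1 ≤ N) :
    Bd (GG pw (pq N) ((N : ℝ) ^ a) F) ((L + 2 * M) * C) := by
  intro γ
  have hN0 : (0 : ℝ) < N := by exact_mod_cast hN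
  have hNa : 0 < (N : ℝ) ^ a := Real.rpow_pos_of_pos hN0 a
  rw [GG_sum hM, abs_mul, abs_of_pos hNa]
  have s1 : Summable fun p => pw p * psi (pq N p) := summable_mul (wtI).w0 (wtI).w1.summable (M := 1) fun p => by
    rw [abs_of_nonneg (psi_nonneg _)]
    exact psi_le_one _
  have hb' : ∀ p, ‖pw p * (F γ - F (cat γ (pq N p)))‖ ≤ (L + 2 * M) * (pw p * psi (pq N p)) := by
    intro p
    rw [Real.norm_eq_abs, abs_mul, abs_of_nonneg ((wtI).w0 p)]
    calc pw p * |F γ - F (cat γ (pq N p))| ≤ pw p * ((L + 2 * M) * psi (pq N p)) :=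
          mul_le_mul_of_nonneg_left (step_psi hI hM0 hM hL0 hL _ _) ((wtI).w0 p)
      _ = _ := by ring
  have s2 := Summable.of_nonneg_of_le (fun p => norm_nonneg _) hb' (s1.mul_left (L + 2 * M))
  have h1 : |∑' p, pw p * (F γ - F (cat γ (pq N p)))| ≤ (L + 2 * M) * ∑' p, pw p * psi (pq N p) := by
    rw [← Real.norm_eq_abs, ← tsum_mul_left]
    exact (norm_tsum_le_tsum_norm s2).trans (s2.tsum_le_tsum hb' (s1.mul_left (L + 2 * M)))
  calc _ ≤ (N : ℝ) ^ a * ((L + 2 * M) * ∑' p, pw p * psi (pq N p)) := mul_le_mul_of_nonneg_left h1 hNa.le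
    _ = (L + 2 * M) * ((N : ℝ) ^ a * ∑' p, pw p * psi (pq N p)) := by ring
    _ ≤ _ := mul_le_mul_of_nonneg_left (hC N hN) (by positivity)

/-- the generator is almost Lipschitz -/
theorem GG_move {a C2 : ℝ} {F : Cv → ℝ} (hI : Inv F) {M L : ℝ} (hM0 : 0 ≤ M) (hM : Bd F M) (hL0 : 0 ≤ L) (hL : Lp F L)
    {N n : ℕ} (hN : 1 ≤ N) (hs : Summable (fun p => ws pw ph n p * dist (pq N p) 0))
    (hm : ∑' p, ws pw ph n p * dist (pq N p) 0 ≤ C2 * (n : ℝ) ^ (1 - a) / N) (γ : Cv) :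
    |GG pw (pq N) ((N : ℝ) ^ a) F γ - GG pw (pq N) ((N : ℝ) ^ a) F 0| ≤
      2 * L * ((N : ℝ) ^ a * (C2 * (n : ℝ) ^ (1 - a) / N)) + 2 * (L + 2 * M) * ((N : ℝ) ^ a * CutLim.KK kk n) * psi γ := by
  have hN0 : (0 : ℝ) < N := by exact_mod_cast hN
  have hNa : 0 < (N : ℝ) ^ a := Real.rpow_pos_of_pos hN0 a
  have bd1 : ∀ γ p, |F γ - F (cat γ (pq N p))| ≤ 2 * M := by
    intro γ p
    have h3 := abs_sub (F γ) (F (cat γ (pq N p)))
    have h4 := hM γ
    have h5 := hM (cat γ (pq N p))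
    linarith
  have s1 : ∀ γ, Summable fun p => pw p * (F γ - F (cat γ (pq N p))) := fun γ =>
    summable_mul (wtI).w0 (wtI).w1.summable fun p => bd1 γ p
  rw [GG_sum hM, GG_sum hM, ← mul_sub, abs_mul, abs_of_pos hNa, ← (s1 γ).tsum_sub (s1 0)]
  have s2 := (wb_sum wtI n)
  have hb' : ∀ p, ‖pw p * (F γ - F (cat γ (pq N p))) - pw p * (F 0 - F (cat 0 (pq N p)))‖ ≤
      2 * L * (ws pw ph n p * dist (pq N p) 0) + 2 * (L + 2 * M) * psi γ * wb pw ph n p := by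
    intro p
    rw [← mul_sub, Real.norm_eq_abs, abs_mul, abs_of_nonneg ((wtI).w0 p)]
    unfold ws wb
    rcases Nat.lt_or_ge (ph p) n with h | h
    · rw [if_pos h, if_neg (by omega), mul_zero, add_zero]
      have h1 : |F γ - F (cat γ (pq N p)) - (F 0 - F (cat 0 (pq N p)))| ≤ 2 * L * dist (pq N p) 0 := by
        have h2 := step_dist hI hL0 hL γ (pq N p)
        have h3 := step_dist hI hL0 hL 0 (pq N p)
        refine (abs_sub _ _).trans ?_
        linarith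
      calc _ ≤ pw p * (2 * L * dist (pq N p) 0) := mul_le_mul_of_nonneg_left h1 ((wtI).w0 p)
        _ = _ := by ring
    · rw [if_neg (by omega), if_pos h, zero_mul, mul_zero, zero_add]
      have h1 : |F γ - F (cat γ (pq N p)) - (F 0 - F (cat 0 (pq N p)))| ≤ 2 * (L + 2 * M) * psi γ := by
        have e : F γ - F (cat γ (pq N p)) - (F 0 - F (cat 0 (pq N p))) =
            (F γ - F 0) - (F (cat γ (pq N p)) - F (cat 0 (pq N p))) := by ring
        rw [e]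
        have h2 := lip_psi hM0 hM hL0 hL (γ := γ) (γ' := 0) (x := γ) le_rfl
        have h3 := lip_psi hM0 hM hL0 hL (γ := cat γ (pq N p)) (γ' := cat 0 (pq N p)) (x := γ) (dist_cat_right _ _ _)
        refine (abs_sub _ _).trans ?_
        linarith
      calc _ ≤ pw p * (2 * (L + 2 * M) * psi γ) := mul_le_mul_of_nonneg_left h1 ((wtI).w0 p)
        _ = _ := by ring
  have s3 := (hs.mul_left (2 * L)).add (s2.summable.mul_left (2 * (L + 2 * M) * psi γ))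
  have s4 := Summable.of_nonneg_of_le (fun p => norm_nonneg _) hb' s3
  have h1 := (norm_tsum_le_tsum_norm s4).trans (s4.tsum_le_tsum hb' s3)
  rw [(hs.mul_left (2 * L)).tsum_add (s2.summable.mul_left (2 * (L + 2 * M) * psi γ)), tsum_mul_left, tsum_mul_left, s2.tsum_eq,
    Real.norm_eq_abs] at h1
  have h2 : 2 * L * ∑' p, ws pw ph n p * dist (pq N p) 0 ≤ 2 * L * (C2 * (n : ℝ) ^ (1 - a) / N) :=
    mul_le_mul_of_nonneg_left hm (by positivity)
  calc _ ≤ (N : ℝ) ^ a * (2 * L * (C2 * (n : ℝ) ^ (1 - a) / N) + 2 * (L + 2 * M) * psi γ * CutLim.KK kk n) :=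
        mul_le_mul_of_nonneg_left (h1.trans (add_le_add h2 le_rfl)) hNa.le
    _ = _ := by ring

/-- the generators converge on the functions that vanish above the height 1 -/
theorem CB_van {ι : Type} {l : Filter ι} {s : ι → ℕ} {a b : ℝ} (ha : 0 < a) (ha1 : a < 1) (hb : 0 < b)
    (hu : Tendsto (fun n : ℕ => (n : ℝ) ^ (1 - a) * uu n) atTop (𝓝 b)) (hs' : Tendsto s l atTop)
    (hNice : Nice l (fun i => vS a (s i)) (fun i => xS (s i))) {F : Cv → ℝ} (hF : Test F) (hV : Van F 1) :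
    ∃ z, Tendsto (fun i => GG pw (pq (s i)) ((s i : ℝ) ^ a) F 0) l (𝓝 z) := by
  obtain ⟨M, hM0, hM⟩ := hF.bd
  obtain ⟨L, hL0, hL⟩ := hF.lip
  obtain ⟨C2, h20, h2⟩ := momI ha ha1 hb hu
  obtain ⟨C1, h10, h1⟩ := KK_scale_le CutLim.ren_uu ha ha1 hb hu
  obtain ⟨Cm, hCm0, hCm⟩ := psi_mass ha ha1 hb hu
  refine conv_approx fun ε hε => ?_
  obtain ⟨δ, hδ0, hδ1, hδ⟩ := small_pow ha1 (A := 2 * L * C2) (δ := ε / 2) (by positivity) (by positivity)
  set K : ℝ := (L + 2 * M) * Cm + 2 * (L + 2 * M) * (C1 * δ ^ (-a)) with hK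
  have hK0 : 0 ≤ K := by positivity
  obtain ⟨lam, hl0, hl⟩ : ∃ lam : ℝ, 0 < lam ∧ K * (Cm / lam) ≤ ε / 2 := by
    refine ⟨2 * K * Cm / ε + 1, by positivity, ?_⟩
    rw [← mul_div_assoc, div_le_iff₀ (by positivity)]
    have e : ε / 2 * (2 * K * Cm / ε + 1) = K * Cm + ε / 2 := by field_simp
    rw [e]
    linarith
  obtain ⟨z, hz⟩ := RR_conv ha ha1 hb hu hs' hNice hF hV hl0
  refine ⟨fun i => lam * (F 0 - lam * RR pw (pq (s i)) ((s i : ℝ) ^ a) lam (s i) F 0), ⟨lam * (F 0 - lam * z), ((hz.const_mul lam).const_sub (F 0)).const_mul lam⟩, ?_⟩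
  filter_upwards [hs'.eventually_ge_atTop ⌈1 / δ⌉₊, hs'.eventually_ge_atTop 1] with i hN hN1
  set N := s i with hNdef
  have hN0 : (0 : ℝ) < N := by exact_mod_cast hN1
  have hNa : 0 < (N : ℝ) ^ a := Real.rpow_pos_of_pos hN0 a
  have hδN : 1 ≤ δ * N := by
    have h3 : 1 / δ ≤ N := (Nat.le_ceil _).trans (by exact_mod_cast hN)
    rw [div_le_iff₀ hδ0] at h3
    linarith
  set n := ⌈δ * N⌉₊ with hn
  have hn1 : 1 ≤ n := by
    have h5 : δ * N ≤ (n : ℝ) := Nat.le_ceil _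
    have : (1 : ℝ) ≤ n := hδN.trans h5
    exact_mod_cast this
  have hnle : (n : ℝ) ≤ 2 * δ * N := by
    have := (Nat.ceil_lt_add_one (show 0 ≤ δ * N by positivity)).le
    linarith
  obtain ⟨hs, hm⟩ := h2 N n hN1 hn1
  have hq := pq_ht_ge hN1
  have e1 : lam * RR pw (pq N) ((N : ℝ) ^ a) lam N F 0 = F 0 - RR pw (pq N) ((N : ℝ) ^ a) lam N (GG pw (pq N) ((N : ℝ) ^ a) F) 0 :=
    RR_gen (wtI).w0 (wtI).w1 hNa hl0 hN1 hq hM0 hM hV (by rw [ht_zero])
  have e2 : lam * (F 0 - lam * RR pw (pq N) ((N : ℝ) ^ a) lam N F 0) =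
      lam * RR pw (pq N) ((N : ℝ) ^ a) lam N (GG pw (pq N) ((N : ℝ) ^ a) F) 0 := by
    rw [e1]
    ring
  rw [e2, abs_sub_comm]
  have hB := GG_bd' hCm hF.inv hM0 hM hL0 hL hN1
  have hd : 2 * L * ((N : ℝ) ^ a * (C2 * (n : ℝ) ^ (1 - a) / N)) ≤ ε / 2 := by
    have h5 : (n : ℝ) ^ (1 - a) ≤ (2 * δ) ^ (1 - a) * (N : ℝ) ^ (1 - a) := by
      rw [← Real.mul_rpow (by positivity) hN0.le]
      exact Real.rpow_le_rpow (Nat.cast_nonneg _) hnle (by linarith)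
    have h6 : (N : ℝ) ^ a * (N : ℝ) ^ (1 - a) = N := by
      rw [← Real.rpow_add hN0, add_sub_cancel, Real.rpow_one]
    calc _ ≤ 2 * L * ((N : ℝ) ^ a * (C2 * ((2 * δ) ^ (1 - a) * (N : ℝ) ^ (1 - a)) / N)) := by gcongr
      _ = 2 * L * C2 * (2 * δ) ^ (1 - a) * (((N : ℝ) ^ a * (N : ℝ) ^ (1 - a)) / N) := by ring
      _ ≤ _ := by
          rw [h6, div_self hN0.ne', mul_one]
          exact hδ
  have hmv : ∀ γ, 0 ≤ ht γ → |GG pw (pq N) ((N : ℝ) ^ a) F γ - GG pw (pq N) ((N : ℝ) ^ a) F 0| ≤ ε / 2 + K * psi γ := by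
    intro γ _
    refine (GG_move hF.inv hM0 hM hL0 hL hN1 hs hm γ).trans (add_le_add hd (mul_le_mul_of_nonneg_right ?_ (psi_nonneg γ)))
    have h5 : (N : ℝ) ^ a * CutLim.KK kk n ≤ C1 * δ ^ (-a) := h1 δ N hδ0
    have h6 : 0 ≤ (L + 2 * M) * Cm := by positivity
    have h7 := mul_le_mul_of_nonneg_left h5 (show 0 ≤ 2 * (L + 2 * M) by positivity)
    rw [hK]
    linarith
  have hK' : |GG pw (pq N) ((N : ℝ) ^ a) F 0| ≤ K := by
    refine (hB 0).trans ?_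
    have : 0 ≤ 2 * (L + 2 * M) * (C1 * δ ^ (-a)) := by positivity
    rw [hK]
    linarith
  have h9 := yosida (wtI).w0 (wtI).w1 hNa hl0 hN1 hq (by positivity) hB (GG_van hV (pq_ht_nonneg N)) (half_pos hε).le hK' hmv hCm0.le
    (hCm N hN1)
  linarith

end Struct
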