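import Pool.Agent.Struct.D4

/-! STRUCT, D5: the bridges determine the excursions. -/

set_option autoImplicit false

namespace Struct

open Filter Topology Finset HexObs

lemma Test.mul_height {F : Cv → ℝ} (hF : Test F) {φ : ℝ → ℝ} (h0 : ∀ x, 0 ≤ φ x) (h1 : ∀ x, φ x ≤ 1) {K : ℝ} (hK : 0 ≤ K)
    (hl : ∀ x y, |φ x - φ y| ≤ K * |x - y|) : Test fun γ => φ (ht γ) * F γ := by
  obtain ⟨M, hM0, hM⟩ := hF.bd
  obtain ⟨L, hL0, hL⟩ := hF.lip
  refine ⟨?_, ⟨M, hM0, ?_⟩, 1 * L + K * M, by positivity, ?_⟩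
  · intro γ ρ
    show φ (ht (γ.comp ρ.f)) * F (γ.comp ρ.f) = _
    rw [ht_comp, hF.inv γ ρ]
  · intro γ
    rw [abs_mul, abs_of_nonneg (h0 _)]
    have := h1 (ht γ)
    have := h0 (ht γ)
    have := hM γ
    have := abs_nonneg (F γ)
    nlinarith
  · intro γ γ'
    have e : φ (ht γ) * F γ - φ (ht γ') * F γ' = φ (ht γ) * (F γ - F γ') + (φ (ht γ) - φ (ht γ')) * F γ' := by ring
    rw [e]
    refine (abs_add_le _ _).trans ?_
    rw [abs_mul, abs_mul, abs_of_nonneg (h0 _)]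
    have a1 := mul_le_mul (h1 (ht γ)) (hL γ γ') (abs_nonneg _) zero_le_one
    have a0 : |φ (ht γ) - φ (ht γ')| ≤ K * dist γ γ' := (hl _ _).trans (mul_le_mul_of_nonneg_left (ht_lip _ _) hK)
    have a2 := mul_le_mul a0 (hM γ') (abs_nonneg _) (by positivity)
    refine (add_le_add a1 a2).trans (le_of_eq ?_)
    ring

lemma ht_smul (c : ℝ) (γ : Cv) : ht (c • γ) = c * ht γ := by
  unfold ht
  have : (c • γ) 1 = (c : ℂ) * γ 1 := by
    rw [ContinuousMap.smul_apply, Complex.real_smul]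
  rw [this, Complex.im_ofReal_mul]
  ring

/-- functions vanishing near the bottom -/
theorem CB_pos {ι : Type} {l : Filter ι} {s : ι → ℕ} {a b : ℝ} (ha : 0 < a) (ha1 : a < 1) (hb : 0 < b)
    (hu : Tendsto (fun n : ℕ => (n : ℝ) ^ (1 - a) * uu n) atTop (𝓝 b)) (hs' : Tendsto s l atTop)
    (hNice : ∀ R : ℕ, 1 ≤ R → Nice l (fun i => vS a (R * s i)) (fun i => xS (R * s i))) {y : ℝ} (hy : 0 < y) {G : Cv → ℝ}
    (hG : Test G) (hGv : ∀ γ, ht γ < y → G γ = 0) :
    ∃ z, Tendsto (fun i => (s i : ℝ) ^ a * PO pw (pq (s i)) G 0) l (𝓝 z) := by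
  obtain ⟨M, hM0, hM⟩ := hG.bd
  obtain ⟨C1, h10, h1⟩ := KK_scale_le CutLim.ren_uu ha ha1 hb hu
  refine conv_approx fun ε hε => ?_
  obtain ⟨m, hm1, hm⟩ : ∃ m : ℕ, 1 ≤ m ∧ M * (C1 * (m : ℝ) ^ (-a)) ≤ ε := by
    have h2 : Tendsto (fun m : ℕ => M * (C1 * (m : ℝ) ^ (-a))) atTop (𝓝 (M * (C1 * 0))) :=
      (((tendsto_rpow_neg_atTop ha).comp tendsto_natCast_atTop_atTop).const_mul C1).const_mul M
    rw [mul_zero, mul_zero] at h2
    obtain ⟨m, h3, h4⟩ := ((h2.eventually_lt_const hε).and (eventually_ge_atTop 1)).exists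
    exact ⟨m, h4, h3.le⟩
  set R : ℕ := m + 1 with hR
  have hR0 : (0 : ℝ) < R := by
    rw [hR]
    positivity
  have hRm : (R : ℝ) = m + 1 := by
    rw [hR]
    push_cast
    ring
  set φ : ℝ → ℝ := fun x => max 0 (min 1 (R - x)) with hφ
  have φ0 : ∀ x, 0 ≤ φ x := fun x => le_max_left _ _
  have φ1 : ∀ x, φ x ≤ 1 := fun x => max_le zero_le_one (min_le_left _ _)
  have φl : ∀ x y, |φ x - φ y| ≤ 1 * |x - y| := by
    intro x y
    refine (clamp_lip _ _).trans (le_of_eq ?_)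
    rw [one_mul, abs_sub_comm x y]
    congr 1
    ring
  have hGR := hG.mul_height φ0 φ1 zero_le_one φl
  have hF := hGR.smul (R : ℝ)
  have hV : Van (fun x : Cv => φ (ht ((R : ℝ) • x)) * G ((R : ℝ) • x)) 1 := by
    intro γ hγ
    show φ (ht ((R : ℝ) • γ)) * G ((R : ℝ) • γ) = 0
    have h2 : (R : ℝ) ≤ ht ((R : ℝ) • γ) := by
      rw [ht_smul]
      calc (R : ℝ) = R * 1 := (mul_one _).symm
        _ ≤ _ := mul_le_mul_of_nonneg_left hγ hR0.le
    have h3 : φ (ht ((R : ℝ) • γ)) = 0 := by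
      show max 0 (min 1 ((R : ℝ) - ht ((R : ℝ) • γ))) = 0
      rw [min_eq_right (by linarith), max_eq_left (by linarith)]
    rw [h3, zero_mul]
  have hsub : Tendsto (fun i => R * s i) l atTop :=
    tendsto_atTop_mono (fun i => Nat.le_mul_of_pos_left (s i) (by omega)) hs'
  obtain ⟨z, hz⟩ := CB_van (s := fun i => R * s i) ha ha1 hb hu hsub (hNice R (by omega)) hF hV
  have hz' := hz.const_mul (-((R : ℝ) ^ (-a)))
  have bR : ∀ x, |φ (ht x) * G x| ≤ M := by
    intro x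
    rw [abs_mul, abs_of_nonneg (φ0 _)]
    have h2 := φ1 (ht x)
    have h3 := φ0 (ht x)
    have h4 := hM x
    have h5 := abs_nonneg (G x)
    nlinarith
  refine ⟨fun i => (s i : ℝ) ^ a * ∑' p, pw p * (φ (ht (pq (s i) p)) * G (pq (s i) p)), ⟨-((R : ℝ) ^ (-a)) * z, ?_⟩, ?_⟩
  · refine hz'.congr' ?_
    filter_upwards [hs'.eventually_ge_atTop 1] with i hT
    set T := s i with hTdef
    have hT0 : (0 : ℝ) < T := by exact_mod_cast hT
    show -((R : ℝ) ^ (-a)) * GG pw (pq (R * T)) (((R * T : ℕ) : ℝ) ^ a) (fun x : Cv => φ (ht ((R : ℝ) • x)) * G ((R : ℝ) • x)) 0 = _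
    unfold GG PO
    have e0 : φ (ht ((R : ℝ) • (0 : Cv))) * G ((R : ℝ) • (0 : Cv)) = 0 := by
      rw [smul_zero', hGv 0 (by rw [ht_zero]; exact hy), mul_zero]
    have e1 : ∀ p, φ (ht ((R : ℝ) • cat 0 (pq (R * T) p))) * G ((R : ℝ) • cat 0 (pq (R * T) p)) =
        φ (ht (pq T p)) * G (pq T p) := by
      intro p
      have h2 := hF.inv.zero_cat (pq (R * T) p)
      have h3 : (R : ℝ) • pq (R * T) p = pq T p := by
        rw [pq_smul hT (show 1 ≤ R * T from Nat.mul_pos (by omega) hT)]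
        congr 1
        push_cast
        field_simp
      rw [h3] at h2
      exact h2
    have e4 : (R : ℝ) ^ (-a) = ((R : ℝ) ^ a)⁻¹ := Real.rpow_neg hR0.le a
    show -((R : ℝ) ^ (-a)) * (((R * T : ℕ) : ℝ) ^ a * (φ (ht ((R : ℝ) • (0 : Cv))) * G ((R : ℝ) • (0 : Cv)) -
      ∑' p, pw p * (φ (ht ((R : ℝ) • cat 0 (pq (R * T) p))) * G ((R : ℝ) • cat 0 (pq (R * T) p))))) = _
    rw [e0, tsum_congr fun p => by rw [e1 p]]
    push_cast
    rw [Real.mul_rpow hR0.le hT0.le, e4]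
    have h4 : (R : ℝ) ^ a ≠ 0 := (Real.rpow_pos_of_pos hR0 a).ne'
    field_simp
    ring
  · filter_upwards [hs'.eventually_ge_atTop 1] with i hT
    set T := s i with hTdef
    have hT0 : (0 : ℝ) < T := by exact_mod_cast hT
    have hTa : 0 < (T : ℝ) ^ a := Real.rpow_pos_of_pos hT0 a
    have e2 : PO pw (pq T) G 0 = ∑' p, pw p * G (pq T p) := by
      unfold PO
      exact tsum_congr fun p => by rw [hG.inv.zero_cat]
    have s1 : Summable fun p => pw p * G (pq T p) := summable_mul (wtI).w0 (wtI).w1.summable fun p => hM _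
    have s2 : Summable fun p => pw p * (φ (ht (pq T p)) * G (pq T p)) := summable_mul (wtI).w0 (wtI).w1.summable fun p => bR _
    rw [e2, ← mul_sub, abs_mul, abs_of_pos hTa, ← s1.tsum_sub s2]
    set n := ⌈(m : ℝ) * T⌉₊ with hn
    have hb' : ∀ p, ‖pw p * G (pq T p) - pw p * (φ (ht (pq T p)) * G (pq T p))‖ ≤ M * wb pw ph n p := by
      intro p
      rw [← mul_sub, Real.norm_eq_abs, abs_mul, abs_of_nonneg ((wtI).w0 p)]
      unfold wb
      have e3 : G (pq T p) - φ (ht (pq T p)) * G (pq T p) = (1 - φ (ht (pq T p))) * G (pq T p) := by ring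
      rw [e3, abs_mul, abs_of_nonneg (by linarith [φ1 (ht (pq T p))])]
      split_ifs with h
      · have h2 := φ0 (ht (pq T p))
        have h3 := φ1 (ht (pq T p))
        have h4 := hM (pq T p)
        have h5 := abs_nonneg (G (pq T p))
        have h6 : (1 - φ (ht (pq T p))) * |G (pq T p)| ≤ M := by nlinarith
        calc _ ≤ pw p * M := mul_le_mul_of_nonneg_left h6 ((wtI).w0 p)
          _ = _ := mul_comm _ _
      · have h2 : (ph p : ℝ) < m * T := Nat.lt_ceil.1 (not_le.1 h)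
        have h3 : ht (pq T p) ≤ m := by
          rw [ht_pq, div_le_iff₀ hT0]
          exact h2.le
        have h4 : φ (ht (pq T p)) = 1 := by
          show max 0 (min 1 ((R : ℝ) - ht (pq T p))) = 1
          rw [min_eq_left (by rw [hRm]; linarith), max_eq_right zero_le_one]
        rw [h4, sub_self, zero_mul, mul_zero, mul_zero]
    have s3 : Summable fun p => M * wb pw ph n p := (wb_sum wtI n).summable.mul_left M
    have s4 := Summable.of_nonneg_of_le (fun p => norm_nonneg _) hb' s3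
    have h9 := (norm_tsum_le_tsum_norm s4).trans (s4.tsum_le_tsum hb' s3)
    rw [tsum_mul_left, (wb_sum wtI n).tsum_eq, Real.norm_eq_abs] at h9
    have h10 : (T : ℝ) ^ a * CutLim.KK kk n ≤ C1 * (m : ℝ) ^ (-a) := h1 m T (by exact_mod_cast hm1)
    calc _ ≤ (T : ℝ) ^ a * (M * CutLim.KK kk n) := mul_le_mul_of_nonneg_left h9 hTa.le
      _ = M * ((T : ℝ) ^ a * CutLim.KK kk n) := by ring
      _ ≤ M * (C1 * (m : ℝ) ^ (-a)) := mul_le_mul_of_nonneg_left h10 hM0
      _ ≤ ε := hm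

/-- the bridges determine the excursions -/
theorem NiceB.toB {ι : Type} {l : Filter ι} {s : ι → ℕ} {a b : ℝ} (ha : 0 < a) (ha1 : a < 1) (hb : 0 < b)
    (hu : Tendsto (fun n : ℕ => (n : ℝ) ^ (1 - a) * uu n) atTop (𝓝 b)) (hs : Tendsto s l atTop)
    (hNice : ∀ R : ℕ, 1 ≤ R → Nice l (fun i => vS a (R * s i)) (fun i => xS (R * s i))) : ConvB a l s := fun _ hx _ hF =>
  AB_cut (q := pq) CutLim.ren_uu wtI ha ha1 hb hu ht_pq hs (fun _ hy _ hG hGv => CB_pos ha ha1 hb hu hs hNice hy hG hGv) hx hF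

end Struct
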