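import Pool.Agent.Struct.D5

/-! STRUCT, D6: the stopped walks determine the bridges, general sequences. -/

set_option autoImplicit false

namespace Struct

open Filter Topology Finset HexObs

variable {ι : Type} {l : Filter ι} {s : ι → ℕ}

/-- the stopped walks form a nice family, all levels -/
theorem nice_half_x {a b : ℝ} (ha : 0 < a) (ha1 : a < 1) (hb : 0 < b)
    (hu : Tendsto (fun n : ℕ => (n : ℝ) ^ (1 - a) * uu n) atTop (𝓝 b)) (hs : Tendsto s l atTop) (hA : ConvA l s)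
    {x : ℝ} (hx : 0 < x) : Nice l (fun i => vK ⌈x * s i⌉₊) (fun i => curve (s i)) where
  v0 := fun i => vK_nonneg _
  vs := fun i => (vK_hasSum _).summable
  mass := ⟨1, zero_le_one, fun i => (vK_hasSum _).tsum_eq.le⟩
  net := fun η hη => by
    classical
    obtain ⟨α, hα, H, -⟩ := good_tight ha ha1 hb hu
    obtain ⟨M, hM⟩ := half_good_scale H hs hx hη
    obtain ⟨S, hS⟩ := compact_net hη M hα
    refine ⟨S, ?_⟩
    filter_upwards [hM] with i hi
    have hle : ∀ t, (if ∃ y ∈ S, Near η (curve (s i) t) y then 0 else vK ⌈x * s i⌉₊ t) ≤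
        (if Good M α (curve (s i) t) then 0 else vK ⌈x * s i⌉₊ t) := by
      intro t
      by_cases h1 : Good M α (curve (s i) t)
      · obtain ⟨ρ, h2, h3⟩ := h1
        rw [if_pos (hS _ ρ h2 h3)]
        split_ifs
        · exact le_rfl
        · exact vK_nonneg _ _
      · rw [if_neg h1]
        split_ifs
        · exact vK_nonneg _ _
        · exact le_rfl
    have s1 : Summable fun t => (if Good M α (curve (s i) t) then 0 else vK ⌈x * s i⌉₊ t) := by
      refine Summable.of_nonneg_of_le (fun t => ?_) (fun t => ?_) (vK_hasSum ⌈x * s i⌉₊).summable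
      · split_ifs
        · exact le_rfl
        · exact vK_nonneg _ _
      · split_ifs
        · exact vK_nonneg _ _
        · exact le_rfl
    have s2 : Summable fun t => (if ∃ y ∈ S, Near η (curve (s i) t) y then 0 else vK ⌈x * s i⌉₊ t) := by
      refine Summable.of_nonneg_of_le (fun t => ?_) (fun t => ?_) (vK_hasSum ⌈x * s i⌉₊).summable
      · split_ifs
        · exact le_rfl
        · exact vK_nonneg _ _
      · split_ifs
        · exact vK_nonneg _ _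
        · exact le_rfl
    refine le_trans ?_ ((s2.tsum_le_tsum hle s1).trans ?_)
    · refine le_of_eq (tsum_congr fun t => ?_)
      congr 1
    · refine le_trans (le_of_eq (tsum_congr fun t => ?_)) hi
      congr 1
  conv := fun F hF => by
    obtain ⟨M, hM0, hM⟩ := hF.bd
    obtain ⟨z, hz⟩ := hA x hx F hF
    exact ⟨z, hz.congr fun i => (vK_HH hF.inv hM _ _).symm⟩

/-- convergence for convergent families of functions, all levels -/
theorem ConvA.cls {a b : ℝ} (ha : 0 < a) (ha1 : a < 1) (hb : 0 < b)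
    (hu : Tendsto (fun n : ℕ => (n : ℝ) ^ (1 - a) * uu n) atTop (𝓝 b)) (hs : Tendsto s l atTop) (hA : ConvA l s)
    {x : ℝ} (hx : 0 < x) {G : ι → Cv → ℝ} (hG : Cls l G) : ∃ z, Tendsto (fun i => HH pw ph (pq (s i)) (G i) ⌈x * s i⌉₊ 0) l (𝓝 z) := by
  obtain ⟨M, hM0, hM⟩ := hG.bd
  obtain ⟨z, hz⟩ := (nice_half_x ha ha1 hb hu hs hA hx).cls hG
  exact ⟨z, hz.congr fun i => vK_HH (hG.inv i) (hM i) _ _⟩

/-- rounding of the levels -/
lemma ee_round {a b : ℝ} (ha : 0 < a) (ha1 : a < 1) (hb : 0 < b)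
    (hu : Tendsto (fun n : ℕ => (n : ℝ) ^ (1 - a) * uu n) atTop (𝓝 b)) {T T' : ι → ℕ} (hT : Tendsto T' l atTop) (K : ℕ)
    (h2 : ∀ᶠ i in l, T' i ≤ T i + K) : Tendsto (fun i => ee uu kk (T i) (T' i)) l (𝓝 0) := by
  obtain ⟨C, hC, hE⟩ := ee_le CutLim.ren_uu ha ha1 hb hu
  have h3 : Tendsto (fun i => C * (((K + 1 : ℕ) : ℝ) / T' i) ^ (1 - a)) l (𝓝 0) := by
    have h4 : Tendsto (fun i => ((K + 1 : ℕ) : ℝ) / T' i) l (𝓝 0) :=
      tendsto_const_nhds.div_atTop (tendsto_natCast_atTop_atTop.comp hT)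
    have h5 := (h4.rpow_const (p := 1 - a) (Or.inr (by linarith))).const_mul C
    rwa [Real.zero_rpow (by linarith), mul_zero] at h5
  refine squeeze_zero' (Eventually.of_forall fun i => ee_nonneg CutLim.ren_uu _ _) ?_ h3
  filter_upwards [hT.eventually_ge_atTop (2 * (K + 1)), h2] with i h6 h7
  refine le_trans ?_ (hE (T' i) (K + 1) (by omega) h6)
  exact ee_mono CutLim.ren_uu (by omega)

/-- change of the scale -/
theorem ConvA.cls_scale {a b : ℝ} (ha : 0 < a) (ha1 : a < 1) (hb : 0 < b)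
    (hu : Tendsto (fun n : ℕ => (n : ℝ) ^ (1 - a) * uu n) atTop (𝓝 b)) (hs : Tendsto s l atTop) (hA : ConvA l s)
    {x : ℝ} (hx : 0 < x) {y : ℝ} (hy : 0 < y) {G : ι → Cv → ℝ} (hG : Cls l G) :
    ∃ z, Tendsto (fun i => HH pw ph (pq ⌈x * s i⌉₊) (G i) ⌈y * (⌈x * s i⌉₊ : ℝ)⌉₊ 0) l (𝓝 z) := by
  have hs' := ceil_tendsto hs hx
  have hxy : 0 < x * y := mul_pos hx hy
  have hr0 := (ceil_ratio hs hx).inv₀ hx.ne'
  have hC : Cls l (fun i z => G i (((⌈x * s i⌉₊ : ℝ) / s i)⁻¹ • z)) := by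
    refine hG.scale (C := x⁻¹) (fun i => ?_) hr0
    rw [abs_of_nonneg (by positivity)]
    rcases Nat.eq_zero_or_pos (s i) with h | h
    · rw [h, Nat.cast_zero, div_zero, inv_zero]
      positivity
    · have h1 : (0 : ℝ) < s i := by exact_mod_cast h
      refine inv_anti₀ hx ?_
      rw [le_div_iff₀ h1]
      exact Nat.le_ceil _
  obtain ⟨M, hM0, hM⟩ := hC.bd
  obtain ⟨z, hz⟩ := hA.cls ha ha1 hb hu hs hxy hC
  have hT' : Tendsto (fun i => ⌈y * (⌈x * s i⌉₊ : ℝ)⌉₊) l atTop := ceil_tendsto hs' hy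
  have hle : ∀ i, ⌈x * y * s i⌉₊ ≤ ⌈y * (⌈x * s i⌉₊ : ℝ)⌉₊ := by
    intro i
    refine Nat.ceil_mono ?_
    have := mul_le_mul_of_nonneg_left (Nat.le_ceil (x * s i)) hy.le
    linarith
  have hle2 : ∀ i, ⌈y * (⌈x * s i⌉₊ : ℝ)⌉₊ ≤ ⌈x * y * s i⌉₊ + ⌈y⌉₊ := by
    intro i
    refine Nat.ceil_le.2 ?_
    push_cast
    have h1 := (Nat.ceil_lt_add_one (show 0 ≤ x * s i by positivity)).le
    have h2 := mul_le_mul_of_nonneg_left h1 hy.le
    have h3 := Nat.le_ceil (x * y * s i)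
    have h4 := Nat.le_ceil y
    linarith
  have hee := ee_round ha ha1 hb hu (T := fun i => ⌈x * y * s i⌉₊) hT' ⌈y⌉₊ (Eventually.of_forall hle2)
  have hdiff : Tendsto (fun i => HH pw ph (pq (s i)) (fun z => G i (((⌈x * s i⌉₊ : ℝ) / s i)⁻¹ • z)) ⌈y * (⌈x * s i⌉₊ : ℝ)⌉₊ 0 -
      HH pw ph (pq (s i)) (fun z => G i (((⌈x * s i⌉₊ : ℝ) / s i)⁻¹ • z)) ⌈x * y * s i⌉₊ 0) l (𝓝 0) := by
    have h5 := hee.const_mul (2 * M)
    rw [mul_zero] at h5
    refine squeeze_zero_norm (fun i => ?_) h5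
    rw [Real.norm_eq_abs]
    exact HH_window CutLim.ren_uu wtI hM0 (hM i) _ _ 0 (hle i)
  refine ⟨0 + z, (hdiff.add hz).congr' ?_⟩
  filter_upwards [hs.eventually_ge_atTop 1, hs'.eventually_ge_atTop 1] with i h2 h3
  rw [sub_add_cancel, HH_pq h3 h2]
  congr 1
  funext z
  rw [inv_div]

/-- convergence of the bridges at all levels -/
def ConvCl (l : Filter ι) (s : ι → ℕ) : Prop :=
  ∀ x : ℝ, 0 < x → ∀ F, Test F → ∃ z, Tendsto (fun i => brm (s i) ⌈x * s i⌉₊ F) l (𝓝 z)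

/-- the stopped walks determine the bridges -/
theorem ConvA.toC {a b : ℝ} (ha : 0 < a) (ha1 : a < 1) (hb : 0 < b)
    (hu : Tendsto (fun n : ℕ => (n : ℝ) ^ (1 - a) * uu n) atTop (𝓝 b)) (hs : Tendsto s l atTop) (hA : ConvA l s) :
    ConvCl l s := by
  intro x hx F hF
  have hs' := ceil_tendsto hs hx
  have hC : Cls l (fun i y => F (((⌈x * s i⌉₊ : ℝ) / s i) • y)) :=
    (hF.cls (l := l)).scale (fun i => ratio_bd x hx (s i)) (ceil_ratio hs hx)
  obtain ⟨z, hz⟩ := AC (s := fun i => ⌈x * s i⌉₊) ha ha1 hb hu hs'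
    (fun y hy G hG => hA.cls_scale ha ha1 hb hu hs hx hy hG) hC
  refine ⟨z, hz.congr' ?_⟩
  filter_upwards [hs.eventually_ge_atTop 1, hs'.eventually_ge_atTop 1] with i h2 h3
  exact (brm_smul h2 h3 F).symm

end Struct
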