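import Pool.Agent.Struct.D6

/-! STRUCT, D7: the law of a bridge depends continuously on its height. -/

set_option autoImplicit false

namespace Struct

open Filter Topology Finset HexObs

lemma dn_seg {a δ : ℝ} (γ : Cv) : dn a δ (seg (ht γ)) = dn a δ γ := by
  unfold dn
  rw [ht_seg]

/-- the density after a dilation -/
lemma dn_dil {a δ L : ℝ} (hδ : 0 < δ) (hL0 : 0 ≤ L) (hL : Lp (dn a δ) L) {c : ℝ} (hc : 1 / 2 ≤ c) (hc1 : c ≤ 1)
    {γ : Cv} (hγ : 0 ≤ ht γ) : |dn a δ (c • γ) - dn a δ γ| ≤ 3 * L * (1 - c) := by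
  rcases le_total (ht γ) 2 with h | h
  · rw [← dn_seg (c • γ), ← dn_seg γ, ht_smul]
    refine (hL _ _).trans ?_
    have h1 := dist_seg (c * ht γ) (ht γ)
    have h2 : |c * ht γ - ht γ| = (1 - c) * ht γ := by
      have : c * ht γ - ht γ = -((1 - c) * ht γ) := by ring
      rw [this, abs_neg, abs_of_nonneg (mul_nonneg (by linarith) hγ)]
    rw [h2] at h1
    have h3 : (1 - c) * ht γ ≤ (1 - c) * 2 := mul_le_mul_of_nonneg_left h (by linarith)
    calc L * dist (seg (c * ht γ)) (seg (ht γ)) ≤ L * (3 / 2 * ((1 - c) * ht γ)) := mul_le_mul_of_nonneg_left h1 hL0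
      _ ≤ L * (3 / 2 * ((1 - c) * 2)) := by gcongr
      _ = _ := by ring
  · rw [dn_zero hδ (γ := γ) (by linarith), dn_zero hδ (γ := c • γ) (by rw [ht_smul]; nlinarith), sub_self, abs_zero]
    have : 0 ≤ 1 - c := by linarith
    positivity

/-- comparison of two functions under the stopped walk -/
lemma HH_near {N T : ℕ} {f g : Cv → ℝ} (hf : Inv f) (hg : Inv g) {Mf Mg e : ℝ} (hMf : Bd f Mf) (hMg : Bd g Mg)
    (h : ∀ γ, 0 ≤ ht γ → |f γ - g γ| ≤ e) : |HH pw ph (pq N) f T 0 - HH pw ph (pq N) g T 0| ≤ e := by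
  rw [← vK_HH hf hMf, ← vK_HH hg hMg]
  have s1 : Summable fun t => vK T t * f (curve N t) := summable_mul (vK_nonneg T) (vK_hasSum T).summable fun t => hMf _
  have s2 : Summable fun t => vK T t * g (curve N t) := summable_mul (vK_nonneg T) (vK_hasSum T).summable fun t => hMg _
  rw [← s1.tsum_sub s2]
  have hb : ∀ t, ‖vK T t * f (curve N t) - vK T t * g (curve N t)‖ ≤ vK T t * e := by
    intro t
    rw [← mul_sub, Real.norm_eq_abs, abs_mul, abs_of_nonneg (vK_nonneg T t)]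
    by_cases h1 : t ∈ FCW T
    · refine mul_le_mul_of_nonneg_left (h _ ?_) (vK_nonneg T t)
      obtain ⟨j, hj⟩ := h1
      rw [ht_curve' hj.1]
      positivity
    · have h2 : vK T t = 0 := by
        unfold vK
        rw [Set.indicator_of_notMem h1, ENNReal.toReal_zero]
      rw [h2, zero_mul, zero_mul]
  have s3 := (vK_hasSum T).mul_right e
  have s4 := Summable.of_nonneg_of_le (fun t => norm_nonneg _) hb s3.summable
  rw [← Real.norm_eq_abs]
  refine (norm_tsum_le_tsum_norm s4).trans ((s4.tsum_le_tsum hb s3.summable).trans (le_of_eq ?_))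
  rw [s3.tsum_eq, one_mul]

/-- the law of a bridge depends continuously on its height -/
theorem br_equi {a b : ℝ} (ha : 0 < a) (ha1 : a < 1) (hb : 0 < b)
    (hu : Tendsto (fun n : ℕ => (n : ℝ) ^ (1 - a) * uu n) atTop (𝓝 b)) {M L ε : ℝ} (hM0 : 0 ≤ M) (hL0 : 0 ≤ L) (hε : 0 < ε) :
    ∃ κ : ℝ, 0 < κ ∧ ∃ N₀ : ℕ, ∀ n n' : ℕ, N₀ ≤ n → n ≤ n' → (n' : ℝ) ≤ (1 + κ) * n → ∀ F : Cv → ℝ, Inv F → Bd F M → Lp F L →
      |brm n n F - brm n n' F| ≤ ε := by
  obtain ⟨C, hC, hcmp⟩ := br_cmp ha ha1 hb hu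
  obtain ⟨Ce, hCe, hee⟩ := ee_le CutLim.ren_uu ha ha1 hb hu
  -- choice of the constants
  set η : ℝ := min (1 / 2) (ε / (16 * (L * C + 1))) with hη
  have hLC : 0 < L * C + 1 := by positivity
  have hη0 : 0 < η := by positivity
  have hη1 : η ≤ 1 / 2 := min_le_left _ _
  have hη2 : L * C * η ≤ ε / 16 := by
    have h1 : η ≤ ε / (16 * (L * C + 1)) := min_le_right _ _
    rw [le_div_iff₀ (by positivity)] at h1
    nlinarith
  obtain ⟨δ, hδ0, hδ1, hδ⟩ : ∃ δ : ℝ, 0 < δ ∧ δ ≤ η / 8 ∧ M * (C * (6 * δ / η) ^ a) ≤ ε / 16 := by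
    have h1 : Tendsto (fun δ : ℝ => M * (C * (6 * δ / η) ^ a)) (𝓝[>] 0) (𝓝 (M * (C * (6 * 0 / η) ^ a))) := by
      refine Tendsto.mono_left ?_ nhdsWithin_le_nhds
      have : Continuous fun δ : ℝ => M * (C * (6 * δ / η) ^ a) :=
        continuous_const.mul (continuous_const.mul (((continuous_const.mul continuous_id).div_const η).rpow_const fun x => Or.inr ha.le))
      exact this.tendsto 0
    rw [mul_zero, zero_div, Real.zero_rpow ha.ne', mul_zero, mul_zero] at h1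
    have h2 := h1.eventually_lt_const (show (0 : ℝ) < ε / 16 by positivity)
    have h3 : ∀ᶠ δ : ℝ in 𝓝[>] 0, δ ∈ Set.Ioo (0 : ℝ) (η / 8) := Ioo_mem_nhdsGT (by positivity)
    obtain ⟨δ, h4, h5⟩ := (h2.and h3).exists
    exact ⟨δ, h5.1, h5.2.le, h4.le⟩
  set ε₁ : ℝ := ε / (16 * (M + 1)) with hε₁
  have hε₁0 : 0 < ε₁ := by positivity
  have hε₁M : M * ε₁ ≤ ε / 16 := by
    rw [hε₁, ← mul_div_assoc, div_le_iff₀ (by positivity)]
    nlinarith
  obtain ⟨N₁, hN₁⟩ := hcmp η δ ε₁ hη0 hη1 hδ0 hδ1 hε₁0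
  have hdn := dn_test (a := a) ha1 hδ0
  obtain ⟨Md, hMd0, hMd⟩ := hdn.bd
  obtain ⟨Ld, hLd0, hLd⟩ := hdn.lip
  obtain ⟨κ, hκ0, hκ1, hκ2, hκ3⟩ : ∃ κ : ℝ, 0 < κ ∧ κ ≤ 1 / 16 ∧ 3 * Ld * κ * M ≤ ε / 16 ∧
      2 * (Md * M) * (Ce * (8 * κ) ^ (1 - a)) ≤ ε / 16 := by
    have h1 : Tendsto (fun κ : ℝ => 2 * (Md * M) * (Ce * (8 * κ) ^ (1 - a))) (𝓝[>] 0) (𝓝 (2 * (Md * M) * (Ce * (8 * 0) ^ (1 - a)))) := by
      refine Tendsto.mono_left ?_ nhdsWithin_le_nhds
      have : Continuous fun κ : ℝ => 2 * (Md * M) * (Ce * (8 * κ) ^ (1 - a)) :=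
        continuous_const.mul (continuous_const.mul ((continuous_const.mul continuous_id).rpow_const fun x => Or.inr (by linarith)))
      exact this.tendsto 0
    rw [mul_zero, Real.zero_rpow (by linarith), mul_zero, mul_zero] at h1
    have h1' : Tendsto (fun κ : ℝ => 3 * Ld * κ * M) (𝓝[>] 0) (𝓝 (3 * Ld * 0 * M)) := by
      refine Tendsto.mono_left ?_ nhdsWithin_le_nhds
      have : Continuous fun κ : ℝ => 3 * Ld * κ * M := by fun_prop
      exact this.tendsto 0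
    rw [mul_zero, zero_mul] at h1'
    have h2 := h1.eventually_lt_const (show (0 : ℝ) < ε / 16 by positivity)
    have h2' := h1'.eventually_lt_const (show (0 : ℝ) < ε / 16 by positivity)
    have h3 : ∀ᶠ δ : ℝ in 𝓝[>] 0, δ ∈ Set.Ioo (0 : ℝ) (1 / 16) := Ioo_mem_nhdsGT (by norm_num)
    obtain ⟨δ, ⟨h4, h4'⟩, h5⟩ := ((h2.and h2').and h3).exists
    exact ⟨δ, h5.1, h5.2.le, h4'.le, h4.le⟩
  refine ⟨κ, hκ0, max N₁ (⌈2 / κ⌉₊ + 1), fun n n' hn hnn hn' F hI hM hL => ?_⟩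
  have hn1 : N₁ ≤ n := (le_max_left _ _).trans hn
  have hn2 : 2 ≤ κ * n := by
    have h1 : ⌈2 / κ⌉₊ ≤ n := by
      have := (le_max_right N₁ (⌈2 / κ⌉₊ + 1)).trans hn
      omega
    have h2 : 2 / κ ≤ n := (Nat.le_ceil _).trans (by exact_mod_cast h1)
    rw [div_le_iff₀ hκ0] at h2
    linarith
  have hn0 : 1 ≤ n := by
    have := (le_max_right N₁ (⌈2 / κ⌉₊ + 1)).trans hn
    omega
  have hnr : (0 : ℝ) < n := by exact_mod_cast hn0
  have hnn' : (n : ℝ) ≤ n' := by exact_mod_cast hnn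
  have hn'r : (0 : ℝ) < n' := by linarith
  set c : ℝ := (n : ℝ) / n' with hc
  have hc1 : c ≤ 1 := by
    rw [hc, div_le_one hn'r]
    exact hnn'
  have hc2 : 1 - κ ≤ c := by
    rw [hc, le_div_iff₀ hn'r]
    nlinarith
  have hc3 : 1 / 2 ≤ c := by linarith
  have hcc : c⁻¹ ≤ 2 := by
    have h1 := inv_anti₀ (show (0 : ℝ) < 1 / 2 by norm_num) hc3
    rw [one_div, inv_inv] at h1
    exact h1
  have hc0 : 0 < c := by linarith
  -- the two comparisons
  have k1 := hN₁ n hn1 F M L hI hM0 hM hL0 hL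
  have e1 : brm n n' F = brm n' n' fun x => F (((n' : ℝ) / n) • x) := brm_smul hn0 (by omega) F
  have hL' : Lp (fun x => F (((n' : ℝ) / n) • x)) (2 * L) := by
    intro γ γ'
    refine (hL _ _).trans ?_
    rw [dist_smul', abs_of_nonneg (by positivity), ← mul_assoc, mul_comm L]
    have h1 : (n' : ℝ) / n ≤ 2 := by
      have : (n' : ℝ) / n = c⁻¹ := by rw [hc, inv_div]
      rw [this]
      exact hcc
    gcongr
  have k2 := hN₁ n' (by omega) (fun x => F (((n' : ℝ) / n) • x)) M (2 * L) (hI.smul _) hM0 (fun γ => hM _) (by positivity) hL'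
  set T := ⌈(1 - η) * n⌉₊ with hT
  set T' := ⌈(1 - η) * n'⌉₊ with hT'
  have hTT : T ≤ T' := Nat.ceil_mono (mul_le_mul_of_nonneg_left hnn' (by linarith))
  have bG : Bd (fun γ => dn a δ γ * F γ) (Md * M) := by
    intro γ
    rw [abs_mul]
    exact mul_le_mul (hMd γ) (hM γ) (abs_nonneg _) hMd0
  have iG : Inv (fun γ => dn a δ γ * F γ) := by
    intro γ ρ
    show dn a δ (γ.comp ρ.f) * F (γ.comp ρ.f) = _
    rw [hdn.inv γ ρ, hI γ ρ]
  have bG' : Bd (fun γ => dn a δ (c • γ) * F γ) (Md * M) := by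
    intro γ
    rw [abs_mul]
    exact mul_le_mul (hMd _) (hM γ) (abs_nonneg _) hMd0
  have iG' : Inv (fun γ => dn a δ (c • γ) * F γ) := by
    intro γ ρ
    show dn a δ (c • (γ.comp ρ.f)) * F (γ.comp ρ.f) = _
    rw [hI γ ρ]
    have := (hdn.inv.smul c) γ ρ
    have e : dn a δ (c • (γ.comp ρ.f)) = dn a δ (c • γ) := this
    rw [e]
  have e2 : HH pw ph (pq n') (fun γ => dn a δ γ * F (((n' : ℝ) / n) • γ)) T' 0 =
      HH pw ph (pq n) (fun γ => dn a δ (c • γ) * F γ) T' 0 := by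
    rw [HH_pq (show 1 ≤ n' by omega) hn0]
    congr 1
    funext x
    rw [smul_smul]
    have : (n' : ℝ) / n * ((n : ℝ) / n') = 1 := by
      field_simp
    rw [this, one_smul]
  have d1 : |HH pw ph (pq n) (fun γ => dn a δ (c • γ) * F γ) T' 0 - HH pw ph (pq n) (fun γ => dn a δ γ * F γ) T' 0| ≤ ε / 16 := by
    refine (HH_near iG' iG bG' bG (e := 3 * Ld * (1 - c) * M) fun γ hγ => ?_).trans ?_
    · rw [← sub_mul, abs_mul]
      exact mul_le_mul (dn_dil hδ0 hLd0 hLd hc3 hc1 hγ) (hM γ) (abs_nonneg _)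
        (by have : 0 ≤ 1 - c := by linarith
            positivity)
    · refine le_trans ?_ hκ2
      have : 1 - c ≤ κ := by linarith
      gcongr
  have d2 : |HH pw ph (pq n) (fun γ => dn a δ γ * F γ) T' 0 - HH pw ph (pq n) (fun γ => dn a δ γ * F γ) T 0| ≤ ε / 16 := by
    refine (HH_window CutLim.ren_uu wtI (by positivity) bG _ _ 0 hTT).trans ?_
    have hT1 : (n : ℝ) / 2 ≤ T' := by
      have h1 : (1 - η) * n' ≤ T' := Nat.le_ceil _
      nlinarith
    have hT2 : (T' : ℝ) ≤ T + 2 * κ * n := by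
      have h1 := (Nat.ceil_lt_add_one (show 0 ≤ (1 - η) * n' from mul_nonneg (by linarith) hn'r.le)).le
      have h2 : (1 - η) * n ≤ T := Nat.le_ceil _
      have h3 : (1 - η) * (n' - n) ≤ n' - n := by
        have : 0 ≤ η * ((n' : ℝ) - n) := mul_nonneg hη0.le (by linarith)
        linarith
      have h4 : (n' : ℝ) - n ≤ κ * n := by linarith
      linarith
    rcases Nat.eq_or_lt_of_le hTT with h | h
    · rw [← h]
      have h1 : ee uu kk T T = 0 := by
        unfold ee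
        rw [Ico_self, sum_empty]
      rw [h1, mul_zero]
      positivity
    · have hK : T' - (T' - T) = T := by omega
      have h1 := hee T' (T' - T) (by omega) (by
        have : 2 * ((T' - T : ℕ) : ℝ) ≤ T' := by
          rw [Nat.cast_sub hTT]
          nlinarith
        exact_mod_cast this)
      rw [hK] at h1
      have h2 : (((T' - T : ℕ) : ℝ) / T') ^ (1 - a) ≤ (8 * κ) ^ (1 - a) := by
        refine Real.rpow_le_rpow (by positivity) ?_ (by linarith)
        rw [Nat.cast_sub hTT, div_le_iff₀ (by linarith)]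
        nlinarith
      calc 2 * (Md * M) * ee uu kk T T' ≤ 2 * (Md * M) * (Ce * (8 * κ) ^ (1 - a)) := by
            refine mul_le_mul_of_nonneg_left (h1.trans ?_) (by positivity)
            exact mul_le_mul_of_nonneg_left h2 hCe.le
        _ ≤ _ := hκ3
  rw [e1]
  rw [e2] at k2
  have m1 : L * C * η + M * (ε₁ + C * (6 * δ / η) ^ a) ≤ 3 * ε / 16 := by
    rw [mul_add]
    linarith
  have m2 : 2 * L * C * η + M * (ε₁ + C * (6 * δ / η) ^ a) ≤ 4 * ε / 16 := by
    rw [mul_add]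
    linarith
  have e3 : brm n n F - brm n' n' (fun x => F (((n' : ℝ) / n) • x)) =
      (brm n n F - HH pw ph (pq n) (fun γ => dn a δ γ * F γ) T 0) -
      (brm n' n' (fun x => F (((n' : ℝ) / n) • x)) - HH pw ph (pq n) (fun γ => dn a δ (c • γ) * F γ) T' 0) -
      (HH pw ph (pq n) (fun γ => dn a δ (c • γ) * F γ) T' 0 - HH pw ph (pq n) (fun γ => dn a δ γ * F γ) T' 0) -
      (HH pw ph (pq n) (fun γ => dn a δ γ * F γ) T' 0 - HH pw ph (pq n) (fun γ => dn a δ γ * F γ) T 0) := by ring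
  rw [e3]
  have t1 := abs_le.1 (k1.trans m1)
  have t2 := abs_le.1 (k2.trans m2)
  have t3 := abs_le.1 d1
  have t4 := abs_le.1 d2
  rw [abs_le]
  constructor <;> linarith [t1.1, t1.2, t2.1, t2.2, t3.1, t3.2, t4.1, t4.2]

end Struct
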