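import Pool.Agent.Struct.D7

/-! STRUCT, D8: the bridges of all heights, general sequences. -/

set_option autoImplicit false

namespace Struct

open Filter Topology Finset HexObs

/-- clamp -/
noncomputable def cl (t : ℝ) : ℝ := max 0 (min 1 t)

lemma cl_mono {x y : ℝ} (h : x ≤ y) : cl x ≤ cl y := max_le_max le_rfl (min_le_min le_rfl h)

lemma cl_of_le {x : ℝ} (h : x ≤ 0) : cl x = 0 := by
  unfold cl
  rw [min_eq_right (by linarith), max_eq_left h]

lemma cl_of_ge {x : ℝ} (h : 1 ≤ x) : cl x = 1 := by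
  unfold cl
  rw [min_eq_left h, max_eq_right zero_le_one]

lemma cl_nonneg (x : ℝ) : 0 ≤ cl x := le_max_left _ _

lemma cl_le_one (x : ℝ) : cl x ≤ 1 := max_le zero_le_one (min_le_left _ _)

/-- tent functions -/
noncomputable def tent (m j : ℕ) (y : ℝ) : ℝ := cl (m * y - j + 1) - cl (m * y - j)

lemma tent_nonneg (m j : ℕ) (y : ℝ) : 0 ≤ tent m j y := sub_nonneg.2 (cl_mono (by linarith))

lemma tent_sum (m : ℕ) {y : ℝ} (h0 : 0 ≤ y) (h1 : y ≤ 1) : ∑ j ∈ range (m + 1), tent m j y = 1 := by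
  have h2 : ∀ n : ℕ, ∑ j ∈ range n, tent m j y = cl (m * y + 1) - cl (m * y - n + 1) := by
    intro n
    induction n with
    | zero => rw [range_zero, sum_empty, Nat.cast_zero, sub_zero, sub_self]
    | succ n ih =>
      rw [sum_range_succ, ih]
      unfold tent
      push_cast
      have e : (m : ℝ) * y - (n + 1) + 1 = m * y - n := by ring
      rw [e]
      ring
  rw [h2 (m + 1), cl_of_ge, cl_of_le]
  · ring
  · push_cast
    have : (m : ℝ) * y ≤ m * 1 := mul_le_mul_of_nonneg_left h1 (Nat.cast_nonneg m)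
    linarith
  · have : 0 ≤ (m : ℝ) * y := by positivity
    linarith

lemma tent_supp {m j : ℕ} {y : ℝ} (h : tent m j y ≠ 0) : |(m : ℝ) * y - j| ≤ 1 := by
  by_contra hn
  rw [not_le, lt_abs] at hn
  apply h
  unfold tent
  rcases hn with h1 | h1
  · rw [cl_of_ge (by linarith), cl_of_ge h1.le, sub_self]
  · rw [cl_of_le (by linarith), cl_of_le (by linarith), sub_self]

lemma tent_lip (m j : ℕ) (x y : ℝ) : |tent m j x - tent m j y| ≤ 2 * m * |x - y| := by
  unfold tent
  have e : cl (m * x - j + 1) - cl (m * x - j) - (cl (m * y - j + 1) - cl (m * y - j)) =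
      (cl (m * x - j + 1) - cl (m * y - j + 1)) - (cl (m * x - j) - cl (m * y - j)) := by ring
  rw [e]
  have h1 := clamp_lip (m * x - j + 1) (m * y - j + 1)
  have h2 := clamp_lip (m * x - j) (m * y - j)
  have e1 : (m : ℝ) * x - j + 1 - (m * y - j + 1) = m * (x - y) := by ring
  have e2 : (m : ℝ) * x - j - (m * y - j) = m * (x - y) := by ring
  rw [e1, abs_mul, Nat.abs_cast] at h1
  rw [e2, abs_mul, Nat.abs_cast] at h2
  refine (abs_sub _ _).trans ?_
  have h1' : |cl (m * x - j + 1) - cl (m * y - j + 1)| ≤ m * |x - y| := h1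
  have h2' : |cl (m * x - j) - cl (m * y - j)| ≤ m * |x - y| := h2
  linarith

/-- the bridges of small height have small mass -/
lemma low_mass {a b : ℝ} (ha : 0 < a) (ha1 : a < 1) (hb : 0 < b)
    (hu : Tendsto (fun n : ℕ => (n : ℝ) ^ (1 - a) * uu n) atTop (𝓝 b)) {r : ℝ} (hr : 0 < r) : ∃ δ : ℝ, 0 < δ ∧
    ∀ᶠ N : ℕ in atTop, (N : ℝ) ^ (-a) * ∑ c ∈ range (N + 1), (if (c : ℝ) < δ * N then uu c else 0) ≤ r := by
  obtain ⟨C, hC, hU⟩ := UU_le CutLim.ren_uu ha ha1 hb hu
  obtain ⟨δ, hδ0, hδ⟩ : ∃ δ : ℝ, 0 < δ ∧ C * δ ^ a ≤ r := by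
    have h1 : Tendsto (fun δ : ℝ => C * δ ^ a) (𝓝[>] 0) (𝓝 (C * 0 ^ a)) := by
      refine Tendsto.mono_left ?_ nhdsWithin_le_nhds
      have : Continuous fun δ : ℝ => C * δ ^ a := continuous_const.mul (continuous_id.rpow_const fun x => Or.inr ha.le)
      exact this.tendsto 0
    rw [Real.zero_rpow ha.ne', mul_zero] at h1
    have h2 := h1.eventually_lt_const hr
    have h3 : ∀ᶠ δ : ℝ in 𝓝[>] 0, 0 < δ := self_mem_nhdsWithin
    obtain ⟨δ, h4, h5⟩ := (h2.and h3).exists
    exact ⟨δ, h5, h4.le⟩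
  refine ⟨δ, hδ0, ?_⟩
  filter_upwards [eventually_ge_atTop ⌈1 / δ⌉₊, eventually_ge_atTop 1] with N hN hN1
  have hN0 : (0 : ℝ) < N := by exact_mod_cast hN1
  have h1 : 1 ≤ δ * N := by
    have h2 : 1 / δ ≤ N := (Nat.le_ceil _).trans (by exact_mod_cast hN)
    rw [div_le_iff₀ hδ0] at h2
    linarith
  set m := ⌊δ * N⌋₊ with hm
  have hm1 : 1 ≤ m := Nat.le_floor (by rw [Nat.cast_one]; exact h1)
  have hm2 : (m : ℝ) ≤ δ * N := Nat.floor_le (by positivity)
  have hm0 : (0 : ℝ) < m := by exact_mod_cast hm1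
  have hUm : CutLim.UU uu m ≤ C * (δ ^ a * (N : ℝ) ^ a) := by
    have h3 := hU m
    rw [Real.rpow_neg hm0.le, inv_mul_le_iff₀ (Real.rpow_pos_of_pos hm0 a)] at h3
    refine h3.trans ?_
    rw [← Real.mul_rpow hδ0.le hN0.le, mul_comm]
    exact mul_le_mul_of_nonneg_left (Real.rpow_le_rpow hm0.le hm2 ha.le) hC.le
  have h4 : ∑ c ∈ range (N + 1), (if (c : ℝ) < δ * N then uu c else 0) ≤ CutLim.UU uu m := by
    rw [← sum_filter]
    unfold CutLim.UU
    refine sum_le_sum_of_subset_of_nonneg ?_ fun c _ _ => (uu_pos c).le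
    intro c hc
    rw [mem_filter] at hc
    have h8 : δ * N < m + 1 := Nat.lt_floor_add_one _
    have h9 : (c : ℝ) < ((m + 1 : ℕ) : ℝ) := by
      push_cast
      linarith [hc.2]
    exact mem_range.2 (by exact_mod_cast h9)
  have h6 : 0 ≤ (N : ℝ) ^ (-a) := by positivity
  have h8 : (N : ℝ) ^ (-a) * (N : ℝ) ^ a = 1 := by
    rw [← Real.rpow_add hN0, neg_add_cancel, Real.rpow_zero]
  calc _ ≤ (N : ℝ) ^ (-a) * (C * (δ ^ a * (N : ℝ) ^ a)) := mul_le_mul_of_nonneg_left (h4.trans hUm) h6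
    _ = ((N : ℝ) ^ (-a) * (N : ℝ) ^ a) * (C * δ ^ a) := by ring
    _ ≤ r := by
        rw [h8, one_mul]
        exact hδ

lemma brm_smul2 {N T : ℕ} (hN : 1 ≤ N) (hT : 1 ≤ T) (k : ℕ) (F : Cv → ℝ) :
    brm N k F = brm T k fun x => F (((T : ℝ) / N) • x) := by
  unfold brm
  congr 1
  refine tsum_congr fun t => ?_
  rw [curve_smul hN hT]

lemma brm_zero {F : Cv → ℝ} (N : ℕ) : brm N 0 F = F 0 := by
  have h1 : ∀ t : BD 0, wr t.1 * F (curve N t.1) = wr t.1 * F 0 := by
    rintro ⟨t, h2⟩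
    rw [Brd_zero] at h2
    have h3 : t = [] := h2
    show wr t * F (curve N t) = wr t * F 0
    rw [h3, curve_nil]
  unfold brm
  rw [tsum_congr h1, ((bd_hasSum 0).mul_right (F 0)).tsum_eq, CutLim.ren_uu.u0, one_mul, div_one]

/-- two heights that are close, general scale -/
lemma br_equi_scale {M L ε κ : ℝ} {N₀ : ℕ} (hL0 : 0 ≤ L)
    (h : ∀ n n' : ℕ, N₀ ≤ n → n ≤ n' → (n' : ℝ) ≤ (1 + κ) * n → ∀ F : Cv → ℝ, Inv F → Bd F M → Lp F L →
      |brm n n F - brm n n' F| ≤ ε) {N n n' : ℕ} (hN : 1 ≤ N) (hnN : n ≤ N) (hn : N₀ ≤ n) (hn1 : 1 ≤ n) (hnn : n ≤ n')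
    (hn' : (n' : ℝ) ≤ (1 + κ) * n) {F : Cv → ℝ} (hI : Inv F) (hM : Bd F M) (hL : Lp F L) : |brm N n F - brm N n' F| ≤ ε := by
  rw [brm_smul2 hN hn1 n, brm_smul2 hN hn1 n']
  refine h n n' hn hnn hn' _ (hI.smul _) (fun γ => hM _) fun γ γ' => ?_
  refine (hL _ _).trans ?_
  have hN0 : (0 : ℝ) < N := by exact_mod_cast hN
  rw [dist_smul', abs_of_nonneg (by positivity)]
  have h1 : (n : ℝ) / N ≤ 1 := by
    rw [div_le_one hN0]
    exact_mod_cast hnN
  have h2 : (n : ℝ) / N * dist γ γ' ≤ 1 * dist γ γ' := mul_le_mul_of_nonneg_right h1 dist_nonneg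
  rw [one_mul] at h2
  exact mul_le_mul_of_nonneg_left h2 hL0

variable {ι : Type} {l : Filter ι} {s : ι → ℕ}

/-- the sum over the bridges of all heights converges -/
theorem ConvCl.sum {a b : ℝ} (ha : 0 < a) (ha1 : a < 1) (hb : 0 < b)
    (hu : Tendsto (fun n : ℕ => (n : ℝ) ^ (1 - a) * uu n) atTop (𝓝 b)) (hs : Tendsto s l atTop) (hC : ConvCl l s)
    {F : Cv → ℝ} (hF : Test F) :
    ∃ z, Tendsto (fun i => (s i : ℝ) ^ (-a) * ∑ c ∈ range (s i + 1), uu c * brm (s i) c F) l (𝓝 z) := by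
  obtain ⟨M, hM0, hM⟩ := hF.bd
  obtain ⟨L, hL0, hL⟩ := hF.lip
  obtain ⟨Cu, hCu, hU⟩ := UU_le CutLim.ren_uu ha ha1 hb hu
  refine conv_approx fun ε hε => ?_
  obtain ⟨δ, hδ0, hlow⟩ := low_mass ha ha1 hb hu (r := ε / (2 * (2 * M + 1))) (by positivity)
  obtain ⟨κ, hκ0, N₀, hκ⟩ := br_equi ha ha1 hb hu hM0 hL0 (show 0 < ε / (2 * Cu) by positivity)
  obtain ⟨m, hm⟩ := exists_nat_gt (4 / (κ * δ) + 4 / δ)
  have hm0 : (0 : ℝ) < m := lt_of_le_of_lt (by positivity) hm
  have hm1 : 1 ≤ m := by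
    have : 0 < m := by exact_mod_cast hm0
    exact this
  have hmκ : 4 ≤ κ * δ * m := by
    have h1 : 4 / (κ * δ) ≤ m := by
      have : 0 ≤ 4 / δ := by positivity
      linarith
    rw [div_le_iff₀ (by positivity)] at h1
    linarith
  have hmδ : 4 ≤ δ * m := by
    have h1 : 4 / δ ≤ m := by
      have : 0 ≤ 4 / (κ * δ) := by positivity
      linarith
    rw [div_le_iff₀ hδ0] at h1
    linarith
  refine ⟨fun i => ∑ j ∈ range (m + 1), brm (s i) ⌈(j : ℝ) / m * s i⌉₊ F *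
    ((s i : ℝ) ^ (-a) * ∑ c ∈ range (s i + 1), uu c * tent m j ((c : ℝ) / s i)), ?_, ?_⟩
  · have h1 : ∀ j ∈ range (m + 1), ∃ z, Tendsto (fun i => brm (s i) ⌈(j : ℝ) / m * s i⌉₊ F *
        ((s i : ℝ) ^ (-a) * ∑ c ∈ range (s i + 1), uu c * tent m j ((c : ℝ) / s i))) l (𝓝 z) := by
      intro j _
      obtain ⟨z1, hz1⟩ := riemann CutLim.ren_uu ha ha1 hb hu (L := 2 * m) (by positivity) (tent_lip m j)
      have hz1' := hz1.comp hs
      obtain ⟨z2, hz2⟩ : ∃ z, Tendsto (fun i => brm (s i) ⌈(j : ℝ) / m * s i⌉₊ F) l (𝓝 z) := by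
        rcases Nat.eq_zero_or_pos j with rfl | hj
        · refine ⟨F 0, tendsto_const_nhds.congr fun i => ?_⟩
          rw [Nat.cast_zero, zero_div, zero_mul, Nat.ceil_zero, brm_zero]
        · exact hC _ (div_pos (by exact_mod_cast hj) hm0) F hF
      exact ⟨z2 * z1, hz2.mul hz1'⟩
    choose! z hz using h1
    exact ⟨∑ j ∈ range (m + 1), z j, tendsto_finsetSum _ hz⟩
  · filter_upwards [hs.eventually hlow, hs.eventually_ge_atTop 1, hs.eventually_ge_atTop ⌈2 / (κ * δ)⌉₊,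
      hs.eventually_ge_atTop ⌈2 * (N₀ + 1) / δ⌉₊] with i h1 h2 h3 h4
    set N := s i with hN
    have hN0 : (0 : ℝ) < N := by exact_mod_cast h2
    have h3' : 2 ≤ κ * δ * N := by
      have h5 : 2 / (κ * δ) ≤ N := (Nat.le_ceil _).trans (by exact_mod_cast h3)
      rw [div_le_iff₀ (by positivity)] at h5
      linarith
    have h4' : 2 * ((N₀ : ℝ) + 1) ≤ δ * N := by
      have h5 : 2 * ((N₀ : ℝ) + 1) / δ ≤ N := (Nat.le_ceil _).trans (by exact_mod_cast h4)
      rw [div_le_iff₀ hδ0] at h5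
      linarith
    have e1 : ∑ j ∈ range (m + 1), brm N ⌈(j : ℝ) / m * N⌉₊ F * ((N : ℝ) ^ (-a) * ∑ c ∈ range (N + 1), uu c * tent m j ((c : ℝ) / N)) =
        (N : ℝ) ^ (-a) * ∑ c ∈ range (N + 1), uu c * ∑ j ∈ range (m + 1), tent m j ((c : ℝ) / N) * brm N ⌈(j : ℝ) / m * N⌉₊ F := by
      simp only [mul_sum]
      rw [sum_comm]
      refine sum_congr rfl fun c _ => sum_congr rfl fun j _ => ?_
      ring
    rw [e1, ← mul_sub, ← sum_sub_distrib]
    have h6 : 0 ≤ (N : ℝ) ^ (-a) := by positivity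
    rw [abs_mul, abs_of_nonneg h6]
    have key : ∀ c ∈ range (N + 1), |uu c * brm N c F - uu c * ∑ j ∈ range (m + 1), tent m j ((c : ℝ) / N) * brm N ⌈(j : ℝ) / m * N⌉₊ F| ≤
        2 * M * (if (c : ℝ) < δ * N then uu c else 0) + ε / (2 * Cu) * uu c := by
      intro c hc
      have hcN : c ≤ N := by
        have := mem_range.1 hc
        omega
      have hcNr : (c : ℝ) ≤ N := by exact_mod_cast hcN
      rw [← mul_sub, abs_mul, abs_of_nonneg (uu_pos c).le]
      have h7 : (c : ℝ) / N ≤ 1 := by rwa [div_le_one hN0]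
      have e2 : brm N c F - ∑ j ∈ range (m + 1), tent m j ((c : ℝ) / N) * brm N ⌈(j : ℝ) / m * N⌉₊ F =
          ∑ j ∈ range (m + 1), tent m j ((c : ℝ) / N) * (brm N c F - brm N ⌈(j : ℝ) / m * N⌉₊ F) := by
        simp only [mul_sub]
        rw [sum_sub_distrib, ← sum_mul, tent_sum m (by positivity) h7, one_mul]
      have h8 : ∀ e : ℝ, (∀ j ∈ range (m + 1), tent m j ((c : ℝ) / N) ≠ 0 → |brm N c F - brm N ⌈(j : ℝ) / m * N⌉₊ F| ≤ e) →
          |brm N c F - ∑ j ∈ range (m + 1), tent m j ((c : ℝ) / N) * brm N ⌈(j : ℝ) / m * N⌉₊ F| ≤ e := by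
        intro e he
        rw [e2]
        refine (abs_sum_le_sum_abs _ _).trans ?_
        calc ∑ j ∈ range (m + 1), |tent m j ((c : ℝ) / N) * (brm N c F - brm N ⌈(j : ℝ) / m * N⌉₊ F)|
            ≤ ∑ j ∈ range (m + 1), tent m j ((c : ℝ) / N) * e := by
              refine sum_le_sum fun j hj => ?_
              rw [abs_mul, abs_of_nonneg (tent_nonneg _ _ _)]
              by_cases h9 : tent m j ((c : ℝ) / N) = 0
              · rw [h9, zero_mul, zero_mul]
              · exact mul_le_mul_of_nonneg_left (he j hj h9) (tent_nonneg _ _ _)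
          _ = e := by rw [← sum_mul, tent_sum m (by positivity) h7, one_mul]
      by_cases h10 : (c : ℝ) < δ * N
      · rw [if_pos h10]
        have h11 := h8 (2 * M) fun j _ _ => by
          have h12 := abs_sub (brm N c F) (brm N ⌈(j : ℝ) / m * N⌉₊ F)
          have h13 := brm_bd hM N c
          have h14 := brm_bd hM N ⌈(j : ℝ) / m * N⌉₊
          linarith
        have h15 := mul_le_mul_of_nonneg_left h11 (uu_pos c).le
        have h16 : 0 ≤ ε / (2 * Cu) * uu c := mul_nonneg (by positivity) (uu_pos c).le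
        linarith
      · rw [if_neg h10, mul_zero, zero_add, mul_comm (ε / (2 * Cu))]
        refine mul_le_mul_of_nonneg_left (h8 _ fun j _ hj => ?_) (uu_pos c).le
        have hcδ : δ * N ≤ c := not_lt.1 h10
        have h12 := abs_le.1 (tent_supp hj)
        set nj := ⌈(j : ℝ) / m * N⌉₊ with hnj
        have h13 : (j : ℝ) / m * N ≤ nj := Nat.le_ceil _
        have h14 : (nj : ℝ) ≤ (j : ℝ) / m * N + 1 := (Nat.ceil_lt_add_one (by positivity)).le
        -- distance between c and nj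
        have h15 : (j : ℝ) / m * N ≤ c + N / m := by
          have : (j : ℝ) ≤ m * (c / N) + 1 := by linarith
          calc (j : ℝ) / m * N ≤ (m * (c / N) + 1) / m * N := by gcongr
            _ = c + N / m := by field_simp
        have h16 : c - (N : ℝ) / m ≤ (j : ℝ) / m * N := by
          have : m * ((c : ℝ) / N) - 1 ≤ j := by linarith
          calc c - (N : ℝ) / m = (m * (c / N) - 1) / m * N := by field_simp
            _ ≤ (j : ℝ) / m * N := by gcongr
        have h17 : (N : ℝ) / m ≤ κ * δ * N / 4 := by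
          rw [div_le_iff₀ hm0]
          have := mul_le_mul_of_nonneg_right hmκ hN0.le
          linarith
        have h18 : (N : ℝ) / m ≤ δ * N / 4 := by
          rw [div_le_iff₀ hm0]
          have := mul_le_mul_of_nonneg_right hmδ hN0.le
          linarith
        have hN₀r : (0 : ℝ) ≤ N₀ := Nat.cast_nonneg N₀
        rcases le_total c nj with h19 | h19
        · refine br_equi_scale hL0 hκ h2 hcN ?_ ?_ h19 ?_ hF.inv hM hL
          · have : (N₀ : ℝ) ≤ c := by linarith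
            exact_mod_cast this
          · have : (1 : ℝ) ≤ c := by linarith
            exact_mod_cast this
          · have : κ * (δ * N) ≤ κ * c := mul_le_mul_of_nonneg_left hcδ hκ0.le
            linarith
        · rw [abs_sub_comm]
          have h20 : δ * N / 2 ≤ nj := by linarith
          refine br_equi_scale hL0 hκ h2 (h19.trans hcN) ?_ ?_ h19 ?_ hF.inv hM hL
          · have : (N₀ : ℝ) ≤ nj := by linarith
            exact_mod_cast this
          · have : (1 : ℝ) ≤ nj := by linarith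
            exact_mod_cast this
          · have : κ * (δ * N / 2) ≤ κ * nj := mul_le_mul_of_nonneg_left h20 hκ0.le
            linarith
    refine (mul_le_mul_of_nonneg_left ((abs_sum_le_sum_abs _ _).trans (sum_le_sum key)) h6).trans ?_
    rw [sum_add_distrib, ← mul_sum, ← mul_sum]
    have h21 := hU N
    have h22 : (N : ℝ) ^ (-a) * (ε / (2 * Cu) * ∑ c ∈ range (N + 1), uu c) ≤ ε / 2 := by
      calc _ = ε / (2 * Cu) * ((N : ℝ) ^ (-a) * CutLim.UU uu N) := by
            unfold CutLim.UU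
            ring
        _ ≤ ε / (2 * Cu) * Cu := mul_le_mul_of_nonneg_left h21 (by positivity)
        _ = ε / 2 := by field_simp
    have h23 : (N : ℝ) ^ (-a) * (2 * M * ∑ c ∈ range (N + 1), (if (c : ℝ) < δ * N then uu c else 0)) ≤ ε / 2 := by
      calc _ = 2 * M * ((N : ℝ) ^ (-a) * ∑ c ∈ range (N + 1), (if (c : ℝ) < δ * N then uu c else 0)) := by ring
        _ ≤ 2 * M * (ε / (2 * (2 * M + 1))) := mul_le_mul_of_nonneg_left h1 (by positivity)
        _ ≤ ε / 2 := by
            rw [← mul_div_assoc, div_le_iff₀ (by positivity)]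
            nlinarith
    rw [mul_add]
    linarith

end Struct
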