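import Pool.Agent.Struct.D8

/-! STRUCT, D9: the three convergences are equivalent. -/

set_option autoImplicit false

namespace Struct

open Filter Topology Finset HexObs

variable {ι : Type} {l : Filter ι} {s : ι → ℕ}

/-- the bridges of all heights form a nice family -/
theorem nice_bridges {a b : ℝ} (ha : 0 < a) (ha1 : a < 1) (hb : 0 < b)
    (hu : Tendsto (fun n : ℕ => (n : ℝ) ^ (1 - a) * uu n) atTop (𝓝 b)) (hs : Tendsto s l atTop) (hC : ConvCl l s) :
    Nice l (fun i => vS a (s i)) (fun i => xS (s i)) where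
  v0 := fun i => vS_nonneg a _
  vs := fun i => vS_summable a _
  mass := by
    obtain ⟨C, hC, h⟩ := vS_mass ha ha1 hb hu
    exact ⟨C, hC, fun i => h _⟩
  net := by
    intro η hη
    obtain ⟨S, hS⟩ := net_bridges ha ha1 hb hu hη
    refine ⟨S, ?_⟩
    filter_upwards [hs.eventually hS] with i hi
    refine le_trans (le_of_eq (tsum_congr fun x => ?_)) hi
    congr 1
  conv := by
    intro F hF
    obtain ⟨M, hM0, hM⟩ := hF.bd
    obtain ⟨z, hz⟩ := hC.sum ha ha1 hb hu hs hF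
    refine ⟨z, hz.congr fun i => ?_⟩
    unfold xS
    rw [vS_tsum a (s i) (G := fun x : SB => F (curve (s i) x.2.1)) (M := M) fun x => hM _]
    congr 1
    exact sum_congr rfl fun c _ => (brm_mul (s i) c F).symm

lemma ConvCl.mul (hs : Tendsto s l atTop) (hC : ConvCl l s) {R : ℕ} (hR : 1 ≤ R) : ConvCl l (fun i => R * s i) := by
  intro x hx F hF
  have hR0 : (0 : ℝ) < R := by exact_mod_cast hR
  obtain ⟨z, hz⟩ := hC (x * R) (by positivity) _ (hF.smul ((R : ℝ)⁻¹))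
  refine ⟨z, hz.congr' ?_⟩
  filter_upwards [hs.eventually_ge_atTop 1] with i hi
  have hi0 : (0 : ℝ) < s i := by exact_mod_cast hi
  have e : x * ((R * s i : ℕ) : ℝ) = x * R * s i := by
    push_cast
    ring
  rw [e, brm_smul2 (N := R * s i) (T := s i) (Nat.mul_pos hR hi) hi]
  congr 1
  funext y
  congr 2
  push_cast
  field_simp

/-- the bridges determine the excursions -/
theorem ConvCl.toB {a b : ℝ} (ha : 0 < a) (ha1 : a < 1) (hb : 0 < b)
    (hu : Tendsto (fun n : ℕ => (n : ℝ) ^ (1 - a) * uu n) atTop (𝓝 b)) (hs : Tendsto s l atTop) (hC : ConvCl l s) :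
    ConvB a l s :=
  NiceB.toB ha ha1 hb hu hs fun R hR => nice_bridges (s := fun i => R * s i) ha ha1 hb hu
    (tendsto_atTop_mono (fun i => Nat.le_mul_of_pos_left (s i) (by omega)) hs) (hC.mul hs hR)

/-- the three convergences are equivalent, along each sequence of scales -/
theorem three {a b : ℝ} (ha : 0 < a) (ha1 : a < 1) (hb : 0 < b)
    (hu : Tendsto (fun n : ℕ => (n : ℝ) ^ (1 - a) * uu n) atTop (𝓝 b)) (hs : Tendsto s l atTop) :
    (ConvA l s ↔ ConvB a l s) ∧ (ConvA l s ↔ ConvCl l s) :=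
  ⟨⟨fun h => h.toB ha ha1 hb hu hs, fun h => h.toA ha ha1 hb hu hs⟩,
    ⟨fun h => h.toC ha ha1 hb hu hs, fun h => (h.toB ha ha1 hb hu hs).toA ha ha1 hb hu hs⟩⟩

/-- convergence of the stopped walks -/
def FullA : Prop := ∀ F, Test F → ∃ z, Tendsto (fun T : ℕ => HH pw ph (pq T) F T 0) atTop (𝓝 z)

/-- convergence of the large pieces -/
def FullB (a : ℝ) : Prop := ∀ F, Test F → ∃ z, Tendsto (fun T : ℕ => ∑' p, ((T : ℝ) ^ a * wb pw ph T p) * F (pq T p)) atTop (𝓝 z)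

theorem FullA.iff : FullA ↔ ConvA (atTop : Filter ℕ) (fun n => n) := by
  refine ⟨fun h => ConvA.of_one tendsto_id h, fun h F hF => ?_⟩
  obtain ⟨z, hz⟩ := h 1 one_pos F hF
  refine ⟨z, hz.congr fun T => ?_⟩
  rw [one_mul, Nat.ceil_natCast]

theorem FullB.iff {a b : ℝ} (ha : 0 < a) (ha1 : a < 1) (hb : 0 < b)
    (hu : Tendsto (fun n : ℕ => (n : ℝ) ^ (1 - a) * uu n) atTop (𝓝 b)) : FullB a ↔ ConvB a (atTop : Filter ℕ) (fun n => n) := by
  refine ⟨fun h => ConvB.of_one ha ha1 hb hu tendsto_id h, fun h F hF => ?_⟩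
  obtain ⟨z, hz⟩ := h 1 one_pos F hF
  refine ⟨z, hz.congr fun T => ?_⟩
  rw [one_mul, Nat.ceil_natCast]

/-- full sequences: all levels from one level -/
theorem ConvC.toCl (hs : Tendsto s l atTop) (h : ConvC) : ConvCl l s := by
  intro x hx F hF
  obtain ⟨M, hM0, hM⟩ := hF.bd
  obtain ⟨L, hL0, hL⟩ := hF.lip
  obtain ⟨C, hC0, hCl⟩ := brm_scale_lip
  have hs' := ceil_tendsto hs hx
  obtain ⟨z, hz⟩ := h _ (hF.smul x)
  have hz' := hz.comp hs'
  have hr := ((ceil_ratio hs hx).sub_const x).abs.const_mul (L * C)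
  rw [sub_self, abs_zero, mul_zero] at hr
  have hd : Tendsto (fun i => brm ⌈x * s i⌉₊ ⌈x * s i⌉₊ (fun y => F (((⌈x * s i⌉₊ : ℝ) / s i) • y)) -
      brm ⌈x * s i⌉₊ ⌈x * s i⌉₊ (fun y => F (x • y))) l (𝓝 0) := by
    refine squeeze_zero_norm' ?_ hr
    filter_upwards [hs'.eventually_ge_atTop 1] with i h3
    exact hCl _ h3 F M L hM hL0 hL _ _
  refine ⟨0 + z, (hd.add hz').congr' ?_⟩
  filter_upwards [hs.eventually_ge_atTop 1, hs'.eventually_ge_atTop 1] with i h2 h3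
  rw [brm_smul h2 h3]
  show brm ⌈x * s i⌉₊ ⌈x * s i⌉₊ (fun y => F (((⌈x * s i⌉₊ : ℝ) / s i) • y)) -
      brm ⌈x * s i⌉₊ ⌈x * s i⌉₊ (fun y => F (x • y)) + brm ⌈x * s i⌉₊ ⌈x * s i⌉₊ (fun y => F (x • y)) = _
  ring

theorem ConvC.iff : ConvC ↔ ConvCl (atTop : Filter ℕ) (fun n => n) := by
  refine ⟨fun h => h.toCl tendsto_id, fun h F hF => ?_⟩
  obtain ⟨z, hz⟩ := h 1 one_pos F hF
  refine ⟨z, hz.congr fun T => ?_⟩
  rw [one_mul, Nat.ceil_natCast]

/-- the three convergences are equivalent, full sequence -/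
theorem three_full {a b : ℝ} (ha : 0 < a) (ha1 : a < 1) (hb : 0 < b)
    (hu : Tendsto (fun n : ℕ => (n : ℝ) ^ (1 - a) * uu n) atTop (𝓝 b)) : (FullA ↔ FullB a) ∧ (FullA ↔ ConvC) := by
  rw [FullA.iff, FullB.iff ha ha1 hb hu, ConvC.iff]
  exact three ha ha1 hb hu tendsto_id

end Struct
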