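import Pool.Agent.Struct.D9

/-! STRUCT, E1: tightness of sequences of laws on curves. -/

set_option autoImplicit false

namespace Struct

open Filter Topology Finset HexObs MeasureTheory

open scoped ENNReal

lemma edist_unit_le (x y : unitInterval) : edist x y ≤ 1 := by
  rw [edist_dist, ENNReal.ofReal_le_one, Subtype.dist_eq, Real.dist_eq, abs_le]
  have h1 := x.2.1
  have h2 := x.2.2
  have h3 := y.2.1
  have h4 := y.2.2
  constructor <;> linarith

lemma Good.expo {M α α' : NNReal} {γ : Cv} (h : Good M α γ) (hα : α' ≤ α) : Good M α' γ := by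
  obtain ⟨ρ, h1, h2⟩ := h
  refine ⟨ρ, h1, fun x y => (h2 x y).trans ?_⟩
  gcongr 1
  exact ENNReal.rpow_le_rpow_of_exponent_ge (edist_unit_le x y) (by exact_mod_cast hα)

/-- polygonal curves are good -/
lemma poly_good {α : NNReal} (hα : α ≤ 1) {z : ℕ → ℂ} (hz : z 0 = 0) (n : ℕ) : ∃ M : NNReal, Good M α (Tight.poly z n) := by
  set C : ℝ := n * ∑ i ∈ range n, ‖z (i + 1) - z i‖ with hC
  have hC0 : 0 ≤ C := by positivity
  refine ⟨Real.toNNReal C, Rep.id, ?_, fun x y => ?_⟩
  · show Tight.poly z n 0 = 0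
    rw [Tight.poly_zero, hz]
  · show edist (Tight.poly z n x) (Tight.poly z n y) ≤ _
    have h1 : dist (Tight.poly z n x) (Tight.poly z n y) ≤ C * dist x y := by
      rw [dist_eq_norm, poly_eq, poly_eq, add_sub_add_left_eq_sub, ← sum_sub_distrib]
      refine (norm_sum_le _ _).trans ?_
      rw [hC, mul_assoc, sum_mul, mul_sum]
      refine sum_le_sum fun i _ => ?_
      rw [← sub_mul, norm_mul]
      have h2 : ‖((max 0 (min 1 ((x : ℝ) * n - i)) : ℝ) : ℂ) - ((max 0 (min 1 ((y : ℝ) * n - i)) : ℝ) : ℂ)‖ ≤ n * dist x y := by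
        rw [← Complex.ofReal_sub, Complex.norm_real, Real.norm_eq_abs]
        refine (clamp_lip _ _).trans (le_of_eq ?_)
        rw [Subtype.dist_eq, Real.dist_eq]
        have e : (x : ℝ) * n - i - (y * n - i) = n * (x - y) := by ring
        rw [e, abs_mul, Nat.abs_cast]
      calc _ ≤ n * dist x y * ‖z (i + 1) - z i‖ := mul_le_mul_of_nonneg_right h2 (norm_nonneg _)
        _ = _ := by ring
    have h3 : edist (Tight.poly z n x) (Tight.poly z n y) ≤ (Real.toNNReal C : ℝ≥0∞) * edist x y := by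
      rw [edist_dist, edist_dist, ENNReal.ofNNReal_toNNReal, ← ENNReal.ofReal_mul hC0]
      exact ENNReal.ofReal_le_ofReal h1
    refine h3.trans ?_
    gcongr
    calc edist x y = edist x y ^ (1 : ℝ) := (ENNReal.rpow_one _).symm
      _ ≤ edist x y ^ (α : ℝ) := ENNReal.rpow_le_rpow_of_exponent_ge (edist_unit_le x y) (by exact_mod_cast hα)

lemma curve_good {α : NNReal} (hα : α ≤ 1) (N : ℕ) (t : List Bool) : ∃ M : NNReal, Good M α (curve N t) :=
  poly_good hα (z := fun i => zp t i / N) (by rw [zp_zero, zero_div]) t.length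

open Classical in
lemma sum_good_mono {P : Type} (π : PMF P) {x : P → Cv} {α M M' : NNReal} (h : M ≤ M') :
    ∑' p, (if Good M' α (x p) then 0 else (π p).toReal) ≤ ∑' p, (if Good M α (x p) then 0 else (π p).toReal) := by
  have hs : Summable fun p => (π p).toReal := ENNReal.summable_toReal π.tsum_coe_ne_top
  have s : ∀ M : NNReal, Summable fun p => (if Good M α (x p) then 0 else (π p).toReal) := fun M => by
    refine Summable.of_nonneg_of_le (fun p => ?_) (fun p => ?_) hs
    · split_ifs
      · exact le_rfl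
      · exact ENNReal.toReal_nonneg
    · split_ifs
      · exact ENNReal.toReal_nonneg
      · exact le_rfl
  refine (s M').tsum_le_tsum (fun p => ?_) (s M)
  by_cases h1 : Good M α (x p)
  · rw [if_pos h1, if_pos (h1.mono h)]
  · rw [if_neg h1]
    split_ifs
    · exact ENNReal.toReal_nonneg
    · exact le_rfl

open Classical in
lemma good_single {P : Type} (π : PMF P) {x : P → Cv} {α : NNReal} (hg : ∀ p, ∃ M : NNReal, Good M α (x p)) {ε : ℝ} (hε : 0 < ε) :
    ∃ M : NNReal, ∑' p, (if Good M α (x p) then 0 else (π p).toReal) ≤ ε := by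
  have hs : Summable fun p => (π p).toReal := ENNReal.summable_toReal π.tsum_coe_ne_top
  have h1 : Tendsto (fun n : ℕ => ∑' p, (if Good n α (x p) then 0 else (π p).toReal)) atTop (𝓝 (∑' _ : P, (0 : ℝ))) := by
    refine tendsto_tsum_of_dominated_convergence hs (fun p => ?_) (Eventually.of_forall fun n p => ?_)
    · obtain ⟨M, hM⟩ := hg p
      obtain ⟨n, hn⟩ := exists_nat_ge M
      refine tendsto_const_nhds.congr' ?_
      filter_upwards [eventually_ge_atTop n] with m hm
      rw [if_pos (hM.mono (hn.trans (by exact_mod_cast hm)))]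
    · split_ifs
      · rw [norm_zero]
        exact ENNReal.toReal_nonneg
      · rw [Real.norm_eq_abs, abs_of_nonneg ENNReal.toReal_nonneg]
  rw [tsum_zero] at h1
  obtain ⟨n, hn⟩ := (h1.eventually_lt_const hε).exists
  exact ⟨n, hn.le⟩

open Classical in
/-- tightness for all indices from the tightness for the large ones -/
theorem tight_all {P : Type} (π : ℕ → PMF P) {x : ℕ → P → Cv} {α : NNReal} (hg : ∀ k p, ∃ M : NNReal, Good M α (x k p))
    (h : ∀ ε : ℝ, 0 < ε → ∃ M : NNReal, ∀ᶠ k in atTop, ∑' p, (if Good M α (x k p) then 0 else (π k p).toReal) ≤ ε)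
    {ε : ℝ} (hε : 0 < ε) : ∃ M : NNReal, ∀ k, ∑' p, (if Good M α (x k p) then 0 else (π k p).toReal) ≤ ε := by
  obtain ⟨M, hM⟩ := h ε hε
  obtain ⟨k₀, hk⟩ := eventually_atTop.1 hM
  choose M' hM' using fun k => good_single (π k) (hg k) hε
  refine ⟨M + ∑ k ∈ range k₀, M' k, fun k => ?_⟩
  rcases Nat.lt_or_ge k k₀ with h1 | h1
  · refine (sum_good_mono (π k) ?_).trans (hM' k)
    refine le_trans (single_le_sum (f := M') (fun i _ => zero_le) (mem_range.2 h1)) ?_
    exact le_add_of_nonneg_left zero_le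
  · exact (sum_good_mono (π k) (le_add_of_nonneg_right zero_le)).trans (hk k h1)

open Classical in
/-- the laws of the reparametrised curves -/
theorem reparam_laws {P : Type} (π : ℕ → PMF P) (x : ℕ → P → Cv) {α : NNReal} (h0 : ∀ k p, x k p 0 = 0)
    (tight : ∀ ε : ℝ, 0 < ε → ∃ M : NNReal, ∀ k, ∑' p, (if Good M α (x k p) then 0 else (π k p).toReal) ≤ ε) :
    ∃ μ : ℕ → ProbabilityMeasure Cv, (∀ k, ∀ᵐ (f : Cv) ∂(μ k : Measure Cv), f 0 = 0) ∧
      (∀ ε : ℝ, 0 < ε → ∃ M : NNReal, ∀ k, (μ k : Measure Cv) {f : Cv | ¬ HolderWith M α f} ≤ ENNReal.ofReal ε) ∧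
      ∀ (f : Cv → ℝ) (M : ℝ), Bd f M → Inv f → Continuous f → ∀ k,
        ∫ g, f g ∂(μ k : Measure Cv) = ∑' p, (π k p).toReal * f (x k p) := by
  have key : ∀ (k : ℕ) (p : P), ∃ ρ : Rep, ∀ n : ℕ, Good n α (x k p) → HolderWith n α ((x k p).comp ρ.f) := by
    intro k p
    by_cases hex : ∃ n : ℕ, Good n α (x k p)
    · obtain ⟨ρ, _, hρ⟩ := Nat.find_spec hex
      exact ⟨ρ, fun n hn => hρ.mono (by exact_mod_cast Nat.find_min' hex hn)⟩
    · exact ⟨al, fun n hn => absurd ⟨n, hn⟩ hex⟩
  choose ρ hρ using key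
  let Y : ℕ → P → Cv := fun k p => (x k p).comp (ρ k p).f
  have hY0 : ∀ k p, Y k p 0 = 0 := by
    intro k p
    show x k p ((ρ k p).f 0) = 0
    rw [(ρ k p).zero, h0]
  refine ⟨fun k => ⟨((π k).map (Y k)).toMeasure, inferInstance⟩, fun T => ?_, fun ε hε => ?_, fun f M hM hI hc k => ?_⟩
  · have hcl : IsClosed {f : Cv | f 0 = 0} := isClosed_eq (continuous_eval_const 0) continuous_const
    rw [ae_iff]
    let _ : MeasurableSpace P := ⊤
    show ((π T).map (Y T)).toMeasure {f : Cv | ¬ f 0 = 0} = 0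
    have hms0 : MeasurableSet {f : Cv | ¬ f 0 = 0} := hcl.isOpen_compl.measurableSet
    rw [PMF.toMeasure_map_apply _ _ _ measurable_from_top hms0]
    have e : Y T ⁻¹' {f : Cv | ¬ f 0 = 0} = ∅ := by
      ext p
      simp only [Set.mem_preimage, Set.mem_ofPred_eq, Set.mem_empty_iff_false, iff_false, not_not]
      exact hY0 _ p
    rw [e, measure_empty]
  · obtain ⟨M, hM⟩ := tight ε hε
    obtain ⟨n, hn⟩ := exists_nat_ge M
    refine ⟨n, fun T => ?_⟩
    have h1 := hM T
    let _ : MeasurableSpace P := ⊤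
    have hms : MeasurableSet {f : Cv | ¬ HolderWith n α f} := by
      have hcl : IsClosed {f : Cv | HolderWith n α f} := by
        have e : {f : Cv | HolderWith n α f} = ⋂ x : unitInterval, ⋂ y : unitInterval,
            {f : Cv | edist (f x) (f y) ≤ n * edist x y ^ (α : ℝ)} := by
          ext f
          simp only [HolderWith, Set.mem_iInter, Set.mem_ofPred_eq]
          rfl
        rw [e]
        exact isClosed_iInter fun x => isClosed_iInter fun y =>
          isClosed_le ((continuous_eval_const x).edist (continuous_eval_const y)) continuous_const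
      exact hcl.isOpen_compl.measurableSet
    show ((π T).map (Y T)).toMeasure {f : Cv | ¬ HolderWith n α f} ≤ _
    rw [PMF.toMeasure_map_apply _ _ _ measurable_from_top hms,
      PMF.toMeasure_apply _ (show MeasurableSet (Y T ⁻¹' {f : Cv | ¬ HolderWith n α f}) from trivial)]
    have h2 : ∑' p, (Y T ⁻¹' {f : Cv | ¬ HolderWith n α f}).indicator (π T) p ≤
        ∑' p, (if Good M α (x T p) then 0 else π T p) := by
      refine ENNReal.tsum_le_tsum fun p => ?_
      by_cases h3 : Good M α (x T p)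
      · rw [if_pos h3, Set.indicator_of_notMem]
        intro h4
        exact h4 (hρ _ p n (h3.mono hn))
      · rw [if_neg h3]
        exact Set.indicator_le_self _ _ _
    refine h2.trans ?_
    have h4 : ∑' p, (if Good M α (x T p) then 0 else π T p) ≠ ∞ := by
      refine ne_top_of_le_ne_top (π T).tsum_coe_ne_top (ENNReal.tsum_le_tsum fun p => ?_)
      split_ifs
      · exact zero_le
      · exact le_rfl
    rw [ENNReal.le_ofReal_iff_toReal_le h4 hε.le]
    refine le_trans (le_of_eq ?_) h1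
    rw [ENNReal.tsum_toReal_eq fun p => ?_]
    · refine tsum_congr fun p => ?_
      split_ifs <;> simp
    · split_ifs
      · exact ENNReal.zero_ne_top
      · exact PMF.apply_ne_top _ _
  · show ∫ g, f g ∂(((π k).map (Y k)).toMeasure) = _
    rw [integral_curves _ _ hM hc]
    exact tsum_congr fun p => by rw [hI (x k p) (ρ k p)]

end Struct
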