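import Pool.Agent.Struct.E1

/-! STRUCT, E2: convergence of the means and limit measures. -/

set_option autoImplicit false

namespace Struct

open Filter Topology Finset HexObs MeasureTheory

open scoped ENNReal

lemma gf_ind (W : Set (List Bool)) : ∑' t, W.indicator wE t = gf W := by
  unfold gf
  exact (_root_.tsum_subtype W wE).symm

open Classical in
/-- the law of the word with the critical weight on the set W -/
noncomputable def pW (W : Set (List Bool)) : PMF (List Bool) :=
  if h : gf W ≠ 0 ∧ gf W ≠ ∞ then PMF.normalize (W.indicator wE) (by rw [gf_ind]; exact h.1) (by rw [gf_ind]; exact h.2)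
  else PMF.pure []

lemma pW_apply {W : Set (List Bool)} (h0 : gf W ≠ 0) (h1 : gf W ≠ ∞) (t : List Bool) :
    (pW W t).toReal = (W.indicator wE t).toReal / (gf W).toReal := by
  unfold pW
  rw [dif_pos ⟨h0, h1⟩, PMF.normalize_apply, gf_ind, ENNReal.toReal_mul, ENNReal.toReal_inv]
  rfl

lemma Test.continuous {F : Cv → ℝ} (hF : Test F) : Continuous F := by
  obtain ⟨L, hL0, hL⟩ := hF.lip
  have h : LipschitzWith (Real.toNNReal L) F := LipschitzWith.of_dist_le_mul fun x y => by
    rw [Real.dist_eq, Real.coe_toNNReal _ hL0]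
    exact hL x y
  exact h.continuous

/-- convergence in law up to reparametrisation -/
def LimW (π : ℕ → PMF (List Bool)) (N : ℕ → ℕ) : Prop :=
  ∃ ν : ProbabilityMeasure Cv, ∀ (f : Cv → ℝ) (M : ℝ), 0 ≤ M → Bd f M → Inv f → Continuous f →
    Tendsto (fun k => ∑' t, (π k t).toReal * f (curve (N k) t)) atTop (𝓝 (∫ g, f g ∂(ν : Measure Cv)))

/-- convergence of the means of the test functions -/
def TestW (π : ℕ → PMF (List Bool)) (N : ℕ → ℕ) : Prop :=
  ∀ F, Test F → ∃ z, Tendsto (fun k => ∑' t, (π k t).toReal * F (curve (N k) t)) atTop (𝓝 z)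

open Classical in
/-- tightness up to reparametrisation -/
def TightW (α : NNReal) (π : ℕ → PMF (List Bool)) (N : ℕ → ℕ) : Prop :=
  ∀ ε : ℝ, 0 < ε → ∃ M : NNReal, ∀ᶠ k in atTop, ∑' t, (if Good M α (curve (N k) t) then 0 else (π k t).toReal) ≤ ε

lemma curve_start (N : ℕ) (t : List Bool) : curve N t 0 = 0 := by
  show Tight.poly (fun i => zp t i / N) t.length 0 = 0
  rw [Tight.poly_zero, zp_zero, zero_div]

lemma pmf_hasSum {P : Type} (π : PMF P) : HasSum (fun p => (π p).toReal) 1 := by
  have h := hasSum_toReal' π.tsum_coe ENNReal.one_ne_top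
  rwa [ENNReal.toReal_one] at h

theorem limW_iff {α : NNReal} (hα : 0 < α) (hα1 : α ≤ 1) {π : ℕ → PMF (List Bool)} {N : ℕ → ℕ} (hT : TightW α π N) :
    LimW π N ↔ TestW π N := by
  classical
  constructor
  · rintro ⟨ν, hν⟩ F hF
    obtain ⟨M, hM0, hM⟩ := hF.bd
    exact ⟨_, hν F M hM0 hM hF.inv hF.continuous⟩
  · intro h
    have hconv : ∀ (f : Cv → ℝ) (M : ℝ), 0 ≤ M → Bd f M → Inv f → Continuous f →
        ∃ z, Tendsto (fun k => ∑' p, (π k p).toReal * f (curve (N k) p)) atTop (𝓝 z) := by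
      intro f M hM0 hM hI hc
      refine cont_of_test (v := fun k t => (π k t).toReal) (x := fun k => curve (N k)) (fun _ _ => ENNReal.toReal_nonneg)
        (fun k => (pmf_hasSum (π k)).summable) zero_le_one (fun k => (pmf_hasSum (π k)).tsum_eq.le) (fun ε hε => ?_) h hM0 hM hI hc
      obtain ⟨C, hC⟩ := hT ε hε
      obtain ⟨K, hK, hK2⟩ := good_compact C hα
      refine ⟨K, hK, hC.mono fun i hi => ?_⟩
      have h3 := net_scale (A := fun t => Good C α (curve (N i) t)) (B := fun t => ∃ ρ : Rep, (curve (N i) t).comp ρ.f ∈ K)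
        (iB := fun p => Classical.propDecidable _)
        (fun t ht => hK2 _ ht) zero_le_one (v := fun t => (π i t).toReal) (v' := fun t => (π i t).toReal)
        (fun _ => ENNReal.toReal_nonneg) (fun _ => ENNReal.toReal_nonneg) (fun t => by rw [one_mul])
        (pmf_hasSum (π i)).summable hi
      rw [one_mul] at h3
      exact h3
    have ht : ∀ ε : ℝ, 0 < ε → ∃ M : NNReal, ∀ k, ∑' p, (if Good M α (curve (N k) p) then 0 else (π k p).toReal) ≤ ε := by
      intro ε hε
      exact tight_all π (x := fun k => curve (N k)) (fun k t => curve_good hα1 (N k) t) hT hε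
    obtain ⟨ν, _, hν⟩ := limit_exists π (fun k => curve (N k)) hα (fun k t => curve_start (N k) t)
      ⟨0, fun ε hε => by
        obtain ⟨M, hM⟩ := ht ε hε
        exact ⟨M, fun k _ => hM k⟩⟩ hconv
    exact ⟨ν, hν⟩

open Classical in
/-- change of the scale -/
lemma TightW.scale {α : NNReal} {W : ℕ → Set (List Bool)}
    (h : ∀ ε : ℝ, 0 < ε → ∃ (M : NNReal) (n₀ : ℕ), ∀ n, n₀ ≤ n → ∑' t, (if Good M α (curve n t) then 0 else (pW (W n) t).toReal) ≤ ε)
    {N : ℕ → ℕ} (hN : Tendsto N atTop atTop) {x : ℝ} (hx : 0 < x) : TightW α (fun k => pW (W ⌈x * N k⌉₊)) N := by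
  intro ε hε
  obtain ⟨M, n₀, hM⟩ := h ε hε
  refine ⟨Real.toNNReal (x + 1) * M, ?_⟩
  filter_upwards [hN.eventually_ge_atTop 1, (ceil_tendsto hN hx).eventually_ge_atTop 1, (ceil_tendsto hN hx).eventually_ge_atTop n₀]
    with k h1 h2 h3
  have h4 := net_scale (A := fun t => Good M α (curve ⌈x * N k⌉₊ t)) (B := fun t => Good (Real.toNNReal (x + 1) * M) α (curve (N k) t))
    (iB := fun p => Classical.propDecidable _)
    (fun t ht => good_scale hx h1 h2 ht) zero_le_one (v := fun t => (pW (W ⌈x * N k⌉₊) t).toReal)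
    (v' := fun t => (pW (W ⌈x * N k⌉₊) t).toReal)
    (fun _ => ENNReal.toReal_nonneg) (fun _ => ENNReal.toReal_nonneg) (fun t => by rw [one_mul])
    (pmf_hasSum _).summable (hM _ h3)
  rw [one_mul] at h4
  exact h4

end Struct
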