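import Pool.Agent.Struct.E2

/-! STRUCT, E3: the three families. -/

set_option autoImplicit false

namespace Struct

open Filter Topology Finset HexObs MeasureTheory

open scoped ENNReal

/-- irreducible words with at least n rows -/
def IW (n : ℕ) : Set (List Bool) := {t | ∃ r, n ≤ r ∧ t ∈ Irr r}

lemma ind_tsum (W : Set (List Bool)) (G : List Bool → ℝ) :
    ∑' t, (W.indicator wE t).toReal * G t = ∑' t : W, wr t.1 * G t.1 := by
  rw [_root_.tsum_subtype W fun t => wr t * G t]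
  refine tsum_congr fun t => ?_
  by_cases h : t ∈ W
  · rw [Set.indicator_of_mem h, Set.indicator_of_mem h]
    rfl
  · rw [Set.indicator_of_notMem h, Set.indicator_of_notMem h, ENNReal.toReal_zero, zero_mul]

/-! the stopped walks -/

lemma gf_FCW' (n : ℕ) : gf (FCW n) = 1 := by
  rw [← gf_ind]
  exact tsum_FCW n

lemma pW_half (n : ℕ) (t : List Bool) : (pW (FCW n) t).toReal = vK n t := by
  rw [pW_apply (by rw [gf_FCW']; exact one_ne_zero) (by rw [gf_FCW']; exact ENNReal.one_ne_top), gf_FCW', ENNReal.toReal_one, div_one]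
  rfl

lemma mean_half {F : Cv → ℝ} (hI : Inv F) {M : ℝ} (hM : Bd F M) (N n : ℕ) :
    ∑' t, (pW (FCW n) t).toReal * F (curve N t) = HH pw ph (pq N) F n 0 := by
  rw [← vK_HH hI hM]
  exact tsum_congr fun t => by rw [pW_half]

/-! the large irreducible pieces -/

lemma IW_tsum {n : ℕ} (G : List Bool → ℝ) :
    ∑' t, ((IW n).indicator wE t).toReal * G t = ∑' p : PI, wb pw ph n p * G p.1 := by
  classical
  have h1 := _root_.tsum_subtype {t : List Bool | ∃ r, t ∈ Irr r} fun t => ((IW n).indicator wE t).toReal * G t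
  have h2 : ∑' t, ((IW n).indicator wE t).toReal * G t =
      ∑' t, ({t : List Bool | ∃ r, t ∈ Irr r}).indicator (fun t => ((IW n).indicator wE t).toReal * G t) t := by
    refine tsum_congr fun t => ?_
    by_cases ht : t ∈ {t : List Bool | ∃ r, t ∈ Irr r}
    · rw [Set.indicator_of_mem ht]
    · rw [Set.indicator_of_notMem ht, Set.indicator_of_notMem fun h => ht ⟨h.choose, h.choose_spec.2⟩, ENNReal.toReal_zero, zero_mul]
  rw [h2, ← h1]
  refine tsum_congr fun p => ?_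
  congr 1
  unfold wb
  by_cases h : n ≤ ph p
  · rw [if_pos h, Set.indicator_of_mem (show p.1 ∈ IW n from ⟨ph p, h, ph_mem p⟩)]
    rfl
  · rw [if_neg h, Set.indicator_of_notMem, ENNReal.toReal_zero]
    rintro ⟨r, hr, h3⟩
    rw [← ph_eq h3] at hr
    exact h hr

lemma gf_IW (n : ℕ) : gf (IW n) = ENNReal.ofReal (CutLim.KK kk n) := by
  classical
  have h1 := wb_sum wtI n
  rw [← gf_ind, ← tsum_PI (g := (IW n).indicator wE) fun t ht => Set.indicator_of_notMem (fun h => ht ⟨h.choose, h.choose_spec.2⟩) _,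
    ← h1.tsum_eq, ENNReal.ofReal_tsum_of_nonneg (wb_nonneg wtI _) h1.summable]
  refine tsum_congr fun p => ?_
  unfold wb pw
  by_cases h : n ≤ ph p
  · rw [if_pos h, Set.indicator_of_mem (show p.1 ∈ IW n from ⟨ph p, h, ph_mem p⟩), ENNReal.ofReal_toReal (wE_ne_top _)]
  · rw [if_neg h, ENNReal.ofReal_zero, Set.indicator_of_notMem]
    rintro ⟨r, hr, h3⟩
    rw [← ph_eq h3] at hr
    exact h hr

lemma KK_pos' {a b : ℝ} (ha : 0 < a) (ha1 : a < 1) (hb : 0 < b)
    (hu : Tendsto (fun n : ℕ => (n : ℝ) ^ (1 - a) * uu n) atTop (𝓝 b)) (n : ℕ) : 0 < CutLim.KK kk n := by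
  have h1 := KK_scale (s := fun N : ℕ => N) (l := atTop) CutLim.ren_uu ha ha1 hb hu tendsto_id (x := 1) one_pos
  have hc : 0 < 1 / (b * Real.Gamma a * Real.Gamma (1 - a)) * (1 : ℝ) ^ (-a) := by
    have := Real.Gamma_pos_of_pos ha
    have := Real.Gamma_pos_of_pos (show 0 < 1 - a by linarith)
    rw [Real.one_rpow, mul_one]
    positivity
  obtain ⟨m, h2, h3⟩ := ((h1.eventually_const_lt hc).and (eventually_ge_atTop n)).exists
  rw [one_mul, Nat.ceil_natCast] at h2
  have h4 : 0 < CutLim.KK kk m := by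
    by_contra hneg
    have h5 : (m : ℝ) ^ a * CutLim.KK kk m ≤ 0 := mul_nonpos_of_nonneg_of_nonpos (by positivity) (not_lt.1 hneg)
    linarith
  exact h4.trans_le (CutLim.KK_anti CutLim.ren_uu h3)

lemma mean_irr {n : ℕ} (hK : 0 < CutLim.KK kk n) (G : List Bool → ℝ) :
    ∑' t, (pW (IW n) t).toReal * G t = (∑' p : PI, wb pw ph n p * G p.1) / CutLim.KK kk n := by
  have h0 : gf (IW n) ≠ 0 := by
    rw [gf_IW, ne_eq, ENNReal.ofReal_eq_zero, not_le]
    exact hK
  have h1 : gf (IW n) ≠ ∞ := by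
    rw [gf_IW]
    exact ENNReal.ofReal_ne_top
  rw [← IW_tsum, ← tsum_div_const]
  refine tsum_congr fun t => ?_
  rw [pW_apply h0 h1, gf_IW, ENNReal.toReal_ofReal hK.le]
  ring

/-! the bridges -/

lemma mean_bridge (n : ℕ) (G : List Bool → ℝ) :
    ∑' t, (pW (Brd n) t).toReal * G t = (∑' t : BD n, wr t.1 * G t.1) / uu n := by
  have h0 : gf (Brd n) ≠ 0 := by
    rw [gf_Brd, BT_real, ne_eq, ENNReal.ofReal_eq_zero, not_le]
    exact uu_pos n
  have h1 : gf (Brd n) ≠ ∞ := by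
    rw [gf_Brd, BT_real]
    exact ENNReal.ofReal_ne_top
  have h2 := ind_tsum (Brd n) G
  rw [show ∑' t : BD n, wr t.1 * G t.1 = ∑' t : Brd n, wr t.1 * G t.1 from rfl, ← h2, ← tsum_div_const]
  refine tsum_congr fun t => ?_
  rw [pW_apply h0 h1, gf_Brd, BT_real, ENNReal.toReal_ofReal (uu_pos n).le]
  ring

open Classical in
/-- the three families are tight -/
theorem tight3 {a b : ℝ} (ha : 0 < a) (ha1 : a < 1) (hb : 0 < b)
    (hu : Tendsto (fun n : ℕ => (n : ℝ) ^ (1 - a) * uu n) atTop (𝓝 b)) : ∃ α : NNReal, 0 < α ∧ α ≤ 1 ∧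
    (∀ ε : ℝ, 0 < ε → ∃ (M : NNReal) (n₀ : ℕ), ∀ n, n₀ ≤ n → ∑' t, (if Good M α (curve n t) then 0 else (pW (FCW n) t).toReal) ≤ ε) ∧
    (∀ ε : ℝ, 0 < ε → ∃ (M : NNReal) (n₀ : ℕ), ∀ n, n₀ ≤ n → ∑' t, (if Good M α (curve n t) then 0 else (pW (IW n) t).toReal) ≤ ε) ∧
    ∀ ε : ℝ, 0 < ε → ∃ (M : NNReal) (n₀ : ℕ), ∀ n, n₀ ≤ n → ∑' t, (if Good M α (curve n t) then 0 else (pW (Brd n) t).toReal) ≤ ε := by
  obtain ⟨α, hα, H1, H2⟩ := good_tight ha ha1 hb hu
  -- the exponent at most 1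
  have exp : ∀ (π : PMF (List Bool)) (n : ℕ) (M : NNReal), ∑' t, (if Good M (min α 1) (curve n t) then 0 else (π t).toReal) ≤
      ∑' t, (if Good M α (curve n t) then 0 else (π t).toReal) := by
    intro π n M
    have hs := (pmf_hasSum π).summable
    have s : ∀ β : NNReal, Summable fun t => (if Good M β (curve n t) then 0 else (π t).toReal) := fun β => by
      refine Summable.of_nonneg_of_le (fun p => ?_) (fun p => ?_) hs
      · split_ifs
        · exact le_rfl
        · exact ENNReal.toReal_nonneg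
      · split_ifs
        · exact ENNReal.toReal_nonneg
        · exact le_rfl
    refine (s _).tsum_le_tsum (fun t => ?_) (s _)
    by_cases h1 : Good M α (curve n t)
    · rw [if_pos h1, if_pos (h1.expo (min_le_left _ _))]
    · rw [if_neg h1]
      split_ifs
      · exact ENNReal.toReal_nonneg
      · exact le_rfl
  have ind : ∀ (π : PMF (List Bool)) (n : ℕ) (M : NNReal), ∑' t, (if Good M α (curve n t) then 0 else (π t).toReal) =
      ∑' t, (π t).toReal * (if Good M α (curve n t) then 0 else 1) := by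
    intro π n M
    refine tsum_congr fun t => ?_
    split_ifs <;> simp
  refine ⟨min α 1, lt_min hα one_pos, min_le_right _ _, fun ε hε => ?_, fun ε hε => ?_, fun ε hε => ?_⟩
  · obtain ⟨M, hM⟩ := H1 ε hε
    refine ⟨M, 1, fun n hn => (exp _ _ _).trans (le_trans (le_of_eq ?_) (hM n hn))⟩
    refine tsum_congr fun t => ?_
    rw [pW_half]
  · have h1 := KK_scale (s := fun N : ℕ => N) (l := atTop) CutLim.ren_uu ha ha1 hb hu tendsto_id (x := 1) one_pos
    set c : ℝ := 1 / (b * Real.Gamma a * Real.Gamma (1 - a)) * (1 : ℝ) ^ (-a) with hc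
    have hc0 : 0 < c := by
      have := Real.Gamma_pos_of_pos ha
      have := Real.Gamma_pos_of_pos (show 0 < 1 - a by linarith)
      rw [hc, Real.one_rpow, mul_one]
      positivity
    obtain ⟨n₀, hn₀⟩ := eventually_atTop.1 ((h1.eventually_const_lt (show c / 2 < c by linarith)).and (eventually_ge_atTop 1))
    obtain ⟨M, hM⟩ := H2 (ε * (c / 2)) (by positivity)
    refine ⟨M, n₀, fun n hn => (exp _ _ _).trans ?_⟩
    obtain ⟨h2, h3⟩ := hn₀ n hn
    rw [one_mul, Nat.ceil_natCast] at h2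
    have hK := KK_pos' ha ha1 hb hu n
    rw [ind, mean_irr hK, div_le_iff₀ hK]
    have hn0 : (0 : ℝ) < n := by exact_mod_cast h3
    have hna : 0 < (n : ℝ) ^ a := Real.rpow_pos_of_pos hn0 a
    have h4 := hM n h3
    have h5 : ∑' p : PI, (if Good M α (pq n p) then 0 else (n : ℝ) ^ a * wb pw ph n p) =
        (n : ℝ) ^ a * ∑' p : PI, wb pw ph n p * (if Good M α (curve n p.1) then 0 else 1) := by
      rw [← tsum_mul_left]
      refine tsum_congr fun p => ?_
      unfold pq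
      split_ifs <;> simp
    rw [h5] at h4
    have h6 : (n : ℝ) ^ a * ∑' p : PI, wb pw ph n p * (if Good M α (curve n p.1) then 0 else 1) ≤
        (n : ℝ) ^ a * (ε * CutLim.KK kk n) := by
      refine h4.trans ?_
      have := mul_le_mul_of_nonneg_left h2.le hε.le
      linarith
    exact le_of_mul_le_mul_left h6 hna
  · obtain ⟨M, n₀, hM⟩ := bridge_good ha ha1 hb hu H1 hε
    refine ⟨M, n₀, fun n hn => (exp _ _ _).trans ?_⟩
    rw [ind, mean_bridge, div_le_iff₀ (uu_pos n)]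
    exact hM n hn

/-! the three convergences -/

variable {N : ℕ → ℕ}

lemma test_half : (∀ x : ℝ, 0 < x → TestW (fun k => pW (FCW ⌈x * N k⌉₊)) N) ↔ ConvA atTop N := by
  have e : ∀ x : ℝ, TestW (fun k => pW (FCW ⌈x * N k⌉₊)) N ↔
      ∀ F, Test F → ∃ z, Tendsto (fun i => HH pw ph (pq (N i)) F ⌈x * N i⌉₊ 0) atTop (𝓝 z) := by
    intro x
    refine forall_congr' fun F => ?_
    refine imp_congr_right fun hF => ?_
    obtain ⟨M, hM0, hM⟩ := hF.bd
    refine exists_congr fun z => tendsto_congr fun k => ?_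
    exact mean_half hF.inv hM _ _
  unfold ConvA
  exact forall_congr' fun x => imp_congr_right fun _ => e x

lemma test_irr {a b : ℝ} (ha : 0 < a) (ha1 : a < 1) (hb : 0 < b)
    (hu : Tendsto (fun n : ℕ => (n : ℝ) ^ (1 - a) * uu n) atTop (𝓝 b)) (hN : Tendsto N atTop atTop) :
    (∀ x : ℝ, 0 < x → TestW (fun k => pW (IW ⌈x * N k⌉₊)) N) ↔ ConvB a atTop N := by
  unfold ConvB TestW
  refine forall_congr' fun x => imp_congr_right fun hx => forall_congr' fun F => imp_congr_right fun hF => ?_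
  have h1 := KK_scale (s := N) (l := atTop) CutLim.ren_uu ha ha1 hb hu hN (x := x) hx
  set c : ℝ := 1 / (b * Real.Gamma a * Real.Gamma (1 - a)) * x ^ (-a) with hc
  have hc0 : 0 < c := by
    have := Real.Gamma_pos_of_pos ha
    have := Real.Gamma_pos_of_pos (show 0 < 1 - a by linarith)
    positivity
  have e : ∀ k, ∑' p, ((N k : ℝ) ^ a * wb pw ph ⌈x * N k⌉₊ p) * F (pq (N k) p) =
      ((N k : ℝ) ^ a * CutLim.KK kk ⌈x * N k⌉₊) * ∑' t, (pW (IW ⌈x * N k⌉₊) t).toReal * F (curve (N k) t) := by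
    intro k
    have hK := KK_pos' ha ha1 hb hu ⌈x * N k⌉₊
    rw [mean_irr hK]
    have e1 : ∑' p, ((N k : ℝ) ^ a * wb pw ph ⌈x * N k⌉₊ p) * F (pq (N k) p) =
        (N k : ℝ) ^ a * ∑' p : PI, wb pw ph ⌈x * N k⌉₊ p * F (curve (N k) p.1) := by
      rw [← tsum_mul_left]
      exact tsum_congr fun p => mul_assoc _ _ _
    rw [e1]
    field_simp
  constructor
  · rintro ⟨z, hz⟩
    exact ⟨c * z, (h1.mul hz).congr fun k => (e k).symm⟩
  · rintro ⟨z, hz⟩
    refine ⟨z / c, (hz.div h1 hc0.ne').congr' ?_⟩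
    filter_upwards [hN.eventually_ge_atTop 1] with k hk
    have hk0 : (0 : ℝ) < N k := by exact_mod_cast hk
    have h2 : (N k : ℝ) ^ a * CutLim.KK kk ⌈x * N k⌉₊ ≠ 0 :=
      (mul_pos (Real.rpow_pos_of_pos hk0 a) (KK_pos' ha ha1 hb hu _)).ne'
    rw [Pi.div_apply, e k, mul_div_cancel_left₀ _ h2]

lemma test_bridge : (∀ x : ℝ, 0 < x → TestW (fun k => pW (Brd ⌈x * N k⌉₊)) N) ↔ ConvCl atTop N := by
  unfold ConvCl TestW
  refine forall_congr' fun x => imp_congr_right fun _ => forall_congr' fun F => imp_congr_right fun hF => ?_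
  refine exists_congr fun z => tendsto_congr fun k => ?_
  exact mean_bridge _ fun t => F (curve (N k) t)

/-- the three families, sequences of scales -/
theorem three_lim {a b : ℝ} (ha : 0 < a) (ha1 : a < 1) (hb : 0 < b)
    (hu : Tendsto (fun n : ℕ => (n : ℝ) ^ (1 - a) * uu n) atTop (𝓝 b)) (hN : Tendsto N atTop atTop) :
    ((∀ x : ℝ, 0 < x → LimW (fun k => pW (FCW ⌈x * N k⌉₊)) N) ↔ (∀ x : ℝ, 0 < x → LimW (fun k => pW (IW ⌈x * N k⌉₊)) N)) ∧
    ((∀ x : ℝ, 0 < x → LimW (fun k => pW (FCW ⌈x * N k⌉₊)) N) ↔ (∀ x : ℝ, 0 < x → LimW (fun k => pW (Brd ⌈x * N k⌉₊)) N)) := by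
  obtain ⟨α, hα, hα1, t1, t2, t3⟩ := tight3 ha ha1 hb hu
  have e1 : (∀ x : ℝ, 0 < x → LimW (fun k => pW (FCW ⌈x * N k⌉₊)) N) ↔ ConvA atTop N := by
    rw [← test_half]
    exact forall_congr' fun x => imp_congr_right fun hx => limW_iff hα hα1 (TightW.scale t1 hN hx)
  have e2 : (∀ x : ℝ, 0 < x → LimW (fun k => pW (IW ⌈x * N k⌉₊)) N) ↔ ConvB a atTop N := by
    rw [← test_irr ha ha1 hb hu hN]
    exact forall_congr' fun x => imp_congr_right fun hx => limW_iff hα hα1 (TightW.scale t2 hN hx)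
  have e3 : (∀ x : ℝ, 0 < x → LimW (fun k => pW (Brd ⌈x * N k⌉₊)) N) ↔ ConvCl atTop N := by
    rw [← test_bridge]
    exact forall_congr' fun x => imp_congr_right fun hx => limW_iff hα hα1 (TightW.scale t3 hN hx)
  rw [e1, e2, e3]
  exact three ha ha1 hb hu hN

end Struct
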