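import Pool.Agent.Struct.E3

/-! STRUCT, E4: full sequences; existence of subsequences. -/

set_option autoImplicit false

namespace Struct

open Filter Topology Finset HexObs MeasureTheory

open scoped ENNReal

/-- the three families, full sequence -/
theorem three_full_lim {a b : ℝ} (ha : 0 < a) (ha1 : a < 1) (hb : 0 < b)
    (hu : Tendsto (fun n : ℕ => (n : ℝ) ^ (1 - a) * uu n) atTop (𝓝 b)) :
    (LimW (fun T => pW (FCW T)) (fun T => T) ↔ LimW (fun T => pW (IW T)) (fun T => T)) ∧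
    (LimW (fun T => pW (FCW T)) (fun T => T) ↔ LimW (fun T => pW (Brd T)) (fun T => T)) := by
  obtain ⟨α, hα, hα1, t1, t2, t3⟩ := tight3 ha ha1 hb hu
  have conv : ∀ (W : ℕ → Set (List Bool)), (∀ ε : ℝ, 0 < ε → ∃ (M : NNReal) (n₀ : ℕ), ∀ n, n₀ ≤ n →
      ∑' t, (@ite ℝ (Good M α (curve n t)) (Classical.propDecidable _) 0 (pW (W n) t).toReal) ≤ ε) →
      TightW α (fun T => pW (W T)) (fun T => T) := by
    intro W h ε hε
    obtain ⟨M, n₀, hM⟩ := h ε hε
    exact ⟨M, eventually_atTop.2 ⟨n₀, hM⟩⟩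
  rw [limW_iff hα hα1 (conv FCW t1), limW_iff hα hα1 (conv IW t2), limW_iff hα hα1 (conv Brd t3)]
  have e1 : TestW (fun T => pW (FCW T)) (fun T => T) ↔ FullA := by
    refine forall_congr' fun F => imp_congr_right fun hF => ?_
    obtain ⟨M, hM0, hM⟩ := hF.bd
    exact exists_congr fun z => tendsto_congr fun k => mean_half hF.inv hM _ _
  have e3 : TestW (fun T => pW (Brd T)) (fun T => T) ↔ ConvC := by
    refine forall_congr' fun F => imp_congr_right fun hF => ?_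
    exact exists_congr fun z => tendsto_congr fun k => mean_bridge _ fun t => F (curve k t)
  have e2 : TestW (fun T => pW (IW T)) (fun T => T) ↔ FullB a := by
    rw [FullB.iff ha ha1 hb hu]
    have h1 := test_irr ha ha1 hb hu (N := fun n => n) tendsto_id
    rw [← h1]
    constructor
    · intro h
      have h2 : ConvB a (atTop : Filter ℕ) (fun n => n) := by
        rw [← FullB.iff ha ha1 hb hu]
        intro F hF
        obtain ⟨z, hz⟩ := h F hF
        have h3 := KK_scale (s := fun N : ℕ => N) (l := atTop) CutLim.ren_uu ha ha1 hb hu tendsto_id (x := 1) one_pos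
        refine ⟨_, (h3.mul hz).congr fun T => ?_⟩
        have hK := KK_pos' ha ha1 hb hu T
        rw [mean_irr hK, one_mul, Nat.ceil_natCast]
        have e5 : ∑' p, ((T : ℝ) ^ a * wb pw ph T p) * F (pq T p) = (T : ℝ) ^ a * ∑' p : PI, wb pw ph T p * F (curve T p.1) := by
          rw [← tsum_mul_left]
          exact tsum_congr fun p => mul_assoc _ _ _
        rw [e5]
        field_simp
      exact h1.2 h2
    · intro h F hF
      obtain ⟨z, hz⟩ := h 1 one_pos F hF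
      refine ⟨z, hz.congr fun T => ?_⟩
      show ∑' t, (pW (IW ⌈(1 : ℝ) * (T : ℝ)⌉₊) t).toReal * F (curve T t) = ∑' t, (pW (IW T) t).toReal * F (curve T t)
      rw [one_mul, Nat.ceil_natCast]
  rw [e1, e2, e3]
  exact three_full ha ha1 hb hu

/-- convergence at all levels from the convergence at the rational ones -/
theorem ConvA.of_rat {a b : ℝ} (ha : 0 < a) (ha1 : a < 1) (hb : 0 < b)
    (hu : Tendsto (fun n : ℕ => (n : ℝ) ^ (1 - a) * uu n) atTop (𝓝 b)) {N : ℕ → ℕ} (hN : Tendsto N atTop atTop)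
    (h : ∀ r : ℚ, 0 < r → ∀ F, Test F → ∃ z, Tendsto (fun i => HH pw ph (pq (N i)) F ⌈(r : ℝ) * N i⌉₊ 0) atTop (𝓝 z)) :
    ConvA atTop N := by
  intro x hx F hF
  obtain ⟨M, hM0, hM⟩ := hF.bd
  obtain ⟨C, hC, hE⟩ := ee_le CutLim.ren_uu ha ha1 hb hu
  refine conv_approx fun ε hε => ?_
  obtain ⟨δ, hδ0, hδ1, hδ⟩ : ∃ δ : ℝ, 0 < δ ∧ δ ≤ 1 / 8 ∧ 2 * M * (C * (4 * δ) ^ (1 - a)) ≤ ε := by
    have h1 : Tendsto (fun δ : ℝ => 2 * M * (C * (4 * δ) ^ (1 - a))) (𝓝[>] 0) (𝓝 (2 * M * (C * (4 * 0) ^ (1 - a)))) := by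
      refine Tendsto.mono_left ?_ nhdsWithin_le_nhds
      have : Continuous fun δ : ℝ => 2 * M * (C * (4 * δ) ^ (1 - a)) :=
        continuous_const.mul (continuous_const.mul ((continuous_const.mul continuous_id).rpow_const fun x => Or.inr (by linarith)))
      exact this.tendsto 0
    rw [mul_zero, Real.zero_rpow (by linarith), mul_zero, mul_zero] at h1
    have h2 := h1.eventually_lt_const hε
    have h3 : ∀ᶠ δ : ℝ in 𝓝[>] 0, δ ∈ Set.Ioo (0 : ℝ) (1 / 8) := Ioo_mem_nhdsGT (by norm_num)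
    obtain ⟨δ, h4, h5⟩ := (h2.and h3).exists
    exact ⟨δ, h5.1, h5.2.le, h4.le⟩
  obtain ⟨r, hr1, hr2⟩ := exists_rat_btwn (show x < x * (1 + δ) by nlinarith)
  have hr0 : (0 : ℝ) < r := hx.trans hr1
  obtain ⟨z, hz⟩ := h r (by exact_mod_cast hr0) F hF
  refine ⟨_, ⟨z, hz⟩, ?_⟩
  filter_upwards [hN.eventually_ge_atTop ⌈1 / (δ * x)⌉₊, hN.eventually_ge_atTop 1] with k hk hk1
  have hk0 : (0 : ℝ) < N k := by exact_mod_cast hk1
  have hk2 : 1 ≤ δ * x * N k := by
    have h5 : 1 / (δ * x) ≤ N k := (Nat.le_ceil _).trans (by exact_mod_cast hk)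
    rw [div_le_iff₀ (by positivity)] at h5
    linarith
  have hle : ⌈x * N k⌉₊ ≤ ⌈(r : ℝ) * N k⌉₊ := Nat.ceil_mono (by nlinarith)
  rw [abs_sub_comm]
  refine (HH_window CutLim.ren_uu wtI hM0 hM _ _ 0 hle).trans ?_
  set T := ⌈x * N k⌉₊ with hT
  set T' := ⌈(r : ℝ) * N k⌉₊ with hT'
  have hT1 : x * N k ≤ T := Nat.le_ceil _
  have hT2 : (T' : ℝ) ≤ r * N k + 1 := (Nat.ceil_lt_add_one (by positivity)).le
  have hT3 : (T' : ℝ) ≤ T + 2 * (δ * x * N k) := by
    have : (r : ℝ) * N k ≤ x * (1 + δ) * N k := by gcongr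
    linarith
  have hT4 : x * N k ≤ T' := by
    have : (T : ℝ) ≤ T' := by exact_mod_cast hle
    linarith
  rcases Nat.eq_or_lt_of_le hle with h6 | h6
  · rw [← h6]
    have h7 : ee uu kk T T = 0 := by
      unfold ee
      rw [Ico_self, sum_empty]
    rw [h7, mul_zero]
    exact hε.le
  · have hK : T' - (T' - T) = T := by omega
    have hxN : 0 < x * N k := by positivity
    have h7 := hE T' (T' - T) (by omega) (by
      have : 2 * ((T' - T : ℕ) : ℝ) ≤ T' := by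
        rw [Nat.cast_sub hle]
        nlinarith
      exact_mod_cast this)
    rw [hK] at h7
    refine le_trans (mul_le_mul_of_nonneg_left (h7.trans ?_) (by positivity)) hδ
    refine mul_le_mul_of_nonneg_left (Real.rpow_le_rpow (by positivity) ?_ (by linarith)) hC.le
    rw [Nat.cast_sub hle, div_le_iff₀ (by linarith)]
    nlinarith

/-- subsequences -/
theorem exists_sub {a b : ℝ} (ha : 0 < a) (ha1 : a < 1) (hb : 0 < b)
    (hu : Tendsto (fun n : ℕ => (n : ℝ) ^ (1 - a) * uu n) atTop (𝓝 b)) {N : ℕ → ℕ} (hN : Tendsto N atTop atTop) :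
    ∃ φ : ℕ → ℕ, StrictMono φ ∧ ConvA atTop (fun k => N (φ k)) := by
  classical
  obtain ⟨α, hα, hα1, t1, -, -⟩ := tight3 ha ha1 hb hu
  have hlaws : ∀ r : {r : ℚ // 0 < r}, ∃ μ : ℕ → ProbabilityMeasure Cv, (∀ k, ∀ᵐ (f : Cv) ∂(μ k : Measure Cv), f 0 = 0) ∧
      (∀ ε : ℝ, 0 < ε → ∃ M : NNReal, ∀ k, (μ k : Measure Cv) {f : Cv | ¬ HolderWith M α f} ≤ ENNReal.ofReal ε) ∧
      ∀ (f : Cv → ℝ) (M : ℝ), Bd f M → Inv f → Continuous f → ∀ k,
        ∫ g, f g ∂(μ k : Measure Cv) = ∑' p, (pW (FCW ⌈(r : ℝ) * N k⌉₊) p).toReal * f (curve (N k) p) := by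
    rintro ⟨r, hr⟩
    have hr' : (0 : ℝ) < r := by exact_mod_cast hr
    refine reparam_laws (fun k => pW (FCW ⌈(r : ℝ) * N k⌉₊)) (fun k => curve (N k)) (fun k t => curve_start (N k) t) fun ε hε => ?_
    exact tight_all _ (x := fun k => curve (N k)) (fun k t => curve_good hα1 (N k) t) (TightW.scale t1 hN hr') hε
  choose μ m0 mH mI using hlaws
  have hcomp : ∀ r, IsCompact (closure (Set.range (μ r))) := by
    intro r
    have ht : IsTightMeasureSet {((ρ : ProbabilityMeasure Cv) : Measure Cv) | ρ ∈ Set.range (μ r)} := by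
      refine (Tight.tight_of_holder hα (fun k => μ r (k - 1)) (fun k => m0 r _) (fun ε hε => ?_)).subset ?_
      · obtain ⟨M, hM⟩ := mH r ε hε
        exact ⟨M, fun T _ => hM _⟩
      · rintro _ ⟨ρ, ⟨k, rfl⟩, rfl⟩
        exact ⟨k + 1, by omega, rfl⟩
    exact isCompact_closure_of_isTightMeasureSet ht
  have hpi : IsCompact (Set.pi Set.univ fun r => closure (Set.range (μ r))) := isCompact_univ_pi hcomp
  obtain ⟨ν, -, φ, hφ, hlim⟩ := hpi.tendsto_subseq (x := fun k r => μ r k) fun k r _ => subset_closure ⟨k, rfl⟩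
  refine ⟨φ, hφ, ?_⟩
  refine ConvA.of_rat ha ha1 hb hu (hN.comp hφ.tendsto_atTop) fun r hr F hF => ?_
  obtain ⟨M, hM0, hM⟩ := hF.bd
  have h1 : Tendsto (fun k => μ ⟨r, hr⟩ (φ k)) atTop (𝓝 (ν ⟨r, hr⟩)) := (tendsto_pi_nhds.1 hlim) ⟨r, hr⟩
  have h2 := (ProbabilityMeasure.tendsto_iff_forall_integral_tendsto.1 h1)
    (BoundedContinuousFunction.ofNormedAddCommGroup F hF.continuous M fun g => by rw [Real.norm_eq_abs]; exact hM g)
  refine ⟨_, h2.congr fun k => ?_⟩
  show ∫ g, F g ∂(μ ⟨r, hr⟩ (φ k) : Measure Cv) = _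
  rw [mI ⟨r, hr⟩ F M hM hF.inv hF.continuous (φ k)]
  exact mean_half hF.inv hM _ _

end Struct
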