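import Pool.Agent.Struct.E4
import Pool.Agent.TightN.ListsT

/-! STRUCT, E5: words and lists of sites. -/

set_option autoImplicit false

namespace Struct

open Filter Topology Finset HexObs HexObs.CC MeasureTheory

open scoped ENNReal

/-- words and lists -/
noncomputable def listEquiv {W : Set (List Bool)} {S : List (ℤ × ℤ) → Prop} (hW : ∀ t ∈ W, ∃ j, 1 ≤ j ∧ t ∈ Brd j)
    (hWS : ∀ j, 1 ≤ j → ∀ t ∈ Brd j, (t ∈ W ↔ S (toL oo t))) (hS : ∀ L, S L → ∃ j, 1 ≤ j ∧ ∃ b, Crossing j 0 b L) :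
    {t : List Bool // t ∈ W} ≃ {L : List (ℤ × ℤ) // S L} :=
  Equiv.ofBijective (fun t => ⟨toL oo t.1, by
    obtain ⟨j, hj, ht⟩ := hW t.1 t.2
    exact (hWS j hj t.1 ht).1 t.2⟩) (by
    constructor
    · rintro ⟨t, ht⟩ ⟨s, hs⟩ h
      have h1 : toL oo t = toL oo s := congrArg Subtype.val h
      obtain ⟨j, hj, ht'⟩ := hW t ht
      obtain ⟨i, hi, hs'⟩ := hW s hs
      obtain ⟨b, hb, -⟩ := crossing_toL hj lv_oo (brd_out.1 ht')
      obtain ⟨b', hb', -⟩ := crossing_toL hi lv_oo (brd_out.1 hs')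
      rw [h1] at hb
      obtain ⟨rfl, -⟩ := crossing_height hb hb'
      exact Subtype.ext (toL_inj lv_oo (brd_out.1 ht') (brd_out.1 hs') h1)
    · rintro ⟨L, hL⟩
      obtain ⟨j, hj, b, hb⟩ := hS L hL
      obtain ⟨h1, h2, h3⟩ := toW_spec (T := j) (by simp : Even (0 : ℤ)) lv_oo rfl hb
      have h4 : toW j 0 b L ∈ Brd j := brd_out.2 h1
      exact ⟨⟨toW j 0 b L, (hWS j hj _ h4).2 (by rw [h2]; exact hL)⟩, Subtype.ext h2⟩)

lemma listEquiv_coe {W : Set (List Bool)} {S : List (ℤ × ℤ) → Prop} (hW : ∀ t ∈ W, ∃ j, 1 ≤ j ∧ t ∈ Brd j)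
    (hWS : ∀ j, 1 ≤ j → ∀ t ∈ Brd j, (t ∈ W ↔ S (toL oo t))) (hS : ∀ L, S L → ∃ j, 1 ≤ j ∧ ∃ b, Crossing j 0 b L)
    (t : {t : List Bool // t ∈ W}) : (listEquiv hW hWS hS t).1 = toL oo t.1 := rfl

/-- the critical law on the lists of the set S, function of the list -/
noncomputable def lawL (S : List (ℤ × ℤ) → Prop) (g : List (ℤ × ℤ) → Cv) : Measure Cv :=
  Measure.sum fun L : {L : List (ℤ × ℤ) // S L} =>
    (wt L.1 / ∑' L' : {L : List (ℤ × ℤ) // S L}, wt L'.1) • Measure.dirac (g L.1)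

/-- the law in terms of words -/
theorem lawL_eq {W : Set (List Bool)} {S : List (ℤ × ℤ) → Prop} (hW : ∀ t ∈ W, ∃ j, 1 ≤ j ∧ t ∈ Brd j)
    (hWS : ∀ j, 1 ≤ j → ∀ t ∈ Brd j, (t ∈ W ↔ S (toL oo t))) (hS : ∀ L, S L → ∃ j, 1 ≤ j ∧ ∃ b, Crossing j 0 b L)
    (h0 : gf W ≠ 0) (h1 : gf W ≠ ∞) (N : ℕ) {g : List (ℤ × ℤ) → Cv} (hg : ∀ t, g (toL oo t) = curve N t) :
    lawL S g = ((pW W).map (curve N)).toMeasure := by
  classical
  ext A hA
  have e := listEquiv hW hWS hS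
  have hmass : ∑' L' : {L : List (ℤ × ℤ) // S L}, wt L'.1 = gf W := by
    rw [← (listEquiv hW hWS hS).tsum_eq]
    unfold gf
    refine tsum_congr fun t => ?_
    rw [listEquiv_coe, wt_toL]
  unfold lawL
  rw [hmass, Measure.sum_apply _ hA, ← (listEquiv hW hWS hS).tsum_eq]
  let _ : MeasurableSpace (List Bool) := ⊤
  rw [PMF.toMeasure_map_apply _ _ _ measurable_from_top hA, PMF.toMeasure_apply _ (show MeasurableSet (curve N ⁻¹' A) from trivial)]
  have e2 : ∀ t, (curve N ⁻¹' A).indicator (pW W) t = W.indicator (fun t => (wE t / gf W) * A.indicator 1 (curve N t)) t := by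
    intro t
    have h2 : pW W t = W.indicator wE t / gf W := by
      unfold pW
      rw [dif_pos ⟨h0, h1⟩, PMF.normalize_apply, gf_ind, ENNReal.div_eq_inv_mul, mul_comm]
    by_cases h3 : t ∈ W
    · rw [Set.indicator_of_mem h3]
      by_cases h4 : curve N t ∈ A
      · rw [Set.indicator_of_mem (show t ∈ curve N ⁻¹' A from h4), Set.indicator_of_mem h4, Pi.one_apply, mul_one, h2,
          Set.indicator_of_mem h3]
      · rw [Set.indicator_of_notMem (show t ∉ curve N ⁻¹' A from h4), Set.indicator_of_notMem h4, mul_zero]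
    · rw [Set.indicator_of_notMem h3]
      have h5 : pW W t = 0 := by
        rw [h2, Set.indicator_of_notMem h3, ENNReal.zero_div]
      unfold Set.indicator
      split_ifs
      · exact h5
      · rfl
  rw [tsum_congr e2, ← _root_.tsum_subtype W fun t => (wE t / gf W) * A.indicator 1 (curve N t)]
  refine tsum_congr fun t => ?_
  rw [Measure.smul_apply, Measure.dirac_apply' _ hA, smul_eq_mul, listEquiv_coe, wt_toL, hg]

/-- invariance under increasing homeomorphisms -/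
def InvH (f : Cv → ℝ) : Prop := ∀ (γ : Cv) (r : unitInterval ≃ₜ unitInterval), Monotone r → f (γ.comp ⟨r, r.continuous⟩) = f γ

lemma invH_iff {f : Cv → ℝ} (hf : Continuous f) : InvH f ↔ Inv f :=
  ⟨fun h => Inv.of_homeo hf h, fun h γ r hr => h γ (Rep.ofHomeo r hr)⟩

/-- convergence of the laws of curves up to reparametrisation -/
def LimM (μ : ℕ → Measure Cv) : Prop := ∃ ν : Measure Cv, IsProbabilityMeasure ν ∧
  ∀ f : BoundedContinuousFunction Cv ℝ, InvH f → Tendsto (fun k => ∫ γ, f γ ∂(μ k)) atTop (𝓝 (∫ γ, f γ ∂ν))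

/-- measures and means -/
theorem limM_iff {μ : ℕ → Measure Cv} {π : ℕ → PMF (List Bool)} {N : ℕ → ℕ}
    (h : ∀ᶠ k in atTop, μ k = ((π k).map (curve (N k))).toMeasure) : LimM μ ↔ LimW π N := by
  constructor
  · rintro ⟨ν, hν, hf⟩
    refine ⟨⟨ν, hν⟩, fun f M hM0 hM hI hc => ?_⟩
    have h1 := hf (BoundedContinuousFunction.ofNormedAddCommGroup f hc M fun g => by rw [Real.norm_eq_abs]; exact hM g)
      ((invH_iff hc).2 hI)
    refine h1.congr' ?_
    filter_upwards [h] with k hk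
    rw [hk]
    exact integral_curves (π k) (curve (N k)) hM hc
  · rintro ⟨ν, hν⟩
    refine ⟨ν, inferInstance, fun f hI => ?_⟩
    have hM : Bd f ‖f‖ := fun g => f.norm_coe_le_norm g
    have h1 := hν f ‖f‖ (norm_nonneg f) hM ((invH_iff f.continuous).1 hI) f.continuous
    refine h1.congr' ?_
    filter_upwards [h] with k hk
    rw [hk]
    exact (integral_curves (π k) (curve (N k)) hM f.continuous).symm

/-- irreducible lists with at least n rows -/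
def IrrL (n : ℕ) (L : List (ℤ × ℤ)) : Prop :=
  ∃ j : ℕ, n ≤ j ∧ (∃ b, Crossing j 0 b L) ∧ ∀ s, 1 ≤ s → s < j → ¬ RowCut L s

lemma ne_FCW (n : ℕ) : gf (FCW n) ≠ 0 ∧ gf (FCW n) ≠ ∞ := by
  rw [gf_FCW']
  exact ⟨one_ne_zero, ENNReal.one_ne_top⟩

lemma ne_Brd (n : ℕ) : gf (Brd n) ≠ 0 ∧ gf (Brd n) ≠ ∞ := by
  rw [gf_Brd, BT_real, ne_eq, ENNReal.ofReal_eq_zero, not_le]
  exact ⟨uu_pos n, ENNReal.ofReal_ne_top⟩

lemma ne_IW {a b : ℝ} (ha : 0 < a) (ha1 : a < 1) (hb : 0 < b)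
    (hu : Tendsto (fun n : ℕ => (n : ℝ) ^ (1 - a) * uu n) atTop (𝓝 b)) (n : ℕ) : gf (IW n) ≠ 0 ∧ gf (IW n) ≠ ∞ := by
  rw [gf_IW, ne_eq, ENNReal.ofReal_eq_zero, not_le]
  exact ⟨KK_pos' ha ha1 hb hu n, ENNReal.ofReal_ne_top⟩

variable {g : List (ℤ × ℤ) → Cv} {N n : ℕ}

lemma law_half (hn : 1 ≤ n) (hg : ∀ t, g (toL oo t) = curve N t) :
    lawL (Stop n) g = ((pW (FCW n)).map (curve N)).toMeasure := by
  refine lawL_eq ?_ ?_ ?_ (ne_FCW n).1 (ne_FCW n).2 N hg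
  · rintro t ⟨j, hj⟩
    exact ⟨j, hn.trans hj.2.1, hj.1⟩
  · intro j hj t ht
    constructor
    · exact stop_toL hn
    · rintro ⟨i, hi, ⟨b, hb⟩, hc⟩
      obtain ⟨b', hb', -⟩ := crossing_toL hj lv_oo (brd_out.1 ht)
      obtain ⟨rfl, -⟩ := crossing_height hb hb'
      exact ⟨i, ht, hi, fun s hs hsj h => hc s hs hsj ((rowCut_iff ht (by omega) hsj).2 h)⟩
  · rintro L ⟨j, hj, hb, -⟩
    exact ⟨j, hn.trans hj, hb⟩

lemma irr_iff {j : ℕ} (hj : 1 ≤ j) {t : List Bool} (ht : t ∈ Brd j) : t ∈ Irr j ↔ ∀ s, 1 ≤ s → s < j → ¬ Cut t s := by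
  have h1 : FC 1 j = Irr j := by
    rw [CutH.FC_eq le_rfl hj]
    ext t
    constructor
    · rintro ⟨c, hc, a, p, ha, hp, e⟩
      have hc0 : c = 0 := by omega
      rw [hc0] at ha hp
      rw [Brd_zero] at ha
      have h3 : a = [] := ha
      rw [e, h3]
      exact hp
    · intro h
      exact ⟨0, one_pos, [], t, nil_mem_Brd, h, rfl⟩
  rw [← h1]
  exact ⟨fun h => h.2.2, fun h => ⟨ht, hj, h⟩⟩

lemma law_irr {a b : ℝ} (ha : 0 < a) (ha1 : a < 1) (hb : 0 < b)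
    (hu : Tendsto (fun n : ℕ => (n : ℝ) ^ (1 - a) * uu n) atTop (𝓝 b)) (hn : 1 ≤ n) (hg : ∀ t, g (toL oo t) = curve N t) :
    lawL (IrrL n) g = ((pW (IW n)).map (curve N)).toMeasure := by
  refine lawL_eq ?_ ?_ ?_ (ne_IW ha ha1 hb hu n).1 (ne_IW ha ha1 hb hu n).2 N hg
  · rintro t ⟨j, hj, ht⟩
    exact ⟨j, hn.trans hj, ht.1⟩
  · intro j hj t ht
    obtain ⟨b', hb', -⟩ := crossing_toL hj lv_oo (brd_out.1 ht)
    constructor
    · rintro ⟨i, hi, hti⟩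
      have e := Brd_height ht hti.1
      subst e
      exact ⟨j, hi, ⟨b', hb'⟩, fun s hs hsj h => (irr_iff hj ht).1 hti s hs hsj ((rowCut_iff ht hs hsj).1 h)⟩
    · rintro ⟨i, hi, ⟨b, hb⟩, hc⟩
      obtain ⟨rfl, -⟩ := crossing_height hb hb'
      exact ⟨i, hi, (irr_iff hj ht).2 fun s hs hsj h => hc s hs hsj ((rowCut_iff ht hs hsj).2 h)⟩
  · rintro L ⟨j, hj, hb, -⟩
    exact ⟨j, hn.trans hj, hb⟩

lemma law_bridge (hn : 1 ≤ n) (hg : ∀ t, g (toL oo t) = curve N t) :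
    lawL (fun L => ∃ b, Crossing n 0 b L) g = ((pW (Brd n)).map (curve N)).toMeasure := by
  refine lawL_eq ?_ ?_ ?_ (ne_Brd n).1 (ne_Brd n).2 N hg
  · exact fun t ht => ⟨n, hn, ht⟩
  · intro j hj t ht
    obtain ⟨b', hb', -⟩ := crossing_toL hj lv_oo (brd_out.1 ht)
    constructor
    · intro h
      have e := Brd_height ht h
      subst e
      exact ⟨b', hb'⟩
    · rintro ⟨b, hb⟩
      obtain ⟨rfl, -⟩ := crossing_height hb hb'
      exact ht
  · exact fun L hL => ⟨n, hn, hL⟩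

end Struct
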