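import Pool.Agent.Struct.E5

/-! STRUCT, E6: pairs of sequences of scales. -/

set_option autoImplicit false

namespace Struct

open Filter Topology Finset HexObs MeasureTheory

open scoped ENNReal

/-- convergence at all levels -/
def CA (L : ℕ → ℕ → Measure Cv) (N : ℕ → ℕ) : Prop := ∀ x : ℝ, 0 < x → LimM fun k => L ⌈x * N k⌉₊ (N k)

/-- two sequences of scales have the same limits -/
def MA (L : ℕ → ℕ → Measure Cv) (N N' : ℕ → ℕ) : Prop := ∀ x : ℝ, 0 < x → ∀ f : BoundedContinuousFunction Cv ℝ, InvH f →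
  Tendsto (fun k => ∫ γ, f γ ∂(L ⌈x * N k⌉₊ (N k)) - ∫ γ, f γ ∂(L ⌈x * N' k⌉₊ (N' k))) atTop (𝓝 0)

/-- two sequences, alternately -/
def alt (N N' : ℕ → ℕ) (j : ℕ) : ℕ := if j % 2 = 0 then N (j / 2) else N' (j / 2)

lemma alt_even (N N' : ℕ → ℕ) (k : ℕ) : alt N N' (2 * k) = N k := by
  unfold alt
  rw [if_pos (by omega), show 2 * k / 2 = k by omega]

lemma alt_odd (N N' : ℕ → ℕ) (k : ℕ) : alt N N' (2 * k + 1) = N' k := by
  unfold alt
  rw [if_neg (by omega), show (2 * k + 1) / 2 = k by omega]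

lemma tendsto_alt {β : Type} {F : ℕ → β} {N N' : ℕ → ℕ} {l : Filter β} (h : Tendsto (fun k => F (N k)) atTop l)
    (h' : Tendsto (fun k => F (N' k)) atTop l) : Tendsto (fun j => F (alt N N' j)) atTop l := by
  intro U hU
  obtain ⟨a, ha⟩ := eventually_atTop.1 (h hU)
  obtain ⟨b, hb⟩ := eventually_atTop.1 (h' hU)
  refine eventually_atTop.2 ⟨2 * (a + b) + 2, fun j hj => ?_⟩
  show F (alt N N' j) ∈ U
  unfold alt
  split_ifs
  · exact ha _ (by omega)
  · exact hb _ (by omega)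

theorem MA.of {L L' : ℕ → ℕ → Measure Cv} (h : ∀ N : ℕ → ℕ, Tendsto N atTop atTop → (CA L N → CA L' N))
    (hs : ∀ N : ℕ → ℕ, Tendsto N atTop atTop → ∃ φ : ℕ → ℕ, StrictMono φ ∧ CA L (fun k => N (φ k)))
    {N N' : ℕ → ℕ} (hN : Tendsto N atTop atTop) (hN' : Tendsto N' atTop atTop) (hm : MA L N N') : MA L' N N' := by
  intro x hx f hf
  by_contra hneg
  rw [Metric.tendsto_atTop] at hneg
  push Not at hneg
  obtain ⟨ε, hε, h1⟩ := hneg
  obtain ⟨ψ, hψ, h2⟩ := extraction_of_frequently_atTop (frequently_atTop.2 h1)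
  obtain ⟨φ, hφ, h3⟩ := hs (fun k => N (ψ k)) (hN.comp hψ.tendsto_atTop)
  have hχ : Tendsto (fun k => ψ (φ k)) atTop atTop := hψ.tendsto_atTop.comp hφ.tendsto_atTop
  have h4 : CA L (alt (fun k => N (ψ (φ k))) fun k => N' (ψ (φ k))) := by
    intro y hy
    obtain ⟨ν, hν, h5⟩ := h3 y hy
    refine ⟨ν, hν, fun g hg => ?_⟩
    refine tendsto_alt (F := fun m => ∫ γ, g γ ∂(L ⌈y * (m : ℝ)⌉₊ m)) (h5 g hg) ?_
    have h6 := (h5 g hg).sub ((hm y hy g hg).comp hχ)
    rw [sub_zero] at h6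
    refine h6.congr fun k => ?_
    exact sub_sub_cancel _ _
  have h5 : CA L' (alt (fun k => N (ψ (φ k))) fun k => N' (ψ (φ k))) :=
    h _ (tendsto_alt (F := fun m => m) (hN.comp hχ) (hN'.comp hχ)) h4
  obtain ⟨ν, -, h6⟩ := h5 x hx
  have h7 := h6 f hf
  have he : Tendsto (fun k : ℕ => 2 * k) atTop atTop := tendsto_atTop_mono (fun k => show k ≤ _ by omega) tendsto_id
  have ho : Tendsto (fun k : ℕ => 2 * k + 1) atTop atTop := tendsto_atTop_mono (fun k => show k ≤ _ by omega) tendsto_id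
  have h8 := (h7.comp he).sub (h7.comp ho)
  rw [sub_self, Metric.tendsto_atTop] at h8
  obtain ⟨k, hk⟩ := h8 ε hε
  have h9 := hk k le_rfl
  have h10 := h2 (φ k)
  simp only [Function.comp, alt_even, alt_odd] at h9
  exact absurd h9 (not_lt.2 h10)

end Struct
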