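import Pool.Agent.Struct.E6
import Pool.Agent.EXG.SharpB
import Pool.Agent.EXL.GlFin

/-! STRUCT, E7: the three problems, in terms of lists. -/

set_option autoImplicit false

namespace Struct

open Filter Topology Finset HexObs MeasureTheory

open scoped ENNReal

/-- the bridges with n rows -/
def BrL (n : ℕ) (L : List (ℤ × ℤ)) : Prop := ∃ b, CC.Crossing n 0 b L

/-- the polygonal curve of a list, scale N -/
noncomputable def cvL (N : ℕ) : List (ℤ × ℤ) → Cv := CC.curveL N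

lemma cvL_ok (N : ℕ) (t : List Bool) : cvL N (CC.toL oo t) = curve N t := CC.curveL_toL N t

theorem sharp : ∃ b : ℝ, 0 < b ∧ Tendsto (fun n : ℕ => (n : ℝ) ^ (1 - 3 / 4 : ℝ) * uu n) atTop (𝓝 b) := by
  have hP : Ex.P2.NodeRelE bT := Pool.Agent.EXL.Glue.relE_bT
  refine ⟨_, EXG.bB_pos, ?_⟩
  rw [show (1 - 3 / 4 : ℝ) = 1 / 4 by norm_num]
  have h := EXG.sharp_b (A := bT) (B := bT) bT_nonneg (fun _ _ h => uu_anti h) (fun _ => rfl) hP
  refine h.congr fun n => ?_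
  rw [mul_comm]
  rfl

lemma famL {S : ℕ → List (ℤ × ℤ) → Prop} {W : ℕ → Set (List Bool)}
    (h : ∀ n N, 1 ≤ n → lawL (S n) (cvL N) = ((pW (W n)).map (curve N)).toMeasure) {N : ℕ → ℕ}
    (hN : Tendsto N atTop atTop) : CA (fun n N => lawL (S n) (cvL N)) N ↔ ∀ x : ℝ, 0 < x → LimW (fun k => pW (W ⌈x * N k⌉₊)) N := by
  refine forall_congr' fun x => imp_congr_right fun hx => ?_
  refine limM_iff ?_
  filter_upwards [(ceil_tendsto hN hx).eventually_ge_atTop 1] with k hk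
  exact h _ _ hk

lemma fullL {S : ℕ → List (ℤ × ℤ) → Prop} {W : ℕ → Set (List Bool)}
    (h : ∀ n N, 1 ≤ n → lawL (S n) (cvL N) = ((pW (W n)).map (curve N)).toMeasure) :
    LimM (fun T => lawL (S T) (cvL T)) ↔ LimW (fun T => pW (W T)) fun T => T := by
  refine limM_iff ?_
  filter_upwards [eventually_ge_atTop 1] with k hk
  exact h _ _ hk

/-- the family of laws -/
noncomputable def LL (S : ℕ → List (ℤ × ℤ) → Prop) (n N : ℕ) : Measure Cv := lawL (S n) (cvL N)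

theorem main :
    (∀ n N, 1 ≤ n → IsProbabilityMeasure (LL CC.Stop n N) ∧ IsProbabilityMeasure (LL IrrL n N) ∧
      IsProbabilityMeasure (LL BrL n N)) ∧
    (∀ N : ℕ → ℕ, Tendsto N atTop atTop →
      (CA (LL CC.Stop) N ↔ CA (LL IrrL) N) ∧ (CA (LL CC.Stop) N ↔ CA (LL BrL) N) ∧
      (∃ φ : ℕ → ℕ, StrictMono φ ∧ CA (LL CC.Stop) fun k => N (φ k)) ∧
      ∀ N' : ℕ → ℕ, Tendsto N' atTop atTop → (MA (LL CC.Stop) N N' ↔ MA (LL IrrL) N N') ∧ (MA (LL CC.Stop) N N' ↔ MA (LL BrL) N N')) ∧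
    (LimM (fun T => LL CC.Stop T T) ↔ LimM fun T => LL IrrL T T) ∧
    (LimM (fun T => LL CC.Stop T T) ↔ LimM fun T => LL BrL T T) := by
  obtain ⟨b, hb, hu⟩ := sharp
  have ha : (0 : ℝ) < 3 / 4 := by norm_num
  have ha1 : (3 / 4 : ℝ) < 1 := by norm_num
  -- the laws in terms of words
  have l1 : ∀ n N, 1 ≤ n → lawL (CC.Stop n) (cvL N) = ((pW (FCW n)).map (curve N)).toMeasure :=
    fun n N hn => law_half hn (cvL_ok N)
  have l2 : ∀ n N, 1 ≤ n → lawL (IrrL n) (cvL N) = ((pW (IW n)).map (curve N)).toMeasure :=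
    fun n N hn => law_irr ha ha1 hb hu hn (cvL_ok N)
  have l3 : ∀ n N, 1 ≤ n → lawL (BrL n) (cvL N) = ((pW (Brd n)).map (curve N)).toMeasure :=
    fun n N hn => law_bridge hn (cvL_ok N)
  have e1 : ∀ N : ℕ → ℕ, Tendsto N atTop atTop → (CA (LL CC.Stop) N ↔ CA (LL IrrL) N) := by
    intro N hN
    exact (famL l1 hN).trans ((three_lim ha ha1 hb hu hN).1.trans (famL l2 hN).symm)
  have e2 : ∀ N : ℕ → ℕ, Tendsto N atTop atTop → (CA (LL CC.Stop) N ↔ CA (LL BrL) N) := by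
    intro N hN
    exact (famL l1 hN).trans ((three_lim ha ha1 hb hu hN).2.trans (famL l3 hN).symm)
  have hs : ∀ N : ℕ → ℕ, Tendsto N atTop atTop → ∃ φ : ℕ → ℕ, StrictMono φ ∧ CA (LL CC.Stop) (fun k => N (φ k)) := by
    intro N hN
    obtain ⟨φ, hφ, h⟩ := exists_sub ha ha1 hb hu hN
    refine ⟨φ, hφ, ?_⟩
    have hN2 : Tendsto (fun k => N (φ k)) atTop atTop := hN.comp hφ.tendsto_atTop
    refine (famL l1 hN2).2 ?_
    obtain ⟨α, hα, hα1, t1, -, -⟩ := tight3 ha ha1 hb hu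
    rw [← test_half] at h
    exact fun x hx => (limW_iff hα hα1 (TightW.scale t1 hN2 hx)).2 (h x hx)
  have hs2 : ∀ N : ℕ → ℕ, Tendsto N atTop atTop → ∃ φ : ℕ → ℕ, StrictMono φ ∧ CA (LL IrrL) (fun k => N (φ k)) := by
    intro N hN
    obtain ⟨φ, hφ, h⟩ := hs N hN
    exact ⟨φ, hφ, (e1 _ (hN.comp hφ.tendsto_atTop)).1 h⟩
  have hs3 : ∀ N : ℕ → ℕ, Tendsto N atTop atTop → ∃ φ : ℕ → ℕ, StrictMono φ ∧ CA (LL BrL) (fun k => N (φ k)) := by
    intro N hN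
    obtain ⟨φ, hφ, h⟩ := hs N hN
    exact ⟨φ, hφ, (e2 _ (hN.comp hφ.tendsto_atTop)).1 h⟩
  refine ⟨fun n N hn => ?_, fun N hN => ⟨e1 N hN, e2 N hN, hs N hN, fun N' hN' => ⟨⟨?_, ?_⟩, ⟨?_, ?_⟩⟩⟩, ?_, ?_⟩
  · unfold LL
    rw [l1 n N hn, l2 n N hn, l3 n N hn]
    exact ⟨inferInstance, inferInstance, inferInstance⟩
  · exact MA.of (fun N hN => (e1 N hN).1) hs hN hN'
  · exact MA.of (fun N hN => (e1 N hN).2) hs2 hN hN'
  · exact MA.of (fun N hN => (e2 N hN).1) hs hN hN'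
  · exact MA.of (fun N hN => (e2 N hN).2) hs3 hN hN'
  · exact (fullL l1).trans ((three_full_lim ha ha1 hb hu).1.trans (fullL l2).symm)
  · exact (fullL l1).trans ((three_full_lim ha ha1 hb hu).2.trans (fullL l3).symm)

end Struct
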