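import Pool.Agent.Tight.Inst

/-! STRUCT, S1: concatenation of curves up to reparametrisation. -/

set_option autoImplicit false

namespace Struct

open Filter Topology Finset

abbrev Cv := C(unitInterval, ℂ)

/-- monotone reparametrisation, onto -/
structure Rep where
  f : C(unitInterval, unitInterval)
  mono : Monotone f
  zero : f 0 = 0
  one : f 1 = 1

/-- invariance under reparametrisation -/
def Inv (F : Cv → ℝ) : Prop := ∀ (γ : Cv) (ρ : Rep), F (γ.comp ρ.f) = F γ

/-- the first half -/
noncomputable def al : Rep where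
  f := ⟨fun u => Set.projIcc (0 : ℝ) 1 zero_le_one (2 * (u : ℝ)), by fun_prop⟩
  mono := by
    intro u v huv
    have : (u : ℝ) ≤ v := huv
    exact Set.monotone_projIcc (zero_le_one : (0 : ℝ) ≤ 1) (by linarith)
  zero := by
    apply Subtype.ext
    show ((Set.projIcc (0 : ℝ) 1 zero_le_one (2 * ((0 : unitInterval) : ℝ)) : unitInterval) : ℝ) = 0
    rw [Set.coe_projIcc, Set.Icc.coe_zero]
    norm_num
  one := by
    apply Subtype.ext
    show ((Set.projIcc (0 : ℝ) 1 zero_le_one (2 * ((1 : unitInterval) : ℝ)) : unitInterval) : ℝ) = 1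
    rw [Set.coe_projIcc, Set.Icc.coe_one]
    norm_num

/-- the second half -/
noncomputable def be : Rep where
  f := ⟨fun u => Set.projIcc (0 : ℝ) 1 zero_le_one (2 * (u : ℝ) - 1), by fun_prop⟩
  mono := by
    intro u v huv
    have : (u : ℝ) ≤ v := huv
    exact Set.monotone_projIcc (zero_le_one : (0 : ℝ) ≤ 1) (by linarith)
  zero := by
    apply Subtype.ext
    show ((Set.projIcc (0 : ℝ) 1 zero_le_one (2 * ((0 : unitInterval) : ℝ) - 1) : unitInterval) : ℝ) = 0
    rw [Set.coe_projIcc, Set.Icc.coe_zero]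
    norm_num
  one := by
    apply Subtype.ext
    show ((Set.projIcc (0 : ℝ) 1 zero_le_one (2 * ((1 : unitInterval) : ℝ) - 1) : unitInterval) : ℝ) = 1
    rw [Set.coe_projIcc, Set.Icc.coe_one]
    norm_num

lemma al_coe (u : unitInterval) : ((al.f u : unitInterval) : ℝ) = min 1 (2 * (u : ℝ)) := by
  show ((Set.projIcc (0 : ℝ) 1 zero_le_one (2 * (u : ℝ)) : unitInterval) : ℝ) = _
  rw [Set.coe_projIcc]
  exact max_eq_right (le_min zero_le_one (by linarith [u.2.1]))

lemma be_coe (u : unitInterval) : ((be.f u : unitInterval) : ℝ) = max 0 (2 * (u : ℝ) - 1) := by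
  show ((Set.projIcc (0 : ℝ) 1 zero_le_one (2 * (u : ℝ) - 1) : unitInterval) : ℝ) = _
  rw [Set.coe_projIcc]
  congr 1
  exact min_eq_right (by linarith [u.2.2])

/-- the middle of two reparametrisations -/
noncomputable def mid (α β : Rep) : Rep where
  f := ⟨fun u => ⟨((α.f u : ℝ) + β.f u) / 2, by
    have h1 := (α.f u).2
    have h2 := (β.f u).2
    constructor <;> linarith [h1.1, h1.2, h2.1, h2.2]⟩, by fun_prop⟩
  mono := by
    intro u v huv
    have h1 : (α.f u : ℝ) ≤ α.f v := α.mono huv
    have h2 : (β.f u : ℝ) ≤ β.f v := β.mono huv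
    show ((α.f u : ℝ) + β.f u) / 2 ≤ ((α.f v : ℝ) + β.f v) / 2
    linarith
  zero := by
    apply Subtype.ext
    show ((α.f 0 : ℝ) + β.f 0) / 2 = 0
    rw [α.zero, β.zero]
    simp
  one := by
    apply Subtype.ext
    show ((α.f 1 : ℝ) + β.f 1) / 2 = 1
    rw [α.one, β.one]
    simp

lemma mid_coe (α β : Rep) (u : unitInterval) : (((mid α β).f u : unitInterval) : ℝ) = ((α.f u : ℝ) + β.f u) / 2 := rfl

/-- concatenation -/
noncomputable def cat (a b : Cv) : Cv := a.comp al.f + b.comp be.f

lemma cat_apply (a b : Cv) (u : unitInterval) : cat a b u = a (al.f u) + b (be.f u) := rfl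

lemma cat_one (a b : Cv) : cat a b 1 = a 1 + b 1 := by
  rw [cat_apply, al.one, be.one]

lemma cat_eq (a b : Cv) (α β : Rep) (h : ∀ u, α.f u = 1 ∨ β.f u = 0) :
    a.comp α.f + b.comp β.f = (cat a b).comp (mid α β).f := by
  ext u
  show a (α.f u) + b (β.f u) = cat a b ((mid α β).f u)
  rw [cat_apply]
  have h1 := (α.f u).2
  have h2 := (β.f u).2
  rcases h u with h | h
  · have h3 : (α.f u : ℝ) = 1 := by rw [h]; rfl
    have e1 : al.f ((mid α β).f u) = α.f u := by
      apply Subtype.ext
      rw [al_coe, mid_coe, h3]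
      exact min_eq_left (by linarith [h2.1])
    have e2 : be.f ((mid α β).f u) = β.f u := by
      apply Subtype.ext
      rw [be_coe, mid_coe, h3, max_eq_right (by linarith [h2.1])]
      ring
    rw [e1, e2]
  · have h3 : (β.f u : ℝ) = 0 := by rw [h]; rfl
    have e1 : al.f ((mid α β).f u) = α.f u := by
      apply Subtype.ext
      rw [al_coe, mid_coe, h3, min_eq_right (by linarith [h1.2])]
      ring
    have e2 : be.f ((mid α β).f u) = β.f u := by
      apply Subtype.ext
      rw [be_coe, mid_coe, h3]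
      exact max_eq_left (by linarith [h1.2])
    rw [e1, e2]

/-- values on generalised concatenations -/
theorem Inv.cat_of {F : Cv → ℝ} (hF : Inv F) (a b : Cv) (α β : Rep) (h : ∀ u, α.f u = 1 ∨ β.f u = 0) :
    F (a.comp α.f + b.comp β.f) = F (cat a b) := by
  rw [cat_eq a b α β h]
  exact hF _ _

/-- composition of reparametrisations -/
def Rep.comp (α β : Rep) : Rep where
  f := α.f.comp β.f
  mono := fun _ _ h => α.mono (β.mono h)
  zero := by
    show α.f (β.f 0) = 0
    rw [β.zero, α.zero]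
  one := by
    show α.f (β.f 1) = 1
    rw [β.one, α.one]

lemma al_be (u : unitInterval) : al.f u = 1 ∨ be.f u = 0 := by
  rcases le_total (1 : ℝ) (2 * u) with h | h
  · left
    apply Subtype.ext
    rw [al_coe]
    exact min_eq_left h
  · right
    apply Subtype.ext
    rw [be_coe]
    exact max_eq_left (by linarith)

/-- three pieces -/
theorem Inv.three {F : Cv → ℝ} (hF : Inv F) (a b c : Cv) (α β δ : Rep) (h1 : ∀ u, α.f u = 1 ∨ β.f u = 0)
    (h2 : ∀ u, β.f u = 1 ∨ δ.f u = 0) : F (a.comp α.f + b.comp β.f + c.comp δ.f) = F (cat (cat a b) c) := by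
  rw [cat_eq a b α β h1]
  refine hF.cat_of _ _ _ _ fun u => ?_
  rcases h2 u with h | h
  · left
    apply Subtype.ext
    rw [mid_coe]
    rcases h1 u with h' | h'
    · rw [h, h']
      simp
    · rw [h] at h'
      exact absurd h' (by simp)
  · exact Or.inr h

theorem Inv.three' {F : Cv → ℝ} (hF : Inv F) (a b c : Cv) (α β δ : Rep) (h1 : ∀ u, α.f u = 1 ∨ β.f u = 0)
    (h2 : ∀ u, β.f u = 1 ∨ δ.f u = 0) : F (a.comp α.f + b.comp β.f + c.comp δ.f) = F (cat a (cat b c)) := by
  rw [add_assoc, cat_eq b c β δ h2]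
  refine hF.cat_of _ _ _ _ fun u => ?_
  rcases h1 u with h | h
  · exact Or.inl h
  · right
    apply Subtype.ext
    rw [mid_coe]
    rcases h2 u with h' | h'
    · rw [h] at h'
      exact absurd h' (by simp)
    · rw [h, h']
      simp

/-- associativity -/
theorem Inv.assoc {F : Cv → ℝ} (hF : Inv F) (a b c : Cv) : F (cat (cat a b) c) = F (cat a (cat b c)) := by
  have h1 : ∀ u, (al.comp al).f u = 1 ∨ (be.comp al).f u = 0 := fun u => al_be (al.f u)
  have h2 : ∀ u, (be.comp al).f u = 1 ∨ be.f u = 0 := by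
    intro u
    rcases al_be u with h | h
    · left
      show be.f (al.f u) = 1
      rw [h, be.one]
    · exact Or.inr h
  rw [← hF.three a b c _ _ _ h1 h2, hF.three' a b c _ _ _ h1 h2]

lemma cat_comp (a b : Cv) (ρ : Rep) : cat (a.comp ρ.f) b = a.comp (ρ.comp al).f + b.comp be.f := rfl

/-- the prefix may be reparametrised -/
theorem Inv.cat_left {F : Cv → ℝ} (hF : Inv F) (b : Cv) : Inv fun a => F (cat a b) := by
  intro a ρ
  show F (cat (a.comp ρ.f) b) = _
  rw [cat_comp]
  refine hF.cat_of a b _ _ fun u => ?_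
  rcases al_be u with h | h
  · left
    show ρ.f (al.f u) = 1
    rw [h, ρ.one]
  · exact Or.inr h

/-- the suffix may be reparametrised -/
theorem Inv.cat_right {F : Cv → ℝ} (hF : Inv F) (a : Cv) : Inv fun b => F (cat a b) := by
  intro b ρ
  show F (cat a (b.comp ρ.f)) = _
  have : cat a (b.comp ρ.f) = a.comp al.f + b.comp (ρ.comp be).f := rfl
  rw [this]
  refine hF.cat_of a b _ _ fun u => ?_
  rcases al_be u with h | h
  · exact Or.inl h
  · right
    show ρ.f (be.f u) = 0
    rw [h, ρ.zero]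

theorem Inv.cat_zero {F : Cv → ℝ} (hF : Inv F) (a : Cv) : F (cat a 0) = F a := by
  have : cat a 0 = a.comp al.f := by
    ext u
    rw [cat_apply]
    simp
  rw [this]
  exact hF a al

theorem Inv.zero_cat {F : Cv → ℝ} (hF : Inv F) (b : Cv) : F (cat 0 b) = F b := by
  have : cat 0 b = b.comp be.f := by
    ext u
    rw [cat_apply]
    simp
  rw [this]
  exact hF b be

lemma dist_comp_le (a a' : Cv) (ρ : C(unitInterval, unitInterval)) : dist (a.comp ρ) (a'.comp ρ) ≤ dist a a' := by
  rw [ContinuousMap.dist_le dist_nonneg]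
  intro u
  show dist (a (ρ u)) (a' (ρ u)) ≤ dist a a'
  exact ContinuousMap.dist_apply_le_dist (ρ u)

lemma dist_cat (a a' b b' : Cv) : dist (cat a b) (cat a' b') ≤ dist a a' + dist b b' := by
  rw [ContinuousMap.dist_le (add_nonneg dist_nonneg dist_nonneg)]
  intro u
  rw [cat_apply, cat_apply]
  refine (dist_add_add_le _ _ _ _).trans ?_
  exact add_le_add (ContinuousMap.dist_apply_le_dist (al.f u)) (ContinuousMap.dist_apply_le_dist (be.f u))

lemma dist_cat_left (a b b' : Cv) : dist (cat a b) (cat a b') ≤ dist b b' := by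
  refine (dist_cat _ _ _ _).trans (le_of_eq ?_)
  rw [dist_self, zero_add]

lemma dist_cat_right (a a' b : Cv) : dist (cat a b) (cat a' b) ≤ dist a a' := by
  refine (dist_cat _ _ _ _).trans (le_of_eq ?_)
  rw [dist_self, add_zero]

/-- height of the end, in rows -/
noncomputable def ht (γ : Cv) : ℝ := 2 / 3 * (γ 1).im

lemma ht_cat (a b : Cv) : ht (cat a b) = ht a + ht b := by
  unfold ht
  rw [cat_one, Complex.add_im]
  ring

lemma ht_zero : ht 0 = 0 := by
  unfold ht
  simp

lemma ht_comp (γ : Cv) (ρ : Rep) : ht (γ.comp ρ.f) = ht γ := by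
  unfold ht
  show 2 / 3 * (γ (ρ.f 1)).im = _
  rw [ρ.one]

lemma ht_lip (γ γ' : Cv) : |ht γ - ht γ'| ≤ dist γ γ' := by
  unfold ht
  have h1 : |(γ 1).im - (γ' 1).im| ≤ dist γ γ' := by
    rw [← Complex.sub_im]
    refine (Complex.abs_im_le_norm _).trans ?_
    rw [← dist_eq_norm]
    exact ContinuousMap.dist_apply_le_dist (1 : unitInterval)
  have h2 : 2 / 3 * (γ 1).im - 2 / 3 * (γ' 1).im = 2 / 3 * ((γ 1).im - (γ' 1).im) := by ring
  rw [h2, abs_mul, abs_of_pos (by norm_num)]
  have h3 : 0 ≤ |(γ 1).im - (γ' 1).im| := abs_nonneg _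
  linarith

/-- vertical segment -/
noncomputable def seg (s : ℝ) : Cv := ⟨fun u => ⟨0, 3 / 2 * s * u⟩, by
  have : (fun u : unitInterval => (⟨0, 3 / 2 * s * u⟩ : ℂ)) = fun u : unitInterval => ((3 / 2 * s * (u : ℝ) : ℝ) : ℂ) * Complex.I := by
    funext u
    apply Complex.ext <;> simp
  rw [this]
  fun_prop⟩

lemma seg_apply (s : ℝ) (u : unitInterval) : seg s u = ⟨0, 3 / 2 * s * u⟩ := rfl

lemma ht_seg (s : ℝ) : ht (seg s) = s := by
  unfold ht
  rw [seg_apply]
  show 2 / 3 * (3 / 2 * s * ((1 : unitInterval) : ℝ)) = s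
  rw [Set.Icc.coe_one]
  ring

lemma seg_zero : seg 0 = 0 := by
  ext u
  rw [seg_apply]
  apply Complex.ext <;> simp

lemma dist_seg (s s' : ℝ) : dist (seg s) (seg s') ≤ 3 / 2 * |s - s'| := by
  rw [ContinuousMap.dist_le (by positivity)]
  intro u
  rw [dist_eq_norm, seg_apply, seg_apply]
  have h1 : (⟨0, 3 / 2 * s * u⟩ : ℂ) - ⟨0, 3 / 2 * s' * u⟩ = ((3 / 2 * (s - s') * u : ℝ) : ℂ) * Complex.I := by
    apply Complex.ext
    · simp
    · simp
      ring
  rw [h1, norm_mul, Complex.norm_I, mul_one, Complex.norm_real, Real.norm_eq_abs, abs_mul, abs_mul,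
    abs_of_pos (by norm_num : (0 : ℝ) < 3 / 2), abs_of_nonneg u.2.1]
  have h2 : 0 ≤ 3 / 2 * |s - s'| := by positivity
  nlinarith [u.2.2, u.2.1]

/-- two segments -/
theorem Inv.seg_seg {F : Cv → ℝ} (hF : Inv F) {s s' : ℝ} (hs : 0 ≤ s) (hs' : 0 ≤ s') :
    F (cat (seg s) (seg s')) = F (seg (s + s')) := by
  rcases eq_or_lt_of_le (add_nonneg hs hs') with h | h
  · have e1 : s = 0 := by linarith
    have e2 : s' = 0 := by linarith
    rw [e1, e2, add_zero, seg_zero, hF.cat_zero]
  · let ρ : Rep :=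
      { f := ⟨fun u => ⟨(s * al.f u + s' * be.f u) / (s + s'), by
          have h1 := (al.f u).2
          have h2 := (be.f u).2
          constructor
          · have := mul_nonneg hs h1.1
            have := mul_nonneg hs' h2.1
            positivity
          · rw [div_le_one h]
            have := mul_le_mul_of_nonneg_left h1.2 hs
            have := mul_le_mul_of_nonneg_left h2.2 hs'
            linarith⟩, by fun_prop⟩
        mono := by
          intro u v huv
          have h1 : (al.f u : ℝ) ≤ al.f v := al.mono huv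
          have h2 : (be.f u : ℝ) ≤ be.f v := be.mono huv
          show (s * al.f u + s' * be.f u) / (s + s') ≤ (s * al.f v + s' * be.f v) / (s + s')
          gcongr
        zero := by
          apply Subtype.ext
          show (s * al.f 0 + s' * be.f 0) / (s + s') = 0
          rw [al.zero, be.zero]
          simp
        one := by
          apply Subtype.ext
          show (s * al.f 1 + s' * be.f 1) / (s + s') = 1
          rw [al.one, be.one]
          rw [Set.Icc.coe_one, mul_one, mul_one, div_self h.ne'] }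
    have e : cat (seg s) (seg s') = (seg (s + s')).comp ρ.f := by
      ext u
      show seg s (al.f u) + seg s' (be.f u) = seg (s + s') (ρ.f u)
      rw [seg_apply, seg_apply, seg_apply]
      have e1 : ((ρ.f u : unitInterval) : ℝ) = (s * al.f u + s' * be.f u) / (s + s') := rfl
      rw [e1]
      apply Complex.ext
      · simp
      · rw [Complex.add_im]
        field_simp
    rw [e]
    exact hF _ _

theorem Inv.seg_cat {F : Cv → ℝ} (hF : Inv F) (γ : Cv) {s s' : ℝ} (hs : 0 ≤ s) (hs' : 0 ≤ s') :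
    F (cat (cat γ (seg s)) (seg s')) = F (cat γ (seg (s + s'))) := by
  rw [hF.assoc]
  exact (hF.cat_right γ).seg_seg hs hs'

/-- invariance under homeomorphisms is enough for continuous functions -/
theorem Inv.of_homeo {F : Cv → ℝ} (hF : Continuous F)
    (h : ∀ (γ : Cv) (r : unitInterval ≃ₜ unitInterval), Monotone r → F (γ.comp ⟨r, r.continuous⟩) = F γ) : Inv F := by
  intro γ ρ
  -- strictly monotone approximations
  have hex : ∀ n : ℕ, ∃ r : unitInterval ≃ₜ unitInterval, Monotone r ∧
      ∀ u, |((r u : unitInterval) : ℝ) - ρ.f u| ≤ 1 / (n + 1) := by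
    intro n
    set c : ℝ := 1 / ((n : ℝ) + 1) with hc
    have hc0 : 0 < c := by positivity
    have hc1 : c ≤ 1 := by
      rw [hc, div_le_one (by positivity)]
      linarith [Nat.cast_nonneg (α := ℝ) n]
    let g : unitInterval → unitInterval := fun u => ⟨(1 - c) * ρ.f u + c * u, by
      have h1 := (ρ.f u).2
      have h2 := u.2
      constructor
      · have := mul_nonneg (sub_nonneg.2 hc1) h1.1
        have := mul_nonneg hc0.le h2.1
        linarith
      · have := mul_le_mul_of_nonneg_left h1.2 (sub_nonneg.2 hc1)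
        have := mul_le_mul_of_nonneg_left h2.2 hc0.le
        linarith⟩
    have hgc : Continuous g := by fun_prop
    have hg0 : g 0 = 0 := by
      apply Subtype.ext
      show (1 - c) * ((ρ.f 0 : unitInterval) : ℝ) + c * ((0 : unitInterval) : ℝ) = 0
      rw [ρ.zero]
      simp
    have hg1 : g 1 = 1 := by
      apply Subtype.ext
      show (1 - c) * ((ρ.f 1 : unitInterval) : ℝ) + c * ((1 : unitInterval) : ℝ) = 1
      rw [ρ.one]
      simp
    have hmono : StrictMono g := by
      intro u v huv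
      have h1 : (ρ.f u : ℝ) ≤ ρ.f v := ρ.mono huv.le
      have h2 : (u : ℝ) < v := huv
      show (1 - c) * ((ρ.f u : unitInterval) : ℝ) + c * (u : ℝ) < (1 - c) * ((ρ.f v : unitInterval) : ℝ) + c * (v : ℝ)
      have h3 := mul_le_mul_of_nonneg_left h1 (sub_nonneg.2 hc1)
      have h4 := mul_lt_mul_of_pos_left h2 hc0
      linarith
    have hsurj : Function.Surjective g := by
      intro y
      have := intermediate_value_univ (0 : unitInterval) 1 hgc
      have hy : y ∈ Set.Icc (g 0) (g 1) := by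
        rw [hg0, hg1]
        exact ⟨y.2.1, y.2.2⟩
      exact this hy
    refine ⟨(StrictMono.orderIsoOfSurjective g hmono hsurj).toHomeomorph, ?_, fun u => ?_⟩
    · exact hmono.monotone
    · show |(1 - c) * ((ρ.f u : unitInterval) : ℝ) + c * (u : ℝ) - ρ.f u| ≤ c
      have e : (1 - c) * ((ρ.f u : unitInterval) : ℝ) + c * (u : ℝ) - ρ.f u = c * (u - ρ.f u) := by ring
      rw [e, abs_mul, abs_of_pos hc0]
      have h1 : |(u : ℝ) - ρ.f u| ≤ 1 := by
        rw [abs_le]
        have h1 := (ρ.f u).2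
        have h2 := u.2
        constructor <;> linarith [h1.1, h1.2, h2.1, h2.2]
      nlinarith
  choose r hr1 hr2 using hex
  have hconv : Tendsto (fun n => γ.comp ⟨r n, (r n).continuous⟩) atTop (𝓝 (γ.comp ρ.f)) := by
    rw [Metric.tendsto_atTop]
    intro ε hε
    have huc := CompactSpace.uniformContinuous_of_continuous γ.continuous
    rw [Metric.uniformContinuous_iff] at huc
    obtain ⟨δ, hδ, h1⟩ := huc (ε / 2) (by positivity)
    obtain ⟨n0, hn0⟩ := exists_nat_one_div_lt hδ
    refine ⟨n0, fun n hn => ?_⟩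
    refine lt_of_le_of_lt ?_ (half_lt_self hε)
    rw [ContinuousMap.dist_le (by positivity)]
    intro u
    refine (h1 ?_).le
    rw [Subtype.dist_eq, Real.dist_eq]
    refine lt_of_le_of_lt (hr2 n u) (lt_of_le_of_lt ?_ hn0)
    gcongr
  have h2 : Tendsto (fun n => F (γ.comp ⟨r n, (r n).continuous⟩)) atTop (𝓝 (F (γ.comp ρ.f))) :=
    (hF.tendsto _).comp hconv
  have h3 : (fun n => F (γ.comp ⟨r n, (r n).continuous⟩)) = fun _ => F γ := by
    funext n
    exact h γ (r n) (hr1 n)
  rw [h3] at h2
  exact tendsto_nhds_unique h2 tendsto_const_nhds |>.symm ▸ rfl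

end Struct
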