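import Pool.Agent.Struct.S9

/-! STRUCT, S10: the half plane walk determines the excursions. -/

set_option autoImplicit false

namespace Struct

open Filter Topology Finset CutLim

variable {P : Type} {w : P → ℝ} {h : P → ℕ} {q : P → Cv} {u k : ℕ → ℝ}

/-- sum over the levels below T -/
noncomputable def VV (u : ℕ → ℝ) (T : ℕ) : ℝ := ∑ c ∈ range T, u c

lemma VV_succ (u : ℕ → ℝ) (T : ℕ) : VV u (T + 1) = UU u T := rfl

lemma VV_nonneg (hr : Ren u k) (T : ℕ) : 0 ≤ VV u T := sum_nonneg fun c _ => u_nonneg hr c

lemma VV_mono (hr : Ren u k) {T T' : ℕ} (hT : T ≤ T') : VV u T ≤ VV u T' :=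
  sum_le_sum_of_subset_of_nonneg (range_subset_range.2 hT) fun c _ _ => u_nonneg hr c

lemma VV_le_UU (hr : Ren u k) (T : ℕ) : VV u T ≤ UU u T := VV_mono hr (Nat.le_succ T)

lemma VV_rec (hr : Ren u k) (W : Wt w h k) {T : ℕ} (hT : 1 ≤ T) : ∑' p, w p * VV u (T - h p) = VV u T - 1 := by
  obtain ⟨T, rfl⟩ : ∃ T', T = T' + 1 := ⟨T - 1, by omega⟩
  rw [sum_rows W (fun r => VV u (T + 1 - r)) (T := T) (by
    intro r hr'
    show VV u (T + 1 - r) = 0
    have : T + 1 - r = 0 := by omega
    rw [this]
    simp [VV])]
  rw [VV_succ, UU_rec hr T, add_sub_cancel_left]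
  refine sum_congr rfl fun r hr' => ?_
  have := mem_Icc.1 hr'
  rw [show T + 1 - r = T - r + 1 by omega, VV_succ]

/-- only the last piece counts -/
theorem win (hr : Ren u k) (W : Wt w h k) {N T₀ n₀ : ℕ} (hN : 1 ≤ N) (hn₀ : 1 ≤ n₀) (hq : ∀ p, ht (q p) = h p / N)
    {F : Cv → ℝ} {M L : ℝ} (hM0 : 0 ≤ M) (hF : Bd F M) (hL0 : 0 ≤ L) (hL : Lp F L)
    (hv : ∀ γ, ht γ < ((T₀ + n₀ : ℕ) : ℝ) / N → F γ = 0) {m : ℝ}
    (hsm : Summable fun p => ws w h T₀ p * dist (q p) 0) (hm : ∑' p, ws w h T₀ p * dist (q p) 0 ≤ m) (T : ℕ) :
    ∀ (γ : Cv) (c : ℕ), ht γ = c / N → c + T ≤ T₀ →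
      |HH w h q F T γ - VV u T * PO w q F 0| ≤ L * KK k n₀ * (VV u T * dist γ 0 + VV u T ^ 2 * m) := by
  have hN0 : (0 : ℝ) < N := by exact_mod_cast hN
  have hm0 : 0 ≤ m := (tsum_nonneg fun p => mul_nonneg (ws_nonneg W T₀ p) dist_nonneg).trans hm
  have hK0 : 0 ≤ KK k n₀ := KK_nonneg hr _
  set Ψ := PO w q F 0 with hΨ
  set K1 := L * KK k n₀ with hK1
  have hK10 : 0 ≤ K1 := mul_nonneg hL0 hK0
  induction T using Nat.strong_induction_on with
  | _ T ih =>
    intro γ c hγ hc
    rcases Nat.eq_zero_or_pos T with rfl | hT
    · rw [HH_zero]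
      have e1 : F γ = 0 := by
        apply hv
        rw [hγ]
        apply div_lt_div_of_pos_right _ hN0
        have : c < T₀ + n₀ := by omega
        exact_mod_cast this
      have e2 : VV u 0 = 0 := by simp [VV]
      rw [e1, e2]
      simp
    · rw [HH_succ W.h1 F hT]
      have hs1 : Summable fun p => w p * HH w h q F (T - h p) (cat γ (q p)) :=
        summable_mul W.w0 W.w1.summable fun p => HH_bd W hF (T - h p) (cat γ (q p))
      have hs2 : Summable fun p => w p * F (cat 0 (q p)) := summable_mul W.w0 W.w1.summable fun p => hF _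
      have hVb : ∀ p, |VV u (T - h p)| ≤ VV u T := fun p => by
        rw [abs_of_nonneg (VV_nonneg hr _)]
        exact VV_mono hr (by omega)
      have hs3 : Summable fun p => w p * VV u (T - h p) := summable_mul W.w0 W.w1.summable hVb
      have hVT : 1 ≤ VV u T := by
        have := VV_rec hr W hT
        have h2 : 0 ≤ ∑' p, w p * VV u (T - h p) := tsum_nonneg fun p => mul_nonneg (W.w0 p) (VV_nonneg hr _)
        linarith
      have e0 : ∑' p, w p * HH w h q F (T - h p) (cat γ (q p)) - VV u T * Ψ =
          ∑' p, (w p * HH w h q F (T - h p) (cat γ (q p)) - w p * F (cat 0 (q p)) - w p * VV u (T - h p) * Ψ) := by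
        rw [(hs1.sub hs2).tsum_sub (hs3.mul_right Ψ), hs1.tsum_sub hs2, tsum_mul_right, VV_rec hr W hT]
        have : Ψ = ∑' p, w p * F (cat 0 (q p)) := rfl
        rw [← this]
        ring
      rw [e0]
      have hb : ∀ p, ‖w p * HH w h q F (T - h p) (cat γ (q p)) - w p * F (cat 0 (q p)) - w p * VV u (T - h p) * Ψ‖ ≤
          L * dist γ 0 * wb w h n₀ p + K1 * ((dist γ 0 + VV u T * m) * (w p * VV u (T - h p)) +
            VV u T * (ws w h T₀ p * dist (q p) 0)) := by
        intro p
        have h1p := W.h1 p
        -- the first step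
        have h2 : |F (cat γ (q p)) - F (cat 0 (q p))| * w p ≤ L * dist γ 0 * wb w h n₀ p := by
          unfold wb
          by_cases hp : n₀ ≤ h p
          · rw [if_pos hp]
            exact mul_le_mul_of_nonneg_right ((hL _ _).trans (mul_le_mul_of_nonneg_left (dist_cat_right _ _ _) hL0)) (W.w0 p)
          · rw [if_neg hp, mul_zero]
            have a1 : F (cat γ (q p)) = 0 := by
              apply hv
              rw [ht_cat, hγ, hq p, ← add_div]
              apply div_lt_div_of_pos_right _ hN0
              have : c + h p < T₀ + n₀ := by omega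
              exact_mod_cast this
            have a2 : F (cat 0 (q p)) = 0 := by
              apply hv
              rw [ht_cat, ht_zero, zero_add, hq p]
              apply div_lt_div_of_pos_right _ hN0
              have : h p < T₀ + n₀ := by omega
              exact_mod_cast this
            rw [a1, a2, sub_self, abs_zero, zero_mul]
        by_cases hp : h p < T
        · have a1 : F (cat γ (q p)) = 0 := by
            apply hv
            rw [ht_cat, hγ, hq p, ← add_div]
            apply div_lt_div_of_pos_right _ hN0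
            have : c + h p < T₀ + n₀ := by omega
            exact_mod_cast this
          have a3 := ih (T - h p) (by omega) (cat γ (q p)) (c + h p) (by
            rw [ht_cat, hγ, hq p]
            push_cast
            ring) (by omega)
          have a4 : dist (cat γ (q p)) 0 ≤ dist γ 0 + dist (q p) 0 := by
            have e : (0 : Cv) = cat 0 0 := by
              ext u
              rw [cat_apply]
              simp
            conv_lhs => rw [e]
            exact dist_cat _ _ _ _
          have a5 : VV u (T - h p) ≤ VV u T := VV_mono hr (by omega)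
          have a6 := VV_nonneg hr (T - h p)
          have a7 : ws w h T₀ p = w p := by
            unfold ws
            rw [if_pos (by omega)]
          have a8 := W.w0 p
          have a9 : |HH w h q F (T - h p) (cat γ (q p)) - VV u (T - h p) * Ψ| ≤
              K1 * (VV u (T - h p) * dist γ 0 + VV u T * dist (q p) 0 + VV u (T - h p) * VV u T * m) := by
            refine a3.trans (mul_le_mul_of_nonneg_left ?_ hK10)
            have b1 : VV u (T - h p) * dist (cat γ (q p)) 0 ≤ VV u (T - h p) * dist γ 0 + VV u T * dist (q p) 0 := by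
              have := mul_le_mul_of_nonneg_left a4 a6
              have := mul_le_mul_of_nonneg_right a5 (dist_nonneg (x := q p) (y := 0))
              linarith
            have b2 : VV u (T - h p) ^ 2 * m ≤ VV u (T - h p) * VV u T * m := by
              rw [sq]
              exact mul_le_mul_of_nonneg_right (mul_le_mul_of_nonneg_left a5 a6) hm0
            linarith
          have e1 : w p * HH w h q F (T - h p) (cat γ (q p)) - w p * F (cat 0 (q p)) - w p * VV u (T - h p) * Ψ =
              w p * (F (cat γ (q p)) - F (cat 0 (q p))) + w p * (HH w h q F (T - h p) (cat γ (q p)) - VV u (T - h p) * Ψ) := by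
            rw [a1]
            ring
          rw [e1, Real.norm_eq_abs]
          refine (abs_add_le _ _).trans (add_le_add ?_ ?_)
          · rw [abs_mul, abs_of_nonneg a8, mul_comm]
            exact h2
          · rw [abs_mul, abs_of_nonneg a8, a7]
            refine (mul_le_mul_of_nonneg_left a9 a8).trans (le_of_eq ?_)
            ring
        · have e2 : T - h p = 0 := by omega
          have e3 : VV u 0 = 0 := by simp [VV]
          rw [e2, HH_zero, e3, mul_zero, zero_mul, sub_zero, ← mul_sub, Real.norm_eq_abs, abs_mul, abs_of_nonneg (W.w0 p), mul_comm]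
          refine h2.trans ?_
          have : 0 ≤ K1 * ((dist γ 0 + VV u T * m) * 0 + VV u T * (ws w h T₀ p * dist (q p) 0)) := by
            have := ws_nonneg W T₀ p
            have := VV_nonneg hr T
            positivity
          linarith
      have hs4 : Summable fun p => L * dist γ 0 * wb w h n₀ p + K1 * ((dist γ 0 + VV u T * m) * (w p * VV u (T - h p)) +
            VV u T * (ws w h T₀ p * dist (q p) 0)) :=
        ((wb_sum W n₀).summable.mul_left _).add (((hs3.mul_left _).add (hsm.mul_left _)).mul_left _)
      have hs5 := Summable.of_nonneg_of_le (fun p => norm_nonneg _) hb hs4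
      rw [← Real.norm_eq_abs]
      refine (norm_tsum_le_tsum_norm hs5).trans ((hs5.tsum_le_tsum hb hs4).trans ?_)
      rw [((wb_sum W n₀).summable.mul_left _).tsum_add (((hs3.mul_left _).add (hsm.mul_left _)).mul_left _),
        tsum_mul_left, tsum_mul_left, (hs3.mul_left _).tsum_add (hsm.mul_left _), tsum_mul_left, tsum_mul_left,
        (wb_sum W n₀).tsum_eq, VV_rec hr W hT]
      have b1 : VV u T * ∑' p, ws w h T₀ p * dist (q p) 0 ≤ VV u T * m := mul_le_mul_of_nonneg_left hm (by linarith)
      have b2 : K1 * ((dist γ 0 + VV u T * m) * (VV u T - 1) + VV u T * ∑' p, ws w h T₀ p * dist (q p) 0) ≤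
          K1 * ((dist γ 0 + VV u T * m) * (VV u T - 1) + VV u T * m) :=
        mul_le_mul_of_nonneg_left (by linarith) hK10
      refine (add_le_add le_rfl b2).trans (le_of_eq ?_)
      rw [hK1]
      ring

end Struct
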