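import Pool.Agent.Struct.S10

/-! STRUCT, S11: convergence of the excursions from the convergence of the stopped walks. -/

set_option autoImplicit false

namespace Struct

open Filter Topology Finset CutLim

variable {P : Type} {w : P → ℝ} {h : P → ℕ} {u k : ℕ → ℝ} {ι : Type} {l : Filter ι} {s : ι → ℕ}

lemma ceil_tendsto (hs : Tendsto s l atTop) {x : ℝ} (hx : 0 < x) : Tendsto (fun i => ⌈x * s i⌉₊) l atTop := by
  have h1 : Tendsto (fun N : ℕ => ⌈x * N⌉₊) atTop atTop := by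
    refine tendsto_atTop.2 fun B => ?_
    obtain ⟨N0, hN0⟩ := exists_nat_gt ((B : ℝ) / x)
    filter_upwards [eventually_ge_atTop N0] with N hN
    have h2 : (B : ℝ) ≤ x * N := by
      rw [div_lt_iff₀ hx] at hN0
      have : (N0 : ℝ) ≤ N := by exact_mod_cast hN
      nlinarith
    have h3 : (B : ℝ) ≤ (⌈x * N⌉₊ : ℝ) := h2.trans (Nat.le_ceil _)
    exact_mod_cast h3
  exact h1.comp hs

lemma KK_scale {a b : ℝ} (hr : Ren u k) (ha : 0 < a) (ha1 : a < 1) (hb : 0 < b)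
    (hu : Tendsto (fun n : ℕ => (n : ℝ) ^ (1 - a) * u n) atTop (𝓝 b)) (hs : Tendsto s l atTop) {x : ℝ} (hx : 0 < x) :
    Tendsto (fun i => (s i : ℝ) ^ a * KK k ⌈x * s i⌉₊) l (𝓝 (1 / (b * Real.Gamma a * Real.Gamma (1 - a)) * x ^ (-a))) := by
  have h1 := (KK_tendsto hr ha ha1 hb hu).comp (ceil_tendsto hs hx)
  have h2 : Tendsto (fun i => ((⌈x * s i⌉₊ : ℝ) / s i) ^ (-a)) l (𝓝 (x ^ (-a))) := (ceil_ratio hs hx).rpow_const (Or.inl hx.ne')
  refine (h1.mul h2).congr' ?_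
  filter_upwards [hs.eventually_gt_atTop 0, (ceil_tendsto hs hx).eventually_gt_atTop 0] with i h3 h4
  have h3' : (0 : ℝ) < s i := by exact_mod_cast h3
  have h4' : (0 : ℝ) < ⌈x * s i⌉₊ := by exact_mod_cast h4
  show (⌈x * s i⌉₊ : ℝ) ^ a * KK k ⌈x * s i⌉₊ * ((⌈x * s i⌉₊ : ℝ) / s i) ^ (-a) = _
  rw [Real.div_rpow h4'.le h3'.le, Real.rpow_neg h4'.le, Real.rpow_neg h3'.le]
  have := Real.rpow_pos_of_pos h4' a
  field_simp

lemma VV_scale {a b : ℝ} (hr : Ren u k) (ha : 0 < a) (ha1 : a < 1) (hb : 0 < b)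
    (hu : Tendsto (fun n : ℕ => (n : ℝ) ^ (1 - a) * u n) atTop (𝓝 b)) (hs : Tendsto s l atTop) {x : ℝ} (hx : 0 < x) :
    Tendsto (fun i => (s i : ℝ) ^ (-a) * VV u ⌈x * s i⌉₊) l (𝓝 (b / a * x ^ a)) := by
  have h1 := (UU_tendsto hr ha ha1 hb hu).comp (ceil_tendsto hs hx)
  have h2 : Tendsto (fun i => ((⌈x * s i⌉₊ : ℝ) / s i) ^ a) l (𝓝 (x ^ a)) := (ceil_ratio hs hx).rpow_const (Or.inl hx.ne')
  have h3 : Tendsto (fun i => (s i : ℝ) ^ (-a)) l (𝓝 0) :=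
    ((tendsto_rpow_neg_atTop ha).comp tendsto_natCast_atTop_atTop).comp hs
  have h4 : Tendsto (fun i => (s i : ℝ) ^ (-a) * u ⌈x * s i⌉₊) l (𝓝 0) := by
    refine squeeze_zero (fun i => mul_nonneg (by positivity) (u_nonneg hr _)) (fun i => ?_) h3
    have h5 := u_le_one hr ⌈x * s i⌉₊
    have h6 : (0 : ℝ) ≤ (s i : ℝ) ^ (-a) := by positivity
    nlinarith
  have h7 := (h1.mul h2).sub h4
  rw [sub_zero] at h7
  refine h7.congr' ?_
  filter_upwards [hs.eventually_gt_atTop 0, (ceil_tendsto hs hx).eventually_gt_atTop 0] with i h3 h4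
  have h3' : (0 : ℝ) < s i := by exact_mod_cast h3
  have h4' : (0 : ℝ) < ⌈x * s i⌉₊ := by exact_mod_cast h4
  show (⌈x * s i⌉₊ : ℝ) ^ (-a) * UU u ⌈x * s i⌉₊ * ((⌈x * s i⌉₊ : ℝ) / s i) ^ a - (s i : ℝ) ^ (-a) * u ⌈x * s i⌉₊ = _
  have e : UU u ⌈x * s i⌉₊ = VV u ⌈x * s i⌉₊ + u ⌈x * s i⌉₊ := by
    unfold UU VV
    rw [sum_range_succ]
  rw [Real.div_rpow h4'.le h3'.le, Real.rpow_neg h4'.le, Real.rpow_neg h3'.le, e]
  have := Real.rpow_pos_of_pos h4' a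
  field_simp
  ring

/-- functions vanishing near the height 0 -/
theorem AB_pos {a b : ℝ} (hr : Ren u k) (W : Wt w h k) (ha : 0 < a) (ha1 : a < 1) (hb : 0 < b)
    (hu : Tendsto (fun n : ℕ => (n : ℝ) ^ (1 - a) * u n) atTop (𝓝 b)) {q : ℕ → P → Cv}
    (hq : ∀ N p, ht (q N p) = h p / N) (hmom : Mom w h q a) (hs : Tendsto s l atTop)
    (hA : ∀ ε : ℝ, 0 < ε → ∀ F, Test F → ∃ z, Tendsto (fun i => HH w h (q (s i)) F ⌈ε * s i⌉₊ 0) l (𝓝 z))
    {y : ℝ} (hy : 0 < y) {G : Cv → ℝ} (hG : Test G) (hGv : ∀ γ, ht γ < y → G γ = 0) :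
    ∃ z, Tendsto (fun i => (s i : ℝ) ^ a * PO w (q (s i)) G 0) l (𝓝 z) := by
  obtain ⟨M, hM0, hM⟩ := hG.bd
  obtain ⟨L, hL0, hL⟩ := hG.lip
  obtain ⟨C2, h20, h2⟩ := hmom
  obtain ⟨C3, h30, h3⟩ := UU_le hr ha ha1 hb hu
  obtain ⟨C4, h40, h4⟩ := KK_scale_le hr ha ha1 hb hu
  refine conv_approx fun δ hδ => ?_
  set B : ℝ := L * (C4 * (y / 2) ^ (-a)) * (C3 * C2) * 2 with hB
  have hB0 : 0 ≤ B := by positivity
  set ε : ℝ := min (y / 8) (δ / (B + 1)) with hε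
  have hε0 : 0 < ε := by positivity
  have hε1 : ε ≤ y / 8 := min_le_left _ _
  have hε2 : B * ε ≤ δ := by
    have : ε ≤ δ / (B + 1) := min_le_right _ _
    rw [le_div_iff₀ (by positivity)] at this
    nlinarith
  obtain ⟨z1, hz1⟩ := hA ε hε0 G hG
  have hz2 := VV_scale hr ha ha1 hb hu hs hε0
  have hz2' : b / a * ε ^ a ≠ 0 := by positivity
  refine ⟨fun i => HH w h (q (s i)) G ⌈ε * s i⌉₊ 0 / ((s i : ℝ) ^ (-a) * VV u ⌈ε * s i⌉₊), ⟨_, hz1.div hz2 hz2'⟩, ?_⟩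
  obtain ⟨N0, hN0⟩ := exists_nat_gt (max (4 / y) (1 / ε))
  filter_upwards [hs.eventually_ge_atTop (N0 + 1)] with i hi
  set N := s i with hN
  have hN1 : 1 ≤ N := by omega
  have hNr : (0 : ℝ) < N := by exact_mod_cast hN1
  have hNN : (N0 : ℝ) ≤ N := by
    have : N0 ≤ N := by omega
    exact_mod_cast this
  have hyN : 4 ≤ y * N := by
    have h5 : 4 / y ≤ N := le_trans (le_max_left _ _) (hN0.le.trans hNN)
    rw [div_le_iff₀ hy] at h5
    linarith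
  have hεN : 1 ≤ ε * N := by
    have h5 : 1 / ε ≤ N := le_trans (le_max_right _ _) (hN0.le.trans hNN)
    rw [div_le_iff₀ hε0] at h5
    linarith
  set T := ⌈ε * N⌉₊ with hT
  set n₀ := ⌈y / 2 * N⌉₊ with hn₀
  have hTle : (T : ℝ) ≤ 2 * ε * N := by
    have := (Nat.ceil_lt_add_one (show 0 ≤ ε * N by positivity)).le
    linarith
  have hnle : (n₀ : ℝ) ≤ y / 2 * N + 1 := (Nat.ceil_lt_add_one (show 0 ≤ y / 2 * N by positivity)).le
  have hT1 : 1 ≤ T := by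
    have h5 : ε * N ≤ (T : ℝ) := Nat.le_ceil _
    have : (1 : ℝ) ≤ T := hεN.trans h5
    exact_mod_cast this
  have hn1 : 1 ≤ n₀ := by
    have h5 : y / 2 * N ≤ (n₀ : ℝ) := Nat.le_ceil _
    have : (1 : ℝ) ≤ n₀ := by linarith
    exact_mod_cast this
  obtain ⟨hsm, hm⟩ := h2 N T hN1 hT1
  have hwin := win hr W hN1 hn1 (hq N) hM0 hM hL0 hL (T₀ := T) (n₀ := n₀) (by
    intro γ hγ
    apply hGv
    refine hγ.trans_le ?_
    rw [div_le_iff₀ hNr]
    push_cast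
    have : 2 * ε * N ≤ y / 4 * N := by
      have := mul_le_mul_of_nonneg_right hε1 hNr.le
      linarith
    linarith) hsm hm T 0 0 (by rw [ht_zero]; simp) (by omega)
  rw [dist_self, mul_zero, zero_add] at hwin
  have hVpos : 0 < VV u T := by
    have h5 : VV u 1 ≤ VV u T := VV_mono hr hT1
    have h6 : VV u 1 = 1 := by simp [VV, hr.u0]
    linarith
  have hNa : 0 < (N : ℝ) ^ a := Real.rpow_pos_of_pos hNr a
  have hNa' : (N : ℝ) ^ (-a) = ((N : ℝ) ^ a)⁻¹ := Real.rpow_neg hNr.le a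
  have e1 : (N : ℝ) ^ a * PO w (q N) G 0 - HH w h (q N) G T 0 / ((N : ℝ) ^ (-a) * VV u T) =
      -((N : ℝ) ^ a / VV u T * (HH w h (q N) G T 0 - VV u T * PO w (q N) G 0)) := by
    rw [hNa']
    field_simp
    ring
  show |(N : ℝ) ^ a * PO w (q N) G 0 - HH w h (q N) G T 0 / ((N : ℝ) ^ (-a) * VV u T)| ≤ δ
  rw [e1, abs_neg, abs_mul, abs_of_pos (div_pos hNa hVpos)]
  have h5 : VV u T ≤ C3 * (T : ℝ) ^ a := by
    have hTr : (0 : ℝ) < T := by exact_mod_cast hT1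
    have h6 := h3 T
    rw [Real.rpow_neg hTr.le, inv_mul_le_iff₀ (Real.rpow_pos_of_pos hTr a)] at h6
    have := VV_le_UU hr T
    linarith
  have hTr : (0 : ℝ) < T := by exact_mod_cast hT1
  have h7 : (T : ℝ) ^ a * (T : ℝ) ^ (1 - a) = T := by
    rw [← Real.rpow_add hTr, add_sub_cancel, Real.rpow_one]
  have h8 := h4 (y / 2) N (by positivity)
  calc (N : ℝ) ^ a / VV u T * |HH w h (q N) G T 0 - VV u T * PO w (q N) G 0|
      ≤ (N : ℝ) ^ a / VV u T * (L * KK k n₀ * (VV u T ^ 2 * (C2 * (T : ℝ) ^ (1 - a) / N))) :=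
        mul_le_mul_of_nonneg_left hwin (by positivity)
    _ = L * ((N : ℝ) ^ a * KK k n₀) * (VV u T * (C2 * (T : ℝ) ^ (1 - a) / N)) := by
        field_simp
    _ ≤ L * (C4 * (y / 2) ^ (-a)) * ((C3 * (T : ℝ) ^ a) * (C2 * (T : ℝ) ^ (1 - a) / N)) := by
        refine mul_le_mul ?_ ?_ (by positivity) (by positivity)
        · exact mul_le_mul_of_nonneg_left h8 hL0
        · exact mul_le_mul_of_nonneg_right h5 (by positivity)
    _ = L * (C4 * (y / 2) ^ (-a)) * (C3 * C2) * (((T : ℝ) ^ a * (T : ℝ) ^ (1 - a)) / N) := by ring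
    _ ≤ L * (C4 * (y / 2) ^ (-a)) * (C3 * C2) * (2 * ε) := by
        rw [h7]
        refine mul_le_mul_of_nonneg_left ?_ (by positivity)
        rw [div_le_iff₀ hNr]
        exact hTle
    _ = B * ε := by
        rw [hB]
        ring
    _ ≤ δ := hε2

lemma wb_sub {n n' : ℕ} (hn : n' ≤ n) (p : P) : wb w h n' p - wb w h n p = if n' ≤ h p ∧ h p < n then w p else 0 := by
  unfold wb
  by_cases h1 : n ≤ h p
  · rw [if_pos (by omega), if_pos h1, if_neg (by omega), sub_self]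
  · by_cases h2 : n' ≤ h p
    · rw [if_pos h2, if_neg h1, if_pos ⟨h2, by omega⟩, sub_zero]
    · rw [if_neg h2, if_neg h1, if_neg (by tauto), sub_zero]

/-- the excursions converge, from the convergence for the functions that vanish near the bottom -/
theorem AB_cut {a b : ℝ} (hr : Ren u k) (W : Wt w h k) (ha : 0 < a) (ha1 : a < 1) (hb : 0 < b)
    (hu : Tendsto (fun n : ℕ => (n : ℝ) ^ (1 - a) * u n) atTop (𝓝 b)) {q : ℕ → P → Cv}
    (hq : ∀ N p, ht (q N p) = h p / N) (hs : Tendsto s l atTop)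
    (hpos : ∀ y : ℝ, 0 < y → ∀ G, Test G → (∀ γ, ht γ < y → G γ = 0) →
      ∃ z, Tendsto (fun i => (s i : ℝ) ^ a * PO w (q (s i)) G 0) l (𝓝 z))
    {x : ℝ} (hx : 0 < x) {F : Cv → ℝ} (hF : Test F) :
    ∃ z, Tendsto (fun i => ∑' p, ((s i : ℝ) ^ a * wb w h ⌈x * s i⌉₊ p) * F (q (s i) p)) l (𝓝 z) := by
  obtain ⟨M, hM0, hM⟩ := hF.bd
  obtain ⟨L, hL0, hL⟩ := hF.lip
  refine conv_approx fun δ hδ => ?_
  set c : ℝ := 1 / (b * Real.Gamma a * Real.Gamma (1 - a)) with hc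
  -- the cut-off
  obtain ⟨x', hx'0, hx'1, hx'2⟩ : ∃ x' : ℝ, 0 < x' ∧ x' < x ∧ M * (c * x' ^ (-a) - c * x ^ (-a)) < δ := by
    have hcont : Tendsto (fun t : ℝ => M * (c * t ^ (-a) - c * x ^ (-a))) (𝓝[<] x) (𝓝 (M * (c * x ^ (-a) - c * x ^ (-a)))) := by
      have h1 : ContinuousAt (fun t : ℝ => M * (c * t ^ (-a) - c * x ^ (-a))) x := by
        have h2 : ContinuousAt (fun t : ℝ => t ^ (-a)) x := Real.continuousAt_rpow_const _ _ (Or.inl hx.ne')
        exact ((h2.const_mul c).sub_const _).const_mul M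
      exact h1.tendsto.mono_left nhdsWithin_le_nhds
    rw [sub_self, mul_zero] at hcont
    have h1 := hcont.eventually (gt_mem_nhds hδ)
    have h2 : ∀ᶠ t in 𝓝[<] x, 0 < t := nhdsWithin_le_nhds (lt_mem_nhds hx)
    obtain ⟨t, ⟨h3, h4⟩, h5⟩ := ((h1.and h2).and self_mem_nhdsWithin).exists
    exact ⟨t, h4, h5, h3⟩
  have hxx : 0 < x - x' := by linarith
  set ψ : Cv → ℝ := fun γ => max 0 (min 1 ((ht γ - x') / (x - x'))) with hψ
  have hψ0 : ∀ γ, 0 ≤ ψ γ := fun γ => le_max_left _ _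
  have hψ1 : ∀ γ, ψ γ ≤ 1 := fun γ => max_le zero_le_one (min_le_left _ _)
  have hψL : Lp ψ (1 / (x - x')) := by
    intro γ γ'
    refine (clamp_lip _ _).trans ?_
    rw [← sub_div, abs_div, abs_of_pos hxx, div_eq_inv_mul, one_div]
    refine mul_le_mul_of_nonneg_left ?_ (by positivity)
    have e : ht γ - x' - (ht γ' - x') = ht γ - ht γ' := by ring
    rw [e]
    exact ht_lip _ _
  set G : Cv → ℝ := fun γ => ψ γ * F γ with hGdef
  have hGM : Bd G M := by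
    intro γ
    rw [abs_mul, abs_of_nonneg (hψ0 γ)]
    have := hψ1 γ
    have := hψ0 γ
    have := hM γ
    have := abs_nonneg (F γ)
    nlinarith
  have hG : Test G := by
    refine ⟨?_, ⟨M, hM0, hGM⟩, 1 * L + 1 / (x - x') * M, by positivity, ?_⟩
    · intro γ ρ
      show max 0 (min 1 ((ht (γ.comp ρ.f) - x') / (x - x'))) * F (γ.comp ρ.f) = _
      rw [ht_comp, hF.inv γ ρ]
    · intro γ γ'
      have e : G γ - G γ' = ψ γ * (F γ - F γ') + (ψ γ - ψ γ') * F γ' := by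
        rw [hGdef]
        ring
      rw [e]
      refine (abs_add_le _ _).trans ?_
      rw [abs_mul, abs_mul, abs_of_nonneg (hψ0 γ)]
      have a1 := mul_le_mul (hψ1 γ) (hL γ γ') (abs_nonneg _) zero_le_one
      have a2 := mul_le_mul (hψL γ γ') (hM γ') (abs_nonneg _) (by positivity)
      refine (add_le_add a1 a2).trans (le_of_eq ?_)
      ring
  have hGv : ∀ γ, ht γ < x' → G γ = 0 := by
    intro γ hγ
    show max 0 (min 1 ((ht γ - x') / (x - x'))) * F γ = 0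
    have h1 : (ht γ - x') / (x - x') ≤ 0 := div_nonpos_of_nonpos_of_nonneg (by linarith) hxx.le
    rw [min_eq_right (by linarith), max_eq_left h1, zero_mul]
  obtain ⟨z, hz⟩ := hpos x' hx'0 G hG hGv
  refine ⟨_, ⟨z, hz⟩, ?_⟩
  have hlim : Tendsto (fun i => M * ((s i : ℝ) ^ a * KK k ⌈x' * s i⌉₊ - (s i : ℝ) ^ a * KK k ⌈x * s i⌉₊)) l
      (𝓝 (M * (c * x' ^ (-a) - c * x ^ (-a)))) :=
    ((KK_scale hr ha ha1 hb hu hs hx'0).sub (KK_scale hr ha ha1 hb hu hs hx)).const_mul M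
  filter_upwards [hlim.eventually (gt_mem_nhds hx'2), hs.eventually_gt_atTop 0] with i hi hi0
  refine le_trans ?_ hi.le
  have hNr : (0 : ℝ) < s i := by exact_mod_cast hi0
  have hNa : 0 < (s i : ℝ) ^ a := Real.rpow_pos_of_pos hNr a
  have hnn : ⌈x' * s i⌉₊ ≤ ⌈x * s i⌉₊ := Nat.ceil_mono (by nlinarith)
  have e1 : ∑' p, ((s i : ℝ) ^ a * wb w h ⌈x * s i⌉₊ p) * F (q (s i) p) = (s i : ℝ) ^ a * ∑' p, wb w h ⌈x * s i⌉₊ p * F (q (s i) p) := by
    rw [← tsum_mul_left]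
    exact tsum_congr fun p => by ring
  have e2 : PO w (q (s i)) G 0 = ∑' p, w p * G (q (s i) p) := by
    unfold PO
    exact tsum_congr fun p => by rw [hG.inv.zero_cat]
  rw [e1, e2, ← mul_sub, abs_mul, abs_of_pos hNa]
  have s1 : Summable fun p => wb w h ⌈x * s i⌉₊ p * F (q (s i) p) :=
    summable_mul (wb_nonneg W _) (wb_sum W _).summable fun p => hM _
  have s2 : Summable fun p => w p * G (q (s i) p) := summable_mul W.w0 W.w1.summable fun p => hGM _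
  rw [← s1.tsum_sub s2]
  have hb' : ∀ p, ‖wb w h ⌈x * s i⌉₊ p * F (q (s i) p) - w p * G (q (s i) p)‖ ≤
      M * (wb w h ⌈x' * s i⌉₊ p - wb w h ⌈x * s i⌉₊ p) := by
    intro p
    have hht : ht (q (s i) p) = h p / s i := hq _ _
    rw [wb_sub hnn, Real.norm_eq_abs]
    unfold wb
    by_cases h1 : ⌈x * s i⌉₊ ≤ h p
    · rw [if_pos h1, if_neg (by omega), mul_zero]
      have h2 : x ≤ ht (q (s i) p) := by
        rw [hht, le_div_iff₀ hNr]
        exact le_trans (Nat.le_ceil _) (by exact_mod_cast h1)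
      have h3 : ψ (q (s i) p) = 1 := by
        show max 0 (min 1 ((ht (q (s i) p) - x') / (x - x'))) = 1
        rw [min_eq_left, max_eq_right zero_le_one]
        rw [one_le_div hxx]
        linarith
      show |w p * F (q (s i) p) - w p * (ψ (q (s i) p) * F (q (s i) p))| ≤ 0
      rw [h3, one_mul, sub_self, abs_zero]
    · rw [if_neg h1, zero_mul, zero_sub, abs_neg]
      by_cases h2 : ⌈x' * s i⌉₊ ≤ h p
      · rw [if_pos ⟨h2, by omega⟩, abs_mul, abs_of_nonneg (W.w0 p), mul_comm]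
        exact mul_le_mul_of_nonneg_right (hGM _) (W.w0 p)
      · rw [if_neg (by tauto), mul_zero, hGv, mul_zero, abs_zero]
        rw [hht, div_lt_iff₀ hNr]
        by_contra h3
        exact h2 (Nat.ceil_le.2 (not_lt.1 h3))
  have s3 : Summable fun p => M * (wb w h ⌈x' * s i⌉₊ p - wb w h ⌈x * s i⌉₊ p) :=
    ((wb_sum W _).summable.sub (wb_sum W _).summable).mul_left M
  have s4 := Summable.of_nonneg_of_le (fun p => norm_nonneg _) hb' s3
  have h9 : |∑' p, (wb w h ⌈x * s i⌉₊ p * F (q (s i) p) - w p * G (q (s i) p))| ≤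
      M * (KK k ⌈x' * s i⌉₊ - KK k ⌈x * s i⌉₊) := by
    rw [← Real.norm_eq_abs]
    refine (norm_tsum_le_tsum_norm s4).trans ((s4.tsum_le_tsum hb' s3).trans ?_)
    rw [tsum_mul_left, (wb_sum W _).summable.tsum_sub (wb_sum W _).summable, (wb_sum W _).tsum_eq, (wb_sum W _).tsum_eq]
  refine (mul_le_mul_of_nonneg_left h9 hNa.le).trans (le_of_eq ?_)
  ring

/-- the excursions converge -/
theorem AB {a b : ℝ} (hr : Ren u k) (W : Wt w h k) (ha : 0 < a) (ha1 : a < 1) (hb : 0 < b)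
    (hu : Tendsto (fun n : ℕ => (n : ℝ) ^ (1 - a) * u n) atTop (𝓝 b)) {q : ℕ → P → Cv}
    (hq : ∀ N p, ht (q N p) = h p / N) (hmom : Mom w h q a) (hs : Tendsto s l atTop)
    (hA : ∀ ε : ℝ, 0 < ε → ∀ F, Test F → ∃ z, Tendsto (fun i => HH w h (q (s i)) F ⌈ε * s i⌉₊ 0) l (𝓝 z))
    {x : ℝ} (hx : 0 < x) {F : Cv → ℝ} (hF : Test F) :
    ∃ z, Tendsto (fun i => ∑' p, ((s i : ℝ) ^ a * wb w h ⌈x * s i⌉₊ p) * F (q (s i) p)) l (𝓝 z) :=
  AB_cut hr W ha ha1 hb hu hq hs (fun _ hy _ hG hGv => AB_pos hr W ha ha1 hb hu hq hmom hs hA hy hG hGv) hx hF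

end Struct
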