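import Pool.Agent.Struct.S1
import Pool.Agent.CutLim.L1

/-! STRUCT, S2: sums over the pieces, stopping, comparison of two families of curves. -/

set_option autoImplicit false

namespace Struct

open Filter Topology Finset CutLim

/-- bounded -/
def Bd (F : Cv → ℝ) (M : ℝ) : Prop := ∀ γ, |F γ| ≤ M

/-- Lipschitz -/
def Lp (F : Cv → ℝ) (L : ℝ) : Prop := ∀ γ γ', |F γ - F γ'| ≤ L * dist γ γ'

variable {P : Type} {w : P → ℝ} {h : P → ℕ} {q q' : P → Cv}

/-- weights and numbers of rows of the pieces; the law of the number of the rows is k -/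
structure Wt (w : P → ℝ) (h : P → ℕ) (k : ℕ → ℝ) : Prop where
  w0 : ∀ p, 0 ≤ w p
  w1 : HasSum w 1
  h1 : ∀ p, 1 ≤ h p
  law : ∀ r, HasSum (fun p => if h p = r then w p else 0) (k r)

/-- the sum over the next piece -/
noncomputable def PO (w : P → ℝ) (q : P → Cv) (F : Cv → ℝ) (γ : Cv) : ℝ := ∑' p, w p * F (cat γ (q p))

section
variable {m M L : ℝ} {F G : Cv → ℝ}

lemma summable_mul (hw : ∀ p, 0 ≤ w p) (hs : Summable w) {g : P → ℝ} (hg : ∀ p, |g p| ≤ M) :
    Summable fun p => w p * g p := by
  refine Summable.of_norm_bounded (hs.mul_right M) fun p => ?_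
  rw [Real.norm_eq_abs, abs_mul, abs_of_nonneg (hw p)]
  exact mul_le_mul_of_nonneg_left (hg p) (hw p)

lemma tsum_mul_le (hw : ∀ p, 0 ≤ w p) (hs : HasSum w m) {g : P → ℝ} (hg : ∀ p, |g p| ≤ M) :
    |∑' p, w p * g p| ≤ m * M := by
  have h1 := summable_mul hw hs.summable hg
  rw [← Real.norm_eq_abs]
  refine (norm_tsum_le_tsum_norm h1.norm).trans ?_
  have h2 : HasSum (fun p => w p * M) (m * M) := hs.mul_right M
  rw [← h2.tsum_eq]
  refine h1.norm.tsum_le_tsum (fun p => ?_) h2.summable
  rw [Real.norm_eq_abs, abs_mul, abs_of_nonneg (hw p)]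
  exact mul_le_mul_of_nonneg_left (hg p) (hw p)

lemma PO_bd (hw : ∀ p, 0 ≤ w p) (hs : HasSum w m) (hF : Bd F M) : Bd (PO w q F) (m * M) :=
  fun γ => tsum_mul_le hw hs fun p => hF _

lemma PO_lip (hw : ∀ p, 0 ≤ w p) (hs : HasSum w m) (hF : Bd F M) (hL0 : 0 ≤ L) (hL : Lp F L) : Lp (PO w q F) (m * L) := by
  intro γ γ'
  unfold PO
  rw [← (summable_mul hw hs.summable fun p => hF (cat γ (q p))).tsum_sub
    (summable_mul hw hs.summable fun p => hF (cat γ' (q p)))]
  have e : ∀ p, w p * F (cat γ (q p)) - w p * F (cat γ' (q p)) = w p * (F (cat γ (q p)) - F (cat γ' (q p))) := by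
    intro p
    ring
  rw [tsum_congr e, mul_assoc]
  refine tsum_mul_le hw hs fun p => (hL _ _).trans ?_
  exact mul_le_mul_of_nonneg_left (dist_cat_right _ _ _) hL0

lemma PO_inv (hF : Inv F) : Inv (PO w q F) := by
  intro γ ρ
  unfold PO
  refine tsum_congr fun p => ?_
  congr 1
  exact hF.cat_left (q p) γ ρ

lemma PO_sub (hw : ∀ p, 0 ≤ w p) (hs : Summable w) {M' : ℝ} (hF : Bd F M) (hG : Bd G M') (γ : Cv) :
    PO w q (fun x => F x - G x) γ = PO w q F γ - PO w q G γ := by
  unfold PO
  rw [← (summable_mul hw hs fun p => hF (cat γ (q p))).tsum_sub (summable_mul hw hs fun p => hG (cat γ (q p)))]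
  exact tsum_congr fun p => by ring

lemma PO_add (hw : ∀ p, 0 ≤ w p) (hs : Summable w) {M' : ℝ} (hF : Bd F M) (hG : Bd G M') (γ : Cv) :
    PO w q (fun x => F x + G x) γ = PO w q F γ + PO w q G γ := by
  unfold PO
  rw [← (summable_mul hw hs fun p => hF (cat γ (q p))).tsum_add (summable_mul hw hs fun p => hG (cat γ (q p)))]
  exact tsum_congr fun p => by ring

lemma PO_smul (c : ℝ) (γ : Cv) : PO w q (fun x => c * F x) γ = c * PO w q F γ := by
  unfold PO
  rw [← tsum_mul_left]
  exact tsum_congr fun p => by ring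

end

/-- sums of functions of the number of rows -/
lemma sum_rows {k : ℕ → ℝ} (W : Wt w h k) (g : ℕ → ℝ) {T : ℕ} (hg : ∀ r, T < r → g r = 0) :
    ∑' p, w p * g (h p) = ∑ r ∈ Icc 1 T, k r * g r := by
  classical
  have e : ∀ p, w p * g (h p) = ∑ r ∈ Icc 1 T, (if h p = r then w p else 0) * g r := by
    intro p
    by_cases hp : h p ≤ T
    · rw [Finset.sum_eq_single (h p)]
      · rw [if_pos rfl]
      · intro r _ hr
        rw [if_neg (Ne.symm hr), zero_mul]
      · intro hh
        exact absurd (mem_Icc.2 ⟨W.h1 p, hp⟩) hh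
    · rw [hg _ (by omega), mul_zero]
      symm
      refine Finset.sum_eq_zero fun r hr => ?_
      have := mem_Icc.1 hr
      rw [if_neg (by omega), zero_mul]
  rw [tsum_congr e, Summable.tsum_finsetSum fun r _ => ((W.law r).summable.mul_right _)]
  refine Finset.sum_congr rfl fun r _ => ?_
  rw [tsum_mul_right, (W.law r).tsum_eq]

lemma UU_rec {u k : ℕ → ℝ} (hr : Ren u k) (T : ℕ) : UU u T = 1 + ∑ g ∈ Icc 1 T, k g * UU u (T - g) := by
  induction T with
  | zero => simp [UU, hr.u0]
  | succ T ihT =>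
    have e1 : UU u (T + 1) = UU u T + u (T + 1) := by
      unfold UU
      rw [sum_range_succ]
    rw [e1, ihT, hr.ren (T + 1) (by omega)]
    have e2 : ∑ g ∈ Icc 1 (T + 1), k g * UU u (T + 1 - g) =
        ∑ g ∈ Icc 1 T, k g * UU u (T - g) + ∑ g ∈ Icc 1 (T + 1), k g * u (T + 1 - g) := by
      rw [← Finset.insert_Icc_right_eq_Icc_add_one (by omega), sum_insert (by rw [mem_Icc]; omega),
        sum_insert (by rw [mem_Icc]; omega), Nat.sub_self]
      have e3 : ∀ g ∈ Icc 1 T, k g * UU u (T + 1 - g) = k g * UU u (T - g) + k g * u (T + 1 - g) := by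
        intro g hg
        have := mem_Icc.1 hg
        have e4 : T + 1 - g = T - g + 1 := by omega
        rw [e4]
        unfold UU
        rw [sum_range_succ (fun i => u i) (T - g + 1)]
        ring
      rw [sum_congr rfl e3, sum_add_distrib]
      have e5 : UU u 0 = u 0 := by simp [UU]
      rw [e5]
      ring
    rw [e2]
    ring

/-- the expectation of f at the first time with at least T rows -/
noncomputable def HH (w : P → ℝ) (h : P → ℕ) (q : P → Cv) (f : Cv → ℝ) : ℕ → Cv → ℝ
  | 0, γ => f γ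
  | T + 1, γ => ∑' p, w p * HH w h q f (T - (h p - 1)) (cat γ (q p))
termination_by T => T
decreasing_by omega

lemma HH_zero (f : Cv → ℝ) (γ : Cv) : HH w h q f 0 γ = f γ := by
  rw [HH]

lemma HH_succ (h1 : ∀ p, 1 ≤ h p) (f : Cv → ℝ) {T : ℕ} (hT : 1 ≤ T) (γ : Cv) :
    HH w h q f T γ = ∑' p, w p * HH w h q f (T - h p) (cat γ (q p)) := by
  obtain ⟨T, rfl⟩ : ∃ T', T = T' + 1 := ⟨T - 1, by omega⟩
  rw [HH]
  refine tsum_congr fun p => ?_
  have := h1 p
  have e : T - (h p - 1) = T + 1 - h p := by omega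
  rw [e]

lemma HH_bd {k : ℕ → ℝ} (W : Wt w h k) {f : Cv → ℝ} {M : ℝ} (hf : Bd f M) (T : ℕ) : Bd (HH w h q f T) M := by
  induction T using Nat.strong_induction_on with
  | _ T ih =>
    intro γ
    rcases Nat.eq_zero_or_pos T with rfl | hT
    · rw [HH_zero]
      exact hf γ
    · rw [HH_succ W.h1 f hT]
      have h2 := tsum_mul_le W.w0 W.w1 (M := M) (g := fun p => HH w h q f (T - h p) (cat γ (q p))) fun p => by
        have := W.h1 p
        exact ih (T - h p) (by omega) _
      rwa [one_mul] at h2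

lemma HH_lip {k : ℕ → ℝ} (W : Wt w h k) {f : Cv → ℝ} {M L : ℝ} (hf : Bd f M) (hL0 : 0 ≤ L) (hL : Lp f L) (T : ℕ) :
    Lp (HH w h q f T) L := by
  induction T using Nat.strong_induction_on with
  | _ T ih =>
    intro γ γ'
    rcases Nat.eq_zero_or_pos T with rfl | hT
    · rw [HH_zero, HH_zero]
      exact hL γ γ'
    · rw [HH_succ W.h1 f hT, HH_succ W.h1 f hT]
      rw [← (summable_mul W.w0 W.w1.summable fun p => HH_bd W hf (T - h p) (cat γ (q p))).tsum_sub
        (summable_mul W.w0 W.w1.summable fun p => HH_bd W hf (T - h p) (cat γ' (q p)))]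
      have e : ∀ p, w p * HH w h q f (T - h p) (cat γ (q p)) - w p * HH w h q f (T - h p) (cat γ' (q p)) =
          w p * (HH w h q f (T - h p) (cat γ (q p)) - HH w h q f (T - h p) (cat γ' (q p))) := by
        intro p
        ring
      rw [tsum_congr e, ← one_mul (L * dist γ γ')]
      refine tsum_mul_le W.w0 W.w1 fun p => ?_
      have := W.h1 p
      refine (ih (T - h p) (by omega) _ _).trans ?_
      exact mul_le_mul_of_nonneg_left (dist_cat_right _ _ _) hL0

/-- replacement of the curves of the pieces -/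
theorem HH_cmp {u k : ℕ → ℝ} (hr : Ren u k) (W : Wt w h k) {f : Cv → ℝ} {M L e : ℝ} (hf : Bd f M) (hL0 : 0 ≤ L) (hL : Lp f L)
    {d : P → ℝ} (hd : ∀ p, dist (q p) (q' p) ≤ d p) (hsd : Summable fun p => w p * d p) (he : ∑' p, w p * d p ≤ e) (T : ℕ) :
    ∀ γ, |HH w h q f T γ - HH w h q' f T γ| ≤ L * e * UU u T := by
  have hd0 : ∀ p, 0 ≤ d p := fun p => dist_nonneg.trans (hd p)
  have he0 : 0 ≤ e := (tsum_nonneg fun p => mul_nonneg (W.w0 p) (hd0 p)).trans he
  have hUU : ∀ n, 0 ≤ UU u n := fun n => by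
    unfold UU
    exact sum_nonneg fun i _ => u_nonneg hr i
  induction T using Nat.strong_induction_on with
  | _ T ih =>
    intro γ
    rcases Nat.eq_zero_or_pos T with rfl | hT
    · rw [HH_zero, HH_zero, sub_self, abs_zero]
      exact mul_nonneg (mul_nonneg hL0 he0) (hUU 0)
    · rw [HH_succ W.h1 f hT, HH_succ W.h1 f hT]
      rw [← (summable_mul W.w0 W.w1.summable fun p => HH_bd W hf (T - h p) (cat γ (q p))).tsum_sub
        (summable_mul W.w0 W.w1.summable fun p => HH_bd W hf (T - h p) (cat γ (q' p)))]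
      -- the bound of one term
      have hb : ∀ p, ‖w p * HH w h q f (T - h p) (cat γ (q p)) - w p * HH w h q' f (T - h p) (cat γ (q' p))‖ ≤
          L * (w p * d p) + L * e * (w p * (if h p ≤ T then UU u (T - h p) else 0)) := by
        intro p
        have h1p := W.h1 p
        rw [← mul_sub, Real.norm_eq_abs, abs_mul, abs_of_nonneg (W.w0 p)]
        have h2 : |HH w h q f (T - h p) (cat γ (q p)) - HH w h q' f (T - h p) (cat γ (q' p))| ≤
            L * d p + L * e * (if h p ≤ T then UU u (T - h p) else 0) := by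
          have h3 : |HH w h q f (T - h p) (cat γ (q p)) - HH w h q f (T - h p) (cat γ (q' p))| ≤ L * d p := by
            refine (HH_lip W hf hL0 hL _ _ _).trans ?_
            exact mul_le_mul_of_nonneg_left ((dist_cat_left _ _ _).trans (hd p)) hL0
          have h4 : |HH w h q f (T - h p) (cat γ (q' p)) - HH w h q' f (T - h p) (cat γ (q' p))| ≤
              L * e * (if h p ≤ T then UU u (T - h p) else 0) := by
            by_cases h5 : h p ≤ T
            · rw [if_pos h5]
              exact ih (T - h p) (by omega) _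
            · rw [if_neg h5]
              have e0 : T - h p = 0 := by omega
              rw [e0, HH_zero, HH_zero, sub_self, abs_zero, mul_zero]
          calc |HH w h q f (T - h p) (cat γ (q p)) - HH w h q' f (T - h p) (cat γ (q' p))|
              = |(HH w h q f (T - h p) (cat γ (q p)) - HH w h q f (T - h p) (cat γ (q' p))) +
                (HH w h q f (T - h p) (cat γ (q' p)) - HH w h q' f (T - h p) (cat γ (q' p)))| := by ring_nf
            _ ≤ _ := (abs_add_le _ _).trans (add_le_add h3 h4)
        calc w p * |HH w h q f (T - h p) (cat γ (q p)) - HH w h q' f (T - h p) (cat γ (q' p))|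
            ≤ w p * (L * d p + L * e * (if h p ≤ T then UU u (T - h p) else 0)) :=
              mul_le_mul_of_nonneg_left h2 (W.w0 p)
          _ = _ := by ring
      have hg : ∀ r, T < r → (fun r => if r ≤ T then UU u (T - r) else 0) r = 0 := by
        intro r hr'
        show (if r ≤ T then UU u (T - r) else 0) = 0
        rw [if_neg (by omega)]
      have hs2 : Summable fun p => w p * (if h p ≤ T then UU u (T - h p) else 0) := by
        refine summable_mul W.w0 W.w1.summable (M := UU u T) fun p => ?_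
        split_ifs
        · rw [abs_of_nonneg (hUU _)]
          unfold UU
          exact sum_le_sum_of_subset_of_nonneg (range_subset_range.2 (by omega)) fun i _ _ => u_nonneg hr i
        · rw [abs_zero]
          exact hUU T
      have hs3 : Summable fun p => L * (w p * d p) + L * e * (w p * (if h p ≤ T then UU u (T - h p) else 0)) :=
        (hsd.mul_left L).add (hs2.mul_left (L * e))
      have hs4 : Summable fun p => ‖w p * HH w h q f (T - h p) (cat γ (q p)) - w p * HH w h q' f (T - h p) (cat γ (q' p))‖ :=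
        Summable.of_nonneg_of_le (fun p => norm_nonneg _) hb hs3
      rw [← Real.norm_eq_abs]
      refine (norm_tsum_le_tsum_norm hs4).trans ((hs4.tsum_le_tsum hb hs3).trans ?_)
      rw [(hsd.mul_left L).tsum_add (hs2.mul_left (L * e)), tsum_mul_left, tsum_mul_left,
        sum_rows W (fun r => if r ≤ T then UU u (T - r) else 0) hg]
      have e5 : ∑ r ∈ Icc 1 T, k r * (if r ≤ T then UU u (T - r) else 0) = ∑ r ∈ Icc 1 T, k r * UU u (T - r) := by
        refine sum_congr rfl fun r hr' => ?_
        rw [if_pos (mem_Icc.1 hr').2]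
      show L * (∑' p, w p * d p) + L * e * ∑ r ∈ Icc 1 T, k r * (if r ≤ T then UU u (T - r) else 0) ≤ _
      rw [e5, UU_rec hr T]
      have := mul_le_mul_of_nonneg_left he hL0
      nlinarith

end Struct
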