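import Pool.Agent.Struct.S2

/-! STRUCT, S3: potentials, the smoothed stopping, the resolvent identity. -/

set_option autoImplicit false

namespace Struct

open Filter Topology Finset CutLim

variable {P : Type} {w : P → ℝ} {h : P → ℕ} {q : P → Cv}

/-- the potential: the first n iterates -/
noncomputable def Pot (w : P → ℝ) (q : P → Cv) (F : Cv → ℝ) : ℕ → Cv → ℝ
  | 0 => fun _ => 0
  | n + 1 => fun γ => F γ + PO w q (Pot w q F n) γ

lemma Pot_succ (F : Cv → ℝ) (n : ℕ) (γ : Cv) : Pot w q F (n + 1) γ = F γ + PO w q (Pot w q F n) γ := rfl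

lemma Pot_inv {F : Cv → ℝ} (hF : Inv F) : ∀ n, Inv (Pot w q F n)
  | 0 => fun _ _ => rfl
  | n + 1 => by
    intro γ ρ
    rw [Pot_succ, Pot_succ, hF γ ρ, PO_inv (Pot_inv hF n) γ ρ]

lemma Pot_bd' {m M : ℝ} {F : Cv → ℝ} (hw : ∀ p, 0 ≤ w p) (hs : HasSum w m) (hF : Bd F M) :
    ∀ n, ∃ M', Bd (Pot w q F n) M'
  | 0 => ⟨0, fun γ => by show |(0 : ℝ)| ≤ 0; simp⟩
  | n + 1 => by
    obtain ⟨M', h1⟩ := Pot_bd' hw hs hF n
    refine ⟨M + m * M', fun γ => ?_⟩
    rw [Pot_succ]
    exact (abs_add_le _ _).trans (add_le_add (hF γ) (PO_bd hw hs h1 γ))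

/-- F vanishes at and above the height a -/
def Van (F : Cv → ℝ) (a : ℝ) : Prop := ∀ γ, a ≤ ht γ → F γ = 0

lemma PO_van {F : Cv → ℝ} {a b : ℝ} (hF : Van F (a + b)) (hq : ∀ p, b ≤ ht (q p)) : Van (PO w q F) a := by
  intro γ hγ
  unfold PO
  have e : ∀ p, w p * F (cat γ (q p)) = 0 := by
    intro p
    rw [hF, mul_zero]
    rw [ht_cat]
    linarith [hq p]
  rw [tsum_congr e, tsum_zero]

lemma Van.mono {F : Cv → ℝ} {a b : ℝ} (hF : Van F a) (hab : a ≤ b) : Van F b := fun γ hγ => hF γ (hab.trans hγ)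

lemma Pot_van {F : Cv → ℝ} {a : ℝ} (hF : Van F a) (hq : ∀ p, 0 ≤ ht (q p)) : ∀ n, Van (Pot w q F n) a
  | 0 => fun _ _ => rfl
  | n + 1 => by
    intro γ hγ
    rw [Pot_succ, hF γ hγ, PO_van ((Pot_van hF hq n).mono (by linarith)) hq γ hγ, add_zero]

/-- stability -/
lemma Pot_stab {F : Cv → ℝ} {N : ℕ} (hN : 1 ≤ N) (hF : Van F 1) (hq : ∀ p, 1 / (N : ℝ) ≤ ht (q p)) :
    ∀ n m : ℕ, n ≤ m → ∀ γ, 1 - n / (N : ℝ) ≤ ht γ → Pot w q F m γ = Pot w q F n γ := by
  have hN0 : (0 : ℝ) < N := by exact_mod_cast hN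
  have hq0 : ∀ p, 0 ≤ ht (q p) := fun p => le_trans (by positivity) (hq p)
  intro n
  induction n with
  | zero =>
    intro m _ γ hγ
    rw [Nat.cast_zero, zero_div, sub_zero] at hγ
    rw [Pot_van hF hq0 m γ hγ, Pot_van hF hq0 0 γ hγ]
  | succ n ih =>
    intro m hm γ hγ
    obtain ⟨m, rfl⟩ : ∃ m', m = m' + 1 := ⟨m - 1, by omega⟩
    rw [Pot_succ, Pot_succ]
    congr 1
    unfold PO
    refine tsum_congr fun p => ?_
    rw [ih m (by omega)]
    rw [ht_cat]
    push_cast at hγ
    have e : 1 - (n : ℝ) / N = 1 - ((n : ℝ) + 1) / N + 1 / N := by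
      field_simp
      ring
    rw [e]
    linarith [hq p]

/-- the potential solves the renewal equation -/
theorem Pot_eq {F : Cv → ℝ} {N : ℕ} (hN : 1 ≤ N) (hF : Van F 1) (hq : ∀ p, 1 / (N : ℝ) ≤ ht (q p)) (γ : Cv) (hγ : 0 ≤ ht γ) :
    Pot w q F N γ = F γ + PO w q (Pot w q F N) γ := by
  have hN0 : (0 : ℝ) < N := by exact_mod_cast hN
  rw [← Pot_succ, Pot_stab hN hF hq N (N + 1) (by omega) γ]
  rw [div_self hN0.ne', sub_self]
  exact hγ

/-- bound of the potential -/
theorem Pot_bd {u k : ℕ → ℝ} (hr : Ren u k) (W : Wt w h k) {F : Cv → ℝ} {M : ℝ} {N : ℕ} (hN : 1 ≤ N) (hM : 0 ≤ M) (hF : Bd F M)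
    (hV : Van F 1) (hq : ∀ p, ht (q p) = h p / N) (n : ℕ) (j : ℕ) :
    ∀ γ, 1 - j / (N : ℝ) ≤ ht γ → |Pot w q F n γ| ≤ M * UU u j := by
  have hN0 : (0 : ℝ) < N := by exact_mod_cast hN
  have hUU : ∀ n, 0 ≤ UU u n := fun n => by
    unfold UU
    exact sum_nonneg fun i _ => u_nonneg hr i
  have hq0 : ∀ p, 0 ≤ ht (q p) := fun p => by
    rw [hq p]
    positivity
  induction n generalizing j with
  | zero =>
    intro γ _
    show |(0 : ℝ)| ≤ _
    rw [abs_zero]
    exact mul_nonneg hM (hUU j)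
  | succ n ih =>
    intro γ hγ
    rw [Pot_succ]
    have h1 : |PO w q (Pot w q F n) γ| ≤ ∑' p, w p * (if h p ≤ j then M * UU u (j - h p) else 0) := by
      unfold PO
      have hs : Summable fun p => w p * (if h p ≤ j then M * UU u (j - h p) else 0) := by
        refine summable_mul W.w0 W.w1.summable (M := M * UU u j) fun p => ?_
        split_ifs
        · rw [abs_of_nonneg (mul_nonneg hM (hUU _))]
          refine mul_le_mul_of_nonneg_left ?_ hM
          unfold UU
          exact sum_le_sum_of_subset_of_nonneg (range_subset_range.2 (by omega)) fun i _ _ => u_nonneg hr i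
        · rw [abs_zero]
          exact mul_nonneg hM (hUU j)
      have hb : ∀ p, ‖w p * Pot w q F n (cat γ (q p))‖ ≤ w p * (if h p ≤ j then M * UU u (j - h p) else 0) := by
        intro p
        rw [Real.norm_eq_abs, abs_mul, abs_of_nonneg (W.w0 p)]
        refine mul_le_mul_of_nonneg_left ?_ (W.w0 p)
        by_cases hp : h p ≤ j
        · rw [if_pos hp]
          refine ih (j - h p) (cat γ (q p)) ?_
          rw [ht_cat, hq p, Nat.cast_sub hp]
          have : ((j : ℝ) - h p) / N = j / N - h p / N := by ring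
          rw [this]
          linarith
        · rw [if_neg hp, Pot_van hV hq0, abs_zero]
          rw [ht_cat, hq p]
          have h2 : (j : ℝ) / N ≤ h p / N := by
            apply div_le_div_of_nonneg_right _ hN0.le
            exact_mod_cast (show j ≤ h p by omega)
          linarith
      rw [← Real.norm_eq_abs]
      have hs4 : Summable fun p => ‖w p * Pot w q F n (cat γ (q p))‖ := Summable.of_nonneg_of_le (fun p => norm_nonneg _) hb hs
      exact (norm_tsum_le_tsum_norm hs4).trans (hs4.tsum_le_tsum hb hs)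
    rw [sum_rows W (fun r => if r ≤ j then M * UU u (j - r) else 0) (T := j) (by
      intro r hr'
      show (if r ≤ j then M * UU u (j - r) else 0) = 0
      rw [if_neg (by omega)])] at h1
    have e5 : ∑ r ∈ Icc 1 j, k r * (if r ≤ j then M * UU u (j - r) else 0) = M * ∑ r ∈ Icc 1 j, k r * UU u (j - r) := by
      rw [mul_sum]
      refine sum_congr rfl fun r hr' => ?_
      rw [if_pos (mem_Icc.1 hr').2]
      ring
    have h3 : |PO w q (Pot w q F n) γ| ≤ M * ∑ r ∈ Icc 1 j, k r * UU u (j - r) := h1.trans e5.le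
    refine (abs_add_le _ _).trans ?_
    rw [UU_rec hr j]
    have := hF γ
    nlinarith

/-- the number of the T in (T₀, T₁] with c < T -/
def XX (T₀ T₁ c : ℕ) : ℕ := T₁ - max c T₀

lemma XX_card (T₀ T₁ c : ℕ) : ((Ioc T₀ T₁).filter fun T => c < T).card = XX T₀ T₁ c := by
  have : (Ioc T₀ T₁).filter (fun T => c < T) = Ioc (max c T₀) T₁ := by
    ext T
    rw [mem_filter, mem_Ioc, mem_Ioc]
    omega
  rw [this, Nat.card_Ioc]
  rfl

/-- smoothing: the average over the stopping levels is a potential -/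
theorem smooth {k : ℕ → ℝ} (W : Wt w h k) {f χ : Cv → ℝ} {M : ℝ} (hf : Bd f M) {N T₀ T₁ : ℕ} (hN : 1 ≤ N)
    (hq : ∀ p, ht (q p) = h p / N) (hχ1 : Bd χ 1)
    (hχ : ∀ γ (c : ℕ), ht γ = c / N → ((T₁ : ℝ) - T₀) * χ γ = XX T₀ T₁ c) :
    ∀ (j c : ℕ) (γ : Cv), ht γ = c / N → T₁ - c ≤ j →
      ∑ T ∈ Ioc T₀ T₁, (if c < T then HH w h q f (T - c) γ else 0) =
        ((T₁ : ℝ) - T₀) * Pot w q (fun γ => χ γ * PO w q f γ - PO w q (fun γ => χ γ * f γ) γ) j γ := by
  classical
  have hN0 : (0 : ℝ) < N := by exact_mod_cast hN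
  have hM : 0 ≤ M := (abs_nonneg (f 0)).trans (hf 0)
  have hcf : Bd (fun γ => χ γ * f γ) M := by
    intro γ
    rw [abs_mul]
    have h1 := hχ1 γ
    have h2 := hf γ
    have := abs_nonneg (f γ)
    have := abs_nonneg (χ γ)
    nlinarith
  intro j
  induction j with
  | zero =>
    intro c γ _ hj
    have e : ∀ T ∈ Ioc T₀ T₁, (if c < T then HH w h q f (T - c) γ else 0) = 0 := by
      intro T hT
      have := mem_Ioc.1 hT
      rw [if_neg (by omega)]
    rw [sum_congr rfl e, sum_const_zero]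
    show (0 : ℝ) = _ * 0
    rw [mul_zero]
  | succ j ih =>
    intro c γ hγ hj
    have hcat : ∀ p, ht (cat γ (q p)) = ((c + h p : ℕ) : ℝ) / N := by
      intro p
      rw [ht_cat, hγ, hq p]
      push_cast
      ring
    -- one step of the left hand side
    have hstep : ∀ T ∈ Ioc T₀ T₁, (if c < T then HH w h q f (T - c) γ else 0) =
        ∑' p, w p * (if c < T then HH w h q f (T - c - h p) (cat γ (q p)) else 0) := by
      intro T _
      by_cases hT : c < T
      · rw [if_pos hT, HH_succ W.h1 f (by omega)]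
        exact tsum_congr fun p => by rw [if_pos hT]
      · rw [if_neg hT]
        have e : ∀ p, w p * (if c < T then HH w h q f (T - c - h p) (cat γ (q p)) else 0) = 0 := by
          intro p
          rw [if_neg hT, mul_zero]
        rw [tsum_congr e, tsum_zero]
    rw [sum_congr rfl hstep, ← Summable.tsum_finsetSum]
    swap
    · intro T _
      refine summable_mul W.w0 W.w1.summable (M := M) fun p => ?_
      split_ifs
      · exact HH_bd W hf _ _
      · rw [abs_zero]
        exact hM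
    have hterm : ∀ p, ∑ T ∈ Ioc T₀ T₁, w p * (if c < T then HH w h q f (T - c - h p) (cat γ (q p)) else 0) =
        w p * (((T₁ : ℝ) - T₀) * (χ γ * f (cat γ (q p)) - χ (cat γ (q p)) * f (cat γ (q p)))) +
          w p * (((T₁ : ℝ) - T₀) * Pot w q (fun γ => χ γ * PO w q f γ - PO w q (fun γ => χ γ * f γ) γ) j (cat γ (q p))) := by
      intro p
      rw [← mul_sum, ← mul_add]
      congr 1
      have h1p := W.h1 p
      rw [← ih (c + h p) (cat γ (q p)) (hcat p) (by omega)]
      have h2 : ((T₁ : ℝ) - T₀) * (χ γ * f (cat γ (q p)) - χ (cat γ (q p)) * f (cat γ (q p))) =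
          (XX T₀ T₁ c - XX T₀ T₁ (c + h p)) * f (cat γ (q p)) := by
        rw [← hχ γ c hγ, ← hχ (cat γ (q p)) (c + h p) (hcat p)]
        ring
      rw [h2]
      have h3 : ∀ T, (if c < T then HH w h q f (T - c - h p) (cat γ (q p)) else 0) =
          ((if c < T then 1 else 0) - (if c + h p < T then 1 else 0)) * f (cat γ (q p)) +
            (if c + h p < T then HH w h q f (T - (c + h p)) (cat γ (q p)) else 0) := by
        intro T
        by_cases h4 : c + h p < T
        · rw [if_pos (by omega), if_pos h4, if_pos h4, if_pos (by omega), sub_self, zero_mul, zero_add]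
          congr 1
          omega
        · rw [if_neg h4, if_neg h4]
          by_cases h5 : c < T
          · rw [if_pos h5, if_pos h5]
            have e0 : T - c - h p = 0 := by omega
            rw [e0, HH_zero]
            ring
          · rw [if_neg h5, if_neg h5]
            ring
      rw [sum_congr rfl fun T _ => h3 T, sum_add_distrib, ← sum_mul, sum_sub_distrib]
      congr 2
      rw [← XX_card, ← XX_card, card_filter, card_filter]
      push_cast
      rfl
    rw [tsum_congr hterm]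
    obtain ⟨M', hM'⟩ := Pot_bd' (q := q) W.w0 W.w1 (F := fun γ => χ γ * PO w q f γ - PO w q (fun γ => χ γ * f γ) γ)
      (M := M + M) (by
        intro γ
        refine (abs_sub _ _).trans (add_le_add ?_ ?_)
        · rw [abs_mul]
          have h1 := hχ1 γ
          have h2 := PO_bd (q := q) W.w0 W.w1 hf γ
          rw [one_mul] at h2
          have := abs_nonneg (PO w q f γ)
          have := abs_nonneg (χ γ)
          nlinarith
        · have h2 := PO_bd (q := q) W.w0 W.w1 hcf γ
          rwa [one_mul] at h2) j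
    have hs1 : Summable fun p => w p * (χ γ * f (cat γ (q p))) := by
      refine summable_mul W.w0 W.w1.summable (M := M) fun p => ?_
      rw [abs_mul]
      have h1 := hχ1 γ
      have h2 := hf (cat γ (q p))
      have := abs_nonneg (f (cat γ (q p)))
      have := abs_nonneg (χ γ)
      nlinarith
    have hs2 : Summable fun p => w p * (χ (cat γ (q p)) * f (cat γ (q p))) :=
      summable_mul W.w0 W.w1.summable (M := M) fun p => hcf _
    have hs3 : Summable fun p => w p * Pot w q (fun γ => χ γ * PO w q f γ - PO w q (fun γ => χ γ * f γ) γ) j (cat γ (q p)) :=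
      summable_mul W.w0 W.w1.summable (M := M') fun p => hM' _
    have e1 : ∀ p, w p * (((T₁ : ℝ) - T₀) * (χ γ * f (cat γ (q p)) - χ (cat γ (q p)) * f (cat γ (q p)))) +
          w p * (((T₁ : ℝ) - T₀) * Pot w q (fun γ => χ γ * PO w q f γ - PO w q (fun γ => χ γ * f γ) γ) j (cat γ (q p))) =
        ((T₁ : ℝ) - T₀) * ((w p * (χ γ * f (cat γ (q p))) - w p * (χ (cat γ (q p)) * f (cat γ (q p)))) +
          w p * Pot w q (fun γ => χ γ * PO w q f γ - PO w q (fun γ => χ γ * f γ) γ) j (cat γ (q p))) := by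
      intro p
      ring
    rw [tsum_congr e1, tsum_mul_left, (hs1.sub hs2).tsum_add hs3, hs1.tsum_sub hs2, Pot_succ]
    congr 3
    unfold PO
    rw [← tsum_mul_left]
    exact tsum_congr fun p => by ring

end Struct
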