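import Pool.Agent.Struct.S3
import Pool.Agent.CutLim.B

/-! STRUCT, S4: the resolvent identity; convergent sequences of functions; nets. -/

set_option autoImplicit false

namespace Struct

open Filter Topology Finset CutLim

variable {P : Type} {w : P → ℝ} {h : P → ℕ} {q : P → Cv}

/-- the potential of the vertical segments -/
noncomputable def BB (u : ℕ → ℝ) (N : ℕ) (E : Cv → ℝ) (γ : Cv) : ℝ :=
  ∑ c ∈ range (N + 1), u c * E (cat γ (seg ((c : ℝ) / N)))

lemma BB_van {u : ℕ → ℝ} {N : ℕ} {E : Cv → ℝ} {a : ℝ} (hE : Van E a) : Van (BB u N E) a := by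
  intro γ hγ
  unfold BB
  refine sum_eq_zero fun c _ => ?_
  rw [hE, mul_zero]
  rw [ht_cat, ht_seg]
  have : 0 ≤ (c : ℝ) / N := by positivity
  linarith

lemma BB_congr {u : ℕ → ℝ} {N : ℕ} {E E' : Cv → ℝ} {a : ℝ} (hE : ∀ γ, a ≤ ht γ → E γ = E' γ) (γ : Cv) (hγ : a ≤ ht γ) :
    BB u N E γ = BB u N E' γ := by
  unfold BB
  refine sum_congr rfl fun c _ => ?_
  rw [hE]
  rw [ht_cat, ht_seg]
  have : 0 ≤ (c : ℝ) / N := by positivity
  linarith

/-- renewal equation for the segments -/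
theorem BB_eq {u k : ℕ → ℝ} (hr : Ren u k) (W : Wt w h k) {N : ℕ} (hN : 1 ≤ N) {E : Cv → ℝ} {M : ℝ} (hI : Inv E) (hM : Bd E M)
    (hV : Van E 1) (γ : Cv) (hγ : 0 ≤ ht γ) :
    BB u N E γ = E γ + PO w (fun p => seg ((h p : ℝ) / N)) (BB u N E) γ := by
  classical
  have hN0 : (0 : ℝ) < N := by exact_mod_cast hN
  have h1 : ∀ p, BB u N E (cat γ (seg ((h p : ℝ) / N))) =
      ∑ m ∈ range (N + 1), (if h p ≤ m then u (m - h p) * E (cat γ (seg ((m : ℝ) / N))) else 0) := by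
    intro p
    unfold BB
    have h2 : ∀ c ∈ range (N + 1), u c * E (cat (cat γ (seg ((h p : ℝ) / N))) (seg ((c : ℝ) / N))) =
        u c * E (cat γ (seg (((c + h p : ℕ) : ℝ) / N))) := by
      intro c _
      rw [hI.seg_cat γ (by positivity) (by positivity)]
      congr 4
      push_cast
      ring
    rw [sum_congr rfl h2]
    -- terms above N vanish
    have h3 : ∀ m : ℕ, N ≤ m → E (cat γ (seg ((m : ℝ) / N))) = 0 := by
      intro m hm
      apply hV
      rw [ht_cat, ht_seg]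
      have : 1 ≤ (m : ℝ) / N := by
        rw [one_le_div hN0]
        exact_mod_cast hm
      linarith
    have h4 : ∑ m ∈ range (N + 1), (if h p ≤ m then u (m - h p) * E (cat γ (seg ((m : ℝ) / N))) else 0) =
        ∑ m ∈ range (N + 1 + h p), (if h p ≤ m then u (m - h p) * E (cat γ (seg ((m : ℝ) / N))) else 0) := by
      refine sum_subset (range_subset_range.2 (by omega)) fun m _ hm => ?_
      rw [mem_range] at hm
      rw [h3 m (by omega)]
      split_ifs <;> simp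
    rw [h4, add_comm (N + 1) (h p),
      sum_range_add (fun m => if h p ≤ m then u (m - h p) * E (cat γ (seg ((m : ℝ) / N))) else 0) (h p) (N + 1)]
    have h5 : ∑ m ∈ range (h p), (if h p ≤ m then u (m - h p) * E (cat γ (seg ((m : ℝ) / N))) else 0) = 0 := by
      refine sum_eq_zero fun m hm => ?_
      rw [if_neg (by have := mem_range.1 hm; omega)]
    rw [h5, zero_add]
    refine sum_congr rfl fun c _ => ?_
    rw [if_pos (by omega), Nat.add_sub_cancel_left, add_comm c]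
  unfold PO
  have h6 : ∀ p, w p * BB u N E (cat γ (seg ((h p : ℝ) / N))) =
      ∑ m ∈ range (N + 1), w p * (if h p ≤ m then u (m - h p) * E (cat γ (seg ((m : ℝ) / N))) else 0) := by
    intro p
    rw [h1 p, mul_sum]
  rw [tsum_congr h6, Summable.tsum_finsetSum]
  swap
  · intro m _
    refine summable_mul W.w0 W.w1.summable (M := M) fun p => ?_
    split_ifs
    · rw [abs_mul, abs_of_nonneg (u_nonneg hr _)]
      have := u_le_one hr (m - h p)
      have := u_nonneg hr (m - h p)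
      have := hM (cat γ (seg ((m : ℝ) / N)))
      have := abs_nonneg (E (cat γ (seg ((m : ℝ) / N))))
      nlinarith
    · rw [abs_zero]
      exact (abs_nonneg _).trans (hM 0)
  have h7 : ∀ m ∈ range (N + 1), ∑' p, w p * (if h p ≤ m then u (m - h p) * E (cat γ (seg ((m : ℝ) / N))) else 0) =
      (if m = 0 then 0 else u m) * E (cat γ (seg ((m : ℝ) / N))) := by
    intro m _
    rw [sum_rows W (fun r => if r ≤ m then u (m - r) * E (cat γ (seg ((m : ℝ) / N))) else 0) (T := m) (by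
      intro r hr'
      show (if r ≤ m then u (m - r) * E (cat γ (seg ((m : ℝ) / N))) else 0) = 0
      rw [if_neg (by omega)])]
    have h8 : ∑ r ∈ Icc 1 m, k r * (if r ≤ m then u (m - r) * E (cat γ (seg ((m : ℝ) / N))) else 0) =
        (∑ r ∈ Icc 1 m, k r * u (m - r)) * E (cat γ (seg ((m : ℝ) / N))) := by
      rw [sum_mul]
      refine sum_congr rfl fun r hr' => ?_
      rw [if_pos (mem_Icc.1 hr').2]
      ring
    rw [h8]
    congr 1
    rcases Nat.eq_zero_or_pos m with rfl | hm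
    · simp
    · rw [if_neg (by omega), hr.ren m hm]
  rw [sum_congr rfl h7]
  unfold BB
  rw [sum_range_succ' _ N, sum_range_succ' _ N, hr.u0]
  have h9 : ∀ c ∈ range N, (if c + 1 = 0 then (0 : ℝ) else u (c + 1)) * E (cat γ (seg (((c + 1 : ℕ) : ℝ) / N))) =
      u (c + 1) * E (cat γ (seg (((c + 1 : ℕ) : ℝ) / N))) := by
    intro c _
    rw [if_neg (by omega)]
  rw [sum_congr rfl h9, if_pos rfl, zero_mul, add_zero, Nat.cast_zero, zero_div, seg_zero, hI.cat_zero, one_mul]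
  ring

lemma BB_bd' {u : ℕ → ℝ} (N : ℕ) {E : Cv → ℝ} {M : ℝ} (hM : Bd E M) : ∃ M', Bd (BB u N E) M' := by
  refine ⟨∑ c ∈ range (N + 1), |u c| * M, fun γ => ?_⟩
  unfold BB
  refine (abs_sum_le_sum_abs _ _).trans (sum_le_sum fun c _ => ?_)
  rw [abs_mul]
  exact mul_le_mul_of_nonneg_left (hM _) (abs_nonneg _)

/-- uniqueness for the renewal equation with the segments, from the top -/
lemma unique_top {k : ℕ → ℝ} (W : Wt w h k) {N : ℕ} (hN : 1 ≤ N) {D : Cv → ℝ} (hV : Van D 1)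
    (hD : ∀ γ, 0 ≤ ht γ → D γ = PO w (fun p => seg ((h p : ℝ) / N)) D γ) :
    ∀ γ, 0 ≤ ht γ → D γ = 0 := by
  have hN0 : (0 : ℝ) < N := by exact_mod_cast hN
  have key : ∀ n : ℕ, ∀ γ, 0 ≤ ht γ → 1 - n / (N : ℝ) ≤ ht γ → D γ = 0 := by
    intro n
    induction n with
    | zero =>
      intro γ _ hγ
      rw [Nat.cast_zero, zero_div, sub_zero] at hγ
      exact hV γ hγ
    | succ n ih =>
      intro γ hγ0 hγ
      rw [hD γ hγ0]
      unfold PO
      have e : ∀ p, w p * D (cat γ (seg ((h p : ℝ) / N))) = 0 := by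
        intro p
        have h1 : 1 / (N : ℝ) ≤ (h p : ℝ) / N := by
          apply div_le_div_of_nonneg_right _ hN0.le
          exact_mod_cast W.h1 p
        rw [ih, mul_zero]
        · rw [ht_cat, ht_seg]
          have : 0 ≤ (h p : ℝ) / N := by positivity
          linarith
        · rw [ht_cat, ht_seg]
          push_cast at hγ
          have e2 : 1 - (n : ℝ) / N = 1 - ((n : ℝ) + 1) / N + 1 / N := by
            field_simp
            ring
          rw [e2]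
          linarith
      rw [tsum_congr e, tsum_zero]
  intro γ hγ
  refine key N γ hγ ?_
  rw [div_self hN0.ne', sub_self]
  exact hγ

/-- the resolvent identity -/
theorem resolvent {u k : ℕ → ℝ} (hr : Ren u k) (W : Wt w h k) {N : ℕ} (hN : 1 ≤ N) (hq : ∀ p, ht (q p) = h p / N)
    {F : Cv → ℝ} {M : ℝ} (hI : Inv F) (hM : Bd F M) (hV : Van F 1) (γ : Cv) (hγ : 0 ≤ ht γ) :
    Pot w q F N γ = BB u N (fun γ => F γ + (PO w q (Pot w q F N) γ - PO w (fun p => seg ((h p : ℝ) / N)) (Pot w q F N) γ)) γ := by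
  have hN0 : (0 : ℝ) < N := by exact_mod_cast hN
  have hq1 : ∀ p, 1 / (N : ℝ) ≤ ht (q p) := by
    intro p
    rw [hq p]
    apply div_le_div_of_nonneg_right _ hN0.le
    exact_mod_cast W.h1 p
  have hq0 : ∀ p, 0 ≤ ht (q p) := fun p => le_trans (by positivity) (hq1 p)
  set D := Pot w q F N with hDdef
  set R : P → Cv := fun p => seg ((h p : ℝ) / N) with hR
  have hR0 : ∀ p, 0 ≤ ht (R p) := by
    intro p
    show 0 ≤ ht (seg ((h p : ℝ) / N))
    rw [ht_seg]
    positivity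
  set E : Cv → ℝ := fun γ => F γ + (PO w q D γ - PO w R D γ) with hE
  obtain ⟨MD, hMD⟩ := Pot_bd' (q := q) W.w0 W.w1 hM N
  have hDV : Van D 1 := Pot_van hV hq0 N
  have hDI : Inv D := Pot_inv hI N
  have hEI : Inv E := by
    intro γ ρ
    show F _ + (PO w q D _ - PO w R D _) = F γ + (PO w q D γ - PO w R D γ)
    rw [hI γ ρ, PO_inv hDI γ ρ, PO_inv hDI γ ρ]
  have hEV : Van E 1 := by
    intro γ hγ
    show F γ + (PO w q D γ - PO w R D γ) = 0
    rw [hV γ hγ, PO_van (hDV.mono (show (1 : ℝ) ≤ 1 + 0 by simp)) hq0 γ hγ,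
      PO_van (hDV.mono (show (1 : ℝ) ≤ 1 + 0 by simp)) hR0 γ hγ]
    ring
  have hEM : Bd E (M + (1 * MD + 1 * MD)) := by
    intro γ
    refine (abs_add_le _ _).trans (add_le_add (hM γ) ?_)
    exact (abs_sub _ _).trans (add_le_add (PO_bd W.w0 W.w1 hMD γ) (PO_bd W.w0 W.w1 hMD γ))
  obtain ⟨MB, hMB⟩ := BB_bd' (u := u) N hEM
  have hBV : Van (BB u N E) 1 := BB_van hEV
  have hΔ : ∀ γ, 0 ≤ ht γ → D γ - BB u N E γ = PO w R (fun γ => D γ - BB u N E γ) γ := by
    intro γ hγ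
    rw [PO_sub W.w0 W.w1.summable hMD hMB]
    have h1 := Pot_eq (w := w) hN hV hq1 γ hγ
    rw [← hDdef] at h1
    have h2 := BB_eq hr W hN hEI hEM hEV γ hγ
    have h3 : E γ = F γ + (PO w q D γ - PO w R D γ) := rfl
    rw [h3] at h2
    have h4 : BB u N E γ = F γ + (PO w q D γ - PO w R D γ) + PO w R (BB u N E) γ := h2
    rw [h4]
    linarith
  have h5 := unique_top W hN (D := fun γ => D γ - BB u N E γ) (by
    intro γ hγ
    show D γ - BB u N E γ = 0
    rw [hDV γ hγ, hBV γ hγ, sub_zero]) hΔ γ hγ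
  have h6 : D γ - BB u N E γ = 0 := h5
  linarith

/-- approximation of sequences of numbers -/
lemma conv_approx {ι : Type} {l : Filter ι} {x : ι → ℝ} (hx : ∀ ε : ℝ, 0 < ε → ∃ y : ι → ℝ, (∃ a, Tendsto y l (𝓝 a)) ∧
    ∀ᶠ i in l, |x i - y i| ≤ ε) : ∃ a, Tendsto x l (𝓝 a) := by
  rcases l.eq_or_neBot with rfl | hl
  · exact ⟨0, tendsto_bot⟩
  rw [← cauchy_map_iff_exists_tendsto, Metric.cauchy_iff]
  refine ⟨by infer_instance, fun ε hε => ?_⟩
  obtain ⟨y, ⟨a, ha⟩, hy⟩ := hx (ε / 8) (by positivity)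
  have h1 : ∀ᶠ i in l, |y i - a| < ε / 8 := by
    have := Metric.tendsto_nhds.1 ha (ε / 8) (by positivity)
    exact this.mono fun i hi => by rwa [Real.dist_eq] at hi
  refine ⟨x '' {i | |x i - y i| ≤ ε / 8 ∧ |y i - a| < ε / 8}, image_mem_map (hy.and h1), ?_⟩
  rintro _ ⟨i, ⟨h2, h3⟩, rfl⟩ _ ⟨j, ⟨h4, h5⟩, rfl⟩
  rw [Real.dist_eq]
  rw [abs_le] at h2 h4
  rw [abs_lt] at h3 h5 ⊢
  constructor <;> linarith [h2.1, h2.2, h3.1, h3.2, h4.1, h4.2, h5.1, h5.2]

/-- bounded, equi-Lipschitz, invariant, pointwise convergent families -/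
structure Cls {ι : Type} (l : Filter ι) (F : ι → Cv → ℝ) : Prop where
  inv : ∀ i, Inv (F i)
  bd : ∃ M, 0 ≤ M ∧ ∀ i, Bd (F i) M
  lip : ∃ L, 0 ≤ L ∧ ∀ i, Lp (F i) L
  lim : ∀ γ, ∃ a, Tendsto (fun i => F i γ) l (𝓝 a)

section
variable {ι : Type} {l : Filter ι} {F G : ι → Cv → ℝ}

lemma Cls.add (hF : Cls l F) (hG : Cls l G) : Cls l (fun i γ => F i γ + G i γ) where
  inv := fun i γ ρ => by
    show F i _ + G i _ = F i γ + G i γ
    rw [hF.inv i γ ρ, hG.inv i γ ρ]
  bd := by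
    obtain ⟨M, h0, h1⟩ := hF.bd
    obtain ⟨M', h0', h1'⟩ := hG.bd
    exact ⟨M + M', by linarith, fun i γ => (abs_add_le _ _).trans (add_le_add (h1 i γ) (h1' i γ))⟩
  lip := by
    obtain ⟨L, h0, h1⟩ := hF.lip
    obtain ⟨L', h0', h1'⟩ := hG.lip
    refine ⟨L + L', by linarith, fun i γ γ' => ?_⟩
    have e : F i γ + G i γ - (F i γ' + G i γ') = (F i γ - F i γ') + (G i γ - G i γ') := by ring
    show |F i γ + G i γ - (F i γ' + G i γ')| ≤ _
    rw [e, add_mul]
    exact (abs_add_le _ _).trans (add_le_add (h1 i γ γ') (h1' i γ γ'))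
  lim := fun γ => by
    obtain ⟨a, ha⟩ := hF.lim γ
    obtain ⟨b, hb⟩ := hG.lim γ
    exact ⟨a + b, ha.add hb⟩

lemma Cls.mul_const (hF : Cls l F) {c : ι → ℝ} {C : ℝ} (hC : ∀ i, |c i| ≤ C) (hc : ∃ a, Tendsto c l (𝓝 a)) :
    Cls l (fun i γ => c i * F i γ) where
  inv := fun i γ ρ => by
    show c i * F i _ = c i * F i γ
    rw [hF.inv i γ ρ]
  bd := by
    obtain ⟨M, h0, h1⟩ := hF.bd
    refine ⟨max C 0 * M, by positivity, fun i γ => ?_⟩
    rw [abs_mul]
    exact mul_le_mul ((hC i).trans (le_max_left _ _)) (h1 i γ) (abs_nonneg _) (le_max_right _ _)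
  lip := by
    obtain ⟨L, h0, h1⟩ := hF.lip
    refine ⟨max C 0 * L, by positivity, fun i γ γ' => ?_⟩
    rw [← mul_sub, abs_mul, mul_assoc]
    exact mul_le_mul ((hC i).trans (le_max_left _ _)) (h1 i γ γ') (abs_nonneg _) (le_max_right _ _)
  lim := fun γ => by
    obtain ⟨a, ha⟩ := hF.lim γ
    obtain ⟨b, hb⟩ := hc
    exact ⟨b * a, hb.mul ha⟩

lemma Cls.mul (hF : Cls l F) (hG : Cls l G) : Cls l (fun i γ => F i γ * G i γ) where
  inv := fun i γ ρ => by
    show F i _ * G i _ = F i γ * G i γ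
    rw [hF.inv i γ ρ, hG.inv i γ ρ]
  bd := by
    obtain ⟨M, h0, h1⟩ := hF.bd
    obtain ⟨M', h0', h1'⟩ := hG.bd
    refine ⟨M * M', by positivity, fun i γ => ?_⟩
    rw [abs_mul]
    exact mul_le_mul (h1 i γ) (h1' i γ) (abs_nonneg _) h0
  lip := by
    obtain ⟨M, h0, h1⟩ := hF.bd
    obtain ⟨M', h0', h1'⟩ := hG.bd
    obtain ⟨L, h2, h3⟩ := hF.lip
    obtain ⟨L', h2', h3'⟩ := hG.lip
    refine ⟨M * L' + L * M', by positivity, fun i γ γ' => ?_⟩
    have e : F i γ * G i γ - F i γ' * G i γ' = F i γ * (G i γ - G i γ') + (F i γ - F i γ') * G i γ' := by ring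
    show |F i γ * G i γ - F i γ' * G i γ'| ≤ _
    rw [e]
    refine (abs_add_le _ _).trans ?_
    rw [abs_mul, abs_mul]
    have a1 := mul_le_mul (h1 i γ) (h3' i γ γ') (abs_nonneg _) h0
    have a2 := mul_le_mul (h3 i γ γ') (h1' i γ') (abs_nonneg _) (mul_nonneg h2 dist_nonneg)
    calc _ ≤ M * (L' * dist γ γ') + L * dist γ γ' * M' := add_le_add a1 a2
      _ = _ := by ring
  lim := fun γ => by
    obtain ⟨a, ha⟩ := hF.lim γ
    obtain ⟨b, hb⟩ := hG.lim γ
    exact ⟨a * b, ha.mul hb⟩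

/-- fixed test function -/
structure Test (F : Cv → ℝ) : Prop where
  inv : Inv F
  bd : ∃ M, 0 ≤ M ∧ Bd F M
  lip : ∃ L, 0 ≤ L ∧ Lp F L

lemma Test.cls {F₀ : Cv → ℝ} (hF : Test F₀) : Cls l (fun _ => F₀) where
  inv := fun _ => hF.inv
  bd := by
    obtain ⟨M, h0, h1⟩ := hF.bd
    exact ⟨M, h0, fun _ => h1⟩
  lip := by
    obtain ⟨L, h0, h1⟩ := hF.lip
    exact ⟨L, h0, fun _ => h1⟩
  lim := fun γ => ⟨F₀ γ, tendsto_const_nhds⟩

end

end Struct
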