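import Pool.Agent.Struct.S4

/-! STRUCT, S5: limits of the operators. -/

set_option autoImplicit false

namespace Struct

open Filter Topology Finset CutLim

variable {P : Type} {w : P → ℝ} {h : P → ℕ}

/-- x and s are close up to reparametrisation -/
def Near (η : ℝ) (x s : Cv) : Prop := ∀ (F : Cv → ℝ) (L : ℝ), Inv F → 0 ≤ L → Lp F L → |F x - F s| ≤ L * η

lemma near_of_dist {η : ℝ} {x s : Cv} (hx : dist x s ≤ η) : Near η x s := fun _ _ _ h0 hL =>
  (hL x s).trans (mul_le_mul_of_nonneg_left hx h0)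

open Classical in
/-- a family of measures on the curves: bounded masses, finite nets, convergence for the test functions -/
structure Nice {ι P : Type} (l : Filter ι) (v : ι → P → ℝ) (x : ι → P → Cv) : Prop where
  v0 : ∀ i p, 0 ≤ v i p
  vs : ∀ i, Summable (v i)
  mass : ∃ M₀, 0 ≤ M₀ ∧ ∀ i, ∑' p, v i p ≤ M₀
  net : ∀ η : ℝ, 0 < η → ∃ S : Finset Cv, ∀ᶠ i in l, ∑' p, (if ∃ s ∈ S, Near η (x i p) s then 0 else v i p) ≤ η
  conv : ∀ F, Test F → ∃ a, Tendsto (fun i => ∑' p, v i p * F (x i p)) l (𝓝 a)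

/-- convergence for convergent families of functions -/
theorem Nice.cls {ι P : Type} {l : Filter ι} {v : ι → P → ℝ} {x : ι → P → Cv} (H : Nice l v x) {F : ι → Cv → ℝ}
    (hF : Cls l F) : ∃ a, Tendsto (fun i => ∑' p, v i p * F i (x i p)) l (𝓝 a) := by
  classical
  rcases l.eq_or_neBot with rfl | hl
  · exact ⟨0, tendsto_bot⟩
  choose G hG using hF.lim
  obtain ⟨M, hM0, hM⟩ := hF.bd
  obtain ⟨L, hL0, hL⟩ := hF.lip
  obtain ⟨M₀, hm0, hm⟩ := H.mass
  have hGM : Bd G M := fun γ => le_of_tendsto (hG γ).abs (Eventually.of_forall fun i => hM i γ)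
  have hGL : Lp G L := fun γ γ' => le_of_tendsto ((hG γ).sub (hG γ')).abs (Eventually.of_forall fun i => hL i γ γ')
  have hGI : Inv G := by
    intro γ ρ
    have h1 : (fun i => F i (γ.comp ρ.f)) = fun i => F i γ := by
      funext i
      exact hF.inv i γ ρ
    have h2 := hG (γ.comp ρ.f)
    rw [h1] at h2
    exact tendsto_nhds_unique h2 (hG γ)
  refine conv_approx fun ε hε => ⟨fun i => ∑' p, v i p * G (x i p), H.conv G ⟨hGI, ⟨M, hM0, hGM⟩, ⟨L, hL0, hGL⟩⟩, ?_⟩
  set η : ℝ := ε / (4 * (L * M₀ + M + 1)) with hη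
  have hden : 0 < L * M₀ + M + 1 := by positivity
  have hη0 : 0 < η := by positivity
  set δ : ℝ := ε / (2 * (M₀ + 1)) with hδ
  have hδ0 : 0 < δ := by positivity
  obtain ⟨S, hS⟩ := H.net η hη0
  have hS2 : ∀ᶠ i in l, ∀ s ∈ S, |F i s - G s| ≤ δ := by
    rw [Filter.eventually_all_finset]
    intro s _
    have h1 := Metric.tendsto_nhds.1 (hG s) δ hδ0
    exact h1.mono fun i hi => by
      rw [Real.dist_eq] at hi
      exact hi.le
  filter_upwards [hS, hS2] with i h1 h2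
  have hs1 : Summable fun p => v i p * F i (x i p) := summable_mul (H.v0 i) (H.vs i) fun p => hM i _
  have hs2 : Summable fun p => v i p * G (x i p) := summable_mul (H.v0 i) (H.vs i) fun p => hGM _
  rw [← hs1.tsum_sub hs2]
  have hb : ∀ p, ‖v i p * F i (x i p) - v i p * G (x i p)‖ ≤
      (2 * L * η + δ) * v i p + 2 * M * (if ∃ s ∈ S, Near η (x i p) s then 0 else v i p) := by
    intro p
    rw [← mul_sub, Real.norm_eq_abs, abs_mul, abs_of_nonneg (H.v0 i p)]
    by_cases hp : ∃ s ∈ S, Near η (x i p) s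
    · rw [if_pos hp, mul_zero, add_zero, mul_comm]
      refine mul_le_mul_of_nonneg_right ?_ (H.v0 i p)
      obtain ⟨s, hs, hn⟩ := hp
      have a1 := hn (F i) L (hF.inv i) hL0 (hL i)
      have a2 := hn G L hGI hL0 hGL
      have a3 := h2 s hs
      rw [abs_le] at a1 a2 a3 ⊢
      constructor <;> linarith [a1.1, a1.2, a2.1, a2.2, a3.1, a3.2]
    · rw [if_neg hp]
      have a1 := hM i (x i p)
      have a2 := hGM (x i p)
      have a3 : |F i (x i p) - G (x i p)| ≤ 2 * M := (abs_sub _ _).trans (by linarith)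
      have a4 := H.v0 i p
      have a5 : 0 ≤ (2 * L * η + δ) * v i p := by positivity
      nlinarith
  have hs3 : Summable fun p => (if ∃ s ∈ S, Near η (x i p) s then 0 else v i p) := by
    refine Summable.of_nonneg_of_le (fun p => ?_) (fun p => ?_) (H.vs i)
    · split_ifs
      · exact le_rfl
      · exact H.v0 i p
    · split_ifs
      · exact H.v0 i p
      · exact le_rfl
  have hs4 := ((H.vs i).mul_left (2 * L * η + δ)).add (hs3.mul_left (2 * M))
  have hs5 : Summable fun p => ‖v i p * F i (x i p) - v i p * G (x i p)‖ := Summable.of_nonneg_of_le (fun p => norm_nonneg _) hb hs4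
  rw [← Real.norm_eq_abs]
  refine (norm_tsum_le_tsum_norm hs5).trans ((hs5.tsum_le_tsum hb hs4).trans ?_)
  rw [((H.vs i).mul_left (2 * L * η + δ)).tsum_add (hs3.mul_left (2 * M)), tsum_mul_left, tsum_mul_left]
  have a1 : (2 * L * η + δ) * ∑' p, v i p ≤ (2 * L * η + δ) * M₀ := mul_le_mul_of_nonneg_left (hm i) (by positivity)
  have a2 : 2 * M * ∑' p, (if ∃ s ∈ S, Near η (x i p) s then 0 else v i p) ≤ 2 * M * η :=
    mul_le_mul_of_nonneg_left h1 (by positivity)
  have a3 : (2 * L * M₀ + 2 * M) * η ≤ ε / 2 := by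
    rw [hη, mul_div_assoc', div_le_iff₀ (by positivity)]
    nlinarith
  have a4 : δ * M₀ ≤ ε / 2 := by
    rw [hδ, div_mul_eq_mul_div, div_le_iff₀ (by positivity)]
    nlinarith
  nlinarith

/-- weights of the pieces with at least n rows -/
noncomputable def wb (w : P → ℝ) (h : P → ℕ) (n : ℕ) (p : P) : ℝ := if n ≤ h p then w p else 0

/-- weights of the pieces with less than n rows -/
noncomputable def ws (w : P → ℝ) (h : P → ℕ) (n : ℕ) (p : P) : ℝ := if h p < n then w p else 0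

section
variable {u k : ℕ → ℝ}

lemma wb_nonneg (W : Wt w h k) (n : ℕ) (p : P) : 0 ≤ wb w h n p := by
  unfold wb
  split_ifs
  · exact W.w0 p
  · exact le_rfl

lemma ws_nonneg (W : Wt w h k) (n : ℕ) (p : P) : 0 ≤ ws w h n p := by
  unfold ws
  split_ifs
  · exact W.w0 p
  · exact le_rfl

lemma ws_sum (W : Wt w h k) (n : ℕ) : HasSum (ws w h n) (∑ r ∈ range n, k r) := by
  have h1 := hasSum_sum (s := range n) fun r _ => W.law r
  refine h1.congr_fun ?_
  intro p
  unfold ws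
  by_cases hp : h p < n
  · rw [if_pos hp, Finset.sum_eq_single (h p)]
    · rw [if_pos rfl]
    · intro r _ hr
      rw [if_neg (Ne.symm hr)]
    · intro hh
      exact absurd (mem_range.2 hp) hh
  · rw [if_neg hp]
    symm
    refine sum_eq_zero fun r hr => ?_
    rw [if_neg]
    have := mem_range.1 hr
    omega

lemma wb_ws (n : ℕ) (p : P) : wb w h n p + ws w h n p = w p := by
  unfold wb ws
  by_cases hp : n ≤ h p
  · rw [if_pos hp, if_neg (by omega), add_zero]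
  · rw [if_neg hp, if_pos (by omega), zero_add]

lemma wb_sum (W : Wt w h k) (n : ℕ) : HasSum (wb w h n) (KK k n) := by
  have h1 := W.w1.sub (ws_sum W n)
  refine h1.congr_fun ?_
  intro p
  have := wb_ws (w := w) (h := h) n p
  show wb w h n p = w p - ws w h n p
  linarith

/-- bounds -/
lemma UU_le {a b : ℝ} (hr : Ren u k) (ha : 0 < a) (ha1 : a < 1) (hb : 0 < b)
    (hu : Tendsto (fun n : ℕ => (n : ℝ) ^ (1 - a) * u n) atTop (𝓝 b)) :
    ∃ C, 0 < C ∧ ∀ n : ℕ, (n : ℝ) ^ (-a) * UU u n ≤ C := by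
  obtain ⟨C, hC⟩ := (UU_tendsto hr ha ha1 hb hu).bddAbove_range
  refine ⟨max C 1, by positivity, fun n => le_trans (hC ⟨n, rfl⟩) (le_max_left _ _)⟩

lemma KK_le {a b : ℝ} (hr : Ren u k) (ha : 0 < a) (ha1 : a < 1) (hb : 0 < b)
    (hu : Tendsto (fun n : ℕ => (n : ℝ) ^ (1 - a) * u n) atTop (𝓝 b)) :
    ∃ C, 0 < C ∧ ∀ n : ℕ, (n : ℝ) ^ a * KK k n ≤ C := by
  obtain ⟨C, hC⟩ := (KK_tendsto hr ha ha1 hb hu).bddAbove_range
  refine ⟨max C 1, by positivity, fun n => le_trans (hC ⟨n, rfl⟩) (le_max_left _ _)⟩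

lemma u_le {a b : ℝ} (ha1 : a < 1)
    (hu : Tendsto (fun n : ℕ => (n : ℝ) ^ (1 - a) * u n) atTop (𝓝 b)) :
    ∃ C, 0 < C ∧ ∀ n : ℕ, 1 ≤ n → u n ≤ C * (n : ℝ) ^ (a - 1) := by
  obtain ⟨C, hC⟩ := hu.bddAbove_range
  refine ⟨max C 1, by positivity, fun n hn => ?_⟩
  have h1 : (n : ℝ) ^ (1 - a) * u n ≤ max C 1 := le_trans (hC ⟨n, rfl⟩) (le_max_left _ _)
  have hn0 : (0 : ℝ) < n := by exact_mod_cast hn
  have h2 : 0 < (n : ℝ) ^ (1 - a) := Real.rpow_pos_of_pos hn0 _
  have h3 : (n : ℝ) ^ (a - 1) = ((n : ℝ) ^ (1 - a))⁻¹ := by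
    rw [← Real.rpow_neg hn0.le]
    congr 1
    ring
  rw [h3, ← div_eq_mul_inv, le_div_iff₀ h2]
  linarith

lemma KK_scale_le {a b : ℝ} (hr : Ren u k) (ha : 0 < a) (ha1 : a < 1) (hb : 0 < b)
    (hu : Tendsto (fun n : ℕ => (n : ℝ) ^ (1 - a) * u n) atTop (𝓝 b)) :
    ∃ C, 0 < C ∧ ∀ (ε : ℝ) (N : ℕ), 0 < ε → (N : ℝ) ^ a * KK k ⌈ε * N⌉₊ ≤ C * ε ^ (-a) := by
  obtain ⟨C, hC0, hC⟩ := KK_le hr ha ha1 hb hu
  refine ⟨C, hC0, fun ε N hε => ?_⟩
  rcases Nat.eq_zero_or_pos N with rfl | hN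
  · rw [Nat.cast_zero, Real.zero_rpow ha.ne', zero_mul]
    positivity
  · have hN0 : (0 : ℝ) < N := by exact_mod_cast hN
    have h1 : ε * N ≤ (⌈ε * N⌉₊ : ℝ) := Nat.le_ceil _
    have h2 : (ε * N) ^ a * KK k ⌈ε * N⌉₊ ≤ C := by
      refine le_trans ?_ (hC ⌈ε * N⌉₊)
      refine mul_le_mul_of_nonneg_right ?_ (KK_nonneg hr _)
      exact Real.rpow_le_rpow (by positivity) h1 ha.le
    rw [Real.mul_rpow hε.le hN0.le] at h2
    rw [Real.rpow_neg hε.le, ← div_eq_mul_inv, le_div_iff₀ (Real.rpow_pos_of_pos hε a)]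
    linarith

lemma UU_scale {a b : ℝ} (hr : Ren u k) (ha : 0 < a) (ha1 : a < 1) (hb : 0 < b)
    (hu : Tendsto (fun n : ℕ => (n : ℝ) ^ (1 - a) * u n) atTop (𝓝 b)) {m : ℕ} (hm : 1 ≤ m) (j : ℕ) :
    ∃ z, Tendsto (fun N : ℕ => (N : ℝ) ^ (-a) * UU u (j * N / m)) atTop (𝓝 z) := by
  have hm0 : (0 : ℝ) < m := by exact_mod_cast hm
  rcases Nat.eq_zero_or_pos j with rfl | hj
  · refine ⟨0, ?_⟩
    have h1 : Tendsto (fun N : ℕ => (N : ℝ) ^ (-a)) atTop (𝓝 0) :=
      (tendsto_rpow_neg_atTop ha).comp tendsto_natCast_atTop_atTop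
    have h2 := h1.mul_const (UU u 0)
    rw [zero_mul] at h2
    refine h2.congr fun N => ?_
    rw [zero_mul, Nat.zero_div]
  · have hj0 : (0 : ℝ) < j := by exact_mod_cast hj
    -- j N / m → ∞
    have h1 : Tendsto (fun N : ℕ => j * N / m) atTop atTop := by
      refine tendsto_atTop.2 fun B => ?_
      filter_upwards [eventually_ge_atTop (B * m)] with N hN
      rw [Nat.le_div_iff_mul_le (by omega)]
      nlinarith
    have h2 := (UU_tendsto hr ha ha1 hb hu).comp h1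
    -- ratio
    have h3 : Tendsto (fun N : ℕ => ((j * N / m : ℕ) : ℝ) / N) atTop (𝓝 ((j : ℝ) / m)) := by
      have h4 : Tendsto (fun N : ℕ => (j : ℝ) / m - 1 / (N : ℝ)) atTop (𝓝 ((j : ℝ) / m - 0)) :=
        tendsto_const_nhds.sub tendsto_one_div_atTop_nhds_zero_nat
      rw [sub_zero] at h4
      refine tendsto_of_tendsto_of_tendsto_of_le_of_le' h4 tendsto_const_nhds ?_ ?_
      · filter_upwards [eventually_gt_atTop 0] with N hN
        have hN0 : (0 : ℝ) < N := by exact_mod_cast hN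
        have h5 : j * N < (j * N / m + 1) * m := Nat.lt_mul_of_div_lt (Nat.lt_succ_self _) (by omega)
        have h6 : (j : ℝ) * N < (((j * N / m : ℕ) : ℝ) + 1) * m := by exact_mod_cast h5
        rw [le_div_iff₀ hN0, sub_mul, div_mul_eq_mul_div, one_div, inv_mul_cancel₀ hN0.ne', sub_le_iff_le_add,
          div_le_iff₀ hm0]
        exact h6.le
      · filter_upwards [eventually_gt_atTop 0] with N hN
        have hN0 : (0 : ℝ) < N := by exact_mod_cast hN
        have h5 : j * N / m * m ≤ j * N := Nat.div_mul_le_self _ _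
        have h6 : ((j * N / m : ℕ) : ℝ) * m ≤ (j : ℝ) * N := by exact_mod_cast h5
        rw [div_le_div_iff₀ hN0 hm0]
        linarith
    have h7 : Tendsto (fun N : ℕ => (((j * N / m : ℕ) : ℝ) / N) ^ a) atTop (𝓝 (((j : ℝ) / m) ^ a)) :=
      h3.rpow_const (Or.inl (by positivity))
    refine ⟨_, (h7.mul h2).congr' ?_⟩
    filter_upwards [eventually_gt_atTop 0, h1.eventually_gt_atTop 0] with N hN hM
    have hN0 : (0 : ℝ) < N := by exact_mod_cast hN
    have hM0 : (0 : ℝ) < ((j * N / m : ℕ) : ℝ) := by exact_mod_cast hM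
    show (((j * N / m : ℕ) : ℝ) / N) ^ a * (((j * N / m : ℕ) : ℝ) ^ (-a) * UU u (j * N / m)) = _
    rw [Real.div_rpow hM0.le hN0.le, Real.rpow_neg hM0.le, Real.rpow_neg hN0.le]
    have := Real.rpow_pos_of_pos hM0 a
    field_simp

end

end Struct
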