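import Pool.Agent.Struct.S5

/-! STRUCT, S6: the operators map convergent families to convergent families. -/

set_option autoImplicit false

namespace Struct

open Filter Topology Finset CutLim

variable {P : Type} {w : P → ℝ} {h : P → ℕ}

/-- admissible maps of the pieces -/
structure Adg (g : Cv → Cv) : Prop where
  lip : ∃ K, 0 ≤ K ∧ ∀ x x', dist (g x) (g x') ≤ K * dist x x'
  inv : ∀ (F : Cv → ℝ) (γ : Cv), Inv F → Inv fun x => F (cat γ (g x))

lemma adg_id : Adg (fun x => x) where
  lip := ⟨1, zero_le_one, fun x x' => by rw [one_mul]⟩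
  inv := fun F γ hF => hF.cat_right γ

lemma adg_seg : Adg (fun x => seg (ht x)) where
  lip := ⟨3 / 2, by norm_num, fun x x' => (dist_seg _ _).trans
    (mul_le_mul_of_nonneg_left (ht_lip x x') (by norm_num))⟩
  inv := fun F γ _ x ρ => by
    show F (cat γ (seg (ht (x.comp ρ.f)))) = F (cat γ (seg (ht x)))
    rw [ht_comp]

theorem Nice.op {ι P : Type} {l : Filter ι} {v : ι → P → ℝ} {x : ι → P → Cv} (H : Nice l v x) {F : ι → Cv → ℝ}
    (hF : Cls l F) {g : Cv → Cv} (hg : Adg g) : Cls l (fun i γ => ∑' p, v i p * F i (cat γ (g (x i p)))) where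
  inv := fun i γ ρ => by
    refine tsum_congr fun p => ?_
    congr 1
    exact (hF.inv i).cat_left _ γ ρ
  bd := by
    obtain ⟨M, h0, h1⟩ := hF.bd
    obtain ⟨M₀, hm0, hm⟩ := H.mass
    refine ⟨M₀ * M, by positivity, fun i γ => ?_⟩
    refine (tsum_mul_le (H.v0 i) (H.vs i).hasSum fun p => h1 i (cat γ (g (x i p)))).trans ?_
    exact mul_le_mul_of_nonneg_right (hm i) h0
  lip := by
    obtain ⟨M, h0, h1⟩ := hF.bd
    obtain ⟨L, h2, h3⟩ := hF.lip
    obtain ⟨M₀, hm0, hm⟩ := H.mass
    refine ⟨M₀ * L, by positivity, fun i γ γ' => ?_⟩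
    have h4 := PO_lip (q := fun p => g (x i p)) (H.v0 i) (H.vs i).hasSum (h1 i) h2 (h3 i) γ γ'
    refine h4.trans ?_
    have : 0 ≤ L * dist γ γ' := mul_nonneg h2 dist_nonneg
    rw [mul_assoc, mul_assoc]
    exact mul_le_mul_of_nonneg_right (hm i) this
  lim := fun γ => by
    obtain ⟨K, hK0, hK⟩ := hg.lip
    refine H.cls (F := fun i y => F i (cat γ (g y))) ⟨fun i => hg.inv _ γ (hF.inv i), ?_, ?_, fun y => hF.lim _⟩
    · obtain ⟨M, h0, h1⟩ := hF.bd
      exact ⟨M, h0, fun i y => h1 i _⟩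
    · obtain ⟨L, h2, h3⟩ := hF.lip
      refine ⟨L * K, by positivity, fun i y y' => (h3 i _ _).trans ?_⟩
      rw [mul_assoc]
      exact mul_le_mul_of_nonneg_left ((dist_cat_left _ _ _).trans (hK y y')) h2

/-- Riemann sums against the renewal measure -/
lemma riemann {u k : ℕ → ℝ} {a b : ℝ} (hr : Ren u k) (ha : 0 < a) (ha1 : a < 1) (hb : 0 < b)
    (hu : Tendsto (fun n : ℕ => (n : ℝ) ^ (1 - a) * u n) atTop (𝓝 b)) {g : ℝ → ℝ} {L : ℝ} (hL0 : 0 ≤ L)
    (hg : ∀ x y, |g x - g y| ≤ L * |x - y|) :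
    ∃ z, Tendsto (fun N : ℕ => (N : ℝ) ^ (-a) * ∑ c ∈ range (N + 1), u c * g ((c : ℝ) / N)) atTop (𝓝 z) := by
  obtain ⟨C, hC0, hC⟩ := UU_le hr ha ha1 hb hu
  refine conv_approx fun ε hε => ?_
  obtain ⟨m, hm⟩ := exists_nat_gt (L * C / ε)
  have hm' : 1 ≤ m := by
    by_contra h0
    have h1 : m = 0 := by omega
    rw [h1, Nat.cast_zero] at hm
    have : 0 ≤ L * C / ε := by positivity
    linarith
  have hm0 : (0 : ℝ) < m := by exact_mod_cast hm'
  refine ⟨fun N => (N : ℝ) ^ (-a) * (u 0 * g 0) +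
    ∑ j ∈ range m, g ((j : ℝ) / m) * ((N : ℝ) ^ (-a) * UU u ((j + 1) * N / m) - (N : ℝ) ^ (-a) * UU u (j * N / m)), ?_, ?_⟩
  · have h1 : Tendsto (fun N : ℕ => (N : ℝ) ^ (-a)) atTop (𝓝 0) :=
      (tendsto_rpow_neg_atTop ha).comp tendsto_natCast_atTop_atTop
    have h2 : ∀ j : ℕ, ∃ z, Tendsto (fun N : ℕ => (N : ℝ) ^ (-a) * UU u (j * N / m)) atTop (𝓝 z) :=
      fun j => UU_scale hr ha ha1 hb hu hm' j
    choose z hz using h2
    exact ⟨_, (h1.mul_const _).add (tendsto_finsetSum _ fun j _ => ((hz (j + 1)).sub (hz j)).const_mul _)⟩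
  · filter_upwards [eventually_gt_atTop 0] with N hN
    have hN0 : (0 : ℝ) < N := by exact_mod_cast hN
    -- partial statement
    have key : ∀ J : ℕ, |∑ c ∈ Ioc 0 (J * N / m), u c * g ((c : ℝ) / N) -
        ∑ j ∈ range J, g ((j : ℝ) / m) * (UU u ((j + 1) * N / m) - UU u (j * N / m))| ≤
          L / m * (UU u (J * N / m) - UU u 0) := by
      intro J
      induction J with
      | zero => simp
      | succ J ih =>
        have hle : J * N / m ≤ (J + 1) * N / m := Nat.div_le_div_right (by nlinarith)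
        have e1 : ∑ c ∈ Ioc 0 ((J + 1) * N / m), u c * g ((c : ℝ) / N) =
            ∑ c ∈ Ioc 0 (J * N / m), u c * g ((c : ℝ) / N) + ∑ c ∈ Ioc (J * N / m) ((J + 1) * N / m), u c * g ((c : ℝ) / N) :=
          (sum_Ioc_consecutive _ (Nat.zero_le _) hle).symm
        have e2 : UU u ((J + 1) * N / m) - UU u (J * N / m) = ∑ c ∈ Ioc (J * N / m) ((J + 1) * N / m), u c := by
          unfold UU
          rw [← sum_range_add_sum_Ico u (show J * N / m + 1 ≤ (J + 1) * N / m + 1 by omega), add_sub_cancel_left]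
          refine sum_congr ?_ fun _ _ => rfl
          ext c
          rw [mem_Ico, mem_Ioc]
          omega
        rw [e1, sum_range_succ, e2, mul_sum]
        have e3 : ∑ c ∈ Ioc 0 (J * N / m), u c * g ((c : ℝ) / N) +
              ∑ c ∈ Ioc (J * N / m) ((J + 1) * N / m), u c * g ((c : ℝ) / N) -
            (∑ j ∈ range J, g ((j : ℝ) / m) * (UU u ((j + 1) * N / m) - UU u (j * N / m)) +
              ∑ c ∈ Ioc (J * N / m) ((J + 1) * N / m), g ((J : ℝ) / m) * u c) =
            (∑ c ∈ Ioc 0 (J * N / m), u c * g ((c : ℝ) / N) -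
              ∑ j ∈ range J, g ((j : ℝ) / m) * (UU u ((j + 1) * N / m) - UU u (j * N / m))) +
            ∑ c ∈ Ioc (J * N / m) ((J + 1) * N / m), u c * (g ((c : ℝ) / N) - g ((J : ℝ) / m)) := by
          have e4 : ∑ c ∈ Ioc (J * N / m) ((J + 1) * N / m), u c * (g ((c : ℝ) / N) - g ((J : ℝ) / m)) =
              ∑ c ∈ Ioc (J * N / m) ((J + 1) * N / m), u c * g ((c : ℝ) / N) -
                ∑ c ∈ Ioc (J * N / m) ((J + 1) * N / m), g ((J : ℝ) / m) * u c := by
            rw [← sum_sub_distrib]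
            exact sum_congr rfl fun c _ => by ring
          rw [e4]
          ring
        rw [e3]
        refine (abs_add_le _ _).trans ?_
        have h5 : |∑ c ∈ Ioc (J * N / m) ((J + 1) * N / m), u c * (g ((c : ℝ) / N) - g ((J : ℝ) / m))| ≤
            L / m * (UU u ((J + 1) * N / m) - UU u (J * N / m)) := by
          rw [e2, mul_sum]
          refine (abs_sum_le_sum_abs _ _).trans (sum_le_sum fun c hc => ?_)
          obtain ⟨c1, c2⟩ := mem_Ioc.1 hc
          rw [abs_mul, abs_of_nonneg (u_nonneg hr c), mul_comm (L / m)]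
          refine mul_le_mul_of_nonneg_left ((hg _ _).trans ?_) (u_nonneg hr c)
          have h6 : J * N < c * m := by
            have := (Nat.div_lt_iff_lt_mul (show 0 < m by omega)).1 c1
            linarith
          have h7 : c * m ≤ (J + 1) * N := (Nat.le_div_iff_mul_le (show 0 < m by omega)).1 c2
          have h6' : (J : ℝ) * N < c * m := by exact_mod_cast h6
          have h7' : (c : ℝ) * m ≤ (J + 1) * N := by exact_mod_cast h7
          have h8 : |(c : ℝ) / N - (J : ℝ) / m| ≤ 1 / m := by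
            rw [abs_le]
            constructor
            · have h81 : (J : ℝ) / m ≤ (c : ℝ) / N := by
                rw [div_le_div_iff₀ hm0 hN0]
                exact h6'.le
              have : 0 ≤ 1 / (m : ℝ) := by positivity
              linarith
            · rw [sub_le_iff_le_add, ← add_div, div_le_div_iff₀ hN0 hm0]
              linarith
          rw [div_eq_mul_one_div L]
          exact mul_le_mul_of_nonneg_left h8 hL0
        have h9 : L / m * (UU u (J * N / m) - UU u 0) + L / m * (UU u ((J + 1) * N / m) - UU u (J * N / m)) =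
            L / m * (UU u ((J + 1) * N / m) - UU u 0) := by ring
        linarith
    have hJ := key m
    rw [Nat.mul_div_cancel_left N (by omega)] at hJ
    have e5 : ∑ c ∈ range (N + 1), u c * g ((c : ℝ) / N) = u 0 * g 0 + ∑ c ∈ Ioc 0 N, u c * g ((c : ℝ) / N) := by
      rw [← sum_range_add_sum_Ico _ (show 1 ≤ N + 1 by omega), sum_range_one, Nat.cast_zero, zero_div]
      congr 1
    have hNa : 0 < (N : ℝ) ^ (-a) := Real.rpow_pos_of_pos hN0 _
    have e6 : (N : ℝ) ^ (-a) * ∑ c ∈ range (N + 1), u c * g ((c : ℝ) / N) -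
        ((N : ℝ) ^ (-a) * (u 0 * g 0) +
          ∑ j ∈ range m, g ((j : ℝ) / m) * ((N : ℝ) ^ (-a) * UU u ((j + 1) * N / m) - (N : ℝ) ^ (-a) * UU u (j * N / m))) =
        (N : ℝ) ^ (-a) * (∑ c ∈ Ioc 0 N, u c * g ((c : ℝ) / N) -
          ∑ j ∈ range m, g ((j : ℝ) / m) * (UU u ((j + 1) * N / m) - UU u (j * N / m))) := by
      rw [e5, mul_sub, mul_sum (range m)]
      have e7 : ∀ j ∈ range m, (N : ℝ) ^ (-a) * (g ((j : ℝ) / m) * (UU u ((j + 1) * N / m) - UU u (j * N / m))) =
          g ((j : ℝ) / m) * ((N : ℝ) ^ (-a) * UU u ((j + 1) * N / m) - (N : ℝ) ^ (-a) * UU u (j * N / m)) := by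
        intro j _
        ring
      rw [sum_congr rfl e7]
      ring
    rw [e6, abs_mul, abs_of_pos hNa]
    have h10 : UU u N - UU u 0 ≤ UU u N := by
      have : 0 ≤ UU u 0 := by
        unfold UU
        exact sum_nonneg fun i _ => u_nonneg hr i
      linarith
    calc (N : ℝ) ^ (-a) * |∑ c ∈ Ioc 0 N, u c * g ((c : ℝ) / N) -
          ∑ j ∈ range m, g ((j : ℝ) / m) * (UU u ((j + 1) * N / m) - UU u (j * N / m))|
        ≤ (N : ℝ) ^ (-a) * (L / m * UU u N) := by
          refine mul_le_mul_of_nonneg_left (hJ.trans ?_) hNa.le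
          exact mul_le_mul_of_nonneg_left h10 (by positivity)
      _ = L / m * ((N : ℝ) ^ (-a) * UU u N) := by ring
      _ ≤ L / m * C := mul_le_mul_of_nonneg_left (hC N) (by positivity)
      _ ≤ ε := by
        rw [div_mul_eq_mul_div, div_le_iff₀ hm0]
        rw [div_lt_iff₀ hε] at hm
        linarith

/-- the segments form a nice family -/
theorem nice_seg {u k : ℕ → ℝ} {a b : ℝ} (hr : Ren u k) (ha : 0 < a) (ha1 : a < 1) (hb : 0 < b)
    (hu : Tendsto (fun n : ℕ => (n : ℝ) ^ (1 - a) * u n) atTop (𝓝 b)) {ι : Type} {l : Filter ι} {s : ι → ℕ}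
    (hs : Tendsto s l atTop) :
    Nice l (fun i c => if c ∈ range (s i + 1) then (s i : ℝ) ^ (-a) * u c else 0) (fun i (c : ℕ) => seg ((c : ℝ) / s i)) where
  v0 := fun i c => by
    split_ifs
    · exact mul_nonneg (Real.rpow_nonneg (Nat.cast_nonneg _) _) (u_nonneg hr c)
    · exact le_rfl
  vs := fun i => summable_of_ne_finset_zero (s := range (s i + 1)) fun c hc => if_neg hc
  mass := by
    obtain ⟨C, hC0, hC⟩ := UU_le hr ha ha1 hb hu
    refine ⟨C, hC0.le, fun i => ?_⟩
    rw [tsum_eq_sum (s := range (s i + 1)) fun c hc => if_neg hc, sum_congr rfl fun c hc => if_pos hc, ← mul_sum]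
    exact hC (s i)
  net := fun η hη => by
    classical
    obtain ⟨m, hm⟩ := exists_nat_gt (2 / η)
    have hm' : 1 ≤ m := by
      by_contra h0
      have h1 : m = 0 := by omega
      rw [h1, Nat.cast_zero] at hm
      have : 0 < 2 / η := by positivity
      linarith
    have hm0 : (0 : ℝ) < m := by exact_mod_cast hm'
    refine ⟨(range (m + 1)).image fun j : ℕ => seg ((j : ℝ) / m), ?_⟩
    filter_upwards [hs.eventually_gt_atTop 0] with i hi
    have hN0 : (0 : ℝ) < s i := by exact_mod_cast hi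
    refine le_trans (le_of_eq ?_) hη.le
    have e : ∀ c : ℕ, (if ∃ y ∈ (range (m + 1)).image fun j : ℕ => seg ((j : ℝ) / m), Near η (seg ((c : ℝ) / s i)) y then 0 else
        (if c ∈ range (s i + 1) then (s i : ℝ) ^ (-a) * u c else 0)) = (0 : ℝ) := by
      intro c
      by_cases hc : c ∈ range (s i + 1)
      · rw [if_pos]
        have hc' : c ≤ s i := by have := mem_range.1 hc; omega
        refine ⟨seg (((c * m / s i : ℕ) : ℝ) / m), mem_image_of_mem _ (mem_range.2 ?_), near_of_dist ?_⟩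
        · have : c * m / s i ≤ m := by
            rw [Nat.div_le_iff_le_mul_add_pred hi]
            nlinarith
          omega
        · refine (dist_seg _ _).trans ?_
          have h1 : c * m / s i * s i ≤ c * m := Nat.div_mul_le_self _ _
          have h2 : c * m < (c * m / s i + 1) * s i := Nat.lt_mul_of_div_lt (Nat.lt_succ_self _) hi
          have h1' : ((c * m / s i : ℕ) : ℝ) * s i ≤ c * m := by exact_mod_cast h1
          have h2' : (c : ℝ) * m < (((c * m / s i : ℕ) : ℝ) + 1) * s i := by exact_mod_cast h2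
          have h3 : |(c : ℝ) / s i - ((c * m / s i : ℕ) : ℝ) / m| ≤ 1 / m := by
            rw [abs_le]
            constructor
            · have : ((c * m / s i : ℕ) : ℝ) / m ≤ (c : ℝ) / s i := by
                rw [div_le_div_iff₀ hm0 hN0]
                exact h1'
              have : 0 ≤ 1 / (m : ℝ) := by positivity
              linarith
            · rw [sub_le_iff_le_add, ← add_div, div_le_div_iff₀ hN0 hm0]
              linarith
          have h4 : 3 / 2 * (1 / (m : ℝ)) ≤ η := by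
            rw [div_lt_iff₀ hη] at hm
            rw [mul_one_div, div_le_iff₀ hm0]
            linarith
          have := mul_le_mul_of_nonneg_left h3 (show (0 : ℝ) ≤ 3 / 2 by norm_num)
          linarith
      · rw [if_neg hc]
        split_ifs <;> rfl
    rw [tsum_congr e, tsum_zero]
  conv := fun F hF => by
    obtain ⟨L, hL0, hL⟩ := hF.lip
    obtain ⟨z, hz⟩ := riemann hr ha ha1 hb hu (g := fun x => F (seg x)) (L := L * (3 / 2)) (by positivity) (by
      intro x y
      refine (hL _ _).trans ?_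
      rw [mul_assoc]
      exact mul_le_mul_of_nonneg_left (dist_seg x y) hL0)
    refine ⟨z, (hz.comp hs).congr fun i => ?_⟩
    show (s i : ℝ) ^ (-a) * ∑ c ∈ range (s i + 1), u c * F (seg ((c : ℝ) / s i)) = _
    rw [tsum_eq_sum (s := range (s i + 1)) fun c hc => by rw [if_neg hc, zero_mul], mul_sum]
    refine sum_congr rfl fun c hc => ?_
    rw [if_pos hc]
    ring

theorem Cls.BBop {u k : ℕ → ℝ} {a b : ℝ} (hr : Ren u k) (ha : 0 < a) (ha1 : a < 1) (hb : 0 < b)
    (hu : Tendsto (fun n : ℕ => (n : ℝ) ^ (1 - a) * u n) atTop (𝓝 b)) {ι : Type} {l : Filter ι} {s : ι → ℕ}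
    (hs : Tendsto s l atTop) {F : ι → Cv → ℝ} (hF : Cls l F) :
    Cls l (fun i γ => (s i : ℝ) ^ (-a) * BB u (s i) (F i) γ) := by
  have h1 := (nice_seg hr ha ha1 hb hu hs).op hF adg_id
  have e : (fun i γ => ∑' c : ℕ, (if c ∈ range (s i + 1) then (s i : ℝ) ^ (-a) * u c else 0) * F i (cat γ (seg ((c : ℝ) / s i)))) =
      fun i γ => (s i : ℝ) ^ (-a) * BB u (s i) (F i) γ := by
    funext i γ
    rw [tsum_eq_sum (s := range (s i + 1)) fun c hc => by rw [if_neg hc, zero_mul]]
    unfold BB
    rw [mul_sum]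
    refine sum_congr rfl fun c hc => ?_
    rw [if_pos hc]
    ring
  rw [← e]
  exact h1

end Struct
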