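import Pool.Agent.Struct.S6

/-! STRUCT, S7: estimates for the main theorem. -/

set_option autoImplicit false

namespace Struct

open Filter Topology Finset CutLim

variable {P : Type} {w : P → ℝ} {h : P → ℕ} {q : P → Cv} {u k : ℕ → ℝ}

lemma Pot_add {m M M' : ℝ} {F G : Cv → ℝ} (hw : ∀ p, 0 ≤ w p) (hs : HasSum w m) (hF : Bd F M) (hG : Bd G M') (n : ℕ) (γ : Cv) :
    Pot w q (fun x => F x + G x) n γ = Pot w q F n γ + Pot w q G n γ := by
  induction n generalizing γ with
  | zero =>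
    show (0 : ℝ) = 0 + 0
    simp
  | succ n ih =>
    obtain ⟨A, hA⟩ := Pot_bd' (q := q) hw hs hF n
    obtain ⟨B, hB⟩ := Pot_bd' (q := q) hw hs hG n
    rw [Pot_succ, Pot_succ, Pot_succ]
    have e : Pot w q (fun x => F x + G x) n = fun x => Pot w q F n x + Pot w q G n x := funext ih
    rw [e, PO_add hw hs.summable hA hB]
    ring

lemma Pot_smul (c : ℝ) (F : Cv → ℝ) (n : ℕ) (γ : Cv) : Pot w q (fun x => c * F x) n γ = c * Pot w q F n γ := by
  induction n generalizing γ with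
  | zero =>
    show (0 : ℝ) = c * 0
    simp
  | succ n ih =>
    rw [Pot_succ, Pot_succ]
    have e : Pot w q (fun x => c * F x) n = fun x => c * Pot w q F n x := funext ih
    rw [e, PO_smul]
    ring

/-- probability of a renewal in [T', T) -/
noncomputable def ee (u k : ℕ → ℝ) (T' T : ℕ) : ℝ := ∑ c ∈ Ico T' T, u c * KK k (T - c)

lemma ee_nonneg (hr : Ren u k) (T' T : ℕ) : 0 ≤ ee u k T' T :=
  sum_nonneg fun c _ => mul_nonneg (u_nonneg hr c) (KK_nonneg hr _)

lemma ee_zero (hr : Ren u k) {T : ℕ} (hT : 1 ≤ T) : ee u k 0 T = 1 := by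
  obtain ⟨T, rfl⟩ : ∃ T', T = T' + 1 := ⟨T - 1, by omega⟩
  unfold ee
  rw [← KK_renewal hr T, range_eq_Ico]

lemma ee_mono (hr : Ren u k) {T₁ T₂ T : ℕ} (h12 : T₁ ≤ T₂) : ee u k T₂ T ≤ ee u k T₁ T := by
  unfold ee
  refine sum_le_sum_of_subset_of_nonneg ?_ fun c _ _ => mul_nonneg (u_nonneg hr c) (KK_nonneg hr _)
  exact Ico_subset_Ico_left h12

lemma ee_rec (hr : Ren u k) {T' T : ℕ} (hT' : 1 ≤ T') (hT : T' ≤ T) :
    ∑ r ∈ Icc 1 T, k r * ee u k (T' - r) (T - r) = ee u k T' T := by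
  classical
  have h1 : ∀ r ∈ Icc 1 T, k r * ee u k (T' - r) (T - r) =
      ∑ m ∈ Ico T' T, (if r ≤ m then k r * u (m - r) * KK k (T - m) else 0) := by
    intro r hr'
    obtain ⟨hr1, hr2⟩ := mem_Icc.1 hr'
    unfold ee
    rw [mul_sum]
    have h2 : ∑ m ∈ Ico T' T, (if r ≤ m then k r * u (m - r) * KK k (T - m) else 0) =
        ∑ m ∈ Ico (max T' r) T, k r * u (m - r) * KK k (T - m) := by
      rw [← sum_filter]
      refine sum_congr ?_ fun _ _ => rfl
      ext m
      rw [mem_filter, mem_Ico, mem_Ico]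
      omega
    rw [h2]
    refine sum_nbij (fun c => c + r) ?_ ?_ ?_ ?_
    · intro c hc
      have := mem_Ico.1 hc
      rw [mem_Ico]
      omega
    · intro c _ c' _ hcc
      simpa using hcc
    · intro m hm
      have hm' := mem_Ico.1 (mem_coe.1 hm)
      refine ⟨m - r, ?_, ?_⟩
      · rw [mem_coe, mem_Ico]
        omega
      · show m - r + r = m
        omega
    · intro c hc
      have := mem_Ico.1 hc
      show k r * (u c * KK k (T - r - c)) = k r * u (c + r - r) * KK k (T - (c + r))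
      rw [Nat.add_sub_cancel, show T - r - c = T - (c + r) by omega]
      ring
  rw [sum_congr rfl h1, sum_comm]
  unfold ee
  refine sum_congr rfl fun m hm => ?_
  obtain ⟨m1, m2⟩ := mem_Ico.1 hm
  rw [hr.ren m (by omega), sum_mul, ← sum_filter]
  refine sum_congr ?_ fun _ _ => rfl
  ext r
  rw [mem_filter, mem_Icc, mem_Icc]
  omega

/-- stopping at T or at T' ≤ T -/
theorem HH_window (hr : Ren u k) (W : Wt w h k) {f : Cv → ℝ} {M : ℝ} (hM0 : 0 ≤ M) (hf : Bd f M) (T' : ℕ) :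
    ∀ (T : ℕ) (γ : Cv), T' ≤ T → |HH w h q f T γ - HH w h q f T' γ| ≤ 2 * M * ee u k T' T := by
  induction T' using Nat.strong_induction_on with
  | _ T' ih =>
    intro T γ hTT
    rcases Nat.eq_zero_or_pos T' with rfl | hT'
    · rcases Nat.eq_zero_or_pos T with rfl | hT
      · rw [sub_self, abs_zero]
        exact mul_nonneg (by positivity) (ee_nonneg hr _ _)
      · rw [ee_zero hr hT, mul_one]
        have h1 := HH_bd (q := q) W hf T γ
        have h2 := HH_bd (q := q) W hf 0 γ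
        exact (abs_sub _ _).trans (by linarith)
    · rw [HH_succ W.h1 f (T := T) (by omega), HH_succ W.h1 f (T := T') hT']
      rw [← (summable_mul W.w0 W.w1.summable fun p => HH_bd W hf (T - h p) (cat γ (q p))).tsum_sub
        (summable_mul W.w0 W.w1.summable fun p => HH_bd W hf (T' - h p) (cat γ (q p)))]
      have hb : ∀ p, ‖w p * HH w h q f (T - h p) (cat γ (q p)) - w p * HH w h q f (T' - h p) (cat γ (q p))‖ ≤
          w p * (2 * M * (if h p ≤ T then ee u k (T' - h p) (T - h p) else 0)) := by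
        intro p
        rw [← mul_sub, Real.norm_eq_abs, abs_mul, abs_of_nonneg (W.w0 p)]
        refine mul_le_mul_of_nonneg_left ?_ (W.w0 p)
        have h1p := W.h1 p
        by_cases hp : h p ≤ T
        · rw [if_pos hp]
          exact ih (T' - h p) (by omega) (T - h p) _ (by omega)
        · rw [if_neg hp, mul_zero]
          have e1 : T - h p = 0 := by omega
          have e2 : T' - h p = 0 := by omega
          rw [e1, e2, sub_self, abs_zero]
      have hs : Summable fun p => w p * (2 * M * (if h p ≤ T then ee u k (T' - h p) (T - h p) else 0)) := by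
        refine summable_mul W.w0 W.w1.summable (M := 2 * M * ∑ r ∈ range (T + 1), ee u k (T' - r) (T - r)) fun p => ?_
        have hnn : ∀ r ∈ range (T + 1), 0 ≤ ee u k (T' - r) (T - r) := fun r _ => ee_nonneg hr _ _
        split_ifs with hp
        · rw [abs_of_nonneg (mul_nonneg (by positivity) (ee_nonneg hr _ _))]
          refine mul_le_mul_of_nonneg_left ?_ (by positivity)
          exact single_le_sum hnn (mem_range.2 (by omega))
        · rw [mul_zero, abs_zero]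
          exact mul_nonneg (by positivity) (sum_nonneg hnn)
      have hs4 : Summable fun p => ‖w p * HH w h q f (T - h p) (cat γ (q p)) - w p * HH w h q f (T' - h p) (cat γ (q p))‖ :=
        Summable.of_nonneg_of_le (fun p => norm_nonneg _) hb hs
      rw [← Real.norm_eq_abs]
      refine (norm_tsum_le_tsum_norm hs4).trans ((hs4.tsum_le_tsum hb hs).trans ?_)
      rw [sum_rows W (fun r => 2 * M * (if r ≤ T then ee u k (T' - r) (T - r) else 0)) (T := T) (by
        intro r hr'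
        show 2 * M * (if r ≤ T then ee u k (T' - r) (T - r) else 0) = 0
        rw [if_neg (by omega), mul_zero])]
      refine le_of_eq ?_
      rw [← ee_rec hr hT' hTT, mul_sum]
      refine sum_congr rfl fun r hr' => ?_
      rw [if_pos (mem_Icc.1 hr').2]
      ring

lemma sum_KK_le {a b : ℝ} (hr : Ren u k) (ha : 0 < a) (ha1 : a < 1) (hb : 0 < b)
    (hu : Tendsto (fun n : ℕ => (n : ℝ) ^ (1 - a) * u n) atTop (𝓝 b)) :
    ∃ C, 0 < C ∧ ∀ n : ℕ, 1 ≤ n → ∑ j ∈ Icc 1 n, KK k j ≤ C * (n : ℝ) ^ (1 - a) := by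
  obtain ⟨C, hC0, hC⟩ := KK_le hr ha ha1 hb hu
  -- sum of j ^ (-a)
  have h1 : ∀ n : ℕ, ∑ j ∈ Icc 1 n, (j : ℝ) ^ (-a) ≤ 1 / (1 - a) * (n : ℝ) ^ (1 - a) := by
    intro n
    have ha2 : 0 < 1 - a := by linarith
    induction n with
    | zero => simp [Real.zero_rpow ha2.ne']
    | succ n ih =>
      rw [← Finset.insert_Icc_right_eq_Icc_add_one (by omega), sum_insert (by rw [mem_Icc]; omega)]
      have hn1 : (0 : ℝ) < ((n + 1 : ℕ) : ℝ) := by positivity
      -- (n+1)^(1-a) - n^(1-a) ≥ (1-a) (n+1)^(-a)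
      have h2 : (1 - a) * ((n + 1 : ℕ) : ℝ) ^ (-a) ≤ ((n + 1 : ℕ) : ℝ) ^ (1 - a) - (n : ℝ) ^ (1 - a) := by
        have h3 : ((n : ℝ) / ((n + 1 : ℕ) : ℝ)) ^ (1 - a) ≤ 1 - (1 - a) * (1 / ((n + 1 : ℕ) : ℝ)) := by
          have h4 : (n : ℝ) / ((n + 1 : ℕ) : ℝ) = 1 + -(1 / ((n + 1 : ℕ) : ℝ)) := by
            push_cast
            field_simp
            ring
          rw [h4]
          have h5 : -1 ≤ -(1 / ((n + 1 : ℕ) : ℝ)) := by
            rw [neg_le_neg_iff, div_le_one hn1]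
            push_cast
            linarith [Nat.cast_nonneg (α := ℝ) n]
          have h6 := rpow_one_add_le_one_add_mul_self h5 ha2.le (by linarith : 1 - a ≤ 1)
          linarith
        have h7 : ((n + 1 : ℕ) : ℝ) ^ (-a) = ((n + 1 : ℕ) : ℝ) ^ (1 - a) * (1 / ((n + 1 : ℕ) : ℝ)) := by
          rw [show (1 : ℝ) - a = -a + 1 by ring, Real.rpow_add_one hn1.ne']
          field_simp
        have h8 : (n : ℝ) ^ (1 - a) = ((n + 1 : ℕ) : ℝ) ^ (1 - a) * ((n : ℝ) / ((n + 1 : ℕ) : ℝ)) ^ (1 - a) := by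
          rw [← Real.mul_rpow hn1.le (by positivity), mul_div_cancel₀ _ hn1.ne']
        rw [h7, h8]
        have h9 : 0 < ((n + 1 : ℕ) : ℝ) ^ (1 - a) := Real.rpow_pos_of_pos hn1 _
        nlinarith [mul_le_mul_of_nonneg_left h3 h9.le]
      have h10 : ((n + 1 : ℕ) : ℝ) ^ (-a) ≤ 1 / (1 - a) * (((n + 1 : ℕ) : ℝ) ^ (1 - a) - (n : ℝ) ^ (1 - a)) := by
        rw [div_mul_eq_mul_div, one_mul, le_div_iff₀ ha2]
        linarith
      have h11 : 1 / (1 - a) * (((n + 1 : ℕ) : ℝ) ^ (1 - a) - (n : ℝ) ^ (1 - a)) + 1 / (1 - a) * (n : ℝ) ^ (1 - a) =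
          1 / (1 - a) * ((n + 1 : ℕ) : ℝ) ^ (1 - a) := by ring
      linarith
  have ha2 : 0 < 1 - a := by linarith
  refine ⟨C * (1 / (1 - a)), by positivity, fun n _ => ?_⟩
  calc ∑ j ∈ Icc 1 n, KK k j ≤ ∑ j ∈ Icc 1 n, C * (j : ℝ) ^ (-a) := by
        refine sum_le_sum fun j hj => ?_
        have hj0 : (0 : ℝ) < j := by exact_mod_cast (mem_Icc.1 hj).1
        rw [Real.rpow_neg hj0.le, ← div_eq_mul_inv, le_div_iff₀ (Real.rpow_pos_of_pos hj0 a)]
        linarith [hC j]
    _ = C * ∑ j ∈ Icc 1 n, (j : ℝ) ^ (-a) := by rw [mul_sum]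
    _ ≤ C * (1 / (1 - a) * (n : ℝ) ^ (1 - a)) := mul_le_mul_of_nonneg_left (h1 n) hC0.le
    _ = _ := by ring

/-- the window [N - K, N) is rarely hit -/
lemma ee_le {a b : ℝ} (hr : Ren u k) (ha : 0 < a) (ha1 : a < 1) (hb : 0 < b)
    (hu : Tendsto (fun n : ℕ => (n : ℝ) ^ (1 - a) * u n) atTop (𝓝 b)) :
    ∃ C, 0 < C ∧ ∀ N K : ℕ, 1 ≤ K → 2 * K ≤ N → ee u k (N - K) N ≤ C * ((K : ℝ) / N) ^ (1 - a) := by
  obtain ⟨C1, h10, h1⟩ := u_le ha1 hu
  obtain ⟨C2, h20, h2⟩ := sum_KK_le hr ha ha1 hb hu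
  have ha2 : 0 < 1 - a := by linarith
  refine ⟨C1 * 2 ^ (1 - a) * C2, by positivity, fun N K hK hN => ?_⟩
  have hN0 : (0 : ℝ) < N := by
    have : 0 < N := by omega
    exact_mod_cast this
  unfold ee
  have h3 : ∀ c ∈ Ico (N - K) N, u c * KK k (N - c) ≤ C1 * ((N : ℝ) / 2) ^ (a - 1) * KK k (N - c) := by
    intro c hc
    obtain ⟨c1, c2⟩ := mem_Ico.1 hc
    refine mul_le_mul_of_nonneg_right ?_ (KK_nonneg hr _)
    refine (h1 c (by omega)).trans (mul_le_mul_of_nonneg_left ?_ h10.le)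
    have h4 : (N : ℝ) / 2 ≤ c := by
      have : N ≤ 2 * c := by omega
      have : (N : ℝ) ≤ 2 * c := by exact_mod_cast this
      linarith
    exact Real.rpow_le_rpow_of_nonpos (by positivity) h4 (by linarith)
  refine (sum_le_sum h3).trans ?_
  rw [← mul_sum]
  have h5 : ∑ c ∈ Ico (N - K) N, KK k (N - c) = ∑ j ∈ Icc 1 K, KK k j := by
    refine sum_nbij (fun c => N - c) ?_ ?_ ?_ ?_
    · intro c hc
      have := mem_Ico.1 hc
      rw [mem_Icc]
      omega
    · intro c hc c' hc' hcc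
      have := mem_Ico.1 (mem_coe.1 hc)
      have := mem_Ico.1 (mem_coe.1 hc')
      have hcc' : N - c = N - c' := hcc
      omega
    · intro j hj
      have hj' := mem_Icc.1 (mem_coe.1 hj)
      refine ⟨N - j, ?_, ?_⟩
      · rw [mem_coe, mem_Ico]
        omega
      · show N - (N - j) = j
        omega
    · intro c _
      rfl
  rw [h5]
  have h6 : ((N : ℝ) / 2) ^ (a - 1) = 2 ^ (1 - a) * ((N : ℝ) ^ (1 - a))⁻¹ := by
    rw [show a - 1 = -(1 - a) by ring, Real.rpow_neg (by positivity), Real.div_rpow hN0.le (by norm_num)]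
    field_simp
  have hnn : 0 ≤ C1 * ((N : ℝ) / 2) ^ (a - 1) := by positivity
  refine (mul_le_mul_of_nonneg_left (h2 K hK) hnn).trans (le_of_eq ?_)
  rw [h6, Real.div_rpow (Nat.cast_nonneg _) hN0.le]
  field_simp

/-- the first moment of the small pieces -/
def Mom (w : P → ℝ) (h : P → ℕ) (q : ℕ → P → Cv) (a : ℝ) : Prop := ∃ C, 0 < C ∧ ∀ N n : ℕ, 1 ≤ N → 1 ≤ n →
  Summable (fun p => ws w h n p * dist (q N p) 0) ∧ ∑' p, ws w h n p * dist (q N p) 0 ≤ C * (n : ℝ) ^ (1 - a) / N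

/-- small pieces replaced by segments -/
noncomputable def qQ (h : P → ℕ) (q : P → Cv) (N n : ℕ) (p : P) : Cv := if n ≤ h p then q p else seg ((h p : ℝ) / N)

lemma ht_qQ {N : ℕ} (hq : ∀ p, ht (q p) = h p / N) (n : ℕ) (p : P) : ht (qQ h q N n p) = h p / N := by
  unfold qQ
  split_ifs
  · exact hq p
  · exact ht_seg _

lemma PO_qQ (W : Wt w h k) {N n : ℕ} {F : Cv → ℝ} {M : ℝ} (hF : Bd F M) (γ : Cv) :
    PO w (qQ h q N n) F γ = PO (wb w h n) q F γ + PO (ws w h n) (fun p => seg ((h p : ℝ) / N)) F γ := by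
  unfold PO
  rw [← (summable_mul (wb_nonneg W n) (wb_sum W n).summable fun p => hF (cat γ (q p))).tsum_add
    (summable_mul (ws_nonneg W n) (ws_sum W n).summable fun p => hF (cat γ (seg ((h p : ℝ) / N))))]
  refine tsum_congr fun p => ?_
  unfold qQ wb ws
  by_cases hp : n ≤ h p
  · rw [if_pos hp, if_pos hp, if_neg (by omega), zero_mul, add_zero]
  · rw [if_neg hp, if_neg hp, if_pos (by omega), zero_mul, zero_add]

lemma PO_seg (W : Wt w h k) {N n : ℕ} {F : Cv → ℝ} {M : ℝ} (hF : Bd F M) (γ : Cv) :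
    PO w (fun p => seg ((h p : ℝ) / N)) F γ = PO (wb w h n) (fun p => seg ((h p : ℝ) / N)) F γ +
      PO (ws w h n) (fun p => seg ((h p : ℝ) / N)) F γ := by
  unfold PO
  rw [← (summable_mul (wb_nonneg W n) (wb_sum W n).summable fun p => hF (cat γ (seg ((h p : ℝ) / N)))).tsum_add
    (summable_mul (ws_nonneg W n) (ws_sum W n).summable fun p => hF (cat γ (seg ((h p : ℝ) / N))))]
  refine tsum_congr fun p => ?_
  have := wb_ws (w := w) (h := h) n p
  rw [← this]
  ring

end Struct
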