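import Pool.Agent.Struct.S7

/-! STRUCT, S8: from the excursions to the half plane walk. -/

set_option autoImplicit false

namespace Struct

open Filter Topology Finset CutLim

variable {P : Type} {w : P → ℝ} {h : P → ℕ} {u k : ℕ → ℝ}

/-- cut-off of the height -/
noncomputable def chi (N K : ℕ) (γ : Cv) : ℝ := max 0 (min 1 ((1 - ht γ) * ((N : ℝ) / K)))

lemma clamp_lip (x y : ℝ) : |max 0 (min 1 x) - max 0 (min 1 y)| ≤ |x - y| := by
  refine (abs_max_sub_max_le_max _ _ _ _).trans ?_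
  rw [sub_self, abs_zero]
  refine max_le (abs_nonneg _) ((abs_min_sub_min_le_max _ _ _ _).trans ?_)
  rw [sub_self, abs_zero]
  exact max_le (abs_nonneg _) le_rfl

lemma chi_nonneg (N K : ℕ) (γ : Cv) : 0 ≤ chi N K γ := le_max_left _ _

lemma chi_bd (N K : ℕ) : Bd (chi N K) 1 := by
  intro γ
  rw [abs_of_nonneg (chi_nonneg N K γ)]
  exact max_le zero_le_one (min_le_left _ _)

lemma chi_van (N K : ℕ) : Van (chi N K) 1 := by
  intro γ hγ
  refine le_antisymm (max_le le_rfl ((min_le_right _ _).trans ?_)) (chi_nonneg N K γ)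
  exact mul_nonpos_of_nonpos_of_nonneg (by linarith) (by positivity)

lemma chi_inv (N K : ℕ) : Inv (chi N K) := by
  intro γ ρ
  unfold chi
  rw [ht_comp]

lemma chi_sub (N K : ℕ) (γ γ' : Cv) : |chi N K γ - chi N K γ'| ≤ (N : ℝ) / K * |ht γ - ht γ'| := by
  refine (clamp_lip _ _).trans (le_of_eq ?_)
  rw [← sub_mul, abs_mul, abs_of_nonneg (show (0 : ℝ) ≤ (N : ℝ) / K by positivity), mul_comm, abs_sub_comm]
  congr 2
  ring

lemma chi_XX {N K : ℕ} (hK : 1 ≤ K) (hKN : K ≤ N) (γ : Cv) (c : ℕ) (hγ : ht γ = c / N) :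
    ((N : ℝ) - ((N - K : ℕ) : ℝ)) * chi N K γ = XX (N - K) N c := by
  have hK0 : (0 : ℝ) < K := by exact_mod_cast hK
  have hN0 : (0 : ℝ) < N := by
    have : 0 < N := by omega
    exact_mod_cast this
  have e1 : (1 - ht γ) * ((N : ℝ) / K) = ((N : ℝ) - c) / K := by
    rw [hγ]
    field_simp
  have e2 : (N : ℝ) - ((N - K : ℕ) : ℝ) = K := by
    rw [Nat.cast_sub hKN]
    ring
  unfold chi XX
  rw [e1, e2]
  by_cases h1 : N ≤ c
  · have h2 : ((N : ℝ) - c) / K ≤ 0 := by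
      apply div_nonpos_of_nonpos_of_nonneg _ hK0.le
      have : (N : ℝ) ≤ c := by exact_mod_cast h1
      linarith
    rw [min_eq_right (by linarith), max_eq_left h2, mul_zero]
    have : N - max c (N - K) = 0 := by omega
    rw [this, Nat.cast_zero]
  · by_cases h3 : c ≤ N - K
    · have h2 : 1 ≤ ((N : ℝ) - c) / K := by
        rw [one_le_div hK0]
        have : c + K ≤ N := by omega
        have : (c : ℝ) + K ≤ N := by exact_mod_cast this
        linarith
      rw [min_eq_left h2, max_eq_right zero_le_one, mul_one]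
      have : N - max c (N - K) = K := by omega
      rw [this]
    · have h2 : ((N : ℝ) - c) / K ≤ 1 := by
        rw [div_le_one hK0]
        have : N ≤ c + K := by omega
        have : (N : ℝ) ≤ c + K := by exact_mod_cast this
        linarith
      have h4 : 0 ≤ ((N : ℝ) - c) / K := by
        apply div_nonneg _ hK0.le
        have : c ≤ N := by omega
        have : (c : ℝ) ≤ N := by exact_mod_cast this
        linarith
      rw [min_eq_right h2, max_eq_right h4, mul_div_cancel₀ _ hK0.ne']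
      have : N - max c (N - K) = N - c := by omega
      rw [this, Nat.cast_sub (by omega)]

lemma Cls.sub {ι : Type} {l : Filter ι} {F G : ι → Cv → ℝ} (hF : Cls l F) (hG : Cls l G) : Cls l (fun i γ => F i γ - G i γ) := by
  have h1 := hF.add (hG.mul_const (c := fun _ => -1) (C := 1) (fun _ => by simp) ⟨-1, tendsto_const_nhds⟩)
  refine (congrArg (Cls l) ?_).mp h1
  funext i γ
  ring

lemma ceil_ratio {ι : Type} {l : Filter ι} {s : ι → ℕ} (hs : Tendsto s l atTop) {η : ℝ} (hη : 0 < η) :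
    Tendsto (fun i => (⌈η * s i⌉₊ : ℝ) / s i) l (𝓝 η) := by
  have h1 : Tendsto (fun N : ℕ => (⌈η * N⌉₊ : ℝ) / N) atTop (𝓝 η) := by
    have h4 : Tendsto (fun N : ℕ => η + 1 / (N : ℝ)) atTop (𝓝 (η + 0)) :=
      tendsto_const_nhds.add tendsto_one_div_atTop_nhds_zero_nat
    rw [add_zero] at h4
    refine tendsto_of_tendsto_of_tendsto_of_le_of_le' tendsto_const_nhds h4 ?_ ?_
    · filter_upwards [eventually_gt_atTop 0] with N hN
      have hN0 : (0 : ℝ) < N := by exact_mod_cast hN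
      rw [le_div_iff₀ hN0]
      exact Nat.le_ceil _
    · filter_upwards [eventually_gt_atTop 0] with N hN
      have hN0 : (0 : ℝ) < N := by exact_mod_cast hN
      rw [div_le_iff₀ hN0, add_mul, div_mul_cancel₀ _ hN0.ne']
      exact (Nat.ceil_lt_add_one (by positivity)).le
  exact h1.comp hs

lemma chi_cls {ι : Type} {l : Filter ι} {s : ι → ℕ} (hs : Tendsto s l atTop) {η : ℝ} (hη : 0 < η) :
    Cls l (fun i => chi (s i) ⌈η * s i⌉₊) where
  inv := fun i => chi_inv _ _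
  bd := ⟨1, zero_le_one, fun i => chi_bd _ _⟩
  lip := by
    refine ⟨1 / η, by positivity, fun i γ γ' => (chi_sub _ _ _ _).trans ?_⟩
    refine mul_le_mul ?_ (ht_lip _ _) (abs_nonneg _) (by positivity)
    rcases Nat.eq_zero_or_pos (s i) with h0 | h0
    · rw [h0, Nat.cast_zero, zero_div]
      positivity
    · have hN0 : (0 : ℝ) < s i := by exact_mod_cast h0
      have h1 : η * s i ≤ (⌈η * s i⌉₊ : ℝ) := Nat.le_ceil _
      have h2 : (0 : ℝ) < ⌈η * s i⌉₊ := lt_of_lt_of_le (by positivity) h1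
      rw [div_le_div_iff₀ h2 hη]
      linarith
  lim := fun γ => by
    have h1 := (ceil_ratio hs hη).inv₀ hη.ne'
    have h2 : Continuous fun x : ℝ => max 0 (min 1 ((1 - ht γ) * x)) := by fun_prop
    refine ⟨_, ((h2.tendsto _).comp h1).congr fun i => ?_⟩
    show max 0 (min 1 ((1 - ht γ) * ((⌈η * s i⌉₊ : ℝ) / s i)⁻¹)) = chi (s i) ⌈η * s i⌉₊ γ
    unfold chi
    rw [inv_div]

section
variable {ι : Type}

/-- the iteration -/
noncomputable def Phi (w : P → ℝ) (h : P → ℕ) (q : ℕ → P → Cv) (a : ℝ) (u : ℕ → ℝ) (s : ι → ℕ) (ε : ℝ) (G : ι → Cv → ℝ) :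
    ℕ → ι → Cv → ℝ
  | 0 => fun _ _ => 0
  | j + 1 => fun i γ => (s i : ℝ) ^ (-a) * BB u (s i) (fun y => G i y +
      ((s i : ℝ) ^ a * PO (wb w h ⌈ε * s i⌉₊) (q (s i)) (Phi w h q a u s ε G j i) y -
        (s i : ℝ) ^ a * PO (wb w h ⌈ε * s i⌉₊) (fun p => seg ((h p : ℝ) / s i)) (Phi w h q a u s ε G j i) y)) γ

lemma op_q {l : Filter ι} {q : ℕ → P → Cv} {a ε : ℝ} {s : ι → ℕ}
    (H : Nice l (fun i p => (s i : ℝ) ^ a * wb w h ⌈ε * s i⌉₊ p) (fun i => q (s i))) {F : ι → Cv → ℝ} (hF : Cls l F) :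
    Cls l (fun i γ => (s i : ℝ) ^ a * PO (wb w h ⌈ε * s i⌉₊) (q (s i)) (F i) γ) := by
  refine (congrArg (Cls l) ?_).mp (H.op hF adg_id)
  funext i γ
  unfold PO
  rw [← tsum_mul_left]
  exact tsum_congr fun p => by ring

lemma op_seg {l : Filter ι} {q : ℕ → P → Cv} {a ε : ℝ} {s : ι → ℕ} (hq : ∀ N p, ht (q N p) = h p / N)
    (H : Nice l (fun i p => (s i : ℝ) ^ a * wb w h ⌈ε * s i⌉₊ p) (fun i => q (s i))) {F : ι → Cv → ℝ} (hF : Cls l F) :
    Cls l (fun i γ => (s i : ℝ) ^ a * PO (wb w h ⌈ε * s i⌉₊) (fun p => seg ((h p : ℝ) / s i)) (F i) γ) := by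
  refine (congrArg (Cls l) ?_).mp (H.op hF adg_seg)
  funext i γ
  unfold PO
  rw [← tsum_mul_left]
  refine tsum_congr fun p => ?_
  rw [hq]
  ring

lemma Phi_cls {a b : ℝ} (hr : Ren u k) (ha : 0 < a) (ha1 : a < 1) (hb : 0 < b)
    (hu : Tendsto (fun n : ℕ => (n : ℝ) ^ (1 - a) * u n) atTop (𝓝 b)) {q : ℕ → P → Cv} (hq : ∀ N p, ht (q N p) = h p / N)
    {l : Filter ι} {s : ι → ℕ} (hs : Tendsto s l atTop) {ε : ℝ}
    (H : Nice l (fun i p => (s i : ℝ) ^ a * wb w h ⌈ε * s i⌉₊ p) (fun i => q (s i))) {G : ι → Cv → ℝ} (hG : Cls l G) :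
    ∀ j, Cls l (Phi w h q a u s ε G j)
  | 0 =>
    { inv := fun _ _ _ => rfl
      bd := ⟨0, le_rfl, fun i γ => by show |(0 : ℝ)| ≤ 0; simp⟩
      lip := ⟨0, le_rfl, fun i γ γ' => by show |(0 : ℝ) - 0| ≤ 0 * _; simp⟩
      lim := fun γ => ⟨0, tendsto_const_nhds⟩ }
  | j + 1 => by
    have ih := Phi_cls hr ha ha1 hb hu hq hs H hG j
    exact Cls.BBop hr ha ha1 hb hu hs (hG.add ((op_q H ih).sub (op_seg hq H ih)))

lemma Phi_eq {a : ℝ} (hr : Ren u k) (W : Wt w h k) {q : ℕ → P → Cv} (hq : ∀ N p, ht (q N p) = h p / N)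
    {s : ι → ℕ} {ε : ℝ} {G : ι → Cv → ℝ} {i : ι} (hi : 1 ≤ s i) (hGI : Inv (G i)) {M : ℝ} (hGM : Bd (G i) M) (hGV : Van (G i) 1)
    (j : ℕ) : ∀ γ, 0 ≤ ht γ → 1 - j * ε ≤ ht γ →
      (s i : ℝ) ^ (-a) * Pot w (qQ h (q (s i)) (s i) ⌈ε * s i⌉₊) (G i) (s i) γ = Phi w h q a u s ε G j i γ := by
  have hN0 : (0 : ℝ) < s i := by exact_mod_cast hi
  have hQ : ∀ p, ht (qQ h (q (s i)) (s i) ⌈ε * s i⌉₊ p) = h p / s i := ht_qQ (hq (s i)) _
  have hQ0 : ∀ p, 0 ≤ ht (qQ h (q (s i)) (s i) ⌈ε * s i⌉₊ p) := by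
    intro p
    rw [hQ p]
    positivity
  have hpow : (s i : ℝ) ^ a * (s i : ℝ) ^ (-a) = 1 := by
    rw [← Real.rpow_add hN0, add_neg_cancel, Real.rpow_zero]
  induction j with
  | zero =>
    intro γ _ hγ
    rw [Nat.cast_zero, zero_mul, sub_zero] at hγ
    rw [Pot_van hGV hQ0 _ γ hγ, mul_zero]
    rfl
  | succ j ih =>
    intro γ hγ0 hγ
    rw [resolvent hr W hi hQ hGI hGM hGV γ hγ0]
    show _ = (s i : ℝ) ^ (-a) * BB u (s i) _ γ
    congr 1
    obtain ⟨MD, hMD⟩ := Pot_bd' (q := qQ h (q (s i)) (s i) ⌈ε * s i⌉₊) W.w0 W.w1 hGM (s i)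
    refine BB_congr (a := ht γ) (fun y hy => ?_) γ le_rfl
    rw [PO_qQ W hMD, PO_seg W (n := ⌈ε * s i⌉₊) hMD]
    have key : ∀ (x : P → Cv), (∀ p, ht (x p) = h p / s i) →
        PO (wb w h ⌈ε * s i⌉₊) x (Pot w (qQ h (q (s i)) (s i) ⌈ε * s i⌉₊) (G i) (s i)) y =
          (s i : ℝ) ^ a * PO (wb w h ⌈ε * s i⌉₊) x (Phi w h q a u s ε G j i) y := by
      intro x hx
      unfold PO
      rw [← tsum_mul_left]
      refine tsum_congr fun p => ?_
      unfold wb
      by_cases hp : ⌈ε * s i⌉₊ ≤ h p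
      · rw [if_pos hp, ← ih (cat y (x p))]
        · calc w p * Pot w (qQ h (q (s i)) (s i) ⌈ε * s i⌉₊) (G i) (s i) (cat y (x p))
              = ((s i : ℝ) ^ a * (s i : ℝ) ^ (-a)) * (w p * Pot w (qQ h (q (s i)) (s i) ⌈ε * s i⌉₊) (G i) (s i) (cat y (x p))) := by
                rw [hpow, one_mul]
            _ = _ := by ring
        · rw [ht_cat, hx p]
          have : 0 ≤ (h p : ℝ) / s i := by positivity
          linarith
        · rw [ht_cat, hx p]
          have h1 : ε * s i ≤ h p := le_trans (Nat.le_ceil _) (by exact_mod_cast hp)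
          have h2 : ε ≤ (h p : ℝ) / s i := by
            rw [le_div_iff₀ hN0]
            exact h1
          push_cast at hγ
          nlinarith
      · rw [if_neg hp, zero_mul, zero_mul, mul_zero]
    rw [key _ (hq (s i)), key _ (fun p => ht_seg _)]
    ring

end

/-- comparison with the potential of the replaced pieces -/
theorem main_cmp (hr : Ren u k) (W : Wt w h k) {q : P → Cv} {N K n : ℕ} (hN : 1 ≤ N) (hK : 1 ≤ K) (hKN : K ≤ N)
    (hq : ∀ p, ht (q p) = h p / N) {m : ℝ} (hsm : Summable fun p => ws w h n p * dist (q p) 0)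
    (hm : ∑' p, ws w h n p * dist (q p) 0 ≤ m) {f : Cv → ℝ} {M L : ℝ} (hM0 : 0 ≤ M) (hf : Bd f M) (hL0 : 0 ≤ L) (hL : Lp f L) :
    |HH w h q f N 0 - Pot w (qQ h q N n) (fun γ => chi N K γ * PO w (qQ h q N n) f γ -
      PO w (qQ h q N n) (fun x => chi N K x * f x) γ) N 0| ≤
      2 * M * ee u k (N - K) N + L * (5 / 2 * m) * UU u N := by
  have hK0 : (0 : ℝ) < K := by exact_mod_cast hK
  have hQ : ∀ p, ht (qQ h q N n p) = h p / N := ht_qQ hq n
  have h1 := smooth (q := qQ h q N n) W hf (χ := chi N K) (N := N) (T₀ := N - K) (T₁ := N) hN hQ (chi_bd N K)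
    (fun γ c hγ => chi_XX hK hKN γ c hγ) N 0 0 (by rw [ht_zero]; simp) (by omega)
  have e2 : (N : ℝ) - ((N - K : ℕ) : ℝ) = K := by
    rw [Nat.cast_sub hKN]
    ring
  rw [e2] at h1
  set Z := Pot w (qQ h q N n) (fun γ => chi N K γ * PO w (qQ h q N n) f γ -
      PO w (qQ h q N n) (fun x => chi N K x * f x) γ) N 0 with hZ
  have h2 : ∀ T ∈ Ioc (N - K) N, (if 0 < T then HH w h (qQ h q N n) f (T - 0) 0 else 0) = HH w h (qQ h q N n) f T 0 := by
    intro T hT
    have := mem_Ioc.1 hT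
    rw [if_pos (by omega), Nat.sub_zero]
  rw [sum_congr rfl h2] at h1
  have hUU : ∀ T, T ≤ N → UU u T ≤ UU u N := fun T hT => by
    unfold UU
    exact sum_le_sum_of_subset_of_nonneg (range_subset_range.2 (by omega)) fun i _ _ => u_nonneg hr i
  have hws : ∀ p, 0 ≤ ws w h n p * dist (q p) 0 := fun p => mul_nonneg (ws_nonneg W n p) dist_nonneg
  have hm0 : 0 ≤ m := (tsum_nonneg hws).trans hm
  -- comparison of the pieces
  have h3 : ∀ T, |HH w h q f T 0 - HH w h (qQ h q N n) f T 0| ≤ L * (5 / 2 * m) * UU u T := by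
    intro T
    refine HH_cmp hr W hf hL0 hL (d := fun p => if n ≤ h p then 0 else 5 / 2 * dist (q p) 0) ?_ ?_ ?_ T 0
    · intro p
      unfold qQ
      by_cases hp : n ≤ h p
      · rw [if_pos hp, if_pos hp, dist_self]
      · rw [if_neg hp, if_neg hp]
        have h4 : dist (seg ((h p : ℝ) / N)) 0 ≤ 3 / 2 * dist (q p) 0 := by
          rw [← seg_zero]
          refine (dist_seg _ _).trans ?_
          refine mul_le_mul_of_nonneg_left ?_ (by norm_num)
          have h5 := ht_lip (q p) 0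
          rw [hq p, ht_zero] at h5
          rw [seg_zero]
          exact h5
        have h6 := dist_triangle (q p) 0 (seg ((h p : ℝ) / N))
        rw [dist_comm 0] at h6
        linarith
    · refine (hsm.mul_left (5 / 2)).congr fun p => ?_
      unfold ws
      by_cases hp : n ≤ h p
      · rw [if_neg (by omega), if_pos hp]
        ring
      · rw [if_pos (by omega), if_neg hp]
        ring
    · have e : ∀ p, w p * (if n ≤ h p then 0 else 5 / 2 * dist (q p) 0) = 5 / 2 * (ws w h n p * dist (q p) 0) := by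
        intro p
        unfold ws
        by_cases hp : n ≤ h p
        · rw [if_pos hp, if_neg (by omega)]
          ring
        · rw [if_neg hp, if_pos (by omega)]
          ring
      rw [tsum_congr e, tsum_mul_left]
      linarith
  have h4 : ∀ T ∈ Ioc (N - K) N, |HH w h q f N 0 - HH w h (qQ h q N n) f T 0| ≤
      2 * M * ee u k (N - K) N + L * (5 / 2 * m) * UU u N := by
    intro T hT
    obtain ⟨t1, t2⟩ := mem_Ioc.1 hT
    have a1 := HH_window (q := q) hr W hM0 hf T N 0 t2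
    have a2 := h3 T
    have a3 : 2 * M * ee u k T N ≤ 2 * M * ee u k (N - K) N := mul_le_mul_of_nonneg_left (ee_mono hr t1.le) (by positivity)
    have a4 : L * (5 / 2 * m) * UU u T ≤ L * (5 / 2 * m) * UU u N := mul_le_mul_of_nonneg_left (hUU T t2) (by positivity)
    calc |HH w h q f N 0 - HH w h (qQ h q N n) f T 0|
        = |(HH w h q f N 0 - HH w h q f T 0) + (HH w h q f T 0 - HH w h (qQ h q N n) f T 0)| := by ring_nf
      _ ≤ _ := (abs_add_le _ _).trans (by linarith)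
  have h5 : (K : ℝ) * |HH w h q f N 0 - Z| ≤ K * (2 * M * ee u k (N - K) N + L * (5 / 2 * m) * UU u N) := by
    have e3 : (K : ℝ) * (HH w h q f N 0 - Z) = ∑ T ∈ Ioc (N - K) N, (HH w h q f N 0 - HH w h (qQ h q N n) f T 0) := by
      rw [sum_sub_distrib, h1, sum_const, Nat.card_Ioc, nsmul_eq_mul]
      have : N - (N - K) = K := by omega
      rw [this]
      ring
    rw [← abs_of_pos hK0, ← abs_mul, e3, abs_of_pos hK0]
    refine (abs_sum_le_sum_abs _ _).trans ((sum_le_sum h4).trans ?_)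
    rw [sum_const, Nat.card_Ioc, nsmul_eq_mul]
    have : N - (N - K) = K := by omega
    rw [this]
  exact le_of_mul_le_mul_left h5 hK0

/-- the small pieces in the source -/
theorem small_src (W : Wt w h k) {q : P → Cv} {N K n : ℕ} (hq : ∀ p, ht (q p) = h p / N) {m : ℝ}
    (hsm : Summable fun p => ws w h n p * dist (q p) 0) (hm : ∑' p, ws w h n p * dist (q p) 0 ≤ m)
    {f : Cv → ℝ} {M : ℝ} (hM0 : 0 ≤ M) (hf : Bd f M) :
    Bd (fun γ => chi N K γ * PO (ws w h n) (fun p => seg ((h p : ℝ) / N)) f γ -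
      PO (ws w h n) (fun p => seg ((h p : ℝ) / N)) (fun x => chi N K x * f x) γ) (M * ((N : ℝ) / K) * m) := by
  intro γ
  have hcf : Bd (fun x => chi N K x * f x) (1 * M) := by
    intro x
    rw [abs_mul]
    exact mul_le_mul (chi_bd N K x) (hf x) (abs_nonneg _) zero_le_one
  show |chi N K γ * PO (ws w h n) (fun p => seg ((h p : ℝ) / N)) f γ -
      PO (ws w h n) (fun p => seg ((h p : ℝ) / N)) (fun x => chi N K x * f x) γ| ≤ _
  unfold PO
  rw [← tsum_mul_left]
  have s1 : Summable fun p => chi N K γ * (ws w h n p * f (cat γ (seg ((h p : ℝ) / N)))) :=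
    (summable_mul (ws_nonneg W n) (ws_sum W n).summable fun p => hf _).mul_left _
  have s2 : Summable fun p => ws w h n p * (chi N K (cat γ (seg ((h p : ℝ) / N))) * f (cat γ (seg ((h p : ℝ) / N)))) :=
    summable_mul (ws_nonneg W n) (ws_sum W n).summable fun p => hcf _
  rw [← s1.tsum_sub s2]
  have hb : ∀ p, ‖chi N K γ * (ws w h n p * f (cat γ (seg ((h p : ℝ) / N)))) -
      ws w h n p * (chi N K (cat γ (seg ((h p : ℝ) / N))) * f (cat γ (seg ((h p : ℝ) / N))))‖ ≤
        M * ((N : ℝ) / K) * (ws w h n p * dist (q p) 0) := by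
    intro p
    have e : chi N K γ * (ws w h n p * f (cat γ (seg ((h p : ℝ) / N)))) -
        ws w h n p * (chi N K (cat γ (seg ((h p : ℝ) / N))) * f (cat γ (seg ((h p : ℝ) / N)))) =
        ws w h n p * ((chi N K γ - chi N K (cat γ (seg ((h p : ℝ) / N)))) * f (cat γ (seg ((h p : ℝ) / N)))) := by ring
    rw [e, Real.norm_eq_abs, abs_mul, abs_of_nonneg (ws_nonneg W n p), abs_mul]
    have h1 : |chi N K γ - chi N K (cat γ (seg ((h p : ℝ) / N)))| ≤ (N : ℝ) / K * dist (q p) 0 := by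
      refine (chi_sub _ _ _ _).trans (mul_le_mul_of_nonneg_left ?_ (by positivity))
      rw [ht_cat, ht_seg]
      have h5 := ht_lip (q p) 0
      rw [hq p, ht_zero, sub_zero] at h5
      have e3 : ht γ - (ht γ + (h p : ℝ) / N) = -((h p : ℝ) / N) := by ring
      rw [e3, abs_neg]
      exact h5
    have h2 := hf (cat γ (seg ((h p : ℝ) / N)))
    have h3 : |chi N K γ - chi N K (cat γ (seg ((h p : ℝ) / N)))| * |f (cat γ (seg ((h p : ℝ) / N)))| ≤
        (N : ℝ) / K * dist (q p) 0 * M :=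
      mul_le_mul h1 h2 (abs_nonneg _) (by positivity)
    calc ws w h n p * (|chi N K γ - chi N K (cat γ (seg ((h p : ℝ) / N)))| * |f (cat γ (seg ((h p : ℝ) / N)))|)
        ≤ ws w h n p * ((N : ℝ) / K * dist (q p) 0 * M) := mul_le_mul_of_nonneg_left h3 (ws_nonneg W n p)
      _ = _ := by ring
  have hs3 := hsm.mul_left (M * ((N : ℝ) / K))
  have hs4 := Summable.of_nonneg_of_le (fun p => norm_nonneg _) hb hs3
  rw [← Real.norm_eq_abs]
  refine (norm_tsum_le_tsum_norm hs4).trans ((hs4.tsum_le_tsum hb hs3).trans ?_)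
  rw [tsum_mul_left]
  exact mul_le_mul_of_nonneg_left hm (by positivity)

lemma small_pow {a : ℝ} (ha1 : a < 1) {A δ : ℝ} (hA : 0 ≤ A) (hδ : 0 < δ) :
    ∃ η : ℝ, 0 < η ∧ η ≤ 1 / 4 ∧ A * (2 * η) ^ (1 - a) ≤ δ := by
  have ha2 : 0 < 1 - a := by linarith
  set x : ℝ := (δ / (A + 1)) ^ (1 / (1 - a)) with hx
  have hx0 : 0 < x := by positivity
  refine ⟨min (1 / 4) (x / 2), by positivity, min_le_left _ _, ?_⟩
  have h1 : 2 * min (1 / 4) (x / 2) ≤ x := by
    have := min_le_right (1 / 4 : ℝ) (x / 2)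
    linarith
  have h2 : (2 * min (1 / 4) (x / 2)) ^ (1 - a) ≤ δ / (A + 1) := by
    refine (Real.rpow_le_rpow (by positivity) h1 ha2.le).trans (le_of_eq ?_)
    rw [hx, ← Real.rpow_mul (by positivity), one_div, inv_mul_cancel₀ ha2.ne', Real.rpow_one]
  refine (mul_le_mul_of_nonneg_left h2 hA).trans ?_
  rw [mul_div_assoc', div_le_iff₀ (by positivity)]
  nlinarith

end Struct
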