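import Pool.Agent.Struct.S8

/-! STRUCT, S9: the excursions determine the half plane walk. -/

set_option autoImplicit false

namespace Struct

open Filter Topology Finset CutLim

variable {P : Type} {w : P → ℝ} {h : P → ℕ} {u k : ℕ → ℝ}

/-- convergence of the stopped walk from the convergence of the excursions -/
theorem BA {a b : ℝ} (hr : Ren u k) (W : Wt w h k) (ha : 0 < a) (ha1 : a < 1) (hb : 0 < b)
    (hu : Tendsto (fun n : ℕ => (n : ℝ) ^ (1 - a) * u n) atTop (𝓝 b)) {q : ℕ → P → Cv}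
    (hq : ∀ N p, ht (q N p) = h p / N) (hmom : Mom w h q a) {ι : Type} {l : Filter ι} {s : ι → ℕ} (hs : Tendsto s l atTop)
    (hB : ∀ x : ℝ, 0 < x → Nice l (fun i p => (s i : ℝ) ^ a * wb w h ⌈x * s i⌉₊ p) (fun i => q (s i)))
    {f : ι → Cv → ℝ} (hf : Cls l f) : ∃ z, Tendsto (fun i => HH w h (q (s i)) (f i) (s i) 0) l (𝓝 z) := by
  obtain ⟨M, hM0, hM⟩ := hf.bd
  obtain ⟨L, hL0, hL⟩ := hf.lip
  obtain ⟨C1, h10, h1⟩ := ee_le hr ha ha1 hb hu
  obtain ⟨C2, h20, h2⟩ := hmom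
  obtain ⟨C3, h30, h3⟩ := UU_le hr ha ha1 hb hu
  have ha2 : 0 < 1 - a := by linarith
  refine conv_approx fun δ hδ => ?_
  obtain ⟨η, hη0, hη1, hη⟩ := small_pow ha1 (A := 2 * M * C1) (δ := δ / 3) (by positivity) (by positivity)
  obtain ⟨ε, hε0, hε1, hε⟩ := small_pow ha1 (A := (L * (5 / 2 * C2) + M * (1 / η) * C2) * C3) (δ := δ / 3) (by positivity)
    (by positivity)
  -- the convergent approximation
  have hχ := chi_cls hs hη0
  have hA := op_q (hB ε hε0) hf
  have hA' := op_q (hB ε hε0) (hχ.mul hf)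
  have hG := (hχ.mul hA).sub hA'
  set G : ι → Cv → ℝ := fun i γ => chi (s i) ⌈η * s i⌉₊ γ * ((s i : ℝ) ^ a * PO (wb w h ⌈ε * s i⌉₊) (q (s i)) (f i) γ) -
    (s i : ℝ) ^ a * PO (wb w h ⌈ε * s i⌉₊) (q (s i)) (fun γ => chi (s i) ⌈η * s i⌉₊ γ * f i γ) γ with hGdef
  obtain ⟨J, hJ⟩ := exists_nat_gt (1 / ε)
  have hΦ := Phi_cls (w := w) (h := h) hr ha ha1 hb hu hq hs (hB ε hε0) hG J
  refine ⟨fun i => Phi w h q a u s ε G J i 0, hΦ.lim 0, ?_⟩
  obtain ⟨N0, hN0⟩ := exists_nat_gt (max (1 / η) (1 / ε))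
  filter_upwards [hs.eventually_ge_atTop (N0 + 4)] with i hi
  set N := s i with hN
  have hN1 : 1 ≤ N := by omega
  have hNr : (0 : ℝ) < N := by exact_mod_cast hN1
  have hNN : (N0 : ℝ) + 4 ≤ N := by exact_mod_cast hi
  have hηN : 1 ≤ η * N := by
    have h5 : 1 / η ≤ N := le_trans (le_max_left _ _) (hN0.le.trans (by linarith))
    rw [div_le_iff₀ hη0] at h5
    linarith
  have hεN : 1 ≤ ε * N := by
    have h5 : 1 / ε ≤ N := le_trans (le_max_right _ _) (hN0.le.trans (by linarith))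
    rw [div_le_iff₀ hε0] at h5
    linarith
  set K := ⌈η * N⌉₊ with hK
  set n := ⌈ε * N⌉₊ with hn
  have hKge : η * N ≤ (K : ℝ) := Nat.le_ceil _
  have hKle : (K : ℝ) ≤ 2 * η * N := by
    have := (Nat.ceil_lt_add_one (show 0 ≤ η * N by positivity)).le
    linarith
  have hnle : (n : ℝ) ≤ 2 * ε * N := by
    have := (Nat.ceil_lt_add_one (show 0 ≤ ε * N by positivity)).le
    linarith
  have hK1 : 1 ≤ K := by
    have : (1 : ℝ) ≤ K := hηN.trans hKge
    exact_mod_cast this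
  have hn1 : 1 ≤ n := by
    have h5 : ε * N ≤ (n : ℝ) := Nat.le_ceil _
    have : (1 : ℝ) ≤ n := hεN.trans h5
    exact_mod_cast this
  have hK2 : 2 * K ≤ N := by
    have : 2 * (K : ℝ) ≤ N := by
      have h5 : 2 * (2 * η * N) ≤ N := by nlinarith
      linarith
    exact_mod_cast this
  have hKr : (0 : ℝ) < K := by exact_mod_cast hK1
  obtain ⟨hsm, hm⟩ := h2 N n hN1 hn1
  set m : ℝ := C2 * (n : ℝ) ^ (1 - a) / N with hmdef
  have hm0 : 0 ≤ m := by positivity
  have hmle : m * UU u N ≤ C2 * C3 * (2 * ε) ^ (1 - a) := by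
    have h5 : UU u N ≤ C3 * (N : ℝ) ^ a := by
      have h6 := h3 N
      rw [Real.rpow_neg hNr.le, inv_mul_le_iff₀ (Real.rpow_pos_of_pos hNr a)] at h6
      linarith
    have h6 : (n : ℝ) ^ (1 - a) ≤ (2 * ε) ^ (1 - a) * (N : ℝ) ^ (1 - a) := by
      rw [← Real.mul_rpow (by positivity) hNr.le]
      exact Real.rpow_le_rpow (Nat.cast_nonneg _) hnle ha2.le
    have h7 : (N : ℝ) ^ (1 - a) * (N : ℝ) ^ a = N := by
      rw [← Real.rpow_add hNr, sub_add_cancel, Real.rpow_one]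
    have hUU0 : 0 ≤ UU u N := by
      unfold UU
      exact sum_nonneg fun i _ => u_nonneg hr i
    calc m * UU u N ≤ (C2 * ((2 * ε) ^ (1 - a) * (N : ℝ) ^ (1 - a)) / N) * (C3 * (N : ℝ) ^ a) := by
          refine mul_le_mul ?_ h5 hUU0 (by positivity)
          rw [hmdef]
          gcongr
      _ = C2 * C3 * (2 * ε) ^ (1 - a) * (((N : ℝ) ^ (1 - a) * (N : ℝ) ^ a) / N) := by ring
      _ = _ := by rw [h7, div_self hNr.ne', mul_one]
  -- first comparison
  have c1 := main_cmp hr W hN1 hK1 (by omega) (hq N) hsm hm hM0 (hM i) hL0 (hL i)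
  -- decomposition of the source
  have hchif : Bd (fun x => chi N K x * f i x) (1 * M) := by
    intro x
    rw [abs_mul]
    exact mul_le_mul (chi_bd N K x) (hM i x) (abs_nonneg _) zero_le_one
  set S : Cv → ℝ := fun γ => chi N K γ * PO (ws w h n) (fun p => seg ((h p : ℝ) / N)) (f i) γ -
      PO (ws w h n) (fun p => seg ((h p : ℝ) / N)) (fun x => chi N K x * f i x) γ with hS
  have hSbd : Bd S (M * ((N : ℝ) / K) * m) := small_src W (hq N) hsm hm hM0 (hM i)
  have hpow : (N : ℝ) ^ (-a) * (N : ℝ) ^ a = 1 := by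
    rw [← Real.rpow_add hNr, neg_add_cancel, Real.rpow_zero]
  have hsrc : (fun γ => chi N K γ * PO w (qQ h (q N) N n) (f i) γ - PO w (qQ h (q N) N n) (fun x => chi N K x * f i x) γ) =
      fun γ => (N : ℝ) ^ (-a) * G i γ + S γ := by
    funext γ
    rw [PO_qQ W (hM i), PO_qQ W hchif]
    have e1 : (N : ℝ) ^ (-a) * G i γ = ((N : ℝ) ^ (-a) * (N : ℝ) ^ a) *
        (chi N K γ * PO (wb w h n) (q N) (f i) γ - PO (wb w h n) (q N) (fun γ => chi N K γ * f i γ) γ) := by
      rw [hGdef]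
      ring
    rw [e1, hpow, one_mul, hS]
    ring
  rw [hsrc] at c1
  obtain ⟨MG, hMG0, hMG⟩ := hG.bd
  have hGbd : Bd (fun γ => (N : ℝ) ^ (-a) * G i γ) ((N : ℝ) ^ (-a) * MG) := by
    intro γ
    rw [abs_mul, abs_of_nonneg (by positivity)]
    exact mul_le_mul_of_nonneg_left (hMG i γ) (by positivity)
  rw [Pot_add W.w0 W.w1 hGbd hSbd, Pot_smul] at c1
  -- the main term
  have hGV : Van (G i) 1 := by
    intro γ hγ
    show chi N K γ * ((N : ℝ) ^ a * PO (wb w h n) (q N) (f i) γ) -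
      (N : ℝ) ^ a * PO (wb w h n) (q N) (fun γ => chi N K γ * f i γ) γ = 0
    have hv : Van (fun γ => chi N K γ * f i γ) (1 + 0) := by
      intro x hx
      show chi N K x * f i x = 0
      rw [chi_van N K x (by linarith), zero_mul]
    rw [chi_van N K γ hγ, PO_van hv (fun p => by rw [hq N p]; positivity) γ hγ]
    ring
  have c2 := Phi_eq (w := w) (h := h) (u := u) (k := k) (a := a) hr W hq (s := s) (ε := ε) (G := G) (i := i) hN1 (hG.inv i) (hMG i) hGV J 0
    (by rw [ht_zero]) (by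
      rw [ht_zero]
      rw [div_lt_iff₀ hε0] at hJ
      linarith)
  have c2' : (N : ℝ) ^ (-a) * Pot w (qQ h (q N) N n) (G i) N 0 = Phi w h q a u s ε G J i 0 := c2
  rw [c2'] at c1
  -- the small pieces
  have hSV : Van S 1 := by
    intro γ hγ
    have hv : Van (fun γ => chi N K γ * f i γ) (1 + 0) := by
      intro x hx
      show chi N K x * f i x = 0
      rw [chi_van N K x (by linarith), zero_mul]
    show chi N K γ * PO (ws w h n) (fun p => seg ((h p : ℝ) / N)) (f i) γ -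
      PO (ws w h n) (fun p => seg ((h p : ℝ) / N)) (fun x => chi N K x * f i x) γ = 0
    rw [chi_van N K γ hγ, PO_van hv (fun p => by rw [ht_seg]; positivity) γ hγ]
    ring
  have hMNK : 0 ≤ M * ((N : ℝ) / K) * m := by positivity
  have c3 := Pot_bd (q := qQ h (q N) N n) hr W hN1 hMNK hSbd hSV (ht_qQ (hq N) n) N N 0 (by
    rw [ht_zero, div_self hNr.ne', sub_self])
  -- numbers
  have d1 : 2 * M * ee u k (N - K) N ≤ δ / 3 := by
    have h5 := h1 N K hK1 hK2
    have h6 : ((K : ℝ) / N) ^ (1 - a) ≤ (2 * η) ^ (1 - a) := by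
      refine Real.rpow_le_rpow (by positivity) ?_ ha2.le
      rw [div_le_iff₀ hNr]
      linarith
    calc 2 * M * ee u k (N - K) N ≤ 2 * M * (C1 * (2 * η) ^ (1 - a)) := by
          refine mul_le_mul_of_nonneg_left (h5.trans ?_) (by positivity)
          exact mul_le_mul_of_nonneg_left h6 h10.le
      _ = 2 * M * C1 * (2 * η) ^ (1 - a) := by ring
      _ ≤ δ / 3 := hη
  have d2 : L * (5 / 2 * m) * UU u N + M * ((N : ℝ) / K) * m * UU u N ≤ δ / 3 := by
    have h5 : (N : ℝ) / K ≤ 1 / η := by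
      rw [div_le_div_iff₀ hKr hη0]
      linarith
    have hUU0 : 0 ≤ UU u N := by
      unfold UU
      exact sum_nonneg fun i _ => u_nonneg hr i
    calc L * (5 / 2 * m) * UU u N + M * ((N : ℝ) / K) * m * UU u N
        = (L * (5 / 2) + M * ((N : ℝ) / K)) * (m * UU u N) := by ring
      _ ≤ (L * (5 / 2) + M * (1 / η)) * (C2 * C3 * (2 * ε) ^ (1 - a)) := by
          refine mul_le_mul ?_ hmle (by positivity) (by positivity)
          gcongr
      _ = (L * (5 / 2 * C2) + M * (1 / η) * C2) * C3 * (2 * ε) ^ (1 - a) := by ring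
      _ ≤ δ / 3 := hε
  rw [abs_le] at c1 c3 ⊢
  constructor <;> linarith [c1.1, c1.2, c3.1, c3.2]

end Struct
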