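import Pool.Agent.Struct.S11
import Pool.Agent.TightN.Final
import Pool.Agent.PHW.IrrDec
import Pool.Agent.PHW.TopA

/-! STRUCT, T1: the curves of concatenated words. -/

set_option autoImplicit false

namespace Struct

open Filter Topology Finset HexObs

/-- a bridge followed by a word -/
lemma vx_cat {c : ℕ} {s : List Bool} (hs : s ∈ Brd c) (p : List Bool) (i : ℕ) :
    vx oo up (s ++ p) (s.length + i) = vx oo up s s.length + vx oo up p i := by
  have h1 : vx oo up (s ++ p) (s.length + i) =
      vs (vx oo up (s ++ p) s.length) (dx up (s ++ p) s.length) (fun k => tf (s ++ p) (s.length + k)) i :=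
    vs_shift oo up (tf (s ++ p)) s.length i
  have h2 : (fun k => tf (s ++ p) (s.length + k)) = tf p := by
    funext k
    exact tf_append_right k
  rw [h1, h2, vx_append (by omega), dx_append le_rfl, (mem_Brd.1 hs).2.2.1]
  exact vx_shift _ _ _

lemma zp_left (s p : List Bool) {i : ℕ} (hi : i ≤ s.length) : zp (s ++ p) i = zp s i := by
  unfold zp
  rw [vx_append (by omega)]

lemma zp_cat {c : ℕ} {s : List Bool} (hs : s ∈ Brd c) (p : List Bool) (i : ℕ) :
    zp (s ++ p) (s.length + i) = zp s s.length + zp p i := by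
  unfold zp
  rw [vx_cat hs, emb_add, add_mul]

lemma poly_eq (z : ℕ → ℂ) (n : ℕ) (x : unitInterval) :
    Tight.poly z n x = z 0 + ∑ i ∈ range n, ((max 0 (min 1 ((x : ℝ) * n - i)) : ℝ) : ℂ) * (z (i + 1) - z i) := rfl

/-- reparametrisation by a clamped affine function -/
noncomputable def aff (A B : ℝ) (hA : 0 ≤ A) (hB : B ≤ 0) (hAB : 1 ≤ A + B) : Rep where
  f := ⟨fun x => Set.projIcc (0 : ℝ) 1 zero_le_one (A * (x : ℝ) + B), by fun_prop⟩
  mono := by
    intro x y hxy
    have : (x : ℝ) ≤ y := hxy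
    exact Set.monotone_projIcc (zero_le_one : (0 : ℝ) ≤ 1) (by nlinarith)
  zero := by
    apply Subtype.ext
    show ((Set.projIcc (0 : ℝ) 1 zero_le_one (A * ((0 : unitInterval) : ℝ) + B) : unitInterval) : ℝ) = 0
    rw [Set.coe_projIcc, Set.Icc.coe_zero, mul_zero, zero_add, min_eq_right (by linarith), max_eq_left hB]
  one := by
    apply Subtype.ext
    show ((Set.projIcc (0 : ℝ) 1 zero_le_one (A * ((1 : unitInterval) : ℝ) + B) : unitInterval) : ℝ) = 1
    rw [Set.coe_projIcc, Set.Icc.coe_one, mul_one, min_eq_left hAB, max_eq_right zero_le_one]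

lemma aff_coe (A B : ℝ) (hA : 0 ≤ A) (hB : B ≤ 0) (hAB : 1 ≤ A + B) (x : unitInterval) :
    (((aff A B hA hB hAB).f x : unitInterval) : ℝ) = max 0 (min 1 (A * x + B)) := by
  show ((Set.projIcc (0 : ℝ) 1 zero_le_one (A * (x : ℝ) + B) : unitInterval) : ℝ) = _
  rw [Set.coe_projIcc]

/-- two polygonal curves -/
lemma poly_cat (z y v : ℕ → ℂ) {a b : ℕ} (ha : 1 ≤ a) (hb : 1 ≤ b) (h1 : ∀ i ≤ a, z i = y i) (hv0 : v 0 = 0)
    (h2 : ∀ i ≤ b, z (a + i) = y a + v i) {F : Cv → ℝ} (hF : Inv F) :
    F (Tight.poly z (a + b)) = F (cat (Tight.poly y a) (Tight.poly v b)) := by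
  have ha0 : (0 : ℝ) < a := by exact_mod_cast ha
  have hb0 : (0 : ℝ) < b := by exact_mod_cast hb
  let α := aff (((a : ℝ) + b) / a) 0 (by positivity) le_rfl (by
    rw [add_zero, one_le_div ha0]
    linarith)
  let β := aff (((a : ℝ) + b) / b) (-(a : ℝ) / b) (by positivity) (by
    rw [neg_div]
    have : 0 ≤ (a : ℝ) / b := by positivity
    linarith) (by
    have : ((a : ℝ) + b) / b + -(a : ℝ) / b = 1 := by
      field_simp
      ring
    rw [this])
  have hα : ∀ x : unitInterval, ((α.f x : unitInterval) : ℝ) * a = min (a : ℝ) (((a : ℝ) + b) * (x : ℝ)) := by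
    intro x
    rw [aff_coe, add_zero]
    have h3 : 0 ≤ ((a : ℝ) + b) / a * x := mul_nonneg (by positivity) x.2.1
    rw [max_eq_right (le_min zero_le_one h3), min_mul_of_nonneg _ _ ha0.le, one_mul]
    congr 1
    field_simp
  have hβ : ∀ x : unitInterval, ((β.f x : unitInterval) : ℝ) * b = max 0 (((a : ℝ) + b) * (x : ℝ) - a) := by
    intro x
    rw [aff_coe]
    have h3 : ((a : ℝ) + b) / b * x + -(a : ℝ) / b ≤ 1 := by
      rw [div_mul_eq_mul_div, ← add_div, div_le_one hb0]
      have := mul_le_mul_of_nonneg_left x.2.2 (show 0 ≤ (a : ℝ) + b by positivity)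
      linarith
    rw [min_eq_right h3, max_mul_of_nonneg _ _ hb0.le, zero_mul]
    congr 1
    field_simp
    ring
  have hαβ : ∀ x, α.f x = 1 ∨ β.f x = 0 := by
    intro x
    rcases le_total (a : ℝ) (((a : ℝ) + b) * (x : ℝ)) with h | h
    · left
      apply Subtype.ext
      have h3 := hα x
      rw [min_eq_left h] at h3
      show ((α.f x : unitInterval) : ℝ) = 1
      exact mul_right_cancel₀ ha0.ne' (by rw [h3, one_mul])
    · right
      apply Subtype.ext
      have h3 := hβ x
      rw [max_eq_left (by linarith)] at h3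
      show ((β.f x : unitInterval) : ℝ) = 0
      exact (mul_eq_zero.1 h3).resolve_right hb0.ne'
  have e : Tight.poly z (a + b) = (Tight.poly y a).comp α.f + (Tight.poly v b).comp β.f := by
    ext x
    show Tight.poly z (a + b) x = Tight.poly y a (α.f x) + Tight.poly v b (β.f x)
    rw [poly_eq, poly_eq, poly_eq, hα, hβ, sum_range_add, hv0, h1 0 (by omega), zero_add]
    have e1 : ∀ i ∈ range a, ((max 0 (min 1 ((x : ℝ) * ((a + b : ℕ) : ℝ) - i)) : ℝ) : ℂ) * (z (i + 1) - z i) =
        ((max 0 (min 1 (min (a : ℝ) (((a : ℝ) + b) * (x : ℝ)) - i)) : ℝ) : ℂ) * (y (i + 1) - y i) := by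
      intro i hi
      have hi' := mem_range.1 hi
      rw [h1 (i + 1) (by omega), h1 i (by omega)]
      congr 3
      push_cast
      have h3 : (i : ℝ) + 1 ≤ a := by exact_mod_cast hi'
      rcases le_total (a : ℝ) (((a : ℝ) + b) * (x : ℝ)) with h | h
      · rw [min_eq_left h, min_eq_left (by linarith), min_eq_left (by linarith)]
      · rw [min_eq_right h]
        congr 1
        ring
    have e2 : ∀ i ∈ range b, ((max 0 (min 1 ((x : ℝ) * ((a + b : ℕ) : ℝ) - ((a + i : ℕ) : ℝ))) : ℝ) : ℂ) *
          (z (a + i + 1) - z (a + i)) =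
        ((max 0 (min 1 (max 0 (((a : ℝ) + b) * (x : ℝ) - a) - i)) : ℝ) : ℂ) * (v (i + 1) - v i) := by
      intro i hi
      have hi' := mem_range.1 hi
      rw [add_assoc, h2 (i + 1) (by omega), h2 i (by omega)]
      have e3 : y a + v (i + 1) - (y a + v i) = v (i + 1) - v i := by ring
      rw [e3]
      congr 2
      push_cast
      have h3 : (0 : ℝ) ≤ i := Nat.cast_nonneg i
      rcases le_total (((a : ℝ) + b) * (x : ℝ) - a) 0 with h | h
      · rw [max_eq_left h, min_eq_right (by linarith), max_eq_left (by linarith), min_eq_right (by linarith),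
          max_eq_left (by linarith)]
      · rw [max_eq_right h]
        congr 2
        ring
    rw [sum_congr rfl e1, sum_congr rfl e2]
    ring
  rw [e]
  exact hF.cat_of _ _ α β hαβ

lemma curve_nil (N : ℕ) : curve N [] = 0 := by
  ext x
  show Tight.poly (fun i => zp [] i / N) 0 x = 0
  rw [poly_eq, range_zero, sum_empty, add_zero, zp_zero, zero_div]

/-- the curve of a concatenation -/
theorem curve_cat {c : ℕ} {s : List Bool} (hs : s ∈ Brd c) (p : List Bool) (N : ℕ) {F : Cv → ℝ} (hF : Inv F) :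
    F (curve N (s ++ p)) = F (cat (curve N s) (curve N p)) := by
  rcases Nat.eq_zero_or_pos s.length with h0 | h0
  · have e : s = [] := List.length_eq_zero_iff.1 h0
    rw [e, List.nil_append, curve_nil, hF.zero_cat]
  · rcases Nat.eq_zero_or_pos p.length with h1 | h1
    · have e : p = [] := List.length_eq_zero_iff.1 h1
      rw [e, List.append_nil, curve_nil, hF.cat_zero]
    · unfold curve
      rw [List.length_append]
      refine poly_cat _ _ _ h0 h1 (fun i hi => ?_) ?_ (fun i _ => ?_) hF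
      · rw [zp_left s p hi]
      · rw [zp_zero, zero_div]
      · rw [zp_cat hs, add_div]

lemma ht_curve {c : ℕ} {s : List Bool} (hs : s ∈ Brd c) {N : ℕ} (hN : 1 ≤ N) : ht (curve N s) = c / N := by
  have hN0 : (0 : ℝ) < N := by exact_mod_cast hN
  unfold ht curve
  rw [Tight.poly_one, Complex.div_natCast_im, zp_im, (mem_Brd.1 hs).2.2.2]
  push_cast
  field_simp

lemma ht_curve_zero {s : List Bool} : ht (curve 0 s) = 0 := by
  unfold ht curve
  rw [Tight.poly_one]
  simp

lemma ht_curve' {c : ℕ} {s : List Bool} (hs : s ∈ Brd c) (N : ℕ) : ht (curve N s) = c / N := by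
  rcases Nat.eq_zero_or_pos N with rfl | hN
  · rw [ht_curve_zero]
    simp
  · exact ht_curve hs hN

/-- scaling -/
lemma curve_smul {N T : ℕ} (hN : 1 ≤ N) (hT : 1 ≤ T) (s : List Bool) : curve N s = ((T : ℝ) / N) • curve T s := by
  have hN0 : (N : ℂ) ≠ 0 := by exact_mod_cast (by omega : N ≠ 0)
  have hT0 : (T : ℂ) ≠ 0 := by exact_mod_cast (by omega : T ≠ 0)
  ext x
  show Tight.poly (fun i => zp s i / N) s.length x = ((T : ℝ) / N) • Tight.poly (fun i => zp s i / T) s.length x
  rw [poly_eq, poly_eq, Complex.real_smul, mul_add, mul_sum]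
  push_cast
  congr 1
  · field_simp
  · refine sum_congr rfl fun i _ => ?_
    field_simp

end Struct
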