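import Pool.Agent.Struct.T9

/-! STRUCT, T10: tightness of the two families, convergence for the bounded continuous functions. -/

set_option autoImplicit false

namespace Struct

open Filter Topology Finset HexObs

open scoped ENNReal

/-- a reparametrisation is Hoelder continuous -/
def Good (M α : NNReal) (γ : Cv) : Prop := ∃ ρ : Rep, (γ.comp ρ.f) 0 = 0 ∧ HolderWith M α (γ.comp ρ.f)

lemma Good.mono {M M' α : NNReal} {γ : Cv} (h : Good M α γ) (hM : M ≤ M') : Good M' α γ := by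
  obtain ⟨ρ, h1, h2⟩ := h
  exact ⟨ρ, h1, h2.mono hM⟩

lemma Good.smul {M α : NNReal} {γ : Cv} (h : Good M α γ) (c : ℝ) : Good (Real.nnabs c * M) α (c • γ) := by
  obtain ⟨ρ, h1, h2⟩ := h
  refine ⟨ρ, ?_, fun x y => ?_⟩
  · show c • (γ.comp ρ.f) 0 = 0
    rw [h1, smul_zero]
  · show edist (c • (γ.comp ρ.f) x) (c • (γ.comp ρ.f) y) ≤ _
    rw [edist_smul₀, ENNReal.coe_mul, mul_assoc]
    refine le_trans (le_of_eq ?_) (mul_le_mul_right (h2 x y) _)
    rfl

lemma good_compact (M : NNReal) {α : NNReal} (hα : 0 < α) : ∃ K : Set Cv, IsCompact K ∧ ∀ γ, Good M α γ → ∃ ρ : Rep, γ.comp ρ.f ∈ K :=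
  ⟨_, Tight.isCompact_holder M α hα, fun _ ⟨ρ, h1, h2⟩ => ⟨ρ, h1, h2⟩⟩

open Classical in
lemma half_good' {ε : ℝ} (hε : 0 < ε) {α : NNReal} {X : ℕ → List Bool → Cv}
    (hX : ∀ T t, ∃ r : unitInterval ≃ₜ unitInterval, Monotone r ∧ ∀ x, X T t x = curve T t (r x)) {M : NNReal} {T : ℕ}
    (hM : gf {t | t ∈ FCW T ∧ ¬ HolderWith M α (X T t)} ≤ ENNReal.ofReal ε) :
    ∑' t, (if Good M α (curve T t) then 0 else vK T t) ≤ ε := by
  have h1 : ∑' t, (if Good M α (curve T t) then 0 else (FCW T).indicator wE t) ≤ ENNReal.ofReal ε := by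
    refine le_trans ?_ hM
    unfold gf
    have h3 := _root_.tsum_subtype {t | t ∈ FCW T ∧ ¬ HolderWith M α (X T t)} wE
    rw [h3]
    refine ENNReal.tsum_le_tsum fun t => ?_
    by_cases h5 : Good M α (curve T t)
    · rw [if_pos h5]
      exact zero_le
    · rw [if_neg h5]
      by_cases h4 : t ∈ FCW T
      · rw [Set.indicator_of_mem h4, Set.indicator_of_mem]
        exact ⟨h4, fun hH => h5 (good_word (hX T t) hH)⟩
      · rw [Set.indicator_of_notMem h4]
        exact zero_le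
  have h2 := ENNReal.toReal_le_of_le_ofReal hε.le h1
  refine le_trans (le_of_eq ?_) h2
  rw [ENNReal.tsum_toReal_eq fun t => by
    unfold Set.indicator
    split_ifs <;> simp [wE_ne_top]]
  refine tsum_congr fun t => ?_
  unfold vK
  split_ifs <;> simp

open Classical in
lemma exc_good' {a b : ℝ} (ha : 0 < a) (ha1 : a < 1) (hb : 0 < b)
    (hu : Tendsto (fun n : ℕ => (n : ℝ) ^ (1 - a) * uu n) atTop (𝓝 b)) : ∃ C : ℝ, 0 < C ∧
    ∀ (ε : ℝ), 0 < ε → ∀ (α : NNReal) (X : ℕ → List Bool → Cv),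
    (∀ T t, ∃ r : unitInterval ≃ₜ unitInterval, Monotone r ∧ ∀ x, X T t x = curve T t (r x)) → ∀ (M : NNReal) (T : ℕ), 1 ≤ T →
    gf {t | t ∈ FCW T ∧ ¬ HolderWith M α (X T t)} ≤ ENNReal.ofReal ε →
    ∑' p : PI, (if Good M α (pq T p) then 0 else (T : ℝ) ^ a * wb pw ph T p) ≤ C * ε := by
  obtain ⟨C5, hC5, h5⟩ := UU_lower ha ha1 hb hu
  refine ⟨2 * C5, by positivity, fun ε hε0 α X hX M T hT hM => ?_⟩
  have hT0 : (0 : ℝ) < T := by exact_mod_cast hT
  have hTa : 0 < (T : ℝ) ^ a := Real.rpow_pos_of_pos hT0 a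
  set Bad : Set (List Bool) := {p | (∃ r, T ≤ r ∧ p ∈ Irr r) ∧ ¬ Good M α (curve T p)} with hBad
  have h1 : ENNReal.ofReal (VV uu T) * gf Bad ≤ ENNReal.ofReal ε := by
    rw [← gf_low T]
    refine le_trans ?_ hM
    refine mul_le_gf ?_ ?_
    · rintro x ⟨c, hc, hx⟩ p ⟨⟨r, hr, hp⟩, hn⟩
      refine ⟨⟨c + r, Brd_append hx hp.1, by omega, ?_⟩, fun hH => hn (good_piece hx hp.2.1 (hX T (x ++ p)) hH)⟩
      rintro c' h1 h2 ⟨s', u', b', hs', hu', h3⟩
      obtain ⟨v, hv, h4, h5⟩ := cut_nested hx hs' hp.1 hu' (by omega) h3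
      rcases hp.2.2 _ _ _ _ hv hu' h5 with h6 | h6
      · rw [h6] at hv
        have := Brd_height hv nil_mem_Brd
        omega
      · have h7 := Brd_append hs' hu'
        rw [← h3] at h7
        have h8 := Brd_append hx hp.1
        have h9 := Brd_height h7 h8
        rw [h6] at hu'
        have := Brd_height hu' nil_mem_Brd
        omega
    · rintro x ⟨c, hc, hx⟩ p ⟨⟨r, hr, hp⟩, _⟩ x' ⟨c', hc', hx'⟩ p' ⟨⟨r', hr', hp'⟩, _⟩ hab
      refine (jump_unique (s := T - 1) (by omega) (by omega) (by omega) (by omega) hx hp nil_mem_Brd hx' hp' nil_mem_Brd ?_).1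
      rw [List.append_nil, List.append_nil, hab]
  have hVU : (T : ℝ) ^ a ≤ 2 * C5 * VV uu T := by
    have h6 := h5 T hT
    have h7 : CutLim.UU uu T ≤ 2 * VV uu T := by
      have e : CutLim.UU uu T = VV uu T + uu T := by
        unfold CutLim.UU VV
        rw [sum_range_succ]
      have h8 : uu T ≤ uu 0 := uu_anti (by omega)
      have h9 : uu 0 ≤ VV uu T := by
        unfold VV
        exact single_le_sum (f := uu) (fun c _ => (uu_pos c).le) (mem_range.2 (show 0 < T by omega))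
      linarith
    nlinarith
  have hV : 0 < VV uu T := by
    by_contra hneg
    have : 2 * C5 * VV uu T ≤ 0 := by nlinarith
    linarith
  have h2 : gf Bad ≤ ENNReal.ofReal (ε / VV uu T) := by
    rw [ENNReal.ofReal_div_of_pos hV, ENNReal.le_div_iff_mul_le (Or.inl ?_) (Or.inl ENNReal.ofReal_ne_top), mul_comm]
    · exact h1
    · rw [ne_eq, ENNReal.ofReal_eq_zero, not_le]
      exact hV
  have h3 : ∑' p : PI, Bad.indicator wE p.1 = gf Bad := by
    rw [tsum_PI (g := Bad.indicator wE) fun t ht => Set.indicator_of_notMem (fun h => ht ⟨h.1.choose, h.1.choose_spec.2⟩) _]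
    unfold gf
    exact (_root_.tsum_subtype Bad wE).symm
  have h4 : ∑' p : PI, (if Good M α (pq T p) then 0 else (T : ℝ) ^ a * wb pw ph T p) =
      (T : ℝ) ^ a * (gf Bad).toReal := by
    rw [← h3, ENNReal.tsum_toReal_eq fun p => by
      unfold Set.indicator
      split_ifs <;> simp [wE_ne_top], ← tsum_mul_left]
    refine tsum_congr fun p => ?_
    by_cases h6 : Good M α (pq T p)
    · rw [if_pos h6, Set.indicator_of_notMem fun h => h.2 h6]
      simp
    · rw [if_neg h6]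
      congr 1
      unfold wb pw
      by_cases h7 : T ≤ ph p
      · rw [if_pos h7, Set.indicator_of_mem]
        exact ⟨⟨ph p, h7, ph_mem p⟩, h6⟩
      · rw [if_neg h7, Set.indicator_of_notMem]
        · simp
        · rintro ⟨⟨r, hr, hp⟩, _⟩
          have := ph_eq hp
          omega
  rw [h4]
  have h6 : (gf Bad).toReal ≤ ε / VV uu T := ENNReal.toReal_le_of_le_ofReal (by positivity) h2
  calc (T : ℝ) ^ a * (gf Bad).toReal ≤ (2 * C5 * VV uu T) * (ε / VV uu T) :=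
        mul_le_mul hVU h6 ENNReal.toReal_nonneg (by positivity)
    _ = 2 * C5 * ε := by
      field_simp

open Classical in
/-- the two families are tight, with the same exponent -/
theorem good_tight {a b : ℝ} (ha : 0 < a) (ha1 : a < 1) (hb : 0 < b)
    (hu : Tendsto (fun n : ℕ => (n : ℝ) ^ (1 - a) * uu n) atTop (𝓝 b)) : ∃ α : NNReal, 0 < α ∧
    (∀ ε : ℝ, 0 < ε → ∃ M : NNReal, ∀ T, 1 ≤ T → ∑' t, (if Good M α (curve T t) then 0 else vK T t) ≤ ε) ∧
    ∀ ε : ℝ, 0 < ε → ∃ M : NNReal, ∀ T : ℕ, 1 ≤ T →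
      ∑' p : PI, (if Good M α (pq T p) then 0 else (T : ℝ) ^ a * wb pw ph T p) ≤ ε := by
  obtain ⟨α, X, hα, hX, ht⟩ := tight_words
  obtain ⟨C, hC, h⟩ := exc_good' ha ha1 hb hu
  refine ⟨α, hα, fun ε hε => ?_, fun ε hε => ?_⟩
  · obtain ⟨M, hM⟩ := ht ε hε
    exact ⟨M, fun T hT => half_good' hε hX (hM T hT)⟩
  · obtain ⟨M, hM⟩ := ht (ε / C) (by positivity)
    refine ⟨M, fun T hT => (h (ε / C) (by positivity) α X hX M T hT (hM T hT)).trans (le_of_eq ?_)⟩
    field_simp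

section
variable {ι : Type} {l : Filter ι} {s : ι → ℕ}

lemma good_scale {x : ℝ} (hx : 0 < x) {N : ℕ} (hN : 1 ≤ N) (hT : 1 ≤ ⌈x * N⌉₊) {M α : NNReal} {t : List Bool}
    (h : Good M α (curve ⌈x * N⌉₊ t)) : Good (Real.toNNReal (x + 1) * M) α (curve N t) := by
  rw [curve_smul hN hT]
  refine (h.smul _).mono ?_
  gcongr
  rw [← NNReal.coe_le_coe, Real.coe_nnabs, Real.coe_toNNReal _ (by linarith)]
  exact ratio_bd x hx N

open Classical in
theorem half_good_scale {α : NNReal}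
    (H : ∀ ε : ℝ, 0 < ε → ∃ M : NNReal, ∀ T, 1 ≤ T → ∑' t, (if Good M α (curve T t) then 0 else vK T t) ≤ ε)
    (hs : Tendsto s l atTop) {x : ℝ} (hx : 0 < x) {ε : ℝ} (hε : 0 < ε) :
    ∃ M : NNReal, ∀ᶠ i in l, ∑' t, (if Good M α (curve (s i) t) then 0 else vK ⌈x * s i⌉₊ t) ≤ ε := by
  obtain ⟨M, hM⟩ := H ε hε
  refine ⟨Real.toNNReal (x + 1) * M, ?_⟩
  filter_upwards [hs.eventually_ge_atTop 1, (ceil_tendsto hs hx).eventually_ge_atTop 1] with i h1 h2
  have h3 := net_scale (A := fun t => Good M α (curve ⌈x * s i⌉₊ t)) (B := fun t => Good (Real.toNNReal (x + 1) * M) α (curve (s i) t))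
    (iB := fun p => Classical.propDecidable _)
    (fun t ht => good_scale hx h1 h2 ht) zero_le_one (vK_nonneg ⌈x * s i⌉₊) (vK_nonneg ⌈x * s i⌉₊) (fun t => by rw [one_mul])
    (vK_hasSum _).summable (hM _ h2)
  rwa [one_mul] at h3

open Classical in
theorem exc_good_scale {a : ℝ} (ha : 0 < a) {α : NNReal}
    (H : ∀ ε : ℝ, 0 < ε → ∃ M : NNReal, ∀ T : ℕ, 1 ≤ T →
      ∑' p : PI, (if Good M α (pq T p) then 0 else (T : ℝ) ^ a * wb pw ph T p) ≤ ε)
    (hs : Tendsto s l atTop) {x : ℝ} (hx : 0 < x) {ε : ℝ} (hε : 0 < ε) :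
    ∃ M : NNReal, ∀ᶠ i in l, ∑' p : PI, (if Good M α (pq (s i) p) then 0 else (s i : ℝ) ^ a * wb pw ph ⌈x * s i⌉₊ p) ≤ ε := by
  have hxa : 0 < x ^ a := Real.rpow_pos_of_pos hx a
  obtain ⟨M, hM⟩ := H (ε * x ^ a) (by positivity)
  refine ⟨Real.toNNReal (x + 1) * M, ?_⟩
  filter_upwards [hs.eventually_ge_atTop 1, (ceil_tendsto hs hx).eventually_ge_atTop 1] with i h1 h2
  have hNr : (0 : ℝ) < s i := by exact_mod_cast h1
  have hpow : (s i : ℝ) ^ a * x ^ a ≤ (⌈x * s i⌉₊ : ℝ) ^ a := by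
    rw [← Real.mul_rpow hNr.le hx.le]
    refine Real.rpow_le_rpow (by positivity) ?_ ha.le
    rw [mul_comm]
    exact Nat.le_ceil _
  have h3 := net_scale (A := fun p => Good M α (pq ⌈x * s i⌉₊ p)) (B := fun p => Good (Real.toNNReal (x + 1) * M) α (pq (s i) p))
    (iB := fun p => Classical.propDecidable _)
    (fun t ht => good_scale hx h1 h2 ht) (show 0 ≤ (x ^ a)⁻¹ by positivity)
    (v := fun p => (s i : ℝ) ^ a * wb pw ph ⌈x * s i⌉₊ p) (v' := fun p => (⌈x * s i⌉₊ : ℝ) ^ a * wb pw ph ⌈x * s i⌉₊ p)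
    (fun p => mul_nonneg (by positivity) (wb_nonneg wtI _ p)) (fun p => mul_nonneg (by positivity) (wb_nonneg wtI _ p))
    (fun p => by
      rw [← mul_assoc]
      refine mul_le_mul_of_nonneg_right ?_ (wb_nonneg wtI _ p)
      rw [← div_eq_inv_mul, le_div_iff₀ hxa]
      exact hpow)
    ((wb_sum wtI _).summable.mul_left _) (hM _ h2)
  refine h3.trans (le_of_eq ?_)
  field_simp

/-- convergence of the stopped walks, bounded continuous functions -/
theorem ConvA.cont {a b : ℝ} (ha : 0 < a) (ha1 : a < 1) (hb : 0 < b)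
    (hu : Tendsto (fun n : ℕ => (n : ℝ) ^ (1 - a) * uu n) atTop (𝓝 b)) (hs : Tendsto s l atTop) (hA : ConvA l s)
    {x : ℝ} (hx : 0 < x) {f : Cv → ℝ} {M : ℝ} (hM0 : 0 ≤ M) (hM : Bd f M) (hI : Inv f) (hc : Continuous f) :
    ∃ z, Tendsto (fun i => ∑' t, vK ⌈x * s i⌉₊ t * f (curve (s i) t)) l (𝓝 z) := by
  classical
  obtain ⟨α, hα, H, _⟩ := good_tight ha ha1 hb hu
  refine cont_of_test (fun i => vK_nonneg _) (fun i => (vK_hasSum _).summable) zero_le_one
    (fun i => (vK_hasSum _).tsum_eq.le) (fun ε hε => ?_) (fun F hF => ?_) hM0 hM hI hc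
  · obtain ⟨C, hC⟩ := half_good_scale H hs hx hε
    obtain ⟨K, hK, hK2⟩ := good_compact C hα
    refine ⟨K, hK, hC.mono fun i hi => ?_⟩
    have h3 := net_scale (A := fun t => Good C α (curve (s i) t)) (B := fun t => ∃ ρ : Rep, (curve (s i) t).comp ρ.f ∈ K)
      (iB := fun p => Classical.propDecidable _)
      (fun t ht => hK2 _ ht) zero_le_one (vK_nonneg ⌈x * s i⌉₊) (vK_nonneg ⌈x * s i⌉₊) (fun t => by rw [one_mul])
      (vK_hasSum _).summable hi
    rw [one_mul] at h3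
    exact h3
  · obtain ⟨M, hM0, hM⟩ := hF.bd
    obtain ⟨z, hz⟩ := hA x hx F hF
    exact ⟨z, hz.congr fun i => (vK_HH hF.inv hM _ _).symm⟩

/-- convergence of the excursions, bounded continuous functions -/
theorem ConvB.cont {a b : ℝ} (ha : 0 < a) (ha1 : a < 1) (hb : 0 < b)
    (hu : Tendsto (fun n : ℕ => (n : ℝ) ^ (1 - a) * uu n) atTop (𝓝 b)) (hs : Tendsto s l atTop) (hB : ConvB a l s)
    {x : ℝ} (hx : 0 < x) {f : Cv → ℝ} {M : ℝ} (hM0 : 0 ≤ M) (hM : Bd f M) (hI : Inv f) (hc : Continuous f) :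
    ∃ z, Tendsto (fun i => ∑' p, ((s i : ℝ) ^ a * wb pw ph ⌈x * s i⌉₊ p) * f (pq (s i) p)) l (𝓝 z) := by
  classical
  obtain ⟨α, hα, _, H⟩ := good_tight ha ha1 hb hu
  obtain ⟨C, hC0, hC⟩ := KK_scale_le CutLim.ren_uu ha ha1 hb hu
  refine cont_of_test (v := fun i p => (s i : ℝ) ^ a * wb pw ph ⌈x * s i⌉₊ p) (x := fun i => pq (s i)) (M₀ := C * x ^ (-a)) (fun i p => mul_nonneg (by positivity) (wb_nonneg wtI _ p))
    (fun i => (wb_sum wtI _).summable.mul_left _) (by positivity)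
    (fun i => ?_) (fun ε hε => ?_) (fun F hF => hB x hx F hF) hM0 hM hI hc
  · rw [tsum_mul_left, (wb_sum wtI _).tsum_eq]
    exact hC x (s i) hx
  · obtain ⟨C, hC⟩ := exc_good_scale ha H hs hx hε
    obtain ⟨K, hK, hK2⟩ := good_compact C hα
    refine ⟨K, hK, hC.mono fun i hi => ?_⟩
    have h3 := net_scale (A := fun t => Good C α (pq (s i) t)) (B := fun t => ∃ ρ : Rep, (pq (s i) t).comp ρ.f ∈ K)
      (iB := fun p => Classical.propDecidable _)
      (fun t ht => hK2 _ ht) zero_le_one (v := fun p => (s i : ℝ) ^ a * wb pw ph ⌈x * s i⌉₊ p) (fun p => mul_nonneg (by positivity) (wb_nonneg wtI _ p))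
      (fun p => mul_nonneg (by positivity) (wb_nonneg wtI _ p)) (fun t => by rw [one_mul])
      ((wb_sum wtI _).summable.mul_left _) hi
    rw [one_mul] at h3
    exact h3

end

end Struct
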