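import Pool.Agent.Struct.T10

/-! STRUCT, T11: the limit measures. -/

set_option autoImplicit false

namespace Struct

open Filter Topology Finset HexObs MeasureTheory

open scoped ENNReal

/-- mean value of a function of the curve -/
lemma integral_curves {P : Type} (π : PMF P) (Y : P → Cv) {f : Cv → ℝ} {M : ℝ} (hM : Bd f M) (hc : Continuous f) :
    ∫ g, f g ∂((π.map Y).toMeasure) = ∑' p, (π p).toReal * f (Y p) := by
  let _ : MeasurableSpace P := ⊤
  have hY : Measurable Y := measurable_from_top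
  rw [← PMF.toMeasure_map Y π hY, integral_map hY.aemeasurable hc.aestronglyMeasurable, PMF.integral_eq_tsum]
  · rfl
  · refine Integrable.of_bound (C := M) ?_ (Eventually.of_forall fun p => ?_)
    · have h1 : Measurable fun p => f (Y p) := measurable_from_top
      exact h1.aestronglyMeasurable
    · rw [Real.norm_eq_abs]
      exact hM _

open Classical in
/-- limit measure -/
theorem limit_exists {P : Type} (π : ℕ → PMF P) (x : ℕ → P → Cv) {α : NNReal} (hα : 0 < α) (h0 : ∀ k p, x k p 0 = 0)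
    (tight : ∃ k₀ : ℕ, ∀ ε : ℝ, 0 < ε → ∃ M : NNReal, ∀ k, k₀ ≤ k → ∑' p, (if Good M α (x k p) then 0 else (π k p).toReal) ≤ ε)
    (conv : ∀ (f : Cv → ℝ) (M : ℝ), 0 ≤ M → Bd f M → Inv f → Continuous f →
      ∃ z, Tendsto (fun k => ∑' p, (π k p).toReal * f (x k p)) atTop (𝓝 z)) :
    ∃ ν : ProbabilityMeasure Cv, (∀ᵐ (g : Cv) ∂(ν : Measure Cv), g 0 = 0 ∧ ∃ M : NNReal, HolderWith M α g) ∧
      ∀ (f : Cv → ℝ) (M : ℝ), 0 ≤ M → Bd f M → Inv f → Continuous f →
        Tendsto (fun k => ∑' p, (π k p).toReal * f (x k p)) atTop (𝓝 (∫ g, f g ∂(ν : Measure Cv))) := by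
  obtain ⟨k₀, hk⟩ := tight
  have key : ∀ (k : ℕ) (p : P), ∃ ρ : Rep, ∀ n : ℕ, Good n α (x k p) → HolderWith n α ((x k p).comp ρ.f) := by
    intro k p
    by_cases hex : ∃ n : ℕ, Good n α (x k p)
    · obtain ⟨ρ, _, hρ⟩ := Nat.find_spec hex
      exact ⟨ρ, fun n hn => hρ.mono (by exact_mod_cast Nat.find_min' hex hn)⟩
    · exact ⟨al, fun n hn => absurd ⟨n, hn⟩ hex⟩
  choose ρ hρ using key
  let Y : ℕ → P → Cv := fun k p => (x k p).comp (ρ k p).f
  have hY0 : ∀ k p, Y k p 0 = 0 := by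
    intro k p
    show x k p ((ρ k p).f 0) = 0
    rw [(ρ k p).zero, h0]
  let μ : ℕ → ProbabilityMeasure Cv := fun k => ⟨((π (k + k₀)).map (Y (k + k₀))).toMeasure, inferInstance⟩
  have hms : ∀ (M : NNReal), MeasurableSet {f : Cv | ¬ HolderWith M α f} := by
    intro M
    have hcl : IsClosed {f : Cv | HolderWith M α f} := by
      have e : {f : Cv | HolderWith M α f} = ⋂ x : unitInterval, ⋂ y : unitInterval,
          {f : Cv | edist (f x) (f y) ≤ M * edist x y ^ (α : ℝ)} := by
        ext f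
        simp only [HolderWith, Set.mem_iInter, Set.mem_ofPred_eq]
      rw [e]
      exact isClosed_iInter fun x => isClosed_iInter fun y =>
        isClosed_le ((continuous_eval_const x).edist (continuous_eval_const y)) continuous_const
    exact hcl.isOpen_compl.measurableSet
  have H0 : ∀ T, ∀ᵐ (f : Cv) ∂(μ T : Measure Cv), f 0 = 0 := by
    intro T
    have hcl : IsClosed {f : Cv | f 0 = 0} := isClosed_eq (continuous_eval_const 0) continuous_const
    rw [ae_iff]
    let _ : MeasurableSpace P := ⊤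
    show ((π (T + k₀)).map (Y (T + k₀))).toMeasure {f : Cv | ¬ f 0 = 0} = 0
    have hms0 : MeasurableSet {f : Cv | ¬ f 0 = 0} := hcl.isOpen_compl.measurableSet
    rw [PMF.toMeasure_map_apply _ _ _ measurable_from_top hms0]
    have e : Y (T + k₀) ⁻¹' {f : Cv | ¬ f 0 = 0} = ∅ := by
      ext p
      simp only [Set.mem_preimage, Set.mem_ofPred_eq, Set.mem_empty_iff_false, iff_false, not_not]
      exact hY0 _ p
    rw [e, measure_empty]
  have H : ∀ ε : ℝ, 0 < ε → ∃ M : NNReal, ∀ T, 1 ≤ T →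
      (μ T : Measure Cv) {f : Cv | ¬ HolderWith M α f} ≤ ENNReal.ofReal ε := by
    intro ε hε
    obtain ⟨M, hM⟩ := hk ε hε
    obtain ⟨n, hn⟩ := exists_nat_ge M
    refine ⟨n, fun T _ => ?_⟩
    have h1 := hM (T + k₀) (by omega)
    let _ : MeasurableSpace P := ⊤
    show ((π (T + k₀)).map (Y (T + k₀))).toMeasure {f : Cv | ¬ HolderWith n α f} ≤ _
    rw [PMF.toMeasure_map_apply _ _ _ measurable_from_top (hms n),
      PMF.toMeasure_apply _ (show MeasurableSet (Y (T + k₀) ⁻¹' {f : Cv | ¬ HolderWith n α f}) from trivial)]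
    have h2 : ∑' p, (Y (T + k₀) ⁻¹' {f : Cv | ¬ HolderWith n α f}).indicator (π (T + k₀)) p ≤
        ∑' p, (if Good M α (x (T + k₀) p) then 0 else π (T + k₀) p) := by
      refine ENNReal.tsum_le_tsum fun p => ?_
      by_cases h3 : Good M α (x (T + k₀) p)
      · rw [if_pos h3, Set.indicator_of_notMem]
        intro h4
        exact h4 (hρ _ p n (h3.mono hn))
      · rw [if_neg h3]
        exact Set.indicator_le_self _ _ _
    refine h2.trans ?_
    have h4 : ∑' p, (if Good M α (x (T + k₀) p) then 0 else π (T + k₀) p) ≠ ∞ := by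
      refine ne_top_of_le_ne_top (π (T + k₀)).tsum_coe_ne_top (ENNReal.tsum_le_tsum fun p => ?_)
      split_ifs
      · exact zero_le
      · exact le_rfl
    rw [ENNReal.le_ofReal_iff_toReal_le h4 hε.le]
    refine le_trans (le_of_eq ?_) h1
    rw [ENNReal.tsum_toReal_eq fun p => ?_]
    · refine tsum_congr fun p => ?_
      split_ifs <;> simp
    · split_ifs
      · exact ENNReal.zero_ne_top
      · exact PMF.apply_ne_top _ _
  obtain ⟨ψ, hψ, ν, hν1, hν2⟩ := Tight.subseq_of_holder hα μ H0 H id strictMono_id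
  refine ⟨ν, hν2, fun f M hM0 hM hI hc => ?_⟩
  obtain ⟨z, hz⟩ := conv f M hM0 hM hI hc
  have h1 : Tendsto (fun k => ∫ g, f g ∂(μ (id (ψ k)) : Measure Cv)) atTop (𝓝 (∫ g, f g ∂(ν : Measure Cv))) := by
    have := (ProbabilityMeasure.tendsto_iff_forall_integral_tendsto.1 hν1)
      (BoundedContinuousFunction.ofNormedAddCommGroup f hc M fun g => by rw [Real.norm_eq_abs]; exact hM g)
    exact this
  have h2 : ∀ k, ∫ g, f g ∂(μ k : Measure Cv) = ∑' p, (π (k + k₀) p).toReal * f (x (k + k₀) p) := by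
    intro k
    show ∫ g, f g ∂(((π (k + k₀)).map (Y (k + k₀))).toMeasure) = _
    rw [integral_curves _ _ hM hc]
    exact tsum_congr fun p => by rw [hI (x (k + k₀) p) (ρ (k + k₀) p)]
  have h3 : Tendsto (fun k => ∑' p, (π (ψ k + k₀) p).toReal * f (x (ψ k + k₀) p)) atTop (𝓝 z) :=
    hz.comp (tendsto_atTop_mono (fun k => Nat.le_add_right _ _) hψ.tendsto_atTop)
  have h4 : z = ∫ g, f g ∂(ν : Measure Cv) := by
    refine tendsto_nhds_unique h3 (h1.congr fun k => ?_)
    exact h2 (ψ k)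
  rw [← h4]
  exact hz

end Struct
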