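import Pool.Agent.Struct.T1
import Pool.Agent.PHW.ViaE
import Pool.Agent.CutLim.Dim4

/-! STRUCT, T2: the irreducible words as pieces. -/

set_option autoImplicit false

namespace Struct

open Filter Topology Finset HexObs

open scoped ENNReal

/-- irreducible words -/
abbrev PI := {p : List Bool // ∃ r, p ∈ Irr r}

/-- height -/
noncomputable def ph (p : PI) : ℕ := p.2.choose

lemma ph_mem (p : PI) : p.1 ∈ Irr (ph p) := p.2.choose_spec

lemma ph_eq {p : PI} {r : ℕ} (h : p.1 ∈ Irr r) : ph p = r := Brd_height (ph_mem p).1 h.1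

/-- weight -/
noncomputable def pw (p : PI) : ℝ := (wE p.1).toReal

/-- rescaled curve -/
noncomputable def pq (N : ℕ) (p : PI) : Cv := curve N p.1

lemma wE_ne_top (t : List Bool) : wE t ≠ ∞ := ENNReal.ofReal_ne_top

lemma wE_append (s t : List Bool) : wE (s ++ t) = wE s * wE t := by
  unfold wE
  rw [List.length_append, pow_add, ENNReal.ofReal_mul (pow_nonneg xc_pos.le _)]

lemma hasSum_toReal' {α : Type} {f : α → ℝ≥0∞} {m : ℝ≥0∞} (hm : ∑' x, f x = m) (h : m ≠ ∞) :
    HasSum (fun x => (f x).toReal) m.toReal := by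
  subst hm
  have h1 := ENNReal.hasSum_toReal h
  rwa [← ENNReal.tsum_toReal_eq (ENNReal.ne_top_of_tsum_ne_top h)] at h1

lemma tsum_PI {g : List Bool → ℝ≥0∞} (hg : ∀ t, (¬ ∃ r, t ∈ Irr r) → g t = 0) : ∑' p : PI, g p.1 = ∑' t, g t := by
  have h1 := tsum_subtype {t : List Bool | ∃ r, t ∈ Irr r} g
  rw [show ∑' p : PI, g p.1 = ∑' p : {t : List Bool | ∃ r, t ∈ Irr r}, g p.1 from rfl, h1]
  refine tsum_congr fun t => ?_
  by_cases ht : t ∈ {t : List Bool | ∃ r, t ∈ Irr r}
  · rw [Set.indicator_of_mem ht]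
  · rw [Set.indicator_of_notMem ht, hg t ht]

lemma law_E (r : ℕ) : ∑' p : PI, (if ph p = r then wE p.1 else 0) = kap' r := by
  classical
  have h1 : ∑' p : PI, (if ph p = r then wE p.1 else 0) = ∑' p : PI, (Irr r).indicator wE p.1 := by
    refine tsum_congr fun p => ?_
    by_cases h : ph p = r
    · rw [if_pos h, Set.indicator_of_mem (by rw [← h]; exact ph_mem p)]
    · rw [if_neg h, Set.indicator_of_notMem fun h' => h (ph_eq h')]
  rw [h1, tsum_PI (g := (Irr r).indicator wE) fun t ht => Set.indicator_of_notMem (fun h => ht ⟨r, h⟩) _]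
  unfold kap' gf
  exact (tsum_subtype (Irr r) wE).symm

lemma one_E : ∑' p : PI, wE p.1 = 1 := by
  have h1 : ∀ p : PI, wE p.1 = ∑' r : ℕ, (if ph p = r then wE p.1 else 0) := by
    intro p
    rw [tsum_eq_single (ph p) fun r hr => if_neg (Ne.symm hr), if_pos rfl]
  rw [tsum_congr h1, ENNReal.tsum_comm, tsum_congr law_E, tsum_congr kap'_eq,
    ← ENNReal.ofReal_tsum_of_nonneg (fun r => kk_nonneg _) summable_kk, tsum_kk, ENNReal.ofReal_one]

theorem wtI : Wt pw ph kk where
  w0 := fun p => ENNReal.toReal_nonneg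
  w1 := by
    have h := hasSum_toReal' one_E ENNReal.one_ne_top
    rwa [ENNReal.toReal_one] at h
  h1 := fun p => Irr_pos (ph_mem p)
  law := fun r => by
    have h := hasSum_toReal' (law_E r) (by rw [kap'_eq]; exact ENNReal.ofReal_ne_top)
    refine h.congr_fun ?_
    intro p
    unfold pw
    split_ifs
    · rfl
    · rw [ENNReal.toReal_zero]

lemma ht_pq (N : ℕ) (p : PI) : ht (pq N p) = ph p / N := ht_curve' (ph_mem p).1 N

/-- the words of the stopped walk begin with a piece -/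
lemma FCW_first {T : ℕ} (hT : 1 ≤ T) {t : List Bool} (ht : t ∈ FCW T) :
    ∃ (p : PI) (v : List Bool), v ∈ FCW (T - ph p) ∧ t = p.1 ++ v := by
  obtain ⟨j, hB, hj, hcut⟩ := ht
  obtain ⟨r, s, v, h1, h2, hs, hv, htt⟩ := Brd_first hB (by omega)
  refine ⟨⟨s, r, hs⟩, v, ⟨j - r, ?_⟩, htt⟩
  have e : ph ⟨s, r, hs⟩ = r := ph_eq hs
  rw [e]
  refine ⟨hv, by omega, ?_⟩
  rintro c hc1 hc2 ⟨a, b, m, ha, hb, hab⟩
  by_cases hc : T ≤ r + c
  · refine hcut (r + c) hc (by omega) ⟨s ++ a, b, m, Brd_append hs.1 ha, hb, ?_⟩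
    rw [htt, hab, List.append_assoc]
  · omega

lemma FCW_cons {T : ℕ} (hT : 1 ≤ T) (p : PI) {v : List Bool} (hv : v ∈ FCW (T - ph p)) : p.1 ++ v ∈ FCW T := by
  obtain ⟨j, hB, hj, hcut⟩ := hv
  have hp := ph_mem p
  refine ⟨ph p + j, Brd_append hp.1 hB, by omega, ?_⟩
  rintro c hc1 hc2 ⟨a, b, m, ha, hb, hab⟩
  rcases le_total (ph p) c with hpc | hpc
  · obtain ⟨x, hx, e1, e2⟩ := cut_nested hp.1 ha hB hb hpc hab
    exact hcut (c - ph p) (by omega) (by omega) ⟨x, b, m, hx, hb, e2⟩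
  · obtain ⟨x, hx, e1, e2⟩ := cut_nested ha hp.1 hb hB hpc hab.symm
    rcases hp.2.2 _ _ _ _ ha hx e1 with h3 | h3
    · rw [h3] at ha
      have := Brd_height ha nil_mem_Brd
      omega
    · rw [h3, List.append_nil] at e1
      have h4 : ph p = c := Brd_height hp.1 (e1 ▸ ha)
      exact hcut 0 (by omega) (by omega) ⟨[], v, j, nil_mem_Brd, hB, rfl⟩

/-- the stopped words -/
abbrev WD (T : ℕ) := {t : List Bool // t ∈ FCW T}

lemma wd_unique {T : ℕ} {p p' : PI} {v v' : List Bool} (hv : v ∈ FCW (T - ph p)) (hv' : v' ∈ FCW (T - ph p'))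
    (h : p.1 ++ v = p'.1 ++ v') : p = p' ∧ v = v' := by
  obtain ⟨j, hB, _⟩ := hv
  obtain ⟨j', hB', _⟩ := hv'
  have := Irr_unique (ph_mem p) (ph_mem p') hB hB' h
  exact ⟨Subtype.ext this.1, this.2⟩

/-- decomposition of the stopped words -/
noncomputable def wdE {T : ℕ} (hT : 1 ≤ T) : (Σ p : PI, WD (T - ph p)) ≃ WD T :=
  Equiv.ofBijective (fun x => ⟨x.1.1 ++ x.2.1, FCW_cons hT x.1 x.2.2⟩) (by
    constructor
    · rintro ⟨p, v, hv⟩ ⟨p', v', hv'⟩ h
      have h1 : p.1 ++ v = p'.1 ++ v' := congrArg Subtype.val h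
      obtain ⟨h2, h3⟩ := wd_unique hv hv' h1
      subst h2
      subst h3
      rfl
    · rintro ⟨t, ht⟩
      obtain ⟨p, v, hv, e⟩ := FCW_first hT ht
      exact ⟨⟨p, v, hv⟩, Subtype.ext e.symm⟩)

lemma wd_sum (T : ℕ) : ∑' t : WD T, wE t.1 = 1 := by
  rw [← tsum_FCW T]
  exact tsum_subtype (FCW T) wE

lemma wd_hasSum (T : ℕ) : HasSum (fun t : WD T => (wE t.1).toReal) 1 := by
  have h := hasSum_toReal' (wd_sum T) ENNReal.one_ne_top
  rwa [ENNReal.toReal_one] at h

lemma FCW_zero : FCW 0 = {[]} := by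
  ext t
  constructor
  · rintro ⟨j, hj, _, hcut⟩
    rcases Nat.eq_zero_or_pos j with rfl | h
    · rw [Brd_zero] at hj
      exact hj
    · exact absurd ⟨[], t, j, nil_mem_Brd, hj, rfl⟩ (hcut 0 le_rfl h)
  · intro h
    have h' : t = [] := h
    rw [h']
    exact ⟨0, nil_mem_Brd, le_rfl, fun c _ h2 => absurd h2 (Nat.not_lt_zero c)⟩

/-- the expectation over the stopped words -/
theorem sum_WD {F : Cv → ℝ} (hF : Inv F) {M : ℝ} (hM : Bd F M) (N : ℕ) (T : ℕ) :
    ∀ (c : ℕ) (g : List Bool), g ∈ Brd c →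
      ∑' t : WD T, (wE t.1).toReal * F (curve N (g ++ t.1)) = HH pw ph (pq N) F T (curve N g) := by
  induction T using Nat.strong_induction_on with
  | _ T ih =>
    intro c g hg
    rcases Nat.eq_zero_or_pos T with rfl | hT
    · rw [HH_zero]
      have hn : ([] : List Bool) ∈ FCW 0 := by rw [FCW_zero]; rfl
      rw [tsum_eq_single (⟨[], hn⟩ : WD 0)]
      · show (wE []).toReal * F (curve N (g ++ [])) = _
        rw [List.append_nil]
        unfold wE
        simp
      · rintro ⟨t, ht⟩ hne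
        exfalso
        rw [FCW_zero] at ht
        exact hne (Subtype.ext ht)
    · rw [HH_succ wtI.h1 F hT, ← (wdE hT).tsum_eq]
      have hs : Summable fun x : Σ p : PI, WD (T - ph p) =>
          (wE ((wdE hT) x).1).toReal * F (curve N (g ++ ((wdE hT) x).1)) := by
        have h1 : Summable fun t : WD T => (wE t.1).toReal * F (curve N (g ++ t.1)) :=
          summable_mul (fun t => ENNReal.toReal_nonneg) (wd_hasSum T).summable fun t => hM _
        exact (wdE hT).summable_iff.2 h1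
      rw [hs.tsum_sigma]
      refine tsum_congr fun p => ?_
      have h1p := wtI.h1 p
      have e : ∀ v : WD (T - ph p), (wE ((wdE hT) ⟨p, v⟩).1).toReal * F (curve N (g ++ ((wdE hT) ⟨p, v⟩).1)) =
          pw p * ((wE v.1).toReal * F (curve N (g ++ p.1 ++ v.1))) := by
        intro v
        have e1 : ((wdE hT) ⟨p, v⟩).1 = p.1 ++ v.1 := rfl
        rw [e1, wE_append, ENNReal.toReal_mul, List.append_assoc]
        unfold pw
        ring
      rw [tsum_congr e, tsum_mul_left, ih (T - ph p) (by omega) (c + ph p) (g ++ p.1) (Brd_append hg (ph_mem p).1)]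
      congr 1
      refine curve_cat hg p.1 N ?_
      -- invariance of HH
      have hinv : ∀ n, Inv (HH pw ph (pq N) F n) := by
        intro n
        induction n using Nat.strong_induction_on with
        | _ n ihn =>
          intro γ ρ
          rcases Nat.eq_zero_or_pos n with rfl | hn
          · rw [HH_zero, HH_zero]
            exact hF γ ρ
          · rw [HH_succ wtI.h1 F hn, HH_succ wtI.h1 F hn]
            refine tsum_congr fun p' => ?_
            congr 1
            have := wtI.h1 p'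
            exact (ihn (n - ph p') (by omega)).cat_left _ γ ρ
      exact hinv _

end Struct
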