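import Pool.Agent.Struct.T2
import Pool.Agent.Tight.LatT

/-! STRUCT, T3: the first moment of the size of the small pieces. -/

set_option autoImplicit false

namespace Struct

open Filter Topology Finset HexObs

open scoped ENNReal

/-- the largest horizontal coordinate -/
def latmax (t : List Bool) : ℕ := (range (t.length + 1)).sup fun i => (lat t i).natAbs

lemma le_latmax (t : List Bool) {i : ℕ} (hi : i ≤ t.length) : |lat t i| ≤ (latmax t : ℤ) := by
  have h := Finset.le_sup (f := fun i => (lat t i).natAbs) (mem_range.2 (Nat.lt_succ_of_le hi))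
  rw [Int.abs_eq_natAbs]
  exact_mod_cast h

lemma lt_latmax {t : List Bool} {B : ℕ} (h : B < latmax t) : ∃ i ≤ t.length, (B : ℤ) < |lat t i| := by
  unfold latmax at h
  rw [Finset.lt_sup_iff] at h
  obtain ⟨i, hi, h1⟩ := h
  refine ⟨i, Nat.lt_succ_iff.1 (mem_range.1 hi), ?_⟩
  rw [Int.abs_eq_natAbs]
  exact_mod_cast h1

/-- the size of a curve -/
lemma norm_poly_le {z : ℕ → ℂ} {n : ℕ} {B : ℝ} (hB : ∀ i ≤ n, ‖z i‖ ≤ B) (x : unitInterval) : ‖Tight.poly z n x‖ ≤ B := by
  rcases Nat.eq_zero_or_pos n with rfl | hn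
  · rw [poly_eq, range_zero, sum_empty, add_zero]
    exact hB 0 le_rfl
  · obtain ⟨i, hi, h1, h2⟩ := Tight.th2_idx hn x
    rw [Tight.poly_apply hi h1 h2]
    set θ : ℝ := (x : ℝ) * n - i with hθ
    have hθ0 : 0 ≤ θ := by rw [hθ]; linarith
    have hθ1 : θ ≤ 1 := by rw [hθ]; linarith
    have e : z i + (θ : ℂ) * (z (i + 1) - z i) = ((1 - θ : ℝ) : ℂ) * z i + (θ : ℂ) * z (i + 1) := by
      push_cast
      ring
    rw [e]
    refine (norm_add_le _ _).trans ?_
    rw [norm_mul, norm_mul, Complex.norm_real, Complex.norm_real, Real.norm_of_nonneg hθ0, Real.norm_of_nonneg (by linarith)]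
    have a1 := mul_le_mul_of_nonneg_left (hB i hi.le) (show 0 ≤ 1 - θ by linarith)
    have a2 := mul_le_mul_of_nonneg_left (hB (i + 1) hi) hθ0
    linarith

lemma dist_curve_le {r : ℕ} {t : List Bool} (ht : t ∈ Brd r) {N : ℕ} (hN : 1 ≤ N) :
    dist (curve N t) 0 ≤ ((2 * r + latmax t : ℕ) : ℝ) / N := by
  have hN0 : (0 : ℝ) < N := by exact_mod_cast hN
  rw [ContinuousMap.dist_le (by positivity)]
  intro x
  show dist (Tight.poly (fun i => zp t i / N) t.length x) 0 ≤ _
  rw [dist_zero_right]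
  refine norm_poly_le (fun i hi => ?_) x
  rw [norm_div, Complex.norm_natCast]
  refine div_le_div_of_nonneg_right ?_ hN0.le
  refine (Complex.norm_le_abs_re_add_abs_im _).trans ?_
  rw [zp_re, zp_im]
  have h1 : |(lat t i : ℝ)| ≤ latmax t := by
    have := le_latmax t hi
    exact_mod_cast this
  have h2 : |(lev t i : ℝ)| ≤ 3 * r := by
    rcases Nat.eq_zero_or_pos i with rfl | hi0
    · rw [lev_zero]
      simp
    · have h3 := (mem_Brd.1 ht).1 i hi0 hi
      rw [abs_le]
      constructor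
      · have : (0 : ℝ) < lev t i := by exact_mod_cast h3.1
        have : (0 : ℝ) ≤ 3 * r := by positivity
        linarith
      · exact_mod_cast h3.2
  rw [abs_mul, abs_of_nonneg (by positivity : 0 ≤ Real.sqrt 3 / 2), abs_div, abs_of_pos (by norm_num : (0 : ℝ) < 2)]
  have h3 : Real.sqrt 3 / 2 ≤ 1 := by
    have : Real.sqrt 3 ≤ Real.sqrt 4 := Real.sqrt_le_sqrt (by norm_num)
    have h4 : Real.sqrt 4 = 2 := by
      rw [show (4 : ℝ) = 2 ^ 2 by norm_num]
      exact Real.sqrt_sq (by norm_num)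
    linarith
  push_cast
  have h5 : Real.sqrt 3 / 2 * |(lat t i : ℝ)| ≤ 1 * latmax t :=
    mul_le_mul h3 h1 (abs_nonneg _) zero_le_one
  linarith

lemma BT_real (c : ℕ) : BT c = ENNReal.ofReal (uu c) := by
  unfold uu
  rw [ENNReal.ofReal_toReal]
  rcases Nat.eq_zero_or_pos c with rfl | h
  · rw [← gf_Brd, Brd_zero]
    unfold gf
    rw [tsum_singleton (f := wE)]
    unfold wE
    simp
  · exact ne_top_of_le_ne_top ENNReal.one_ne_top (BT_le_one h)

lemma BT_mono {a b : ℕ} (h : a ≤ b) : BT b ≤ BT a := by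
  rw [BT_real, BT_real]
  exact ENNReal.ofReal_le_ofReal (uu_anti h)

/-- bad pieces straddling the level s -/
theorem bad_straddle {s K M : ℕ} (hsK : s < K) :
    (∑ c ∈ range (s + 1), BT c) * (∑ r ∈ Ioc s K, gf {p | p ∈ Irr r ∧ 2 * M * (s + K) < latmax p}) * BT (s + K) ≤
      gf {g | g ∈ Brd (s + K) ∧ ¬ InBox g (M * (s + K))} := by
  classical
  rw [Finset.sum_mul_sum, ← Finset.sum_product', Finset.sum_mul]
  set n := s + K with hn
  set bad : ℕ → Set (List Bool) := fun r => {p | p ∈ Irr r ∧ 2 * M * n < latmax p} with hbad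
  let C : ℕ × ℕ → Set (List Bool) := fun x => {g | ∃ a p v, a ∈ Brd x.1 ∧ p ∈ bad x.2 ∧ v ∈ Brd (n - x.1 - x.2) ∧ g = a ++ p ++ v}
  have hC : ∀ x ∈ range (s + 1) ×ˢ Ioc s K, BT x.1 * gf (bad x.2) * BT n ≤ gf (C x) := by
    intro x hx
    rw [mem_product, mem_range, mem_Ioc] at hx
    have h1 : BT x.1 * gf (bad x.2) * BT n ≤ gf (Brd x.1) * gf (bad x.2) * gf (Brd (n - x.1 - x.2)) := by
      rw [gf_Brd, gf_Brd]
      gcongr
      exact BT_mono (by omega)
    refine h1.trans ?_
    have h2 : gf (Brd x.1) * gf (bad x.2) ≤ gf {g | ∃ a p, a ∈ Brd x.1 ∧ p ∈ bad x.2 ∧ g = a ++ p} := by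
      refine mul_le_gf (fun a ha b hb => ⟨a, b, ha, hb, rfl⟩) fun a ha b hb a' ha' b' hb' hab => ?_
      exact (cut_unique ha ha' hb.1.1 hb'.1.1 hab).1
    refine (mul_le_mul_left h2 _).trans ?_
    refine mul_le_gf ?_ ?_
    · rintro _ ⟨a, p, ha, hp, rfl⟩ v hv
      exact ⟨a, p, v, ha, hp, hv, rfl⟩
    · rintro _ ⟨a, p, ha, hp, rfl⟩ v hv _ ⟨a', p', ha', hp', rfl⟩ v' hv' hab
      have h3 := Brd_append ha hp.1.1
      have h4 := Brd_append ha' hp'.1.1
      exact (cut_unique h3 h4 hv hv' hab).1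
  refine (Finset.sum_le_sum hC).trans ?_
  rw [← gf_biUnion]
  · apply gf_mono
    intro g hg
    simp only [Set.mem_iUnion] at hg
    obtain ⟨x, hx, a, p, v, ha, hp, hv, rfl⟩ := hg
    rw [mem_product, mem_range, mem_Ioc] at hx
    refine ⟨?_, fun hbox => ?_⟩
    · have h1 := Brd_append (Brd_append ha hp.1.1) hv
      have e : x.1 + x.2 + (n - x.1 - x.2) = n := by omega
      rwa [e] at h1
    · obtain ⟨i, hi, h2⟩ := lt_latmax hp.2
      have h3 := hbox a.length (by rw [List.length_append, List.length_append]; omega)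
      have h4 := hbox (a.length + i) (by rw [List.length_append, List.length_append]; omega)
      rw [lat_append (by rw [List.length_append]; omega), lat_append (by omega)] at h3
      rw [lat_append (by rw [List.length_append]; omega), lat_cat (mem_Brd.1 ha).2.2.1] at h4
      have h5 : |lat p i| ≤ |lat a a.length + lat p i| + |lat a a.length| := by
        have e : lat p i = (lat a a.length + lat p i) - lat a a.length := by ring
        conv_lhs => rw [e]
        exact abs_sub _ _
      have e6 : latE a = lat a a.length := rfl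
      rw [e6] at h4
      push_cast at h2 h3 h4
      nlinarith
  · intro x hx y hy hne
    rw [Set.disjoint_left]
    rintro g ⟨a, p, v, ha, hp, hv, h1⟩ ⟨a', p', v', ha', hp', hv', h2⟩
    rw [mem_product, mem_range, mem_Ioc] at hx hy
    have h3 := jump_unique (s := s) (by omega) (by omega) (by omega) (by omega) ha hp.1 hv ha' hp'.1 hv' (h1.symm.trans h2)
    apply hne
    obtain ⟨e1, e2, _⟩ := h3
    rw [← e1] at ha'
    rw [← e2] at hp'
    exact Prod.ext (Brd_height ha ha') (Brd_height hp.1.1 hp'.1.1)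

end Struct
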