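import Pool.Agent.Struct.T3

/-! STRUCT, T4: the moment condition. -/

set_option autoImplicit false

namespace Struct

open Filter Topology Finset HexObs

open scoped ENNReal

lemma UU_real (s : ℕ) : ∑ c ∈ range (s + 1), BT c = ENNReal.ofReal (CutLim.UU uu s) := by
  unfold CutLim.UU
  rw [ENNReal.ofReal_sum_of_nonneg fun c _ => (uu_pos c).le]
  exact sum_congr rfl fun c _ => BT_real c

lemma UU_pos (s : ℕ) : 0 < CutLim.UU uu s := by
  unfold CutLim.UU
  exact sum_pos (fun c _ => uu_pos c) ⟨0, by simp⟩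

/-- tail of the size of the pieces straddling the level s -/
theorem bad_tail : ∃ C c : ℝ, 0 ≤ C ∧ 0 < c ∧ ∀ s K M : ℕ, s < K →
    ∑ r ∈ Ioc s K, gf {p | p ∈ Irr r ∧ 2 * M * (s + K) < latmax p} ≤
      ENNReal.ofReal (C * Real.exp (-(c * M)) / CutLim.UU uu s) := by
  obtain ⟨C, c, hc, h⟩ := latTail
  refine ⟨max C 0, c, le_max_right _ _, hc, fun s K M hsK => ?_⟩
  have h1 := bad_straddle (M := M) hsK
  have h2 := h (s + K) M (by omega)
  have h3 : C * Real.exp (-(c * M)) * uu (s + K) ≤ max C 0 * Real.exp (-(c * M)) * uu (s + K) := by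
    have := (uu_pos (s + K)).le
    have := Real.exp_nonneg (-(c * M))
    gcongr
    exact le_max_left _ _
  have h4 := h1.trans (h2.trans (ENNReal.ofReal_le_ofReal h3))
  rw [UU_real, BT_real (s + K), ENNReal.ofReal_mul (by positivity)] at h4
  have h5 : ENNReal.ofReal (uu (s + K)) ≠ 0 := by
    rw [ne_eq, ENNReal.ofReal_eq_zero, not_le]
    exact uu_pos _
  have h6 := (ENNReal.mul_le_mul_iff_left h5 ENNReal.ofReal_ne_top).1 h4
  rw [ENNReal.ofReal_div_of_pos (UU_pos s), ENNReal.le_div_iff_mul_le (Or.inl ?_) (Or.inl ENNReal.ofReal_ne_top)]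
  · rw [mul_comm]
    exact h6
  · rw [ne_eq, ENNReal.ofReal_eq_zero, not_le]
    exact UU_pos s

lemma law_bad (Q : List Bool → Prop) [DecidablePred Q] (r : ℕ) :
    ∑' p : PI, (if ph p = r ∧ Q p.1 then wE p.1 else 0) = gf {p | p ∈ Irr r ∧ Q p} := by
  classical
  have h1 : ∑' p : PI, (if ph p = r ∧ Q p.1 then wE p.1 else 0) = ∑' p : PI, ({p | p ∈ Irr r ∧ Q p} : Set (List Bool)).indicator wE p.1 := by
    refine tsum_congr fun p => ?_
    by_cases h : ph p = r ∧ Q p.1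
    · rw [if_pos h, Set.indicator_of_mem]
      exact ⟨by rw [← h.1]; exact ph_mem p, h.2⟩
    · rw [if_neg h, Set.indicator_of_notMem fun h' => h ⟨ph_eq h'.1, h'.2⟩]
  rw [h1, tsum_PI (g := ({p | p ∈ Irr r ∧ Q p} : Set (List Bool)).indicator wE) fun t ht =>
    Set.indicator_of_notMem (fun h => ht ⟨r, h.1⟩) _]
  unfold gf
  exact (_root_.tsum_subtype _ wE).symm

lemma law_bad_sum (Q : List Bool → Prop) [DecidablePred Q] (s K : ℕ) :
    ∑' p : PI, (if s < ph p ∧ ph p ≤ K ∧ Q p.1 then wE p.1 else 0) = ∑ r ∈ Ioc s K, gf {p | p ∈ Irr r ∧ Q p} := by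
  rw [← sum_congr rfl fun r _ => law_bad Q r, ← Summable.tsum_finsetSum fun _ _ => ENNReal.summable]
  refine tsum_congr fun p => ?_
  by_cases h : s < ph p ∧ ph p ≤ K
  · rw [Finset.sum_eq_single (ph p)]
    · by_cases hQ : Q p.1
      · rw [if_pos ⟨h.1, h.2, hQ⟩, if_pos ⟨rfl, hQ⟩]
      · rw [if_neg (by tauto), if_neg (by tauto)]
    · intro r _ hr
      rw [if_neg (by tauto)]
    · intro hh
      exact absurd (mem_Ioc.2 h) hh
  · rw [if_neg (by tauto)]
    symm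
    refine sum_eq_zero fun r hr => ?_
    have := mem_Ioc.1 hr
    rw [if_neg]
    rintro ⟨rfl, _⟩
    exact h this

lemma count_le (L : ℕ) {n : ℕ} (hn : 1 ≤ n) : (L : ℝ≥0∞) ≤ ∑' M : ℕ, (if 2 * M * n < L then ((2 * n : ℕ) : ℝ≥0∞) else 0) := by
  set j := (L + 2 * n - 1) / (2 * n) with hj
  have h1 : L ≤ j * (2 * n) := by
    have h2 : L + 2 * n - 1 < (j + 1) * (2 * n) := Nat.lt_mul_of_div_lt (Nat.lt_succ_self _) (by omega)
    have h3 : (j + 1) * (2 * n) = j * (2 * n) + 2 * n := by ring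
    omega
  have h4 : ∀ M ∈ range j, (if 2 * M * n < L then ((2 * n : ℕ) : ℝ≥0∞) else 0) = ((2 * n : ℕ) : ℝ≥0∞) := by
    intro M hM
    rw [if_pos]
    have h5 : M + 1 ≤ j := mem_range.1 hM
    have h6 : (M + 1) * (2 * n) ≤ j * (2 * n) := Nat.mul_le_mul_right _ h5
    have h7 : j * (2 * n) ≤ L + 2 * n - 1 := Nat.div_mul_le_self _ _
    have h8 : (M + 1) * (2 * n) = 2 * M * n + 2 * n := by ring
    omega
  calc (L : ℝ≥0∞) ≤ ((j * (2 * n) : ℕ) : ℝ≥0∞) := by exact_mod_cast h1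
    _ = ∑ M ∈ range j, (if 2 * M * n < L then ((2 * n : ℕ) : ℝ≥0∞) else 0) := by
      rw [sum_congr rfl h4, sum_const, card_range, nsmul_eq_mul]
      push_cast
      ring
    _ ≤ _ := ENNReal.sum_le_tsum _

/-- expected size of the pieces with s < h ≤ K -/
noncomputable def EE (s K : ℕ) : ℝ≥0∞ :=
  ∑' p : PI, (if s < ph p ∧ ph p ≤ K then wE p.1 * ((2 * ph p + latmax p.1 : ℕ) : ℝ≥0∞) else 0)

lemma EE_split {s m K : ℕ} : EE s K ≤ EE s m + EE m K := by
  unfold EE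
  rw [← ENNReal.tsum_add]
  refine ENNReal.tsum_le_tsum fun p => ?_
  by_cases h : s < ph p ∧ ph p ≤ K
  · rw [if_pos h]
    rcases le_or_gt (ph p) m with h1 | h1
    · rw [if_pos ⟨h.1, h1⟩]
      exact le_self_add
    · rw [if_neg (show ¬ (s < ph p ∧ ph p ≤ m) by omega), if_pos ⟨h1, h.2⟩, zero_add]
  · rw [if_neg h]
    exact zero_le

lemma tail_E (s : ℕ) : ∑' p : PI, (if s < ph p then wE p.1 else 0) = ENNReal.ofReal (CutLim.KK kk (s + 1)) := by
  have h1 := wb_sum wtI (s + 1)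
  rw [← h1.tsum_eq, ENNReal.ofReal_tsum_of_nonneg (wb_nonneg wtI _) h1.summable]
  refine tsum_congr fun p => ?_
  unfold wb pw
  by_cases h : s < ph p
  · rw [if_pos h, if_pos (by omega), ENNReal.ofReal_toReal (wE_ne_top _)]
  · rw [if_neg h, if_neg (by omega), ENNReal.ofReal_zero]

lemma KK_UU (s : ℕ) : CutLim.KK kk (s + 1) ≤ 1 / CutLim.UU uu s := by
  rw [le_div_iff₀ (UU_pos s), ← CutLim.KK_renewal CutLim.ren_uu s, mul_comm]
  unfold CutLim.UU
  rw [sum_mul]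
  refine sum_le_sum fun y hy => mul_le_mul_of_nonneg_left ?_ (uu_pos y).le
  have := mem_range.1 hy
  exact CutLim.KK_anti CutLim.ren_uu (by omega)

theorem EE_le : ∃ C : ℝ, 0 < C ∧ ∀ s K : ℕ, s < K → EE s K ≤ ENNReal.ofReal (C * (s + K) / CutLim.UU uu s) := by
  classical
  obtain ⟨C, c, hC, hc, h⟩ := bad_tail
  set D : ℝ := C * (1 - Real.exp (-c))⁻¹ with hD
  have he : Real.exp (-c) < 1 := by
    rw [Real.exp_lt_one_iff]
    linarith
  have he0 : 0 < 1 - Real.exp (-c) := by linarith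
  have hD0 : 0 ≤ D := by positivity
  refine ⟨2 + 2 * D, by positivity, fun s K hsK => ?_⟩
  have hU := UU_pos s
  -- split
  have h1 : EE s K ≤ ∑' p : PI, (((2 * K : ℕ) : ℝ≥0∞) * (if s < ph p then wE p.1 else 0)) +
      ∑' p : PI, ∑' M : ℕ, ((2 * (s + K) : ℕ) : ℝ≥0∞) * (if s < ph p ∧ ph p ≤ K ∧ 2 * M * (s + K) < latmax p.1 then wE p.1 else 0) := by
    unfold EE
    rw [← ENNReal.tsum_add]
    refine ENNReal.tsum_le_tsum fun p => ?_
    by_cases hp : s < ph p ∧ ph p ≤ K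
    · rw [if_pos hp, if_pos hp.1, Nat.cast_add, mul_add]
      refine add_le_add ?_ ?_
      · rw [mul_comm]
        gcongr
        exact hp.2
      · refine (mul_le_mul_right (count_le (latmax p.1) (show 1 ≤ s + K by omega)) _).trans ?_
        rw [← ENNReal.tsum_mul_left]
        refine ENNReal.tsum_le_tsum fun M => ?_
        by_cases hM : 2 * M * (s + K) < latmax p.1
        · rw [if_pos hM, if_pos ⟨hp.1, hp.2, hM⟩, mul_comm]
        · rw [if_neg hM, mul_zero]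
          exact zero_le
    · rw [if_neg hp]
      exact zero_le
  refine h1.trans ?_
  rw [ENNReal.tsum_comm, ENNReal.tsum_mul_left, tail_E]
  have h2 : ∑' M : ℕ, ∑' p : PI, ((2 * (s + K) : ℕ) : ℝ≥0∞) * (if s < ph p ∧ ph p ≤ K ∧ 2 * M * (s + K) < latmax p.1 then wE p.1 else 0) ≤
      ((2 * (s + K) : ℕ) : ℝ≥0∞) * ENNReal.ofReal (D / CutLim.UU uu s) := by
    have h3 : ∀ M : ℕ, ∑' p : PI, ((2 * (s + K) : ℕ) : ℝ≥0∞) * (if s < ph p ∧ ph p ≤ K ∧ 2 * M * (s + K) < latmax p.1 then wE p.1 else 0) ≤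
        ((2 * (s + K) : ℕ) : ℝ≥0∞) * ENNReal.ofReal (C / CutLim.UU uu s * Real.exp (-c) ^ M) := by
      intro M
      rw [ENNReal.tsum_mul_left, law_bad_sum (fun t => 2 * M * (s + K) < latmax t)]
      refine mul_le_mul_right ((h s K M hsK).trans (ENNReal.ofReal_le_ofReal (le_of_eq ?_))) _
      rw [← Real.exp_nat_mul]
      have : (M : ℝ) * -c = -(c * M) := by ring
      rw [this]
      ring
    refine (ENNReal.tsum_le_tsum h3).trans ?_
    rw [ENNReal.tsum_mul_left, ← ENNReal.ofReal_tsum_of_nonneg (fun M => by positivity)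
      ((summable_geometric_of_lt_one (Real.exp_nonneg _) he).mul_left _), tsum_mul_left, tsum_geometric_of_lt_one (Real.exp_nonneg _) he]
    refine mul_le_mul_right (ENNReal.ofReal_le_ofReal (le_of_eq ?_)) _
    rw [hD]
    ring
  refine (add_le_add le_rfl h2).trans ?_
  rw [← ENNReal.ofReal_natCast, ← ENNReal.ofReal_natCast, ← ENNReal.ofReal_mul (by positivity), ← ENNReal.ofReal_mul (by positivity),
    ← ENNReal.ofReal_add (mul_nonneg (by positivity) (CutLim.KK_nonneg CutLim.ren_uu _)) (by positivity)]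
  apply ENNReal.ofReal_le_ofReal
  have h4 := KK_UU s
  push_cast
  have h5 : 2 * (K : ℝ) * CutLim.KK kk (s + 1) ≤ 2 * K * (1 / CutLim.UU uu s) := mul_le_mul_of_nonneg_left h4 (by positivity)
  have h6 : 2 * (K : ℝ) * (1 / CutLim.UU uu s) ≤ 2 * (s + K) * (1 / CutLim.UU uu s) := by
    gcongr
    linarith [Nat.cast_nonneg (α := ℝ) s]
  calc 2 * (K : ℝ) * CutLim.KK kk (s + 1) + 2 * (s + K) * (D / CutLim.UU uu s)
      ≤ 2 * (s + K) * (1 / CutLim.UU uu s) + 2 * (s + K) * (D / CutLim.UU uu s) := by linarith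
    _ = _ := by ring

lemma UU_lower {a b : ℝ} (ha : 0 < a) (ha1 : a < 1) (hb : 0 < b)
    (hu : Tendsto (fun n : ℕ => (n : ℝ) ^ (1 - a) * uu n) atTop (𝓝 b)) :
    ∃ C, 0 < C ∧ ∀ s : ℕ, 1 ≤ s → (s : ℝ) ^ a ≤ C * CutLim.UU uu s := by
  have h1 := (CutLim.UU_tendsto CutLim.ren_uu ha ha1 hb hu).inv₀ (by positivity)
  obtain ⟨C, hC⟩ := h1.bddAbove_range
  refine ⟨max C 1, by positivity, fun s hs => ?_⟩
  have hs0 : (0 : ℝ) < s := by exact_mod_cast hs
  have h2 : ((s : ℝ) ^ (-a) * CutLim.UU uu s)⁻¹ ≤ max C 1 := le_trans (hC ⟨s, rfl⟩) (le_max_left _ _)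
  have hU := UU_pos s
  have hsa := Real.rpow_pos_of_pos hs0 a
  rw [Real.rpow_neg hs0.le, inv_le_comm₀ (by positivity) (by positivity), ← div_eq_inv_mul, le_div_iff₀ hsa] at h2
  have h3 : (max C 1)⁻¹ * (s : ℝ) ^ a * max C 1 ≤ CutLim.UU uu s * max C 1 := mul_le_mul_of_nonneg_right h2 (by positivity)
  have h4 : (max C 1)⁻¹ * (s : ℝ) ^ a * max C 1 = (s : ℝ) ^ a := by
    have : max C 1 ≠ 0 := by positivity
    field_simp
  linarith

theorem EE_pow {a b : ℝ} (ha : 0 < a) (ha1 : a < 1) (hb : 0 < b)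
    (hu : Tendsto (fun n : ℕ => (n : ℝ) ^ (1 - a) * uu n) atTop (𝓝 b)) :
    ∃ C : ℝ, 0 < C ∧ ∀ m : ℕ, 1 ≤ m → EE 0 m ≤ ENNReal.ofReal (C * (m : ℝ) ^ (1 - a)) := by
  obtain ⟨C, hC, h⟩ := EE_le
  obtain ⟨C5, hC5, h5⟩ := UU_lower ha ha1 hb hu
  have ha2 : 0 < 1 - a := by linarith
  have h2 : 1 < (2 : ℝ) ^ (1 - a) := Real.one_lt_rpow (by norm_num) ha2
  have h2' : 0 < (2 : ℝ) ^ (1 - a) - 1 := by linarith
  set D : ℝ := max C (4 * C * C5 / ((2 : ℝ) ^ (1 - a) - 1)) with hD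
  have hD0 : 0 < D := lt_of_lt_of_le hC (le_max_left _ _)
  refine ⟨D, hD0, fun m hm => ?_⟩
  induction m using Nat.strong_induction_on with
  | _ m ih =>
    rcases hm.eq_or_lt with h1 | h1
    · rw [← h1]
      refine (h 0 1 (by omega)).trans (ENNReal.ofReal_le_ofReal ?_)
      have e : CutLim.UU uu 0 = 1 := by
        simp [CutLim.UU, CutLim.ren_uu.u0]
      rw [e]
      push_cast
      rw [Real.one_rpow]
      have := le_max_left C (4 * C * C5 / ((2 : ℝ) ^ (1 - a) - 1))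
      rw [← hD] at this
      linarith
    · set s := m / 2 with hs
      have hs1 : 1 ≤ s := by omega
      have hsm : s < m := by omega
      have hs4 : s + m ≤ 4 * s := by omega
      have hs2 : 2 * s ≤ m := by omega
      have hs0 : (0 : ℝ) < s := by exact_mod_cast hs1
      refine (EE_split (m := s)).trans ?_
      have e1 := ih s hsm hs1
      have e2 := h s m hsm
      refine (add_le_add e1 e2).trans ?_
      have hU := UU_pos s
      rw [← ENNReal.ofReal_add (by positivity) (by positivity)]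
      apply ENNReal.ofReal_le_ofReal
      have h6 : C * (s + m) / CutLim.UU uu s ≤ 4 * C * C5 * (s : ℝ) ^ (1 - a) := by
        have h7 : (s : ℝ) + m ≤ 4 * s := by exact_mod_cast hs4
        have h8 : (s : ℝ) = (s : ℝ) ^ a * (s : ℝ) ^ (1 - a) := by
          rw [← Real.rpow_add hs0, add_sub_cancel, Real.rpow_one]
        rw [div_le_iff₀ hU]
        calc C * ((s : ℝ) + m) ≤ C * (4 * s) := mul_le_mul_of_nonneg_left h7 hC.le
          _ = 4 * C * ((s : ℝ) ^ a * (s : ℝ) ^ (1 - a)) := by rw [← h8]; ring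
          _ ≤ 4 * C * (C5 * CutLim.UU uu s * (s : ℝ) ^ (1 - a)) := by
            gcongr
            exact h5 s hs1
          _ = _ := by ring
      have h9 : (2 : ℝ) ^ (1 - a) * (s : ℝ) ^ (1 - a) ≤ (m : ℝ) ^ (1 - a) := by
        rw [← Real.mul_rpow (by norm_num) hs0.le]
        refine Real.rpow_le_rpow (by positivity) ?_ ha2.le
        exact_mod_cast hs2
      have h10 : 4 * C * C5 ≤ D * ((2 : ℝ) ^ (1 - a) - 1) := by
        have := le_max_right C (4 * C * C5 / ((2 : ℝ) ^ (1 - a) - 1))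
        rw [← hD, div_le_iff₀ h2'] at this
        exact this
      have hsp : 0 < (s : ℝ) ^ (1 - a) := Real.rpow_pos_of_pos hs0 _
      calc D * (s : ℝ) ^ (1 - a) + C * (s + m) / CutLim.UU uu s ≤ D * (s : ℝ) ^ (1 - a) + 4 * C * C5 * (s : ℝ) ^ (1 - a) := by
            linarith
        _ ≤ D * (s : ℝ) ^ (1 - a) + D * ((2 : ℝ) ^ (1 - a) - 1) * (s : ℝ) ^ (1 - a) := by
            have := mul_le_mul_of_nonneg_right h10 hsp.le
            linarith
        _ = D * ((2 : ℝ) ^ (1 - a) * (s : ℝ) ^ (1 - a)) := by ring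
        _ ≤ D * (m : ℝ) ^ (1 - a) := mul_le_mul_of_nonneg_left h9 hD0.le

/-- the moment condition -/
theorem momI {a b : ℝ} (ha : 0 < a) (ha1 : a < 1) (hb : 0 < b)
    (hu : Tendsto (fun n : ℕ => (n : ℝ) ^ (1 - a) * uu n) atTop (𝓝 b)) : Mom pw ph pq a := by
  obtain ⟨C, hC, h⟩ := EE_pow ha ha1 hb hu
  refine ⟨C, hC, fun N n hN hn => ?_⟩
  have hN0 : (0 : ℝ) < N := by exact_mod_cast hN
  have h1 := h n hn
  have hE : EE 0 n ≠ ∞ := ne_top_of_le_ne_top ENNReal.ofReal_ne_top h1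
  have h2 := hasSum_toReal' (f := fun p : PI => (if 0 < ph p ∧ ph p ≤ n then wE p.1 * ((2 * ph p + latmax p.1 : ℕ) : ℝ≥0∞) else 0))
    (m := EE 0 n) rfl hE
  have h3 : (EE 0 n).toReal ≤ C * (n : ℝ) ^ (1 - a) := ENNReal.toReal_le_of_le_ofReal (by positivity) h1
  have hb' : ∀ p, ws pw ph n p * dist (pq N p) 0 ≤
      (if 0 < ph p ∧ ph p ≤ n then wE p.1 * ((2 * ph p + latmax p.1 : ℕ) : ℝ≥0∞) else 0).toReal / N := by
    intro p
    unfold ws
    by_cases hp : ph p < n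
    · rw [if_pos hp, if_pos ⟨wtI.h1 p, hp.le⟩, ENNReal.toReal_mul, ENNReal.toReal_natCast, mul_div_assoc]
      exact mul_le_mul_of_nonneg_left (dist_curve_le (ph_mem p).1 hN) (wtI.w0 p)
    · rw [if_neg hp, zero_mul]
      positivity
  have h4 := (h2.div_const (N : ℝ))
  have hs := Summable.of_nonneg_of_le (fun p => mul_nonneg (ws_nonneg wtI n p) dist_nonneg) hb' h4.summable
  refine ⟨hs, ?_⟩
  refine (hs.tsum_le_tsum hb' h4.summable).trans ?_
  rw [h4.tsum_eq]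
  exact div_le_div_of_nonneg_right h3 hN0.le

end Struct
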