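import Pool.Agent.Struct.T4

/-! STRUCT, T5: finite nets. -/

set_option autoImplicit false

namespace Struct

open Filter Topology Finset HexObs MeasureTheory

open scoped ENNReal

/-- increasing homeomorphisms -/
def Rep.ofHomeo (r : unitInterval ≃ₜ unitInterval) (hr : Monotone r) : Rep where
  f := ⟨r, r.continuous⟩
  mono := hr
  zero := by
    show r 0 = 0
    obtain ⟨x, hx⟩ := r.surjective 0
    have h1 : r 0 ≤ r x := hr x.2.1
    rw [hx] at h1
    exact le_antisymm h1 (r 0).2.1
  one := by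
    show r 1 = 1
    obtain ⟨x, hx⟩ := r.surjective 1
    have h1 : r x ≤ r 1 := hr x.2.2
    rw [hx] at h1
    exact le_antisymm (r 1).2.2 h1

/-- tightness, in terms of words -/
theorem tight_words : ∃ (α : NNReal) (X : ℕ → List Bool → Cv), 0 < α ∧
    (∀ T t, ∃ r : unitInterval ≃ₜ unitInterval, Monotone r ∧ ∀ x, X T t x = curve T t (r x)) ∧
    ∀ ε : ℝ, 0 < ε → ∃ M : NNReal, ∀ T, 1 ≤ T → gf {t | t ∈ FCW T ∧ ¬ HolderWith M α (X T t)} ≤ ENNReal.ofReal ε := by
  classical
  obtain ⟨α, X, μ, hα, hX, hμ, ht, _⟩ := tightness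
  refine ⟨α, X, hα, hX, fun ε hε => ?_⟩
  obtain ⟨M, hM⟩ := ht ε hε
  refine ⟨M, fun T hT => ?_⟩
  have h1 := hM T hT
  rw [hμ T] at h1
  let _ : MeasurableSpace (List Bool) := ⊤
  have hcl : IsClosed {f : Cv | HolderWith M α f} := by
    have e : {f : Cv | HolderWith M α f} = ⋂ x : unitInterval, ⋂ y : unitInterval,
        {f : Cv | edist (f x) (f y) ≤ M * edist x y ^ (α : ℝ)} := by
      ext f
      simp only [HolderWith, Set.mem_iInter, Set.mem_ofPred_eq]
    rw [e]
    exact isClosed_iInter fun x => isClosed_iInter fun y =>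
      isClosed_le ((continuous_eval_const x).edist (continuous_eval_const y)) continuous_const
  have hms : MeasurableSet {f : Cv | ¬ HolderWith M α f} := hcl.isOpen_compl.measurableSet
  rw [PMF.toMeasure_map_apply _ _ _ (measurable_from_top) hms, PMF.toMeasure_apply _ (show MeasurableSet (X T ⁻¹' {f : Cv | ¬ HolderWith M α f}) from trivial)] at h1
  refine le_trans (le_of_eq ?_) h1
  unfold gf
  have h2 := _root_.tsum_subtype {t | t ∈ FCW T ∧ ¬ HolderWith M α (X T t)} wE
  rw [h2]
  refine tsum_congr fun t => ?_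
  by_cases h3 : ¬ HolderWith M α (X T t)
  · rw [Set.indicator_of_mem (s := X T ⁻¹' {f : Cv | ¬ HolderWith M α f}) h3]
    show _ = (FCW T).indicator wE t
    by_cases h4 : t ∈ FCW T
    · rw [Set.indicator_of_mem h4, Set.indicator_of_mem (s := {t | t ∈ FCW T ∧ ¬ HolderWith M α (X T t)}) ⟨h4, h3⟩]
    · rw [Set.indicator_of_notMem h4, Set.indicator_of_notMem fun h => h4 h.1]
  · rw [Set.indicator_of_notMem (s := X T ⁻¹' {f : Cv | ¬ HolderWith M α f}) h3, Set.indicator_of_notMem fun h => h3 h.2]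

/-- the final part of a curve -/
lemma holder_tail {M α : NNReal} {z v : ℕ → ℂ} {a b : ℕ} (hb : 1 ≤ b) (hv0 : v 0 = 0) (h2 : ∀ i ≤ b, z (a + i) = z a + v i)
    {r : unitInterval ≃ₜ unitInterval} (hr : Monotone r) {f : Cv} (hf : ∀ x, f x = Tight.poly z (a + b) (r x))
    (hH : HolderWith M α f) : ∃ ρ : Rep, ((Tight.poly v b).comp ρ.f) 0 = 0 ∧ HolderWith M α ((Tight.poly v b).comp ρ.f) := by
  have ha0 : (0 : ℝ) ≤ a := Nat.cast_nonneg a
  have hb0 : (0 : ℝ) < b := by exact_mod_cast hb
  let β := aff (((a : ℝ) + b) / b) (-(a : ℝ) / b) (by positivity) (by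
    rw [neg_div]
    have : 0 ≤ (a : ℝ) / b := by positivity
    linarith) (by
    have : ((a : ℝ) + b) / b + -(a : ℝ) / b = 1 := by
      field_simp
      ring
    rw [this])
  have hβ : ∀ x : unitInterval, ((β.f x : unitInterval) : ℝ) * b = max 0 (((a : ℝ) + b) * (x : ℝ) - a) := by
    intro x
    rw [aff_coe]
    have h3 : ((a : ℝ) + b) / b * x + -(a : ℝ) / b ≤ 1 := by
      rw [div_mul_eq_mul_div, ← add_div, div_le_one hb0]
      have := mul_le_mul_of_nonneg_left x.2.2 (show 0 ≤ (a : ℝ) + b by positivity)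
      linarith
    rw [min_eq_right h3, max_mul_of_nonneg _ _ hb0.le, zero_mul]
    congr 1
    field_simp
    ring
  -- the curve above the time of the point number a
  have hz : ∀ x : unitInterval, (a : ℝ) ≤ ((a : ℝ) + b) * (x : ℝ) → Tight.poly z (a + b) x = z a + Tight.poly v b (β.f x) := by
    intro x hx
    rw [poly_eq, poly_eq, hβ, sum_range_add, hv0, zero_add]
    have e1 : ∀ i ∈ range a, ((max 0 (min 1 ((x : ℝ) * ((a + b : ℕ) : ℝ) - i)) : ℝ) : ℂ) * (z (i + 1) - z i) = z (i + 1) - z i := by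
      intro i hi
      have hi' := mem_range.1 hi
      have h3 : (i : ℝ) + 1 ≤ a := by exact_mod_cast hi'
      have h4 : 1 ≤ (x : ℝ) * ((a + b : ℕ) : ℝ) - i := by
        push_cast
        linarith
      rw [min_eq_left h4, max_eq_right zero_le_one]
      simp
    have e2 : ∀ i ∈ range b, ((max 0 (min 1 ((x : ℝ) * ((a + b : ℕ) : ℝ) - ((a + i : ℕ) : ℝ))) : ℝ) : ℂ) *
          (z (a + i + 1) - z (a + i)) =
        ((max 0 (min 1 (max 0 (((a : ℝ) + b) * (x : ℝ) - a) - i)) : ℝ) : ℂ) * (v (i + 1) - v i) := by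
      intro i hi
      have hi' := mem_range.1 hi
      rw [add_assoc, h2 (i + 1) (by omega), h2 i (by omega)]
      have e3 : z a + v (i + 1) - (z a + v i) = v (i + 1) - v i := by ring
      rw [e3, max_eq_right (show 0 ≤ ((a : ℝ) + b) * (x : ℝ) - a by linarith)]
      congr 4
      push_cast
      ring
    rw [sum_congr rfl e1, sum_congr rfl e2, sum_range_sub]
    ring
  -- the time of the point number a
  have hab : (0 : ℝ) < (a : ℝ) + b := by linarith
  let θ0 : unitInterval := ⟨(a : ℝ) / (a + b), by positivity, by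
    rw [div_le_one hab]
    linarith⟩
  set θ : unitInterval := r.symm θ0 with hθ
  have hθr : r θ = θ0 := r.apply_symm_apply θ0
  let lam : C(unitInterval, unitInterval) := ⟨fun y => ⟨(θ : ℝ) + (1 - θ) * y, by
    have h1 := θ.2
    have h2 := y.2
    constructor
    · have := mul_nonneg (sub_nonneg.2 h1.2) h2.1
      linarith [h1.1]
    · have := mul_le_mul_of_nonneg_left h2.2 (sub_nonneg.2 h1.2)
      linarith⟩, by fun_prop⟩
  have hlam0 : lam 0 = θ := by
    apply Subtype.ext
    show (θ : ℝ) + (1 - θ) * ((0 : unitInterval) : ℝ) = θ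
    rw [Set.Icc.coe_zero, mul_zero, add_zero]
  have hlam1 : lam 1 = 1 := by
    apply Subtype.ext
    show (θ : ℝ) + (1 - θ) * ((1 : unitInterval) : ℝ) = 1
    rw [Set.Icc.coe_one]
    ring
  have hlamm : Monotone lam := by
    intro x y hxy
    have h1 : (x : ℝ) ≤ y := hxy
    show (θ : ℝ) + (1 - θ) * x ≤ (θ : ℝ) + (1 - θ) * y
    have := mul_le_mul_of_nonneg_left h1 (sub_nonneg.2 θ.2.2)
    linarith
  have hlamθ : ∀ y, θ ≤ lam y := fun y => by
    rw [← hlam0]
    exact hlamm y.2.1
  let R := Rep.ofHomeo r hr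
  let ρ : Rep :=
    { f := β.f.comp (R.f.comp lam)
      mono := fun x y hxy => β.mono (R.mono (hlamm hxy))
      zero := by
        show β.f (r (lam 0)) = 0
        rw [hlam0, hθr]
        apply Subtype.ext
        have h3 := hβ θ0
        have h4 : ((a : ℝ) + b) * ((θ0 : unitInterval) : ℝ) - a = 0 := by
          show ((a : ℝ) + b) * ((a : ℝ) / (a + b)) - a = 0
          rw [mul_div_cancel₀ _ hab.ne', sub_self]
        rw [h4, max_self] at h3
        exact (mul_eq_zero.1 h3).resolve_right hb0.ne'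
      one := by
        show β.f (R.f (lam 1)) = 1
        rw [hlam1, R.one, β.one] }
  have hg : ∀ y, ((Tight.poly v b).comp ρ.f) y = f (lam y) - z a := by
    intro y
    show Tight.poly v b (β.f (r (lam y))) = _
    rw [hf, hz]
    · ring
    · have h3 : θ0 ≤ r (lam y) := by
        rw [← hθr]
        exact hr (hlamθ y)
      have h4 : (a : ℝ) / (a + b) ≤ ((r (lam y) : unitInterval) : ℝ) := h3
      rw [div_le_iff₀ hab] at h4
      linarith
  refine ⟨ρ, ?_, ?_⟩
  · show Tight.poly v b (ρ.f 0) = 0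
    rw [ρ.zero, Tight.poly_zero, hv0]
  · intro x y
    rw [hg, hg, edist_sub_right]
    refine (hH _ _).trans ?_
    gcongr
    rw [edist_dist, edist_dist]
    apply ENNReal.ofReal_le_ofReal
    rw [Subtype.dist_eq, Subtype.dist_eq, Real.dist_eq, Real.dist_eq]
    have e : ((lam x : unitInterval) : ℝ) - (lam y : unitInterval) = (1 - θ) * (x - y) := by
      show (θ : ℝ) + (1 - θ) * x - ((θ : ℝ) + (1 - θ) * y) = _
      ring
    rw [e, abs_mul, abs_of_nonneg (sub_nonneg.2 θ.2.2)]
    have := abs_nonneg ((x : ℝ) - y)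
    have := θ.2.1
    nlinarith

end Struct
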