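import Pool.Agent.Struct.T5

/-! STRUCT, T6: finite nets for the stopped walks and for the excursions. -/

set_option autoImplicit false

namespace Struct

open Filter Topology Finset HexObs

open scoped ENNReal

lemma near_of_rep {η : ℝ} {g s : Cv} (ρ : Rep) (h : dist (g.comp ρ.f) s ≤ η) : Near η g s := by
  intro F L hI h0 hL
  rw [← hI g ρ]
  exact (hL _ _).trans (mul_le_mul_of_nonneg_left h h0)

lemma compact_net {η : ℝ} (hη : 0 < η) (M : NNReal) {α : NNReal} (hα : 0 < α) : ∃ S : Finset Cv, ∀ (g : Cv) (ρ : Rep),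
    (g.comp ρ.f) 0 = 0 → HolderWith M α (g.comp ρ.f) → ∃ s ∈ S, Near η g s := by
  obtain ⟨t, _, htf, ht⟩ := (Tight.isCompact_holder M α hα).finite_cover_balls hη
  refine ⟨htf.toFinset, fun g ρ h0 hH => ?_⟩
  have h1 := ht (show g.comp ρ.f ∈ _ from ⟨h0, hH⟩)
  simp only [Set.mem_iUnion] at h1
  obtain ⟨s, hs, h2⟩ := h1
  exact ⟨s, htf.mem_toFinset.2 hs, near_of_rep ρ (le_of_lt h2)⟩

/-- the words that are not good -/
lemma good_word {T : ℕ} {t : List Bool} {M α : NNReal} {X : ℕ → List Bool → Cv}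
    (hX : ∃ r : unitInterval ≃ₜ unitInterval, Monotone r ∧ ∀ x, X T t x = curve T t (r x)) (hH : HolderWith M α (X T t)) :
    ∃ ρ : Rep, ((curve T t).comp ρ.f) 0 = 0 ∧ HolderWith M α ((curve T t).comp ρ.f) := by
  obtain ⟨r, hr, h⟩ := hX
  refine ⟨Rep.ofHomeo r hr, ?_, ?_⟩
  · show curve T t ((Rep.ofHomeo r hr).f 0) = 0
    rw [(Rep.ofHomeo r hr).zero]
    show Tight.poly _ _ 0 = 0
    rw [Tight.poly_zero, zp_zero, zero_div]
  · have e : (curve T t).comp (Rep.ofHomeo r hr).f = X T t := by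
      ext x
      exact (h x).symm
    rw [e]
    exact hH

lemma good_piece {T c : ℕ} {a p : List Bool} (ha : a ∈ Brd c) (hp : p ≠ []) {M α : NNReal} {X : ℕ → List Bool → Cv}
    (hX : ∃ r : unitInterval ≃ₜ unitInterval, Monotone r ∧ ∀ x, X T (a ++ p) x = curve T (a ++ p) (r x))
    (hH : HolderWith M α (X T (a ++ p))) :
    ∃ ρ : Rep, ((curve T p).comp ρ.f) 0 = 0 ∧ HolderWith M α ((curve T p).comp ρ.f) := by
  obtain ⟨r, hr, h⟩ := hX
  have hl : 1 ≤ p.length := List.length_pos_iff.2 hp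
  refine holder_tail (z := fun i => zp (a ++ p) i / T) (v := fun i => zp p i / T) (a := a.length) (b := p.length) hl ?_ ?_ hr
    (f := X T (a ++ p)) (fun x => ?_) hH
  · show zp p 0 / T = 0
    rw [zp_zero, zero_div]
  · intro i _
    show zp (a ++ p) (a.length + i) / T = zp (a ++ p) a.length / T + zp p i / T
    rw [zp_cat ha, zp_left _ _ le_rfl, add_div]
  · rw [h x]
    unfold curve
    rw [List.length_append]

open Classical in
/-- net for the stopped walks -/
theorem net_half {η : ℝ} (hη : 0 < η) : ∃ S : Finset Cv, ∀ T : ℕ, 1 ≤ T →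
    ∑' t : WD T, (if ∃ s ∈ S, Near η (curve T t.1) s then 0 else (wE t.1).toReal) ≤ η := by
  obtain ⟨α, X, hα, hX, ht⟩ := tight_words
  obtain ⟨M, hM⟩ := ht η hη
  obtain ⟨S, hS⟩ := compact_net hη M hα
  refine ⟨S, fun T hT => ?_⟩
  have h1 : ∑' t : WD T, (if ∃ s ∈ S, Near η (curve T t.1) s then 0 else wE t.1) ≤ ENNReal.ofReal η := by
    refine le_trans ?_ (hM T hT)
    have h2 : ∑' t : WD T, (if ∃ s ∈ S, Near η (curve T t.1) s then 0 else wE t.1) =
        ∑' t, (FCW T).indicator (fun t => if ∃ s ∈ S, Near η (curve T t) s then 0 else wE t) t :=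
      _root_.tsum_subtype (FCW T) fun t => if ∃ s ∈ S, Near η (curve T t) s then 0 else wE t
    rw [h2]
    unfold gf
    have h3 := _root_.tsum_subtype {t | t ∈ FCW T ∧ ¬ HolderWith M α (X T t)} wE
    rw [h3]
    refine ENNReal.tsum_le_tsum fun t => ?_
    by_cases h4 : t ∈ FCW T
    · rw [Set.indicator_of_mem h4]
      by_cases h5 : ∃ s ∈ S, Near η (curve T t) s
      · rw [if_pos h5]
        exact zero_le
      · rw [if_neg h5, Set.indicator_of_mem]
        refine ⟨h4, fun hH => h5 ?_⟩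
        obtain ⟨ρ, e1, e2⟩ := good_word (hX T t) hH
        exact hS _ ρ e1 e2
    · rw [Set.indicator_of_notMem h4]
      exact zero_le
  have h2 := ENNReal.toReal_le_of_le_ofReal hη.le h1
  refine le_trans (le_of_eq ?_) h2
  rw [ENNReal.tsum_toReal_eq fun t => by split_ifs <;> simp [wE_ne_top]]
  refine tsum_congr fun t => ?_
  split_ifs <;> simp

/-- the mass of the bridges below T -/
lemma gf_low (T : ℕ) : gf {a | ∃ c, c < T ∧ a ∈ Brd c} = ENNReal.ofReal (VV uu T) := by
  have h1 : {a | ∃ c, c < T ∧ a ∈ Brd c} = ⋃ c ∈ range T, Brd c := by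
    ext a
    simp only [Set.mem_iUnion, mem_range]
    constructor
    · rintro ⟨c, h1, h2⟩
      exact ⟨c, h1, h2⟩
    · rintro ⟨c, h1, h2⟩
      exact ⟨c, h1, h2⟩
  rw [h1, gf_biUnion]
  · unfold VV
    rw [ENNReal.ofReal_sum_of_nonneg fun c _ => (uu_pos c).le]
    refine sum_congr rfl fun c _ => ?_
    rw [gf_Brd, BT_real]
  · intro i _ j _ hne
    rw [Set.disjoint_left]
    intro a ha hb
    exact hne (Brd_height ha hb)

open Classical in
/-- net for the excursions -/
theorem net_exc {a b : ℝ} (ha : 0 < a) (ha1 : a < 1) (hb : 0 < b)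
    (hu : Tendsto (fun n : ℕ => (n : ℝ) ^ (1 - a) * uu n) atTop (𝓝 b)) {η : ℝ} (hη : 0 < η) :
    ∃ S : Finset Cv, ∀ T : ℕ, 1 ≤ T →
    ∑' p : PI, (if ∃ s ∈ S, Near η (pq T p) s then 0 else (T : ℝ) ^ a * wb pw ph T p) ≤ η := by
  obtain ⟨α, X, hα, hX, ht⟩ := tight_words
  obtain ⟨C5, hC5, h5⟩ := UU_lower ha ha1 hb hu
  set ε : ℝ := η / (2 * C5) with hε
  have hε0 : 0 < ε := by positivity
  obtain ⟨M, hM⟩ := ht ε hε0
  obtain ⟨S, hS⟩ := compact_net hη M hα
  refine ⟨S, fun T hT => ?_⟩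
  have hT0 : (0 : ℝ) < T := by exact_mod_cast hT
  have hTa : 0 < (T : ℝ) ^ a := Real.rpow_pos_of_pos hT0 a
  set Bad : Set (List Bool) := {p | (∃ r, T ≤ r ∧ p ∈ Irr r) ∧ ¬ ∃ s ∈ S, Near η (curve T p) s} with hBad
  have h1 : ENNReal.ofReal (VV uu T) * gf Bad ≤ ENNReal.ofReal ε := by
    rw [← gf_low T]
    refine le_trans ?_ (hM T hT)
    refine mul_le_gf ?_ ?_
    · rintro x ⟨c, hc, hx⟩ p ⟨⟨r, hr, hp⟩, hn⟩
      refine ⟨⟨c + r, Brd_append hx hp.1, by omega, ?_⟩, fun hH => hn ?_⟩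
      · rintro c' h1 h2 ⟨s', u', b', hs', hu', h3⟩
        obtain ⟨v, hv, h4, h5⟩ := cut_nested hx hs' hp.1 hu' (by omega) h3
        rcases hp.2.2 _ _ _ _ hv hu' h5 with h6 | h6
        · rw [h6] at hv
          have := Brd_height hv nil_mem_Brd
          omega
        · have h7 := Brd_append hs' hu'
          rw [← h3] at h7
          have h8 := Brd_append hx hp.1
          have h9 := Brd_height h7 h8
          rw [h6] at hu'
          have := Brd_height hu' nil_mem_Brd
          omega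
      · obtain ⟨ρ, e1, e2⟩ := good_piece hx hp.2.1 (hX T (x ++ p)) hH
        exact hS _ ρ e1 e2
    · rintro x ⟨c, hc, hx⟩ p ⟨⟨r, hr, hp⟩, _⟩ x' ⟨c', hc', hx'⟩ p' ⟨⟨r', hr', hp'⟩, _⟩ hab
      refine (jump_unique (s := T - 1) (by omega) (by omega) (by omega) (by omega) hx hp nil_mem_Brd hx' hp' nil_mem_Brd ?_).1
      rw [List.append_nil, List.append_nil, hab]
  have hVU : (T : ℝ) ^ a ≤ 2 * C5 * VV uu T := by
    have h6 := h5 T hT
    have h7 : CutLim.UU uu T ≤ 2 * VV uu T := by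
      have e : CutLim.UU uu T = VV uu T + uu T := by
        unfold CutLim.UU VV
        rw [sum_range_succ]
      have h8 : uu T ≤ uu 0 := uu_anti (by omega)
      have h9 : uu 0 ≤ VV uu T := by
        unfold VV
        exact single_le_sum (f := uu) (fun c _ => (uu_pos c).le) (mem_range.2 (show 0 < T by omega))
      linarith
    nlinarith
  have hV : 0 < VV uu T := by
    by_contra hneg
    have : 2 * C5 * VV uu T ≤ 0 := by nlinarith
    linarith
  have h2 : gf Bad ≤ ENNReal.ofReal (ε / VV uu T) := by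
    rw [ENNReal.ofReal_div_of_pos hV, ENNReal.le_div_iff_mul_le (Or.inl ?_) (Or.inl ENNReal.ofReal_ne_top), mul_comm]
    · exact h1
    · rw [ne_eq, ENNReal.ofReal_eq_zero, not_le]
      exact hV
  have h3 : ∑' p : PI, Bad.indicator wE p.1 = gf Bad := by
    rw [tsum_PI (g := Bad.indicator wE) fun t ht => Set.indicator_of_notMem (fun h => ht ⟨h.1.choose, h.1.choose_spec.2⟩) _]
    unfold gf
    exact (_root_.tsum_subtype Bad wE).symm
  have h4 : ∑' p : PI, (if ∃ s ∈ S, Near η (pq T p) s then 0 else (T : ℝ) ^ a * wb pw ph T p) =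
      (T : ℝ) ^ a * (gf Bad).toReal := by
    rw [← h3, ENNReal.tsum_toReal_eq fun p => by
      unfold Set.indicator
      split_ifs <;> simp [wE_ne_top], ← tsum_mul_left]
    refine tsum_congr fun p => ?_
    by_cases h6 : ∃ s ∈ S, Near η (pq T p) s
    · rw [if_pos h6, Set.indicator_of_notMem fun h => h.2 h6]
      simp
    · rw [if_neg h6]
      congr 1
      unfold wb pw
      by_cases h7 : T ≤ ph p
      · rw [if_pos h7, Set.indicator_of_mem]
        exact ⟨⟨ph p, h7, ph_mem p⟩, h6⟩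
      · rw [if_neg h7, Set.indicator_of_notMem]
        · simp
        · rintro ⟨⟨r, hr, hp⟩, _⟩
          have := ph_eq hp
          omega
  rw [h4]
  have h6 : (gf Bad).toReal ≤ ε / VV uu T := ENNReal.toReal_le_of_le_ofReal (by positivity) h2
  calc (T : ℝ) ^ a * (gf Bad).toReal ≤ (2 * C5 * VV uu T) * (ε / VV uu T) :=
        mul_le_mul hVU h6 ENNReal.toReal_nonneg (by positivity)
    _ = η := by
      rw [hε]
      field_simp
    _ ≤ η := le_rfl

end Struct
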