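import Pool.Agent.Struct.T6

/-! STRUCT, T7: scaling. -/

set_option autoImplicit false

namespace Struct

open Filter Topology Finset

section
variable {P : Type} {w : P → ℝ} {h : P → ℕ} {ι : Type} {l : Filter ι}

lemma cat_smul (c : ℝ) (a b : Cv) : cat (c • a) (c • b) = c • cat a b := by
  ext x
  show c • a (al.f x) + c • b (be.f x) = c • (a (al.f x) + b (be.f x))
  rw [smul_add]

lemma comp_smul (c : ℝ) (g : Cv) (ρ : Rep) : (c • g).comp ρ.f = c • g.comp ρ.f := rfl

lemma dist_smul' (c : ℝ) (g g' : Cv) : dist (c • g) (c • g') = |c| * dist g g' := by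
  have h := dist_smul₀ c g g'
  rw [Real.norm_eq_abs] at h
  exact h

lemma dist_smul_smul (c c' : ℝ) (g : Cv) : dist (c • g) (c' • g) ≤ |c - c'| * dist g 0 := by
  have h1 := sub_smul c c' g
  have h2 := norm_smul (c - c') g
  rw [dist_eq_norm]
  have h3 : ‖c • g - c' • g‖ = ‖(c - c') • g‖ := congrArg norm h1.symm
  rw [h3]
  refine (le_of_eq h2).trans ?_
  rw [Real.norm_eq_abs, dist_zero_right]

lemma smul_zero' (c : ℝ) : c • (0 : Cv) = 0 := by
  ext x
  show c • (0 : ℂ) = 0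
  simp

/-- scaling of the stopped walk -/
theorem HH_smul (h1 : ∀ p, 1 ≤ h p) (q : P → Cv) (F : Cv → ℝ) (c : ℝ) (T : ℕ) :
    ∀ γ, HH w h (fun p => c • q p) F T (c • γ) = HH w h q (fun x => F (c • x)) T γ := by
  induction T using Nat.strong_induction_on with
  | _ T ih =>
    intro γ
    rcases Nat.eq_zero_or_pos T with rfl | hT
    · rw [HH_zero, HH_zero]
    · rw [HH_succ h1 F hT, HH_succ h1 _ hT]
      refine tsum_congr fun p => ?_
      congr 1
      rw [cat_smul]
      have := h1 p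
      exact ih (T - h p) (by omega) _

lemma Inv.smul {F : Cv → ℝ} (hF : Inv F) (c : ℝ) : Inv fun x => F (c • x) := by
  intro γ ρ
  show F (c • γ.comp ρ.f) = F (c • γ)
  rw [← comp_smul]
  exact hF _ ρ

/-- scaling of the test functions -/
theorem Cls.scale {F : ι → Cv → ℝ} (hF : Cls l F) {c : ι → ℝ} {C c₀ : ℝ} (hC : ∀ i, |c i| ≤ C) (hc : Tendsto c l (𝓝 c₀)) :
    Cls l (fun i x => F i (c i • x)) where
  inv := fun i => (hF.inv i).smul _
  bd := by
    obtain ⟨M, h0, h1⟩ := hF.bd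
    exact ⟨M, h0, fun i x => h1 i _⟩
  lip := by
    obtain ⟨L, h0, h1⟩ := hF.lip
    refine ⟨L * max C 0, by positivity, fun i x y => (h1 i _ _).trans ?_⟩
    rw [dist_smul', mul_assoc]
    refine mul_le_mul_of_nonneg_left ?_ h0
    exact mul_le_mul_of_nonneg_right ((hC i).trans (le_max_left _ _)) dist_nonneg
  lim := fun γ => by
    obtain ⟨L, h0, h1⟩ := hF.lip
    obtain ⟨z, hz⟩ := hF.lim (c₀ • γ)
    refine ⟨z, ?_⟩
    have h2 : Tendsto (fun i => F i (c i • γ) - F i (c₀ • γ)) l (𝓝 0) := by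
      have h3 : Tendsto (fun i => L * (|c i - c₀| * dist γ 0)) l (𝓝 0) := by
        have h4 : Tendsto (fun i => |c i - c₀|) l (𝓝 0) := by
          have := (hc.sub_const c₀).abs
          rwa [sub_self, abs_zero] at this
        have h5 := (h4.mul_const (dist γ 0)).const_mul L
        rwa [zero_mul, mul_zero] at h5
      refine squeeze_zero_norm (fun i => ?_) h3
      rw [Real.norm_eq_abs]
      exact (h1 i _ _).trans (mul_le_mul_of_nonneg_left (dist_smul_smul _ _ _) h0)
    have h6 := h2.add hz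
    rw [zero_add] at h6
    refine h6.congr fun i => ?_
    ring

lemma Near.smul {η : ℝ} {x s : Cv} (hx : Near η x s) (c : ℝ) : Near (|c| * η) (c • x) (c • s) := by
  intro F L hI h0 hL
  have h1 := hx (fun y => F (c • y)) (L * |c|) (hI.smul c) (by positivity) (by
    intro y y'
    refine (hL _ _).trans (le_of_eq ?_)
    rw [dist_smul']
    ring)
  calc |F (c • x) - F (c • s)| ≤ L * |c| * η := h1
    _ = _ := by ring

lemma Near.move {η δ : ℝ} {x s s' : Cv} (hx : Near η x s) (hs : dist s s' ≤ δ) : Near (η + δ) x s' := by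
  intro F L hI h0 hL
  have h1 := hx F L hI h0 hL
  have h2 := (hL s s').trans (mul_le_mul_of_nonneg_left hs h0)
  have e : F x - F s' = (F x - F s) + (F s - F s') := by ring
  rw [e, mul_add]
  exact (abs_add_le _ _).trans (add_le_add h1 h2)

lemma Near.mono {η η' : ℝ} {x s : Cv} (hx : Near η x s) (h : η ≤ η') : Near η' x s := fun F L hI h0 hL =>
  (hx F L hI h0 hL).trans (mul_le_mul_of_nonneg_left h h0)

end

open HexObs

/-- the weights of the stopped words -/
noncomputable def vK (T : ℕ) (t : List Bool) : ℝ := ((FCW T).indicator wE t).toReal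

lemma vK_nonneg (T : ℕ) (t : List Bool) : 0 ≤ vK T t := ENNReal.toReal_nonneg

lemma vK_sub (T : ℕ) (G : List Bool → ℝ) : ∑' t : List Bool, vK T t * G t = ∑' t : WD T, (wE t.1).toReal * G t.1 := by
  have h1 := _root_.tsum_subtype (FCW T) fun t => (wE t).toReal * G t
  rw [show ∑' t : WD T, (wE t.1).toReal * G t.1 = ∑' t : FCW T, (wE t.1).toReal * G t.1 from rfl, h1]
  refine tsum_congr fun t => ?_
  unfold vK
  by_cases ht : t ∈ FCW T
  · rw [Set.indicator_of_mem ht, Set.indicator_of_mem ht]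
  · rw [Set.indicator_of_notMem ht, Set.indicator_of_notMem ht, ENNReal.toReal_zero, zero_mul]

lemma vK_hasSum (T : ℕ) : HasSum (vK T) 1 := by
  have h := hasSum_toReal' (tsum_FCW T) ENNReal.one_ne_top
  rwa [ENNReal.toReal_one] at h

theorem vK_HH {F : Cv → ℝ} (hF : Inv F) {M : ℝ} (hM : Bd F M) (N T : ℕ) :
    ∑' t : List Bool, vK T t * F (curve N t) = HH pw ph (pq N) F T 0 := by
  have h1 := sum_WD hF hM N T 0 [] nil_mem_Brd
  rw [curve_nil] at h1
  rw [vK_sub T fun t => F (curve N t), ← h1]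
  rfl

section
variable {ι : Type} {l : Filter ι} {s : ι → ℕ}

/-- the stopped walks form a nice family if they converge -/
theorem nice_half (hs : Tendsto s l atTop)
    (hc : ∀ F, Test F → ∃ z, Tendsto (fun i => HH pw ph (pq (s i)) F (s i) 0) l (𝓝 z)) :
    Nice l (fun i => vK (s i)) (fun i => curve (s i)) where
  v0 := fun i => vK_nonneg _
  vs := fun i => (vK_hasSum _).summable
  mass := ⟨1, zero_le_one, fun i => (vK_hasSum _).tsum_eq.le⟩
  net := fun η hη => by
    classical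
    obtain ⟨S, hS⟩ := net_half hη
    refine ⟨S, ?_⟩
    filter_upwards [hs.eventually_ge_atTop 1] with i hi
    refine le_trans (le_of_eq ?_) (hS (s i) hi)
    have h1 := vK_sub (s i) fun t => if ∃ y ∈ S, Near η (curve (s i) t) y then 0 else 1
    have e1 : ∀ t, vK (s i) t * (if ∃ y ∈ S, Near η (curve (s i) t) y then (0 : ℝ) else 1) =
        if ∃ y ∈ S, Near η (curve (s i) t) y then 0 else vK (s i) t := by
      intro t
      split_ifs <;> simp
    have e2 : ∀ t : WD (s i), (wE t.1).toReal * (if ∃ y ∈ S, Near η (curve (s i) t.1) y then (0 : ℝ) else 1) =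
        if ∃ y ∈ S, Near η (curve (s i) t.1) y then 0 else (wE t.1).toReal := by
      intro t
      split_ifs <;> simp
    rw [tsum_congr e1, tsum_congr e2] at h1
    exact h1
  conv := fun F hF => by
    obtain ⟨M, hM0, hM⟩ := hF.bd
    obtain ⟨z, hz⟩ := hc F hF
    exact ⟨z, hz.congr fun i => (vK_HH hF.inv hM _ _).symm⟩

lemma ratio_bd (x : ℝ) (hx : 0 < x) (N : ℕ) : |(⌈x * N⌉₊ : ℝ) / N| ≤ x + 1 := by
  rw [abs_of_nonneg (by positivity)]
  rcases Nat.eq_zero_or_pos N with rfl | hN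
  · rw [Nat.cast_zero, div_zero]
    positivity
  · have hN0 : (0 : ℝ) < N := by exact_mod_cast hN
    rw [div_le_iff₀ hN0]
    have h1 := (Nat.ceil_lt_add_one (show 0 ≤ x * N by positivity)).le
    have h2 : (1 : ℝ) ≤ N := by exact_mod_cast hN
    linarith

lemma pq_smul {N T : ℕ} (hN : 1 ≤ N) (hT : 1 ≤ T) (p : PI) : pq N p = ((T : ℝ) / N) • pq T p := curve_smul hN hT p.1

lemma HH_pq {N T : ℕ} (hN : 1 ≤ N) (hT : 1 ≤ T) (F : Cv → ℝ) (T' : ℕ) :
    HH pw ph (pq N) F T' 0 = HH pw ph (pq T) (fun x => F (((T : ℝ) / N) • x)) T' 0 := by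
  have e : pq N = fun p => ((T : ℝ) / N) • pq T p := funext fun p => pq_smul hN hT p
  have h1 := HH_smul (w := pw) wtI.h1 (pq T) F ((T : ℝ) / N) T' 0
  rw [smul_zero'] at h1
  rw [e]
  exact h1

/-- convergence of the stopped walks at all levels -/
def ConvA (l : Filter ι) (s : ι → ℕ) : Prop :=
  ∀ x : ℝ, 0 < x → ∀ F, Test F → ∃ z, Tendsto (fun i => HH pw ph (pq (s i)) F ⌈x * s i⌉₊ 0) l (𝓝 z)

/-- convergence of the excursions at all levels -/
def ConvB (a : ℝ) (l : Filter ι) (s : ι → ℕ) : Prop :=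
  ∀ x : ℝ, 0 < x → ∀ F, Test F → ∃ z, Tendsto (fun i => ∑' p, ((s i : ℝ) ^ a * wb pw ph ⌈x * s i⌉₊ p) * F (pq (s i) p)) l (𝓝 z)

/-- from the full sequence at the level 1 -/
theorem ConvA.of_one (hs : Tendsto s l atTop)
    (h1 : ∀ F, Test F → ∃ z, Tendsto (fun T : ℕ => HH pw ph (pq T) F T 0) atTop (𝓝 z)) : ConvA l s := by
  intro x hx F hF
  have hs' := ceil_tendsto hs hx
  have hN := nice_half hs' (fun G hG => by
    obtain ⟨z, hz⟩ := h1 G hG
    exact ⟨z, hz.comp hs'⟩)
  have hC : Cls l (fun i y => F (((⌈x * s i⌉₊ : ℝ) / s i) • y)) :=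
    (hF.cls (l := l)).scale (fun i => ratio_bd x hx (s i)) (ceil_ratio hs hx)
  obtain ⟨M, hM0, hM⟩ := hC.bd
  obtain ⟨z, hz⟩ := hN.cls hC
  refine ⟨z, hz.congr' ?_⟩
  filter_upwards [hs.eventually_ge_atTop 1, hs'.eventually_ge_atTop 1] with i h2 h3
  rw [vK_HH (hC.inv i) (hM i)]
  exact (HH_pq h2 h3 F _).symm

end

end Struct
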