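import Pool.Agent.Struct.T7

/-! STRUCT, T8: the equivalence for the test functions. -/

set_option autoImplicit false

namespace Struct

open Filter Topology Finset HexObs

variable {ι : Type} {l : Filter ι} {s : ι → ℕ}

lemma net_scale {P : Type} {v v' : P → ℝ} {A B : P → Prop} {iA : ∀ p, Decidable (A p)} {iB : ∀ p, Decidable (B p)}
    (h : ∀ p, A p → B p) {c m : ℝ} (hc : 0 ≤ c) (hv : ∀ p, 0 ≤ v p) (hv' : ∀ p, 0 ≤ v' p) (hle : ∀ p, v p ≤ c * v' p)
    (hs : Summable v') (hm : ∑' p, (if A p then 0 else v' p) ≤ m) : ∑' p, (if B p then 0 else v p) ≤ c * m := by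
  have hle2 : ∀ p, (if B p then 0 else v p) ≤ c * (if A p then 0 else v' p) := by
    intro p
    by_cases h5 : A p
    · rw [if_pos (h p h5), if_pos h5, mul_zero]
    · rw [if_neg h5]
      split_ifs
      · exact mul_nonneg hc (hv' p)
      · exact hle p
  have hsum : Summable fun p => (if A p then 0 else v' p) := by
    refine Summable.of_nonneg_of_le (fun p => ?_) (fun p => ?_) hs
    · split_ifs
      · exact le_rfl
      · exact hv' p
    · split_ifs
      · exact hv' p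
      · exact le_rfl
  have hsum2 : Summable fun p => (if B p then 0 else v p) := by
    refine Summable.of_nonneg_of_le (fun p => ?_) hle2 (hsum.mul_left _)
    split_ifs
    · exact le_rfl
    · exact hv p
  refine (hsum2.tsum_le_tsum hle2 (hsum.mul_left _)).trans ?_
  rw [tsum_mul_left]
  exact mul_le_mul_of_nonneg_left hm hc

/-- the excursions form a nice family if they converge -/
theorem nice_exc {a b : ℝ} (ha : 0 < a) (ha1 : a < 1) (hb : 0 < b)
    (hu : Tendsto (fun n : ℕ => (n : ℝ) ^ (1 - a) * uu n) atTop (𝓝 b)) (hs : Tendsto s l atTop) {x : ℝ} (hx : 0 < x)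
    (hc : ∀ F, Test F → ∃ z, Tendsto (fun i => ∑' p, ((s i : ℝ) ^ a * wb pw ph ⌈x * s i⌉₊ p) * F (pq (s i) p)) l (𝓝 z)) :
    Nice l (fun i p => (s i : ℝ) ^ a * wb pw ph ⌈x * s i⌉₊ p) (fun i => pq (s i)) where
  v0 := fun i p => mul_nonneg (by positivity) (wb_nonneg wtI _ p)
  vs := fun i => (wb_sum wtI _).summable.mul_left _
  mass := by
    obtain ⟨C, hC0, hC⟩ := KK_scale_le CutLim.ren_uu ha ha1 hb hu
    refine ⟨C * x ^ (-a), by positivity, fun i => ?_⟩
    rw [tsum_mul_left, (wb_sum wtI _).tsum_eq]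
    exact hC x (s i) hx
  net := fun η hη => by
    classical
    have hxa : 0 < x ^ a := Real.rpow_pos_of_pos hx a
    set η' : ℝ := min (η / (2 * (x + 1))) (η * x ^ a) with hη'
    have hη'0 : 0 < η' := by positivity
    obtain ⟨S, hS⟩ := net_exc ha ha1 hb hu hη'0
    refine ⟨S.image fun y => x • y, ?_⟩
    have hT := ceil_tendsto hs hx
    have h1 : ∀ᶠ i in l, ∀ y ∈ S, |(⌈x * s i⌉₊ : ℝ) / s i - x| * dist y 0 ≤ η / 2 := by
      rw [Filter.eventually_all_finset]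
      intro y _
      have h2 : Tendsto (fun i => |(⌈x * s i⌉₊ : ℝ) / s i - x| * dist y 0) l (𝓝 0) := by
        have h3 := ((ceil_ratio hs hx).sub_const x).abs
        rw [sub_self, abs_zero] at h3
        have h4 := h3.mul_const (dist y 0)
        rwa [zero_mul] at h4
      exact (h2.eventually (gt_mem_nhds (show (0 : ℝ) < η / 2 by positivity))).mono fun i hi => hi.le
    filter_upwards [h1, hs.eventually_ge_atTop 1, hT.eventually_ge_atTop 1] with i h2 h3 h4
    set N := s i with hN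
    set T := ⌈x * N⌉₊ with hTT
    have hNr : (0 : ℝ) < N := by exact_mod_cast h3
    have hTr : (0 : ℝ) < T := by exact_mod_cast h4
    have hc0 : 0 ≤ (T : ℝ) / N := by positivity
    have hcb := ratio_bd x hx N
    -- near points
    have hnear : ∀ p, (∃ y ∈ S, Near η' (pq T p) y) → ∃ y ∈ S.image fun y => x • y, Near η (pq N p) y := by
      rintro p ⟨y, hy, hn⟩
      refine ⟨x • y, mem_image_of_mem _ hy, ?_⟩
      rw [pq_smul h3 h4]
      have a1 := (hn.smul ((T : ℝ) / N)).move (dist_smul_smul ((T : ℝ) / N) x y)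
      refine a1.mono ?_
      have a2 := h2 y hy
      have a3 : |(T : ℝ) / N| * η' ≤ (x + 1) * (η / (2 * (x + 1))) :=
        mul_le_mul hcb (min_le_left _ _) hη'0.le (by positivity)
      have a4 : (x + 1) * (η / (2 * (x + 1))) = η / 2 := by
        field_simp
      linarith
    have hpow : (N : ℝ) ^ a * x ^ a ≤ (T : ℝ) ^ a := by
      rw [← Real.mul_rpow hNr.le hx.le]
      refine Real.rpow_le_rpow (by positivity) ?_ ha.le
      rw [mul_comm]
      exact Nat.le_ceil _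
    have hle : ∀ p, (N : ℝ) ^ a * wb pw ph T p ≤ (x ^ a)⁻¹ * ((T : ℝ) ^ a * wb pw ph T p) := by
      intro p
      have hw := wb_nonneg wtI T p
      rw [← mul_assoc]
      refine mul_le_mul_of_nonneg_right ?_ hw
      rw [← div_eq_inv_mul, le_div_iff₀ hxa]
      exact hpow
    have h7 := net_scale (B := fun p => ∃ y ∈ S.image fun y => x • y, Near η (pq N p) y) (iB := fun p => Classical.propDecidable _)
      hnear (show 0 ≤ (x ^ a)⁻¹ by positivity)
      (fun p => mul_nonneg (show 0 ≤ (N : ℝ) ^ a by positivity) (wb_nonneg wtI T p))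
      (fun p => mul_nonneg (show 0 ≤ (T : ℝ) ^ a by positivity) (wb_nonneg wtI T p)) hle
      ((wb_sum wtI T).summable.mul_left _) (hS T h4)
    have h8 : (x ^ a)⁻¹ * η' ≤ η := by
      rw [inv_mul_le_iff₀ hxa, mul_comm]
      exact min_le_right _ _
    refine le_trans (le_of_eq ?_) (h7.trans h8)
    refine tsum_congr fun p => ?_
    congr 1
  conv := hc

/-- two levels -/
lemma wb_diff (n n' : ℕ) {F : Cv → ℝ} {M : ℝ} (hF : Bd F M) (q : PI → Cv) :
    |∑' p, wb pw ph n p * F (q p) - ∑' p, wb pw ph n' p * F (q p)| ≤ M * |CutLim.KK kk n - CutLim.KK kk n'| := by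
  have key : ∀ n n' : ℕ, n' ≤ n → |∑' p, wb pw ph n p * F (q p) - ∑' p, wb pw ph n' p * F (q p)| ≤
      M * |CutLim.KK kk n - CutLim.KK kk n'| := by
    intro n n' hn
    have s1 : Summable fun p => wb pw ph n p * F (q p) := summable_mul (wb_nonneg wtI n) (wb_sum wtI n).summable fun p => hF _
    have s2 : Summable fun p => wb pw ph n' p * F (q p) := summable_mul (wb_nonneg wtI n') (wb_sum wtI n').summable fun p => hF _
    rw [abs_sub_comm, ← s2.tsum_sub s1]
    have hb' : ∀ p, ‖wb pw ph n' p * F (q p) - wb pw ph n p * F (q p)‖ ≤ M * (wb pw ph n' p - wb pw ph n p) := by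
      intro p
      have h1 : 0 ≤ wb pw ph n' p - wb pw ph n p := by
        rw [wb_sub hn]
        split_ifs
        · exact wtI.w0 p
        · exact le_rfl
      rw [← sub_mul, Real.norm_eq_abs, abs_mul, abs_of_nonneg h1, mul_comm]
      exact mul_le_mul_of_nonneg_right (hF _) h1
    have s3 : Summable fun p => M * (wb pw ph n' p - wb pw ph n p) := ((wb_sum wtI n').summable.sub (wb_sum wtI n).summable).mul_left M
    have s4 := Summable.of_nonneg_of_le (fun p => norm_nonneg _) hb' s3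
    rw [← Real.norm_eq_abs]
    refine (norm_tsum_le_tsum_norm s4).trans ((s4.tsum_le_tsum hb' s3).trans (le_of_eq ?_))
    rw [tsum_mul_left, (wb_sum wtI n').summable.tsum_sub (wb_sum wtI n).summable, (wb_sum wtI n').tsum_eq, (wb_sum wtI n).tsum_eq]
    have h2 : CutLim.KK kk n ≤ CutLim.KK kk n' := CutLim.KK_anti CutLim.ren_uu hn
    rw [abs_sub_comm, abs_of_nonneg (by linarith)]
  rcases le_total n' n with h | h
  · exact key n n' h
  · rw [abs_sub_comm, abs_sub_comm (CutLim.KK kk n)]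
    exact key n' n h

/-- from the full sequence at the level 1 -/
theorem ConvB.of_one {a b : ℝ} (ha : 0 < a) (ha1 : a < 1) (hb : 0 < b)
    (hu : Tendsto (fun n : ℕ => (n : ℝ) ^ (1 - a) * uu n) atTop (𝓝 b)) (hs : Tendsto s l atTop)
    (h1 : ∀ F, Test F → ∃ z, Tendsto (fun T : ℕ => ∑' p, ((T : ℝ) ^ a * wb pw ph T p) * F (pq T p)) atTop (𝓝 z)) :
    ConvB a l s := by
  intro x hx F hF
  have hs' := ceil_tendsto hs hx
  have hN := nice_exc ha ha1 hb hu hs' (x := 1) zero_lt_one (fun G hG => by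
    obtain ⟨z, hz⟩ := h1 G hG
    refine ⟨z, (hz.comp hs').congr fun i => ?_⟩
    show ∑' p, ((⌈x * s i⌉₊ : ℝ) ^ a * wb pw ph ⌈x * s i⌉₊ p) * G (pq ⌈x * s i⌉₊ p) = _
    rw [one_mul, Nat.ceil_natCast])
  have hC : Cls l (fun i y => F (((⌈x * s i⌉₊ : ℝ) / s i) • y)) :=
    (hF.cls (l := l)).scale (fun i => ratio_bd x hx (s i)) (ceil_ratio hs hx)
  obtain ⟨z, hz⟩ := hN.cls hC
  have hr : Tendsto (fun i => ((⌈x * s i⌉₊ : ℝ) / s i) ^ (-a)) l (𝓝 (x ^ (-a))) := (ceil_ratio hs hx).rpow_const (Or.inl hx.ne')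
  refine ⟨x ^ (-a) * z, (hr.mul hz).congr' ?_⟩
  filter_upwards [hs.eventually_ge_atTop 1, hs'.eventually_ge_atTop 1] with i h2 h3
  have h2' : (0 : ℝ) < s i := by exact_mod_cast h2
  have h3' : (0 : ℝ) < ⌈x * s i⌉₊ := by exact_mod_cast h3
  rw [← tsum_mul_left]
  refine tsum_congr fun p => ?_
  rw [one_mul, Nat.ceil_natCast, ← pq_smul h2 h3, Real.div_rpow h3'.le h2'.le, Real.rpow_neg h3'.le, Real.rpow_neg h2'.le]
  have := Real.rpow_pos_of_pos h3' a
  have := Real.rpow_pos_of_pos h2' a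
  field_simp

/-- (A) gives (B) -/
theorem ConvA.toB {a b : ℝ} (ha : 0 < a) (ha1 : a < 1) (hb : 0 < b)
    (hu : Tendsto (fun n : ℕ => (n : ℝ) ^ (1 - a) * uu n) atTop (𝓝 b)) (hs : Tendsto s l atTop) (hA : ConvA l s) :
    ConvB a l s := fun _ hx _ hF =>
  AB CutLim.ren_uu wtI ha ha1 hb hu ht_pq (momI ha ha1 hb hu) hs hA hx hF

/-- (B) gives (A) -/
theorem ConvB.toA {a b : ℝ} (ha : 0 < a) (ha1 : a < 1) (hb : 0 < b)
    (hu : Tendsto (fun n : ℕ => (n : ℝ) ^ (1 - a) * uu n) atTop (𝓝 b)) (hs : Tendsto s l atTop) (hB : ConvB a l s) :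
    ConvA l s := by
  intro x hx F hF
  have hs' := ceil_tendsto hs hx
  have hratio := ceil_ratio hs hx
  have hC : Cls l (fun i y => F (((⌈x * s i⌉₊ : ℝ) / s i) • y)) :=
    (hF.cls (l := l)).scale (fun i => ratio_bd x hx (s i)) hratio
  -- the excursions at the scale s'
  have hB' : ∀ y : ℝ, 0 < y → Nice l (fun i p => (⌈x * s i⌉₊ : ℝ) ^ a * wb pw ph ⌈y * (⌈x * s i⌉₊ : ℝ)⌉₊ p) (fun i => pq ⌈x * s i⌉₊) := by
    intro y hy
    refine nice_exc (s := fun i => ⌈x * s i⌉₊) ha ha1 hb hu hs' hy fun G hG => ?_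
    have hN := nice_exc ha ha1 hb hu hs (mul_pos hx hy) (hB (x * y) (mul_pos hx hy))
    -- scaled test functions
    have hinv : Tendsto (fun i => (s i : ℝ) / ⌈x * s i⌉₊) l (𝓝 x⁻¹) := by
      refine (hratio.inv₀ hx.ne').congr fun i => ?_
      rw [inv_div]
    have hbd : ∀ i, |(s i : ℝ) / ⌈x * s i⌉₊| ≤ x⁻¹ := by
      intro i
      rw [abs_of_nonneg (by positivity)]
      rcases Nat.eq_zero_or_pos (s i) with h0 | h0
      · rw [h0, Nat.cast_zero, zero_div]
        positivity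
      · have h0' : (0 : ℝ) < s i := by exact_mod_cast h0
        have h2 : x * s i ≤ (⌈x * s i⌉₊ : ℝ) := Nat.le_ceil _
        have h3 : (0 : ℝ) < ⌈x * s i⌉₊ := lt_of_lt_of_le (by positivity) h2
        rw [div_le_iff₀ h3, inv_mul_eq_div, le_div_iff₀ hx]
        linarith
    have hG' : Cls l (fun i z => G (((s i : ℝ) / ⌈x * s i⌉₊) • z)) := (hG.cls (l := l)).scale hbd hinv
    obtain ⟨z, hz⟩ := hN.cls hG'
    obtain ⟨M, hM0, hM⟩ := hG.bd
    -- the prefactor
    have hra : Tendsto (fun i => ((⌈x * s i⌉₊ : ℝ) / s i) ^ a) l (𝓝 (x ^ a)) := hratio.rpow_const (Or.inl hx.ne')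
    -- the difference of the levels
    have hk1 := KK_scale CutLim.ren_uu ha ha1 hb hu hs' hy
    have hk2 := KK_scale CutLim.ren_uu ha ha1 hb hu hs (mul_pos hx hy)
    have hdiff : Tendsto (fun i => M * |(⌈x * s i⌉₊ : ℝ) ^ a * CutLim.KK kk ⌈y * (⌈x * s i⌉₊ : ℝ)⌉₊ -
        ((⌈x * s i⌉₊ : ℝ) / s i) ^ a * ((s i : ℝ) ^ a * CutLim.KK kk ⌈x * y * s i⌉₊)|) l (𝓝 0) := by
      have h4 := ((hk1.sub (hra.mul hk2)).abs).const_mul M
      have h5 : 1 / (b * Real.Gamma a * Real.Gamma (1 - a)) * y ^ (-a) -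
          x ^ a * (1 / (b * Real.Gamma a * Real.Gamma (1 - a)) * (x * y) ^ (-a)) = 0 := by
        rw [Real.mul_rpow hx.le hy.le]
        have h6 : x ^ a * x ^ (-a) = 1 := by
          rw [← Real.rpow_add hx, add_neg_cancel, Real.rpow_zero]
        have h7 : x ^ a * (1 / (b * Real.Gamma a * Real.Gamma (1 - a)) * (x ^ (-a) * y ^ (-a))) =
            (x ^ a * x ^ (-a)) * (1 / (b * Real.Gamma a * Real.Gamma (1 - a)) * y ^ (-a)) := by ring
        rw [h7, h6]
        ring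
      rw [h5, abs_zero, mul_zero] at h4
      exact h4
    refine ⟨x ^ a * z, ?_⟩
    have hmain := hra.mul hz
    have hzero : Tendsto (fun i => ∑' p, ((⌈x * s i⌉₊ : ℝ) ^ a * wb pw ph ⌈y * (⌈x * s i⌉₊ : ℝ)⌉₊ p) * G (pq ⌈x * s i⌉₊ p) -
        ((⌈x * s i⌉₊ : ℝ) / s i) ^ a * ∑' p, ((s i : ℝ) ^ a * wb pw ph ⌈x * y * s i⌉₊ p) * G (((s i : ℝ) / ⌈x * s i⌉₊) • pq (s i) p)) l
        (𝓝 0) := by
      refine squeeze_zero_norm' ?_ hdiff
      filter_upwards [hs.eventually_ge_atTop 1, hs'.eventually_ge_atTop 1] with i h2 h3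
      have h2' : (0 : ℝ) < s i := by exact_mod_cast h2
      have h3' : (0 : ℝ) < ⌈x * s i⌉₊ := by exact_mod_cast h3
      have e1 : ∀ p, ((s i : ℝ) / ⌈x * s i⌉₊) • pq (s i) p = pq ⌈x * s i⌉₊ p := fun p => (pq_smul h3 h2 p).symm
      have hTa := Real.rpow_pos_of_pos h3' a
      have hNa := Real.rpow_pos_of_pos h2' a
      have e2 : ∑' p, ((⌈x * s i⌉₊ : ℝ) ^ a * wb pw ph ⌈y * (⌈x * s i⌉₊ : ℝ)⌉₊ p) * G (pq ⌈x * s i⌉₊ p) =
          (⌈x * s i⌉₊ : ℝ) ^ a * ∑' p, wb pw ph ⌈y * (⌈x * s i⌉₊ : ℝ)⌉₊ p * G (pq ⌈x * s i⌉₊ p) := by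
        rw [← tsum_mul_left]
        exact tsum_congr fun p => by ring
      have e3 : ((⌈x * s i⌉₊ : ℝ) / s i) ^ a * ∑' p, ((s i : ℝ) ^ a * wb pw ph ⌈x * y * s i⌉₊ p) * G (((s i : ℝ) / ⌈x * s i⌉₊) • pq (s i) p) =
          (⌈x * s i⌉₊ : ℝ) ^ a * ∑' p, wb pw ph ⌈x * y * s i⌉₊ p * G (pq ⌈x * s i⌉₊ p) := by
        rw [← tsum_mul_left, ← tsum_mul_left]
        refine tsum_congr fun p => ?_
        rw [e1, Real.div_rpow h3'.le h2'.le]
        field_simp
      rw [e2, e3, ← mul_sub, norm_mul, Real.norm_eq_abs, Real.norm_eq_abs, abs_of_pos hTa]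
      refine (mul_le_mul_of_nonneg_left (wb_diff _ _ hM (pq ⌈x * s i⌉₊)) hTa.le).trans (le_of_eq ?_)
      rw [Real.div_rpow h3'.le h2'.le]
      have e4 : (⌈x * s i⌉₊ : ℝ) ^ a / (s i : ℝ) ^ a * ((s i : ℝ) ^ a * CutLim.KK kk ⌈x * y * s i⌉₊) =
          (⌈x * s i⌉₊ : ℝ) ^ a * CutLim.KK kk ⌈x * y * s i⌉₊ := by
        field_simp
      rw [e4, ← mul_sub, abs_mul, abs_of_pos hTa]
      ring
    have := hzero.add hmain
    rw [zero_add] at this
    refine this.congr fun i => ?_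
    ring
  obtain ⟨z, hz⟩ := BA CutLim.ren_uu wtI ha ha1 hb hu ht_pq (momI ha ha1 hb hu) hs' hB' hC
  refine ⟨z, hz.congr' ?_⟩
  filter_upwards [hs.eventually_ge_atTop 1, hs'.eventually_ge_atTop 1] with i h2 h3
  exact (HH_pq h2 h3 F _).symm

end Struct
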