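import Pool.Agent.Struct.T8

/-! STRUCT, T9: from Lipschitz continuous to bounded continuous functions. -/

set_option autoImplicit false

namespace Struct

open Filter Topology Finset

/-- Lipschitz regularisation -/
noncomputable def reg (f : Cv → ℝ) (m : ℕ) (γ : Cv) : ℝ := ⨅ y : Cv, (f y + m * dist γ y)

section
variable {f : Cv → ℝ} {M : ℝ}

lemma reg_bdd (hM : Bd f M) (m : ℕ) (γ : Cv) : BddBelow (Set.range fun y : Cv => f y + m * dist γ y) := by
  refine ⟨-M, ?_⟩
  rintro _ ⟨y, rfl⟩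
  have h1 := (abs_le.1 (hM y)).1
  have h2 : 0 ≤ (m : ℝ) * dist γ y := by positivity
  show -M ≤ f y + m * dist γ y
  linarith

lemma reg_le (hM : Bd f M) (m : ℕ) (γ y : Cv) : reg f m γ ≤ f y + m * dist γ y := ciInf_le (reg_bdd hM m γ) y

lemma reg_le_self (hM : Bd f M) (m : ℕ) (γ : Cv) : reg f m γ ≤ f γ := by
  have h := reg_le hM m γ γ
  rwa [dist_self, mul_zero, add_zero] at h

lemma reg_ge (hM : Bd f M) (m : ℕ) (γ : Cv) : -M ≤ reg f m γ := by
  refine le_ciInf fun y => ?_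
  have h1 := (abs_le.1 (hM y)).1
  have h2 : 0 ≤ (m : ℝ) * dist γ y := by positivity
  linarith

lemma reg_bd (hM : Bd f M) (m : ℕ) : Bd (reg f m) M := fun γ =>
  abs_le.2 ⟨reg_ge hM m γ, (reg_le_self hM m γ).trans (abs_le.1 (hM γ)).2⟩

lemma reg_lip (hM : Bd f M) (m : ℕ) : Lp (reg f m) m := by
  have key : ∀ γ γ' : Cv, reg f m γ - reg f m γ' ≤ m * dist γ γ' := by
    intro γ γ'
    have h1 : reg f m γ - m * dist γ γ' ≤ reg f m γ' := by
      refine le_ciInf fun y => ?_
      have h2 := reg_le hM m γ y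
      have h3 : (m : ℝ) * dist γ y ≤ m * (dist γ γ' + dist γ' y) :=
        mul_le_mul_of_nonneg_left (dist_triangle _ _ _) (Nat.cast_nonneg m)
      linarith
    linarith
  intro γ γ'
  rw [abs_sub_le_iff]
  refine ⟨key γ γ', ?_⟩
  rw [dist_comm]
  exact key γ' γ

lemma reg_inv (hM : Bd f M) (hI : Inv f) (m : ℕ) : Inv (reg f m) := by
  have key : ∀ (γ : Cv) (ρ : Rep), reg f m (γ.comp ρ.f) ≤ reg f m γ := by
    intro γ ρ
    refine le_ciInf fun y => ?_
    have h1 := reg_le hM m (γ.comp ρ.f) (y.comp ρ.f)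
    rw [hI y ρ] at h1
    have h2 := mul_le_mul_of_nonneg_left (dist_comp_le γ y ρ.f) (Nat.cast_nonneg (α := ℝ) m)
    linarith
  have hc : Continuous (reg f m) := by
    have hl : LipschitzWith (m : NNReal) (reg f m) := LipschitzWith.of_dist_le_mul fun x y => by
      rw [Real.dist_eq]
      exact_mod_cast reg_lip hM m x y
    exact hl.continuous
  refine Inv.of_homeo hc fun γ r hr => le_antisymm (key γ (Rep.ofHomeo r hr)) ?_
  have hr' : Monotone r.symm := by
    intro x y hxy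
    by_contra h
    have h1 : r (r.symm y) ≤ r (r.symm x) := hr (le_of_not_ge h)
    rw [r.apply_symm_apply, r.apply_symm_apply] at h1
    have h2 := le_antisymm hxy h1
    rw [h2] at h
    exact h le_rfl
  have h2 := key (γ.comp (Rep.ofHomeo r hr).f) (Rep.ofHomeo r.symm hr')
  have e : (γ.comp (Rep.ofHomeo r hr).f).comp (Rep.ofHomeo r.symm hr').f = γ := by
    ext x
    show γ (r (r.symm x)) = γ x
    rw [r.apply_symm_apply]
  rw [e] at h2
  exact h2

lemma reg_test (hM0 : 0 ≤ M) (hM : Bd f M) (hI : Inv f) (m : ℕ) : Test (reg f m) :=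
  ⟨reg_inv hM hI m, ⟨M, hM0, reg_bd hM m⟩, m, Nat.cast_nonneg m, reg_lip hM m⟩

/-- uniform convergence on compact sets -/
lemma reg_unif (hM : Bd f M) (hc : Continuous f) {K : Set Cv} (hK : IsCompact K) {ε : ℝ} (hε : 0 < ε) :
    ∃ m : ℕ, ∀ γ ∈ K, f γ - ε ≤ reg f m γ := by
  have h1 := hK.uniformContinuousAt_of_continuousAt f (fun _ _ => hc.continuousAt) (Metric.dist_mem_uniformity hε)
  rw [Metric.mem_uniformity_dist] at h1
  obtain ⟨δ, hδ, h2⟩ := h1
  obtain ⟨m, hm⟩ := exists_nat_gt (2 * M / δ)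
  refine ⟨m, fun γ hγ => le_ciInf fun y => ?_⟩
  rcases lt_or_ge (dist γ y) δ with h3 | h3
  · have h4 : dist (f γ) (f y) < ε := h2 h3 hγ
    rw [Real.dist_eq, abs_lt] at h4
    have h5 : 0 ≤ (m : ℝ) * dist γ y := by positivity
    linarith [h4.2]
  · have h4 : 2 * M ≤ m * dist γ y := by
      rw [div_lt_iff₀ hδ] at hm
      have : (m : ℝ) * δ ≤ m * dist γ y := mul_le_mul_of_nonneg_left h3 (Nat.cast_nonneg m)
      linarith
    have h5 := (abs_le.1 (hM γ)).2
    have h6 := (abs_le.1 (hM y)).1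
    linarith

end

open Classical in
/-- convergence for the bounded continuous functions -/
theorem cont_of_test {ι P : Type} {l : Filter ι} {v : ι → P → ℝ} {x : ι → P → Cv} (v0 : ∀ i p, 0 ≤ v i p)
    (vs : ∀ i, Summable (v i)) {M₀ : ℝ} (hm0 : 0 ≤ M₀) (mass : ∀ i, ∑' p, v i p ≤ M₀)
    (tight : ∀ ε : ℝ, 0 < ε → ∃ K : Set Cv, IsCompact K ∧ ∀ᶠ i in l, ∑' p, (if ∃ ρ : Rep, (x i p).comp ρ.f ∈ K then 0 else v i p) ≤ ε)
    (conv : ∀ F, Test F → ∃ a, Tendsto (fun i => ∑' p, v i p * F (x i p)) l (𝓝 a)) {f : Cv → ℝ} {M : ℝ} (hM0 : 0 ≤ M)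
    (hM : Bd f M) (hI : Inv f) (hc : Continuous f) : ∃ a, Tendsto (fun i => ∑' p, v i p * f (x i p)) l (𝓝 a) := by
  refine conv_approx fun δ hδ => ?_
  set ε : ℝ := δ / (4 * (M + 1)) with hε
  have hε0 : 0 < ε := by positivity
  obtain ⟨K, hK, hKt⟩ := tight ε hε0
  set ε' : ℝ := δ / (2 * (M₀ + 1)) with hε'
  have hε'0 : 0 < ε' := by positivity
  obtain ⟨m, hm⟩ := reg_unif hM hc hK hε'0
  refine ⟨_, conv (reg f m) (reg_test hM0 hM hI m), ?_⟩
  filter_upwards [hKt] with i hi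
  have s1 : Summable fun p => v i p * f (x i p) := summable_mul (v0 i) (vs i) fun p => hM _
  have s2 : Summable fun p => v i p * reg f m (x i p) := summable_mul (v0 i) (vs i) fun p => reg_bd hM m _
  rw [← s1.tsum_sub s2]
  have hb : ∀ p, ‖v i p * f (x i p) - v i p * reg f m (x i p)‖ ≤
      ε' * v i p + 2 * M * (if ∃ ρ : Rep, (x i p).comp ρ.f ∈ K then 0 else v i p) := by
    intro p
    have h0 := v0 i p
    rw [← mul_sub, Real.norm_eq_abs, abs_mul, abs_of_nonneg h0, mul_comm]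
    by_cases h1 : ∃ ρ : Rep, (x i p).comp ρ.f ∈ K
    · rw [if_pos h1, mul_zero, add_zero]
      refine mul_le_mul_of_nonneg_right ?_ h0
      obtain ⟨ρ, hρ⟩ := h1
      have h2 := hm _ hρ
      rw [hI _ ρ, reg_inv hM hI m _ ρ] at h2
      have h3 := reg_le_self hM m (x i p)
      rw [abs_of_nonneg (by linarith)]
      linarith
    · rw [if_neg h1]
      have h2 : |f (x i p) - reg f m (x i p)| ≤ 2 * M := by
        refine (abs_sub _ _).trans ?_
        have a1 := hM (x i p)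
        have a2 := reg_bd hM m (x i p)
        linarith
      have := mul_le_mul_of_nonneg_right h2 h0
      have : 0 ≤ ε' * v i p := by positivity
      linarith
  have s3 : Summable fun p => (if ∃ ρ : Rep, (x i p).comp ρ.f ∈ K then 0 else v i p) := by
    refine Summable.of_nonneg_of_le (fun p => ?_) (fun p => ?_) (vs i)
    · split_ifs
      · exact le_rfl
      · exact v0 i p
    · split_ifs
      · exact v0 i p
      · exact le_rfl
  have s4 := ((vs i).mul_left ε').add (s3.mul_left (2 * M))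
  have s5 := Summable.of_nonneg_of_le (fun p => norm_nonneg _) hb s4
  rw [← Real.norm_eq_abs]
  refine (norm_tsum_le_tsum_norm s5).trans ((s5.tsum_le_tsum hb s4).trans ?_)
  rw [((vs i).mul_left ε').tsum_add (s3.mul_left (2 * M)), tsum_mul_left, tsum_mul_left]
  have a1 : ε' * ∑' p, v i p ≤ ε' * M₀ := mul_le_mul_of_nonneg_left (mass i) hε'0.le
  have a2 : 2 * M * ∑' p, (if ∃ ρ : Rep, (x i p).comp ρ.f ∈ K then 0 else v i p) ≤ 2 * M * ε :=
    mul_le_mul_of_nonneg_left hi (by positivity)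
  have a3 : ε' * M₀ ≤ δ / 2 := by
    rw [hε', div_mul_eq_mul_div, div_le_iff₀ (by positivity)]
    nlinarith
  have a4 : 2 * M * ε ≤ δ / 2 := by
    rw [hε, mul_div_assoc', div_le_iff₀ (by positivity)]
    nlinarith
  linarith

end Struct
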